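import Pool.Agent.Lib.MP_ab0b07_gt.RD

/-!
# The signature of the form under the elementary moves (2)

`sg_slideCup`, `sg_slideCap`, `sg_comm` follow from `RD.sgeq` with `k = 0`; for `sg_comm` the
isomorphism `T` exchanges the first two labels.  In `sg_r3` for even `p` the right hand side has
one more variable `b` (the label of the triangle), and its form is
`κ ((g2 - b)^2 ...)`: with `g0, g2` the labels of the gaps `p, p + 2` and `b2` the last label, the
right hand side minus the left hand side is `- κ (b - (g2 + b2 - g0)) ^ 2` (`k = 1`,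
`c = ![-κ]`); for odd `p` the left hand side has one more variable, `c = ![κ]`.
-/

namespace MPab0b07

private theorem mv2_mem (p : ℕ) (e : El ℚ) (w : List (ℕ × El ℚ)) (x : P ℚ) :
    x ∈ adm ((p, e) :: w) ↔ x ∈ e.cond p ∧ e.stp p x ∈ adm w := Iff.rfl

private theorem mv2_frm (p : ℕ) (e : El ℚ) (w : List (ℕ × El ℚ)) (x : P ℚ) :
    frm ((p, e) :: w) x x = e.loc p x x + frm w (e.stp p x) (e.stp p x) := rfl

private theorem mv2_condx (p : ℕ) (κ : ℚ) (g ys : ℕ → ℚ) :
    (g, ys) ∈ (El.x κ).cond p ↔ (Even p → ys 0 = 0) := by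
  unfold El.cond
  by_cases h : Even p
  · simp [h, nw]
  · simp [h]

private theorem mv2_condcup (p : ℕ) (g ys : ℕ → ℚ) :
    (g, ys) ∈ (El.cup : El ℚ).cond p ↔ (Even p → ys 0 = 0) := by
  unfold El.cond
  by_cases h : Even p
  · simp [h, nw]
  · simp [h]

private theorem mv2_condcap (p : ℕ) (g ys : ℕ → ℚ) :
    (g, ys) ∈ (El.cap : El ℚ).cond p ↔ (ys 0 = 0 ∧ g p = g (p + 2)) := by
  unfold El.cond
  simp [nw, gl, sub_eq_zero]

private theorem mv2_locx (p : ℕ) (κ : ℚ) (g ys : ℕ → ℚ) :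
    (El.x κ).loc p (g, ys) (g, ys) =
      κ * (if Even p then (g p - g (p + 2)) ^ 2 else (g (p + 1) - ys 0) ^ 2) := by
  unfold El.loc
  by_cases h : Even p
  · rw [if_pos h, if_pos h]
    show κ * ((g p - g (p + 2)) * (g p - g (p + 2))) = _
    ring
  · rw [if_neg h, if_neg h]
    show κ * ((g (p + 1) - ys 0) * (g (p + 1) - ys 0)) = _
    ring

private theorem mv2_loccup (p : ℕ) (x : P ℚ) : (El.cup : El ℚ).loc p x x = 0 := by
  simp [El.loc]

private theorem mv2_loccap (p : ℕ) (x : P ℚ) : (El.cap : El ℚ).loc p x x = 0 := by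
  simp [El.loc]

private theorem mv2_stpx (p : ℕ) (κ : ℚ) (g ys : ℕ → ℚ) :
    (El.x κ).stp p (g, ys) = (gap 2 2 p (ys 0) g, fun n => ys (n + 1)) := rfl

private theorem mv2_stpcup (p : ℕ) (g ys : ℕ → ℚ) :
    (El.cup : El ℚ).stp p (g, ys) = (gap 0 2 p (ys 0) g, fun n => ys (n + 1)) := rfl

private theorem mv2_stpcap (p : ℕ) (g ys : ℕ → ℚ) :
    (El.cap : El ℚ).stp p (g, ys) = (gap 2 0 p (ys 0) g, fun n => ys (n + 1)) := rfl

/-- three crossings: the labellings -/
private theorem mv2_mem3 (a b c : ℕ) (k l m : ℚ) (v : List (ℕ × El ℚ)) (g ys : ℕ → ℚ) :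
    (g, ys) ∈ adm ((a, El.x k) :: (b, El.x l) :: (c, El.x m) :: v) ↔
      (Even a → ys 0 = 0) ∧ (Even b → ys 1 = 0) ∧ (Even c → ys 2 = 0) ∧
        (gap 2 2 c (ys 2) (gap 2 2 b (ys 1) (gap 2 2 a (ys 0) g)), fun n => ys (n + 3)) ∈
          adm v := by
  rw [mv2_mem, mv2_condx, mv2_stpx, mv2_mem, mv2_condx, mv2_stpx, mv2_mem, mv2_condx, mv2_stpx]

/-- three crossings: the form -/
private theorem mv2_frm3 (a b c : ℕ) (k l m : ℚ) (v : List (ℕ × El ℚ)) (g ys : ℕ → ℚ) :
    frm ((a, El.x k) :: (b, El.x l) :: (c, El.x m) :: v) (g, ys) (g, ys) =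
      k * (if Even a then (g a - g (a + 2)) ^ 2 else (g (a + 1) - ys 0) ^ 2) +
      (l * (if Even b then (gap 2 2 a (ys 0) g b - gap 2 2 a (ys 0) g (b + 2)) ^ 2
        else (gap 2 2 a (ys 0) g (b + 1) - ys 1) ^ 2) +
      (m * (if Even c then (gap 2 2 b (ys 1) (gap 2 2 a (ys 0) g) c -
          gap 2 2 b (ys 1) (gap 2 2 a (ys 0) g) (c + 2)) ^ 2
        else (gap 2 2 b (ys 1) (gap 2 2 a (ys 0) g) (c + 1) - ys 2) ^ 2) +
      frm v (gap 2 2 c (ys 2) (gap 2 2 b (ys 1) (gap 2 2 a (ys 0) g)), fun n => ys (n + 3))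
        (gap 2 2 c (ys 2) (gap 2 2 b (ys 1) (gap 2 2 a (ys 0) g)), fun n => ys (n + 3)))) := by
  rw [mv2_frm, mv2_locx, mv2_stpx, mv2_frm, mv2_locx, mv2_stpx, mv2_frm, mv2_locx, mv2_stpx]

/-- the new labels -/
private def mv2_T (i j : ℕ) (x : P ℚ × (Fin 1 → ℚ)) : ℕ → ℚ :=
  cns (x.2 0 + (x.1.1 i + x.1.2 1 - x.1.1 j)) (cns (x.1.2 0) (cns (x.1.2 1)
    (fun n => x.1.2 (n + 3))))

private def mv2_S (i j : ℕ) (x : P ℚ) : (ℕ → ℚ) × (Fin 1 → ℚ) :=
  (cns (x.2 1) (cns (x.2 2) (cns 0 (fun n => x.2 (n + 3)))),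
    fun _ => x.2 0 - (x.1 i + x.2 2 - x.1 j))

private theorem mv2_linT (i j : ℕ) : IsLinearMap ℚ (mv2_T i j) := by
  constructor
  · intro x y
    funext n
    rcases n with _ | _ | _ | n <;> simp [mv2_T] <;> ring
  · intro r x
    funext n
    rcases n with _ | _ | _ | n <;> simp [mv2_T] <;> ring

private theorem mv2_linS (i j : ℕ) : IsLinearMap ℚ (mv2_S i j) := by
  constructor
  · intro x y
    refine Prod.ext ?_ ?_
    · funext n
      rcases n with _ | _ | _ | n <;> simp [mv2_S]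
    · funext n
      simp [mv2_S]
      ring
  · intro r x
    refine Prod.ext ?_ ?_
    · funext n
      rcases n with _ | _ | _ | n <;> simp [mv2_S]
    · funext n
      simp [mv2_S]
      ring

private theorem mv2_gap22 (p : ℕ) (y : ℚ) (g : ℕ → ℚ) (j : ℕ) :
    gap 2 2 p y g j = if j = p + 1 then y else g j := by
  unfold gap
  split_ifs <;> first | rfl | omega

/-- the labels above the triangle -/
private theorem mv2_key (a b : ℕ) (h : b = a + 1 ∨ a = b + 1) (z0 z2 : ℚ) (g : ℕ → ℚ) :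
    gap 2 2 b z2 (gap 2 2 a 0 (gap 2 2 b z0 g)) =
      gap 2 2 a 0 (gap 2 2 b z2 (gap 2 2 a 0 g)) := by
  funext n
  simp only [mv2_gap22]
  split_ifs <;> first | rfl | omega

/-- the general form of `sg_r3` : `w` is the side without, `w'` the side with the additional
variable -/
private theorem mv2_r3 (a b i j : ℕ) (κ : ℚ) (v : List (ℕ × El ℚ)) (ha : Even a) (hb : ¬ Even b)
    (h : (b = a + 1 ∧ i = a + 2 ∧ j = a) ∨ (a = b + 1 ∧ i = b + 1 ∧ j = b + 3)) :
    RD ((a, El.x κ) :: (b, El.x (-κ)) :: (a, El.x κ) :: v)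
      ((b, El.x (-κ)) :: (a, El.x κ) :: (b, El.x (-κ)) :: v) ![-κ] (mv2_T i j) (mv2_S i j) := by
  have hab : b = a + 1 ∨ a = b + 1 := h.imp (fun h => h.1) (fun h => h.1)
  refine ⟨mv2_linT i j, mv2_linS i j, ?_, ?_, ?_, ?_, ?_⟩
  · intro g ys t _ hm
    rw [mv2_mem3] at hm
    obtain ⟨h0, -, h2, hm⟩ := hm
    have h0 := h0 ha
    have h2 := h2 ha
    rw [mv2_mem3]
    refine ⟨fun hb' => absurd hb' hb, fun _ => h0, fun hb' => absurd hb' hb, ?_⟩
    have e : gap 2 2 b (mv2_T i j ((g, ys), t) 2) (gap 2 2 a (mv2_T i j ((g, ys), t) 1)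
        (gap 2 2 b (mv2_T i j ((g, ys), t) 0) g)) =
        gap 2 2 a (ys 2) (gap 2 2 b (ys 1) (gap 2 2 a (ys 0) g)) := by
      simp only [mv2_T, cns_zero, cns_succ, h0, h2]
      exact mv2_key a b hab _ _ g
    rw [e]
    exact hm
  · intro g ys t _ hm
    rw [mv2_mem3] at hm
    obtain ⟨h0, -, h2, hm⟩ := hm
    have h0 := h0 ha
    have h2 := h2 ha
    have e : gap 2 2 b (mv2_T i j ((g, ys), t) 2) (gap 2 2 a (mv2_T i j ((g, ys), t) 1)
        (gap 2 2 b (mv2_T i j ((g, ys), t) 0) g)) =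
        gap 2 2 a (ys 2) (gap 2 2 b (ys 1) (gap 2 2 a (ys 0) g)) := by
      simp only [mv2_T, cns_zero, cns_succ, h0, h2]
      exact mv2_key a b hab _ _ g
    rw [mv2_frm3, mv2_frm3, e]
    have e2 : (fun n => mv2_T i j ((g, ys), t) (n + 3)) = fun n => ys (n + 3) := rfl
    rw [e2]
    have z0 : mv2_T i j ((g, ys), t) 0 = t 0 + (g i + ys 1 - g j) := rfl
    have z1 : mv2_T i j ((g, ys), t) 1 = 0 := h0
    have z2 : mv2_T i j ((g, ys), t) 2 = ys 1 := rfl
    simp only [if_pos ha, if_neg hb, z0, z1, z2, h0, h2, mv2_gap22]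
    have es : ∑ i : Fin 1, (![-κ] : Fin 1 → ℚ) i * t i ^ 2 = -κ * t 0 ^ 2 := by
      simp
    rw [es]
    rcases h with ⟨rfl, rfl, rfl⟩ | ⟨rfl, rfl, rfl⟩
    · have c1 : ¬ (j + 1 + 1 = j + 1) := by omega
      have c2 : ¬ (j = j + 1 + 1) := by omega
      have c3 : ¬ (j = j + 1) := by omega
      have c4 : j + 2 = j + 1 + 1 := by omega
      simp only [c1, c2, c3, c4, if_true, if_false]
      ring
    · have c1 : ¬ (b + 1 = b + 1 + 1) := by omega
      have c2 : ¬ (b + 1 + 2 = b + 1 + 1) := by omega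
      have c3 : ¬ (b + 1 + 2 = b + 1) := by omega
      have c4 : b + 1 + 2 = b + 3 := by omega
      simp only [c1, c2, c3, if_true, if_false]
      rw [c4]
      ring
  · intro g ys t _ hm
    rw [mv2_mem3] at hm
    obtain ⟨h0, -, h2, hm⟩ := hm
    have h2 := h2 ha
    refine Prod.ext ?_ ?_
    · funext n
      rcases n with _ | _ | _ | n
      · rfl
      · rfl
      · exact h2.symm
      · rfl
    · funext n
      have : n = 0 := Subsingleton.elim _ _
      subst this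
      show (t 0 + (g i + ys 1 - g j)) - (g i + ys 1 - g j) = t 0
      ring
  · intro g ys _ hm
    rw [mv2_mem3] at hm
    obtain ⟨-, h1, -, hm⟩ := hm
    have h1 := h1 ha
    rw [mv2_mem3]
    refine ⟨fun _ => h1, fun hb' => absurd hb' hb, fun _ => rfl, ?_⟩
    have e : gap 2 2 a ((mv2_S i j (g, ys)).1 2) (gap 2 2 b ((mv2_S i j (g, ys)).1 1)
        (gap 2 2 a ((mv2_S i j (g, ys)).1 0) g)) =
        gap 2 2 b (ys 2) (gap 2 2 a (ys 1) (gap 2 2 b (ys 0) g)) := by
      simp only [mv2_S, cns_zero, cns_succ, h1]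
      exact (mv2_key a b hab _ _ g).symm
    rw [e]
    exact hm
  · intro g ys _ hm
    funext n
    rcases n with _ | _ | _ | n
    · show (ys 0 - (g i + ys 2 - g j)) + (g i + ys 2 - g j) = ys 0
      ring
    · rfl
    · rfl
    · rfl

theorem sg_r3 (p : ℕ) (κ : ℚ) (hκ : κ ^ 2 = 1) (v : List (ℕ × El ℚ)) :
    SGeq ((p, El.x κ) :: (p + 1, El.x (-κ)) :: (p, El.x κ) :: v)
      ((p + 1, El.x (-κ)) :: (p, El.x κ) :: (p + 1, El.x (-κ)) :: v)
      (SignType.sign κ : ℤ) := by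
  by_cases hp : Even p
  · have hb : ¬ Even (p + 1) := by
      rw [Nat.even_add_one]
      exact not_not.2 hp
    have h := (mv2_r3 p (p + 1) (p + 2) p κ v hp hb (Or.inl ⟨rfl, rfl, rfl⟩)).sgeq.symm
    have e : -∑ i : Fin 1, ((SignType.sign ((![-κ] : Fin 1 → ℚ) i) : SignType) : ℤ) =
        (SignType.sign κ : ℤ) := by
      simp [Left.sign_neg]
    rw [e] at h
    exact h
  · have ha : Even (p + 1) := by
      rw [Nat.even_add_one]
      exact hp
    have h := (mv2_r3 (p + 1) p (p + 1) (p + 3) (-κ) v ha hp (Or.inr ⟨rfl, rfl, rfl⟩)).sgeq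
    have e : ∑ i : Fin 1, ((SignType.sign ((![-(-κ)] : Fin 1 → ℚ) i) : SignType) : ℤ) =
        (SignType.sign κ : ℤ) := by
      simp
    rw [e, neg_neg] at h
    exact h

private theorem mv2_gap02 (p : ℕ) (y : ℚ) (g : ℕ → ℚ) (j : ℕ) :
    gap 0 2 p y g j = if j ≤ p then g j else if j = p + 1 then y else g (j - 2) := by
  unfold gap
  split_ifs <;> first | rfl | omega

private theorem mv2_gap20 (p : ℕ) (y : ℚ) (g : ℕ → ℚ) (j : ℕ) :
    gap 2 0 p y g j = if j ≤ p then g j else g (j + 2) := by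
  unfold gap
  split_ifs <;> first | rfl | omega

/-- exchange the first two labels -/
private def mv2_sw (ys : ℕ → ℚ) : ℕ → ℚ := cns (ys 1) (cns (ys 0) (fun n => ys (n + 2)))

private theorem mv2_sw_sw (ys : ℕ → ℚ) : mv2_sw (mv2_sw ys) = ys := by
  funext n
  rcases n with _ | _ | n <;> rfl

theorem sg_slideCup (p : ℕ) (κ : ℚ) (v : List (ℕ × El ℚ)) :
    SGeq ((p, El.cup) :: (p + 1, El.x κ) :: v) ((p + 1, El.cup) :: (p, El.x κ) :: v) 0 := by
  have hk : ∀ (g : ℕ → ℚ) (a b : ℚ), gap 2 2 (p + 1) b (gap 0 2 p a g) =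
      gap 2 2 p a (gap 0 2 (p + 1) b g) := by
    intro g a b
    funext n
    simp only [mv2_gap22, mv2_gap02]
    split_ifs <;> first | rfl | omega
  have hodd : Even (p + 1) ↔ ¬ Even p := Nat.even_add_one
  have h : RD ((p + 1, El.cup) :: (p, El.x κ) :: v) ((p, El.cup) :: (p + 1, El.x κ) :: v)
      (![] : Fin 0 → ℚ) (fun x => mv2_sw x.1.2) (fun x => (mv2_sw x.2, ![])) := by
    have hmem : ∀ g ys : ℕ → ℚ, (g, ys) ∈ adm ((p + 1, El.cup) :: (p, El.x κ) :: v) ↔
        (g, mv2_sw ys) ∈ adm ((p, El.cup) :: (p + 1, El.x κ) :: v) := by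
      intro g ys
      rw [mv2_mem, mv2_condcup, mv2_stpcup, mv2_mem, mv2_condx, mv2_stpx, mv2_mem, mv2_condcup,
        mv2_stpcup, mv2_mem, mv2_condx, mv2_stpx]
      have e1 : mv2_sw ys 0 = ys 1 := rfl
      have e2 : mv2_sw ys (0 + 1) = ys 0 := rfl
      have e3 : (fun n => mv2_sw ys (n + 1 + 1)) = fun n => ys (n + 1 + 1) := rfl
      rw [e1, e2, e3, hk]
      tauto
    refine ⟨⟨?_, ?_⟩, ⟨?_, ?_⟩, ?_, ?_, ?_, ?_, ?_⟩
    · intro x y
      funext n
      rcases n with _ | _ | n <;> rfl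
    · intro r x
      funext n
      rcases n with _ | _ | n <;> rfl
    · intro x y
      refine Prod.ext ?_ (Subsingleton.elim _ _)
      funext n
      rcases n with _ | _ | n <;> rfl
    · intro r x
      refine Prod.ext ?_ (Subsingleton.elim _ _)
      funext n
      rcases n with _ | _ | n <;> rfl
    · intro g ys t _ hm
      exact (hmem g ys).1 hm
    · intro g ys t _ hm
      show frm ((p, El.cup) :: (p + 1, El.x κ) :: v) (g, mv2_sw ys) (g, mv2_sw ys) = _
      rw [mv2_frm, mv2_loccup, mv2_stpcup, mv2_frm, mv2_locx, mv2_stpx, mv2_frm, mv2_loccup,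
        mv2_stpcup, mv2_frm, mv2_locx, mv2_stpx]
      have e1 : mv2_sw ys 0 = ys 1 := rfl
      have e2 : mv2_sw ys (0 + 1) = ys 0 := rfl
      have e3 : (fun n => mv2_sw ys (n + 1 + 1)) = fun n => ys (n + 1 + 1) := rfl
      rw [e1, e2, e3, hk]
      simp only [Finset.univ_eq_empty, Finset.sum_empty, mv2_gap02]
      by_cases hp : Even p
      · have hp' : ¬ Even (p + 1) := by rw [hodd]; exact not_not.2 hp
        rw [if_pos hp, if_neg hp', if_neg (by omega : ¬ p + 1 + 1 ≤ p),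
          if_neg (by omega : ¬ p + 1 + 1 = p + 1), if_pos (by omega : p ≤ p + 1),
          if_neg (by omega : ¬ p + 2 ≤ p + 1), if_pos trivial,
          (by omega : p + 1 + 1 - 2 = p)]
        ring
      · have hp' : Even (p + 1) := hodd.2 hp
        rw [if_neg hp, if_pos hp', if_neg (by omega : ¬ p + 1 ≤ p), if_pos trivial,
          if_neg (by omega : ¬ p + 1 + 2 ≤ p), if_neg (by omega : ¬ p + 1 + 2 = p + 1),
          if_pos le_rfl, (by omega : p + 1 + 2 - 2 = p + 1)]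
        ring
    · intro g ys t _ hm
      exact Prod.ext (mv2_sw_sw ys) (Subsingleton.elim _ _)
    · intro g ys _ hm
      show (g, mv2_sw ys) ∈ _
      rw [hmem, mv2_sw_sw]
      exact hm
    · intro g ys _ hm
      exact mv2_sw_sw ys
  have := h.sgeq
  simpa using this

theorem sg_slideCap (p : ℕ) (κ : ℚ) (v : List (ℕ × El ℚ)) :
    SGeq ((p + 1, El.x κ) :: (p, El.cap) :: v) ((p, El.x κ) :: (p + 1, El.cap) :: v) 0 := by
  have hodd : Even (p + 1) ↔ ¬ Even p := Nat.even_add_one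
  have hk : ∀ (g : ℕ → ℚ) (a b c d : ℚ), a = g (p + 3) →
      gap 2 0 (p + 1) b (gap 2 2 p a g) = gap 2 0 p d (gap 2 2 (p + 1) c g) := by
    intro g a b c d ha
    funext n
    simp only [mv2_gap22, mv2_gap20]
    split_ifs with h1 h2 h3 h4 h5 h6
    all_goals first
      | rfl
      | omega
      | (have hn : n = p + 1 := by omega
         subst hn
         exact ha)
  have h : RD ((p, El.x κ) :: (p + 1, El.cap) :: v) ((p + 1, El.x κ) :: (p, El.cap) :: v)
      (![] : Fin 0 → ℚ) (fun x => cns (x.1.1 p) (fun n => x.1.2 (n + 1)))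
      (fun x => (cns (x.1 (p + 3)) (fun n => x.2 (n + 1)), ![])) := by
    have hm1 : ∀ g ys : ℕ → ℚ, (g, ys) ∈ adm ((p, El.x κ) :: (p + 1, El.cap) :: v) ↔
        (Even p → ys 0 = 0) ∧ (ys 1 = 0 ∧ ys 0 = g (p + 3)) ∧
          (gap 2 0 (p + 1) (ys 1) (gap 2 2 p (ys 0) g), fun n => ys (n + 2)) ∈ adm v := by
      intro g ys
      rw [mv2_mem, mv2_condx, mv2_stpx, mv2_mem, mv2_condcap, mv2_stpcap, mv2_gap22, mv2_gap22,
        if_pos rfl, if_neg (by omega : ¬ p + 1 + 2 = p + 1)]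
    have hm2 : ∀ g ys : ℕ → ℚ, (g, ys) ∈ adm ((p + 1, El.x κ) :: (p, El.cap) :: v) ↔
        (Even (p + 1) → ys 0 = 0) ∧ (ys 1 = 0 ∧ g p = ys 0) ∧
          (gap 2 0 p (ys 1) (gap 2 2 (p + 1) (ys 0) g), fun n => ys (n + 2)) ∈ adm v := by
      intro g ys
      rw [mv2_mem, mv2_condx, mv2_stpx, mv2_mem, mv2_condcap, mv2_stpcap, mv2_gap22, mv2_gap22,
        if_neg (by omega : ¬ p = p + 1 + 1), if_pos (by omega : p + 2 = p + 1 + 1)]
    refine ⟨⟨?_, ?_⟩, ⟨?_, ?_⟩, ?_, ?_, ?_, ?_, ?_⟩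
    · intro x y
      funext n
      rcases n with _ | n <;> rfl
    · intro r x
      funext n
      rcases n with _ | n <;> rfl
    · intro x y
      refine Prod.ext ?_ (Subsingleton.elim _ _)
      funext n
      rcases n with _ | n <;> rfl
    · intro r x
      refine Prod.ext ?_ (Subsingleton.elim _ _)
      funext n
      rcases n with _ | n <;> rfl
    · intro g ys t hg hm
      rw [hm1] at hm
      obtain ⟨-, ⟨h1, h2⟩, hm⟩ := hm
      rw [hm2]
      refine ⟨fun hp => hg p ((hodd.1 hp)), ⟨h1, rfl⟩, ?_⟩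
      rw [hk g (ys 0) (ys 1) (g p) (ys 1) h2] at hm
      exact hm
    · intro g ys t hg hm
      have hm' := (hm1 g ys).1 hm
      obtain ⟨-, ⟨h1, h2⟩, -⟩ := hm'
      show frm ((p + 1, El.x κ) :: (p, El.cap) :: v)
        (g, cns (g p) (fun n => ys (n + 1))) (g, cns (g p) (fun n => ys (n + 1))) = _
      rw [mv2_frm, mv2_locx, mv2_stpx, mv2_frm, mv2_loccap, mv2_stpcap, mv2_frm, mv2_locx,
        mv2_stpx, mv2_frm, mv2_loccap, mv2_stpcap, hk g (ys 0) (ys (0 + 1)) (g p) (ys 1) h2]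
      simp only [Finset.univ_eq_empty, Finset.sum_empty, cns_zero, cns_succ]
      by_cases hp : Even p
      · have hp' : ¬ Even (p + 1) := by rw [hodd]; exact not_not.2 hp
        rw [if_pos hp, if_neg hp']
        ring
      · have hp' : Even (p + 1) := hodd.2 hp
        rw [if_neg hp, if_pos hp', h2]
        ring
    · intro g ys t _ hm
      rw [hm1] at hm
      obtain ⟨-, ⟨h1, h2⟩, hm⟩ := hm
      refine Prod.ext ?_ (Subsingleton.elim _ _)
      funext n
      rcases n with _ | n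
      · exact h2.symm
      · rfl
    · intro g ys hg hm
      rw [hm2] at hm
      obtain ⟨-, ⟨h1, h2⟩, hm⟩ := hm
      rw [hm1]
      refine ⟨fun hp => hg (p + 3) ?_, ⟨h1, rfl⟩, ?_⟩
      · rw [Nat.even_add_one, Nat.even_add_one, Nat.even_add_one]
        tauto
      · show (gap 2 0 (p + 1) (ys 1) (gap 2 2 p (g (p + 3)) g), fun n => ys (n + 2)) ∈ adm v
        rw [hk g (g (p + 3)) (ys 1) (ys 0) (ys 1) rfl]
        exact hm
    · intro g ys hg hm
      rw [hm2] at hm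
      obtain ⟨-, ⟨h1, h2⟩, hm⟩ := hm
      funext n
      rcases n with _ | n
      · exact h2
      · rfl
  have := h.sgeq
  simpa using this

end MPab0b07
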