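import Pool.Agent.Lib.MP_ab0b07_gt.RD

/-!
# The signature of the form under the exchange of two far away elementary pieces
-/

namespace MPab0b07

/-- numbers of lower points -/
def El.b : El ℚ → ℕ
  | El.cup => 0
  | El.cap => 2
  | El.x _ => 2

/-- numbers of upper points -/
def El.c : El ℚ → ℕ
  | El.cup => 2
  | El.cap => 0
  | El.x _ => 2

/-- exchange of the first two labels -/
def mv2b_sw (ys : ℕ → ℚ) : ℕ → ℚ := cns (ys 1) (cns (ys 0) (fun n => ys (n + 2)))

theorem mv2b_sw_zero (ys : ℕ → ℚ) : mv2b_sw ys 0 = ys 1 := rfl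

theorem mv2b_sw_one (ys : ℕ → ℚ) : mv2b_sw ys 1 = ys 0 := rfl

theorem mv2b_sw_two (ys : ℕ → ℚ) (n : ℕ) : mv2b_sw ys (n + 2) = ys (n + 2) := rfl

theorem mv2b_sw_sw (ys : ℕ → ℚ) : mv2b_sw (mv2b_sw ys) = ys := by
  funext n
  rcases n with _ | _ | n <;> rfl

theorem mv2b_stp (e : El ℚ) (p : ℕ) (g ys : ℕ → ℚ) :
    e.stp p (g, ys) = (gap e.b e.c p (ys 0) g, fun n => ys (n + 1)) := by
  cases e <;> rfl

theorem mv2b_even (e : El ℚ) : Even e.b ∧ Even e.c := by
  cases e <;> simp [El.b, El.c]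

/-- the condition of a cap used when nothing is between the two pieces -/
theorem mv2b_cap {e : El ℚ} {p : ℕ} {g ys : ℕ → ℚ} (h : (g, ys) ∈ e.cond p) (hc : e.c = 0) :
    g p = g (p + 2) ∧ e.b = 2 := by
  cases e with
  | cup => simp [El.c] at hc
  | cap =>
    simp only [El.cond, Submodule.mem_inf, LinearMap.mem_ker, LinearMap.sub_apply] at h
    exact ⟨sub_eq_zero.1 h.2, rfl⟩
  | x κ => simp [El.c] at hc

theorem mv2b_gap {e : El ℚ} {p : ℕ} {g ys : ℕ → ℚ} (h : (g, ys) ∈ e.cond p) (f : El ℚ) (m : ℕ)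
    (y1 : ℚ) :
    gap f.b f.c (p + e.c + m) y1 (gap e.b e.c p (ys 0) g) =
      gap e.b e.c p (ys 0) (gap f.b f.c (p + e.b + m) y1 g) := by
  have hcap := mv2b_cap h
  have hb : f.b = 0 ∨ f.b = 2 := by cases f <;> simp [El.b]
  have hc : f.c = 0 ∨ f.c = 2 := by cases f <;> simp [El.c]
  have hb' : e.b = 0 ∨ e.b = 2 := by cases e <;> simp [El.b]
  have hc' : e.c = 0 ∨ e.c = 2 := by cases e <;> simp [El.c]
  generalize f.b = b1 at *
  generalize f.c = c1 at *
  generalize e.b = b at *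
  generalize e.c = c at *
  funext j
  unfold gap
  by_cases hs : c = 0
  · obtain ⟨h1, h2⟩ := hcap hs
    subst hs h2
    by_cases hj : j + b1 - c1 = p ∧ p < j ∧ ¬ (j < p + 0 + m + c1) ∧ ¬ (j ≤ p + 0 + m)
    · obtain ⟨hj1, hj2, hj3, hj4⟩ := hj
      rw [if_neg (show ¬ j ≤ p by omega), if_neg (show ¬ j < p + 0 by omega)]
      have h3 : j + 2 - 0 + b1 - c1 = p + 2 := by omega
      split_ifs <;> first | omega | rfl | (rw [hj1, h3]; exact h1)
    · split_ifs <;> first | omega | rfl | (congr 1; omega)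
  · split_ifs <;> first | omega | rfl | (congr 1; omega)

/-- the four passages -/
theorem mv2b_stp_stp {e : El ℚ} {p : ℕ} {g ys : ℕ → ℚ} (h : (g, ys) ∈ e.cond p) (f : El ℚ)
    (m : ℕ) :
    f.stp (p + e.c + m) (e.stp p (g, ys)) = e.stp p (f.stp (p + e.b + m) (g, mv2b_sw ys)) := by
  rw [mv2b_stp, mv2b_stp, mv2b_stp, mv2b_stp]
  refine Prod.ext ?_ rfl
  exact mv2b_gap h f m (ys 1)

theorem mv2b_par {n k : ℕ} (hn : Even n) (hk : Even k) (p m : ℕ) :
    Even (p + n + m) ↔ Even (p + k + m) := by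
  obtain ⟨a, rfl⟩ := hn
  obtain ⟨b, rfl⟩ := hk
  simp only [Nat.even_iff]
  omega

/-- the labels read by `f` in the two positions -/
theorem mv2b_read {e : El ℚ} {p : ℕ} {g ys : ℕ → ℚ} (h : (g, ys) ∈ e.cond p) (m i : ℕ) :
    gap e.b e.c p (ys 0) g (p + e.c + m + i) = g (p + e.b + m + i) := by
  have hcap := mv2b_cap h
  have hc' : e.c = 0 ∨ e.c = 2 := by cases e <;> simp [El.c]
  generalize e.b = b at *
  generalize e.c = c at *
  unfold gap
  by_cases hs : c = 0
  · obtain ⟨h1, h2⟩ := hcap hs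
    subst hs h2
    by_cases hj : m + i = 0
    · have hm : m = 0 := by omega
      have hi : i = 0 := by omega
      subst hm hi
      simpa using h1
    · rw [if_neg (by omega), if_neg (by omega)]
      congr 1
      omega
  · rw [if_neg (by omega), if_neg (by omega)]
    congr 1
    omega

theorem mv2b_read' (f : El ℚ) (p n m i : ℕ) (y : ℚ) (g : ℕ → ℚ) (hi : i ≤ n) :
    gap f.b f.c (p + n + m) y g (p + i) = g (p + i) := by
  unfold gap
  rw [if_pos (by omega)]

theorem mv2b_cond_f {e : El ℚ} {p : ℕ} {g ys : ℕ → ℚ} (h : (g, ys) ∈ e.cond p) (f : El ℚ)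
    (m : ℕ) :
    e.stp p (g, ys) ∈ f.cond (p + e.c + m) ↔ (g, mv2b_sw ys) ∈ f.cond (p + e.b + m) := by
  have hp := mv2b_par (mv2b_even e).2 (mv2b_even e).1 p m
  have r0 := mv2b_read h m 0
  have r2 := mv2b_read h m 2
  simp only [add_zero] at r0
  rw [mv2b_stp]
  cases f with
  | cup =>
    by_cases hh : Even (p + e.b + m)
    · simp [El.cond, hp, hh, nw, mv2b_sw_zero]
    · simp [El.cond, hp, hh]
  | cap =>
    simp only [El.cond, Submodule.mem_inf, LinearMap.mem_ker, LinearMap.sub_apply, nw, gl,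
      LinearMap.comp_apply, LinearMap.fst_apply, LinearMap.snd_apply, LinearMap.proj_apply, r0, r2,
      mv2b_sw_zero]
  | x κ =>
    by_cases hh : Even (p + e.b + m)
    · simp [El.cond, hp, hh, nw, mv2b_sw_zero]
    · simp [El.cond, hp, hh]

theorem mv2b_cond_e (e f : El ℚ) (p m : ℕ) (g ys : ℕ → ℚ) :
    (g, ys) ∈ e.cond p ↔ f.stp (p + e.b + m) (g, mv2b_sw ys) ∈ e.cond p := by
  rw [mv2b_stp]
  cases e with
  | cup =>
    by_cases hh : Even p
    · simp [El.cond, hh, nw, mv2b_sw_one]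
    · simp [El.cond, hh]
  | cap =>
    have r0 := mv2b_read' f p El.cap.b m 0 (mv2b_sw ys 0) g (by simp [El.b])
    have r2 := mv2b_read' f p El.cap.b m 2 (mv2b_sw ys 0) g (by simp [El.b])
    simp only [add_zero] at r0
    simp only [El.cond, Submodule.mem_inf, LinearMap.mem_ker, LinearMap.sub_apply, nw, gl,
      LinearMap.comp_apply, LinearMap.fst_apply, LinearMap.snd_apply, LinearMap.proj_apply, r0, r2,
      zero_add, mv2b_sw_one]
  | x κ =>
    by_cases hh : Even p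
    · simp [El.cond, hh, nw, mv2b_sw_one]
    · simp [El.cond, hh]

theorem mv2b_loc (κ : ℚ) (p : ℕ) (g ys : ℕ → ℚ) :
    (El.x κ).loc p (g, ys) (g, ys) = if Even p then κ * ((g p - g (p + 2)) * (g p - g (p + 2)))
      else κ * ((g (p + 1) - ys 0) * (g (p + 1) - ys 0)) := by
  by_cases hh : Even p
  · simp only [El.loc, hh, sqf, gl, if_true, LinearMap.smul_apply, LinearMap.compl₁₂_apply,
      LinearMap.mul_apply', LinearMap.sub_apply, LinearMap.comp_apply, LinearMap.fst_apply,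
      LinearMap.proj_apply, smul_eq_mul]
  · simp only [El.loc, hh, sqf, gl, nw, if_false, LinearMap.smul_apply, LinearMap.compl₁₂_apply,
      LinearMap.mul_apply', LinearMap.sub_apply, LinearMap.comp_apply, LinearMap.fst_apply,
      LinearMap.snd_apply, LinearMap.proj_apply, smul_eq_mul]

theorem mv2b_loc_f {e : El ℚ} {p : ℕ} {g ys : ℕ → ℚ} (h : (g, ys) ∈ e.cond p) (f : El ℚ)
    (m : ℕ) :
    f.loc (p + e.c + m) (e.stp p (g, ys)) (e.stp p (g, ys)) =
      f.loc (p + e.b + m) (g, mv2b_sw ys) (g, mv2b_sw ys) := by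
  have hp := mv2b_par (mv2b_even e).2 (mv2b_even e).1 p m
  have r0 := mv2b_read h m 0
  have r1 := mv2b_read h m 1
  have r2 := mv2b_read h m 2
  simp only [add_zero] at r0
  rw [mv2b_stp]
  cases f with
  | cup => simp [El.loc]
  | cap => simp [El.loc]
  | x κ =>
    rw [mv2b_loc, mv2b_loc]
    simp only [r0, r1, r2, hp]
    rfl

theorem mv2b_loc_e (e f : El ℚ) (p m : ℕ) (g ys : ℕ → ℚ) :
    e.loc p (g, ys) (g, ys) = e.loc p (f.stp (p + e.b + m) (g, mv2b_sw ys))
      (f.stp (p + e.b + m) (g, mv2b_sw ys)) := by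
  rw [mv2b_stp]
  cases e with
  | cup => simp [El.loc]
  | cap => simp [El.loc]
  | x κ =>
    have r0 := mv2b_read' f p (El.x κ).b m 0 (mv2b_sw ys 0) g (by simp [El.b])
    have r1 := mv2b_read' f p (El.x κ).b m 1 (mv2b_sw ys 0) g (by simp [El.b])
    have r2 := mv2b_read' f p (El.x κ).b m 2 (mv2b_sw ys 0) g (by simp [El.b])
    simp only [add_zero] at r0
    rw [mv2b_loc, mv2b_loc]
    simp only [r0, r1, r2, zero_add, mv2b_sw_one]

theorem mv2b_adm (p m : ℕ) (e f : El ℚ) (v : List (ℕ × El ℚ)) (g ys : ℕ → ℚ) :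
    (g, ys) ∈ adm ((p, e) :: (p + e.c + m, f) :: v) ↔
      (g, mv2b_sw ys) ∈ adm ((p + e.b + m, f) :: (p, e) :: v) := by
  simp only [adm, Submodule.mem_inf, Submodule.mem_comap]
  constructor
  · rintro ⟨h1, h2, h3⟩
    refine ⟨(mv2b_cond_f h1 f m).1 h2, (mv2b_cond_e e f p m g ys).1 h1, ?_⟩
    rwa [← mv2b_stp_stp h1 f m]
  · rintro ⟨h1, h2, h3⟩
    have h4 := (mv2b_cond_e e f p m g ys).2 h2
    refine ⟨h4, (mv2b_cond_f h4 f m).2 h1, ?_⟩
    rwa [mv2b_stp_stp h4 f m]

theorem mv2b_frm {p m : ℕ} {e f : El ℚ} {v : List (ℕ × El ℚ)} {g ys : ℕ → ℚ}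
    (h : (g, ys) ∈ e.cond p) :
    frm ((p, e) :: (p + e.c + m, f) :: v) (g, ys) (g, ys) =
      frm ((p + e.b + m, f) :: (p, e) :: v) (g, mv2b_sw ys) (g, mv2b_sw ys) := by
  simp only [frm, LinearMap.add_apply, LinearMap.compl₁₂_apply]
  rw [mv2b_stp_stp h f m, mv2b_loc_f h f m, ← mv2b_loc_e e f p m g ys]
  ring

theorem mv2b_sw_linear : IsLinearMap ℚ mv2b_sw := by
  constructor
  · intro x y
    funext n
    rcases n with _ | _ | n <;> rfl
  · intro c x
    funext n
    rcases n with _ | _ | n <;> rfl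

theorem sg_comm (p m : ℕ) (e f : El ℚ) (v : List (ℕ × El ℚ)) :
    SGeq ((p, e) :: (p + e.c + m, f) :: v) ((p + e.b + m, f) :: (p, e) :: v) 0 := by
  have hRD : RD ((p + e.b + m, f) :: (p, e) :: v) ((p, e) :: (p + e.c + m, f) :: v)
      (k := 0) (fun _ => 0) (fun x => mv2b_sw x.1.2) (fun x => (mv2b_sw x.2, 0)) := by
    constructor
    · constructor
      · intro x y
        exact mv2b_sw_linear.1 _ _
      · intro c x
        exact mv2b_sw_linear.2 _ _
    · constructor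
      · intro x y
        exact Prod.ext (mv2b_sw_linear.1 _ _) (Subsingleton.elim _ _)
      · intro c x
        exact Prod.ext (mv2b_sw_linear.2 _ _) (Subsingleton.elim _ _)
    · intro g ys t hg h
      refine (mv2b_adm p m e f v g (mv2b_sw ys)).2 ?_
      rwa [mv2b_sw_sw]
    · intro g ys t hg h
      have h2 : (g, mv2b_sw ys) ∈ adm ((p, e) :: (p + e.c + m, f) :: v) := by
        refine (mv2b_adm p m e f v g (mv2b_sw ys)).2 ?_
        rwa [mv2b_sw_sw]
      have h3 : (g, mv2b_sw ys) ∈ e.cond p := by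
        simp only [adm, Submodule.mem_inf] at h2
        exact h2.1
      have h4 := mv2b_frm (m := m) (f := f) (v := v) h3
      rw [mv2b_sw_sw] at h4
      simpa using h4
    · intro g ys t hg h
      exact Prod.ext (mv2b_sw_sw ys) (Subsingleton.elim _ _)
    · intro g ys hg h
      exact (mv2b_adm p m e f v g ys).1 h
    · intro g ys hg h
      exact mv2b_sw_sw ys
  have := hRD.sgeq
  simpa using this

end MPab0b07
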