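import Pool.Agent.Lib.MP_ab0b07_gt.MV1
import Pool.Agent.Lib.MP_ab0b07_gt.MV2
import Pool.Agent.Lib.MP_ab0b07_gt.MV2b
import Pool.Agent.Lib.MP_5b16f0_gt.Cross

/-!
# Invariance of the signature
-/

namespace MPab0b07

open MP5b16f0

universe u

variable {α : Type u}

/-- The directions of the points of a level. -/
def lvl (Y : List (Pt α)) (o : ℕ → Bool) : Prop := ∀ i (h : i < Y.length), o i = (Y[i]).2

/-! ### Auxiliary descriptions of `sk` and `corr` -/

/-- the piece of the weighted word -/
def co_el (p : ℕ) : Gen α → El ℚ
  | Gen.cup _ => El.cup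
  | Gen.cap _ => El.cap
  | Gen.crs s => El.x ((wt p s : ℤ) : ℚ)

theorem co_sk_cons (p : ℕ) (g : Gen α) (w : Word α) :
    sk ℚ ((p, g) :: w) = (p, co_el p g) :: sk ℚ w := by
  cases g <;> rfl

theorem co_sk_append (u w : Word α) : sk ℚ (u ++ w) = sk ℚ u ++ sk ℚ w := by
  simp [sk]

/-- the correction term of one piece -/
def co_cx (p : ℕ) (g : Gen α) (o : ℕ → Bool) : ℤ :=
  match g with
  | Gen.cup _ => 0
  | Gen.cap _ => 0
  | Gen.crs s => corrX p s (o p == o (p + 1))

/-- the directions after one piece -/
def co_ori (p : ℕ) (g : Gen α) (o : ℕ → Bool) : ℕ → Bool :=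
  match g with
  | Gen.cup a => ori 0 2 p a.2 (!a.2) o
  | Gen.cap _ => ori 2 0 p true true o
  | Gen.crs _ => ori 2 2 p (o (p + 1)) (o p) o

theorem co_corr_cons (p : ℕ) (g : Gen α) (w : Word α) (o : ℕ → Bool) :
    corr ((p, g) :: w) o = co_cx p g o + corr w (co_ori p g o) := by
  cases g <;> simp [corr, co_cx, co_ori]

theorem co_wt_not (p : ℕ) (s : Bool) : wt p (!s) = -wt p s := by
  by_cases h : Even p <;> cases s <;> simp [wt, h]

theorem co_wt_succ (p : ℕ) (s : Bool) : wt (p + 1) s = -wt p s := by
  unfold wt
  by_cases h : Even p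
  · have : ¬ Even (p + 1) := by rw [Nat.not_even_iff_odd]; exact h.add_one
    rw [if_pos h, if_neg this]
    ring
  · have : Even (p + 1) := by rw [Nat.not_even_iff_odd] at h; exact h.add_one
    rw [if_neg h, if_pos this]
    ring

theorem co_wt_congr {p q : ℕ} (h : Even p ↔ Even q) (s : Bool) : wt p s = wt q s := by
  unfold wt
  simp only [h]

theorem co_corrX_congr {p q : ℕ} (h : Even p ↔ Even q) (s t : Bool) :
    corrX p s t = corrX q s t := by
  unfold corrX
  simp only [h]

theorem co_corrX_not (p : ℕ) (s t : Bool) : corrX p (!s) t = -corrX p s t := by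
  unfold corrX
  by_cases h : Even p <;> cases s <;> cases t <;> simp [h]

theorem co_corrX_sub (p : ℕ) (s t : Bool) : corrX p s t - corrX (p + 1) s t = wt p s := by
  unfold corrX wt
  by_cases h : Even p
  · have h' : ¬ Even (p + 1) := by rw [Nat.not_even_iff_odd]; exact h.add_one
    cases s <;> cases t <;> simp [h, h']
  · have h' : Even (p + 1) := by rw [Nat.not_even_iff_odd] at h; exact h.add_one
    cases s <;> cases t <;> simp [h, h']

theorem co_corrX_slide (p : ℕ) (s x y : Bool) :
    corrX (p + 1) s ((!x) == y) = corrX p (!s) (y == x) := by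
  unfold corrX
  by_cases h : Even p
  · have h' : ¬ Even (p + 1) := by rw [Nat.not_even_iff_odd]; exact h.add_one
    cases s <;> cases x <;> cases y <;> simp [h, h']
  · have h' : Even (p + 1) := by rw [Nat.not_even_iff_odd] at h; exact h.add_one
    cases s <;> cases x <;> cases y <;> simp [h, h']

theorem co_corrX_false (p : ℕ) (s : Bool) :
    corrX p s false = if Even p then 0 else wt p s := by
  unfold corrX wt
  by_cases h : Even p <;> cases s <;> simp [h]

theorem co_sign_wt (p : ℕ) (s : Bool) : ((SignType.sign ((wt p s : ℤ) : ℚ) : SignType) : ℤ) = wt p s := by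
  unfold wt
  by_cases h : Even p <;> cases s <;> simp [h]

theorem co_wt_sq (p : ℕ) (s : Bool) : (((wt p s : ℤ) : ℚ)) ^ 2 = 1 := by
  unfold wt
  by_cases h : Even p <;> cases s <;> simp [h]

/-! ### Levels -/

theorem lvl_append {X Y : List (Pt α)} {o : ℕ → Bool} :
    lvl (X ++ Y) o ↔ lvl X o ∧ lvl Y (fun j => o (X.length + j)) := by
  constructor
  · intro h
    refine ⟨fun i hi => ?_, fun i hi => ?_⟩
    · have := h i (by rw [List.length_append]; omega)
      rw [this, List.getElem_append_left hi]
    · have := h (X.length + i) (by rw [List.length_append]; omega)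
      show o (X.length + i) = _
      rw [this, List.getElem_append_right (by omega)]
      simp
  · rintro ⟨h1, h2⟩ i hi
    by_cases hx : i < X.length
    · rw [List.getElem_append_left hx]; exact h1 i hx
    · rw [List.getElem_append_right (by omega)]
      have := h2 (i - X.length) (by rw [List.length_append] at hi; omega)
      rw [← this]
      congr 1
      omega

theorem lvl_nil (o : ℕ → Bool) : lvl ([] : List (Pt α)) o := fun i h => absurd h (by simp)

theorem lvl_cons {a : Pt α} {Y : List (Pt α)} {o : ℕ → Bool} :
    lvl (a :: Y) o ↔ o 0 = a.2 ∧ lvl Y (fun j => o (j + 1)) := by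
  have := lvl_append (X := [a]) (Y := Y) (o := o)
  rw [List.singleton_append] at this
  rw [this]
  constructor
  · rintro ⟨h1, h2⟩
    refine ⟨h1 0 (by simp), ?_⟩
    simpa [Nat.add_comm] using h2
  · rintro ⟨h1, h2⟩
    refine ⟨fun i hi => ?_, ?_⟩
    · have : i = 0 := by simpa using hi
      subst this
      simpa using h1
    · simpa [Nat.add_comm] using h2

theorem lvl_congr {Y : List (Pt α)} {o o' : ℕ → Bool} (h : lvl Y o)
    (h' : ∀ i < Y.length, o' i = o i) : lvl Y o' := fun i hi => by rw [h' i hi]; exact h i hi

theorem co_step {g : Gen α} {B C : List (Pt α)} (hg : g.Acts B C) {A D : List (Pt α)}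
    {o : ℕ → Bool} (h : lvl (A ++ (B ++ D)) o) : lvl (A ++ (C ++ D)) (co_ori A.length g o) := by
  rw [lvl_append, lvl_append] at h ⊢
  obtain ⟨h1, h2, h3⟩ := h
  cases hg with
  | cup a =>
    refine ⟨lvl_congr h1 fun i hi => ?_, ?_, ?_⟩
    · simp [co_ori, ori, hi]
    · rw [lvl_cons, lvl_cons]
      refine ⟨?_, ?_, lvl_nil _⟩
      · simp [co_ori, ori]
      · simp [co_ori, ori, op]
    · refine lvl_congr h3 fun i _ => ?_
      simp only [co_ori, ori, List.length_cons, List.length_nil]
      rw [if_neg (by omega), if_neg (by omega)]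
      congr 1
      omega
  | cap a =>
    refine ⟨lvl_congr h1 fun i hi => ?_, lvl_nil _, ?_⟩
    · simp [co_ori, ori, hi]
    · refine lvl_congr h3 fun i _ => ?_
      simp only [co_ori, ori, List.length_cons, List.length_nil]
      rw [if_neg (by omega), if_neg (by omega)]
      congr 1
      omega
  | crs s a b =>
    rw [lvl_cons, lvl_cons] at h2
    obtain ⟨k1, k2, _⟩ := h2
    simp only [Nat.add_zero, Nat.zero_add] at k1 k2
    refine ⟨lvl_congr h1 fun i hi => ?_, ?_, ?_⟩
    · simp [co_ori, ori, hi]
    · rw [lvl_cons, lvl_cons]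
      refine ⟨?_, ?_, lvl_nil _⟩
      · simp [co_ori, ori, k2]
      · simp [co_ori, ori, k1]
    · refine lvl_congr h3 fun i _ => ?_
      simp only [co_ori, ori, List.length_cons, List.length_nil]
      rw [if_neg (by omega), if_neg (by omega)]
      congr 1

/-! ### The far commutation -/

theorem co_ori_comm (b c b' c' p m : ℕ) (x1 x2 y1 y2 : Bool) (o : ℕ → Bool) :
    ori b' c' (p + c + m) y1 y2 (ori b c p x1 x2 o) =
      ori b c p x1 x2 (ori b' c' (p + b + m) y1 y2 o) := by
  funext j
  simp only [ori]
  split_ifs <;> first | rfl | omega | (congr 1; omega)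

theorem co_ori_lo {b c p j : ℕ} {x1 x2 : Bool} {o : ℕ → Bool} (h : j < p) :
    ori b c p x1 x2 o j = o j := by
  simp [ori, h]

theorem co_ori_hi {b c p m i : ℕ} {x1 x2 : Bool} {o : ℕ → Bool} :
    ori b c p x1 x2 o (p + c + m + i) = o (p + b + m + i) := by
  simp only [ori]
  rw [if_neg (by omega), if_neg (by omega)]
  congr 1
  omega

theorem co_comm {g h : Gen α} {B C B' C' : List (Pt α)} (hg : g.Acts B C) (hh : h.Acts B' C')
    (p m : ℕ) (v : Word α) (o : ℕ → Bool) :
    corr ((p, g) :: (p + C.length + m, h) :: v) o =
      corr ((p + B.length + m, h) :: (p, g) :: v) o := by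
  rw [co_corr_cons, co_corr_cons, co_corr_cons, co_corr_cons]
  have e1 : Even (p + C.length + m) ↔ Even (p + B.length + m) := by
    cases hg <;> simp [Nat.even_add]
  have e2 : co_cx (p + C.length + m) h (co_ori p g o) = co_cx (p + B.length + m) h o := by
    cases h with
    | cup a => rfl
    | cap a => rfl
    | crs s =>
      simp only [co_cx]
      rw [co_corrX_congr e1]
      have k : ∀ i, co_ori p g o (p + C.length + m + i) = o (p + B.length + m + i) := by
        intro i
        cases hg <;> exact co_ori_hi
      have k0 := k 0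
      rw [Nat.add_zero, Nat.add_zero] at k0
      rw [k0, k 1]
  have e3 : co_cx p g (co_ori (p + B.length + m) h o) = co_cx p g o := by
    cases hg with
    | cup a => rfl
    | cap a => rfl
    | crs s a b =>
      simp only [co_cx]
      have k : ∀ j, j < p + [a, b].length + m → co_ori (p + [a, b].length + m) h o j = o j := by
        intro j hj
        cases h <;> exact co_ori_lo hj
      rw [k p (by simp; omega), k (p + 1) (by simp; omega)]
  have e4 : co_ori (p + C.length + m) h (co_ori p g o) =
      co_ori p g (co_ori (p + B.length + m) h o) := by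
    have k1 : ∀ i, co_ori p g o (p + C.length + m + i) = o (p + B.length + m + i) := by
      intro i
      cases hg <;> exact co_ori_hi
    have k0 := k1 0
    rw [Nat.add_zero, Nat.add_zero] at k0
    have k2 : ∀ j, j < p + B.length + m → co_ori (p + B.length + m) h o j = o j := by
      intro j hj
      cases h <;> exact co_ori_lo hj
    cases hg with
    | cup a =>
      cases hh with
      | cup b => exact co_ori_comm 0 2 0 2 p m _ _ _ _ o
      | cap b => exact co_ori_comm 0 2 2 0 p m _ _ _ _ o
      | crs s b c =>
        show ori 2 2 _ (co_ori p (Gen.cup a) o _) (co_ori p (Gen.cup a) o _) _ = _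
        rw [k1 1, k0]
        exact co_ori_comm 0 2 2 2 p m _ _ _ _ o
    | cap a =>
      cases hh with
      | cup b => exact co_ori_comm 2 0 0 2 p m _ _ _ _ o
      | cap b => exact co_ori_comm 2 0 2 0 p m _ _ _ _ o
      | crs s b c =>
        show ori 2 2 _ (co_ori p (Gen.cap a) o _) (co_ori p (Gen.cap a) o _) _ = _
        rw [k1 1, k0]
        exact co_ori_comm 2 0 2 2 p m _ _ _ _ o
    | crs t a a' =>
      show _ = ori 2 2 p (co_ori _ h o (p + 1)) (co_ori _ h o p) _
      rw [k2 p (by simp; omega), k2 (p + 1) (by simp; omega)]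
      cases hh with
      | cup b => exact co_ori_comm 2 2 0 2 p m _ _ _ _ o
      | cap b => exact co_ori_comm 2 2 2 0 p m _ _ _ _ o
      | crs s b c =>
        show ori 2 2 _ (co_ori p (Gen.crs t) o _) (co_ori p (Gen.crs t) o _) _ = _
        rw [k1 1, k0]
        exact co_ori_comm 2 2 2 2 p m _ _ _ _ o
  rw [e2, e3, e4]
  ring

theorem co_el_len {g : Gen α} {B C : List (Pt α)} (hg : g.Acts B C) (p : ℕ) :
    (co_el p g).b = B.length ∧ (co_el p g).c = C.length := by
  cases hg <;> exact ⟨rfl, rfl⟩

theorem co_el_congr {p q : ℕ} (h : Even p ↔ Even q) (g : Gen α) : co_el p g = co_el q g := by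
  cases g with
  | cup a => rfl
  | cap a => rfl
  | crs s => simp only [co_el]; rw [co_wt_congr h]

theorem co_neg_wt (p : ℕ) (s : Bool) : ((wt p (!s) : ℤ) : ℚ) = -((wt p s : ℤ) : ℚ) := by
  rw [co_wt_not]; push_cast; rfl

theorem co_sw (p : ℕ) (s : Bool) (o : ℕ → Bool) : co_ori p (Gen.crs s : Gen α) o =
    fun j => if j = p then o (p + 1) else if j = p + 1 then o p else o j := by
  funext j
  simp only [co_ori, ori]
  split_ifs <;> first | rfl | omega

/-- The correction term changes in the same way as the signature of the form. -/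
theorem move_sg {X Y : List (Pt α)} {r s : Word α} (h : Move X Y r s) (A C : List (Pt α))
    (v : Word α) (o : ℕ → Bool) (ho : lvl (A ++ (X ++ C)) o) :
    SGeq (sk ℚ (sh A.length r ++ v)) (sk ℚ (sh A.length s ++ v))
      (corr (sh A.length r ++ v) o - corr (sh A.length s ++ v) o) := by
  set p := A.length with hp
  rw [lvl_append, lvl_append] at ho
  obtain ⟨-, ho, -⟩ := ho
  rw [← hp] at ho
  cases h with
  | @comm g h B C' B' C'' hg hh M =>
    have e := co_comm hg hh p M.length v o
    obtain ⟨k1, k2⟩ := co_el_len hg p
    have e1 : Even (p + B.length + M.length) ↔ Even (p + C'.length + M.length) := by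
      cases hg <;> simp [Nat.even_add]
    have key := sg_comm p M.length (co_el p g) (co_el (p + C'.length + M.length) h) (sk ℚ v)
    rw [k1, k2] at key
    simp only [sh_cons, sh_nil, List.cons_append, List.nil_append, co_sk_cons, Nat.zero_add]
    rw [show C'.length + M.length + p = p + C'.length + M.length by omega,
      show B.length + M.length + p = p + B.length + M.length by omega, e, sub_self,
      co_el_congr e1 h]
    exact key
  | zig a =>
    rw [lvl_cons] at ho
    have k0 : o p = a.2 := ho.1
    have key := sg_zig p (sk ℚ v)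
    have e : co_ori p (Gen.cap a) (co_ori (p + 1) (Gen.cup (op a)) o) = o := by
      funext j
      simp only [co_ori, ori, op]
      split_ifs <;> first | rfl | omega | (congr 1; omega) | skip
      · have : j = p := by omega
        rw [this, k0]; simp
    have e2 : corr (sh p [(1, Gen.cup (op a)), (0, Gen.cap a)] ++ v) o - corr (sh p [] ++ v) o = 0 := by
      simp only [sh_cons, sh_nil, List.cons_append, List.nil_append, co_corr_cons, Nat.zero_add]
      rw [Nat.add_comm 1 p, e]
      simp [co_cx]
    rw [e2]
    simp only [sh_cons, sh_nil, List.cons_append, List.nil_append, co_sk_cons, Nat.zero_add]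
    rw [Nat.add_comm 1 p]
    exact key
  | zag a =>
    rw [lvl_cons] at ho
    have k0 : o p = a.2 := ho.1
    have key := sg_zag p (sk ℚ v)
    have e : co_ori (p + 1) (Gen.cap (op a)) (co_ori p (Gen.cup a) o) = o := by
      funext j
      simp only [co_ori, ori]
      split_ifs <;> first | rfl | omega | (congr 1; omega) | skip
      · have : j = p := by omega
        rw [this, k0]
    have e2 : corr (sh p [(0, Gen.cup a), (1, Gen.cap (op a))] ++ v) o - corr (sh p [] ++ v) o = 0 := by
      simp only [sh_cons, sh_nil, List.cons_append, List.nil_append, co_corr_cons, Nat.zero_add]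
      rw [Nat.add_comm 1 p, e]
      simp [co_cx]
    rw [e2]
    simp only [sh_cons, sh_nil, List.cons_append, List.nil_append, co_sk_cons, Nat.zero_add]
    rw [Nat.add_comm 1 p]
    exact key
  | r1cup a s =>
    have key := sg_r1cup p ((wt p s : ℤ) : ℚ) (sk ℚ v)
    rw [co_sign_wt] at key
    have e : co_ori p (Gen.crs s : Gen α) (co_ori p (Gen.cup a) o) = co_ori p (Gen.cup (op a)) o := by
      funext j
      simp only [co_ori, ori, op]
      split_ifs <;> first | rfl | omega | (congr 1; omega) | simp
    have e2 : corr (sh p [(0, Gen.cup a), (0, Gen.crs s)] ++ v) o -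
        corr (sh p [(0, Gen.cup (op a))] ++ v) o = if Even p then 0 else wt p s := by
      simp only [sh_cons, sh_nil, List.cons_append, List.nil_append, co_corr_cons, Nat.zero_add]
      rw [e, ← co_corrX_false]
      simp [co_cx, co_ori, ori]
    rw [e2]
    simp only [sh_cons, sh_nil, List.cons_append, List.nil_append, co_sk_cons, Nat.zero_add]
    exact key
  | r1cap a s =>
    rw [lvl_cons, lvl_cons] at ho
    have k0 : o p = a.2 := ho.1
    have k1 : o (p + 1) = !a.2 := ho.2.1
    have key := sg_r1cap p ((wt p s : ℤ) : ℚ) (sk ℚ v)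
    rw [co_sign_wt] at key
    have e : co_ori p (Gen.cap (op a)) (co_ori p (Gen.crs s : Gen α) o) = co_ori p (Gen.cap a) o := by
      funext j
      simp only [co_ori, ori]
      split_ifs <;> first | rfl | omega | (congr 1; omega)
    have e2 : corr (sh p [(0, Gen.crs s), (0, Gen.cap (op a))] ++ v) o -
        corr (sh p [(0, Gen.cap a)] ++ v) o = if Even p then 0 else wt p s := by
      simp only [sh_cons, sh_nil, List.cons_append, List.nil_append, co_corr_cons, Nat.zero_add]
      rw [e, ← co_corrX_false]
      simp [co_cx, k0, k1]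
    rw [e2]
    simp only [sh_cons, sh_nil, List.cons_append, List.nil_append, co_sk_cons, Nat.zero_add]
    exact key
  | r2 a b s =>
    have key := sg_r2 p ((wt p s : ℤ) : ℚ) (by intro h0; have h1 := co_wt_sq p s; rw [h0] at h1; norm_num at h1) (sk ℚ v)
    have e : co_ori p (Gen.crs (!s) : Gen α) (co_ori p (Gen.crs s : Gen α) o) = o := by
      funext j
      simp only [co_ori, ori]
      split_ifs <;> first | rfl | omega | (congr 1; omega)
    have e2 : corr (sh p [(0, Gen.crs s), (0, Gen.crs !s)] ++ v) o - corr (sh p [] ++ v) o = 0 := by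
      simp only [sh_cons, sh_nil, List.cons_append, List.nil_append, co_corr_cons, Nat.zero_add]
      rw [e]
      have : co_cx p (Gen.crs !s : Gen α) (co_ori p (Gen.crs s : Gen α) o) =
          - co_cx p (Gen.crs s : Gen α) o := by
        simp only [co_cx, co_ori, ori]
        rw [co_corrX_not]
        simp [Bool.beq_comm]
      rw [this]
      ring
    rw [e2]
    simp only [sh_cons, sh_nil, List.cons_append, List.nil_append, co_sk_cons, Nat.zero_add]
    have : co_el p (Gen.crs !s : Gen α) = El.x (-((wt p s : ℤ) : ℚ)) := by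
      simp only [co_el]; rw [co_neg_wt p s]
    rw [this]
    exact key
  | r3 a b c s =>
    have key := sg_r3 p ((wt p s : ℤ) : ℚ) (co_wt_sq p s) (sk ℚ v)
    rw [co_sign_wt] at key
    have e : co_ori p (Gen.crs s : Gen α) (co_ori (p + 1) (Gen.crs s : Gen α)
        (co_ori p (Gen.crs s : Gen α) o)) = co_ori (p + 1) (Gen.crs s : Gen α)
        (co_ori p (Gen.crs s : Gen α) (co_ori (p + 1) (Gen.crs s : Gen α) o)) := by
      funext j
      simp only [co_sw]
      have n1 : ¬ (p + 1 + 1 = p) := by omega
      have n2 : ¬ (p = p + 1 + 1) := by omega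
      by_cases h0 : j = p
      · rw [h0]; simp [n1, n2]
      by_cases h1 : j = p + 1
      · rw [h1]; simp [n1, n2]
      by_cases h2 : j = p + 2
      · rw [h2]; simp [n2]
      · simp [h0, h1, h2]
    have e2 : corr (sh p [(0, Gen.crs s), (1, Gen.crs s), (0, Gen.crs s)] ++ v) o -
        corr (sh p [(1, Gen.crs s), (0, Gen.crs s), (1, Gen.crs s)] ++ v) o = wt p s := by
      simp only [sh_cons, sh_nil, List.cons_append, List.nil_append, co_corr_cons, Nat.zero_add]
      rw [Nat.add_comm 1 p, e]
      have c1 := co_corrX_sub p s (o p == o (p + 1))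
      have c2 := co_corrX_sub p s (o (p + 1) == o (p + 2))
      have c3 := co_corrX_sub p s (o p == o (p + 2))
      simp only [co_cx, co_ori, ori]
      simp
      linarith
    rw [e2]
    simp only [sh_cons, sh_nil, List.cons_append, List.nil_append, co_sk_cons, Nat.zero_add]
    rw [Nat.add_comm 1 p]
    have : co_el (p + 1) (Gen.crs s : Gen α) = El.x (-((wt p s : ℤ) : ℚ)) := by
      simp only [co_el]; rw [co_wt_succ]; push_cast; rfl
    rw [this]
    exact key
  | slideCup a b s =>
    rw [lvl_cons] at ho
    have k0 : o p = b.2 := ho.1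
    have key := sg_slideCup p ((wt (p + 1) s : ℤ) : ℚ) (sk ℚ v)
    have e : co_ori (p + 1) (Gen.crs s : Gen α) (co_ori p (Gen.cup a) o) =
        co_ori p (Gen.crs (!s) : Gen α) (co_ori (p + 1) (Gen.cup a) o) := by
      funext j
      simp only [co_ori, ori]
      split_ifs <;> first | rfl | omega | (congr 1; omega)
    have e2 : corr (sh p [(0, Gen.cup a), (1, Gen.crs s)] ++ v) o -
        corr (sh p [(1, Gen.cup a), (0, Gen.crs !s)] ++ v) o = 0 := by
      simp only [sh_cons, sh_nil, List.cons_append, List.nil_append, co_corr_cons, Nat.zero_add]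
      rw [Nat.add_comm 1 p, e]
      have c := co_corrX_slide p s a.2 (o p)
      have : co_cx (p + 1) (Gen.crs s : Gen α) (co_ori p (Gen.cup a) o) =
          co_cx p (Gen.crs (!s) : Gen α) (co_ori (p + 1) (Gen.cup a) o) := by
        have e0 : ¬ (p + 1 + 1 < p) := by omega
        simp only [co_cx, co_ori, ori]
        simp [e0]
        exact c
      rw [this]
      simp [co_cx]
    rw [e2]
    simp only [sh_cons, sh_nil, List.cons_append, List.nil_append, co_sk_cons, Nat.zero_add]
    rw [Nat.add_comm 1 p]
    have : co_el p (Gen.crs (!s) : Gen α) = El.x ((wt (p + 1) s : ℤ) : ℚ) := by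
      simp only [co_el]; rw [co_wt_succ, co_wt_not]
    rw [this]
    exact key
  | slideCap a b s =>
    have key := sg_slideCap p ((wt (p + 1) s : ℤ) : ℚ) (sk ℚ v)
    rw [lvl_cons, lvl_cons, lvl_cons] at ho
    have k0 : o p = a.2 := ho.1
    have k1 : o (p + 1) = b.2 := ho.2.1
    have k2 : o (p + 2) = !a.2 := ho.2.2.1
    have e : co_ori p (Gen.cap a) (co_ori (p + 1) (Gen.crs s : Gen α) o) =
        co_ori (p + 1) (Gen.cap a) (co_ori p (Gen.crs (!s) : Gen α) o) := by
      funext j
      simp only [co_ori, ori]
      split_ifs <;> first | rfl | omega | (congr 1; omega)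
    have e2 : corr (sh p [(1, Gen.crs s), (0, Gen.cap a)] ++ v) o -
        corr (sh p [(0, Gen.crs !s), (1, Gen.cap a)] ++ v) o = 0 := by
      simp only [sh_cons, sh_nil, List.cons_append, List.nil_append, co_corr_cons, Nat.zero_add]
      rw [Nat.add_comm 1 p, e]
      have c := co_corrX_slide p s a.2 b.2
      have : co_cx (p + 1) (Gen.crs s : Gen α) o = co_cx p (Gen.crs (!s) : Gen α) o := by
        simp only [co_cx]
        rw [k0, k1, k2, Bool.beq_comm (a := b.2), c, Bool.beq_comm]
      rw [this]
      simp [co_cx]
    rw [e2]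
    simp only [sh_cons, sh_nil, List.cons_append, List.nil_append, co_sk_cons, Nat.zero_add]
    rw [Nat.add_comm 1 p]
    have : co_el p (Gen.crs (!s) : Gen α) = El.x ((wt (p + 1) s : ℤ) : ℚ) := by
      simp only [co_el]; rw [co_wt_succ, co_wt_not]
    rw [this]
    exact key

/-- the directions after a word -/
def oriW : Word α → (ℕ → Bool) → ℕ → Bool
  | [], o => o
  | (p, Gen.cup a) :: w, o => oriW w (ori 0 2 p a.2 (!a.2) o)
  | (p, Gen.cap _) :: w, o => oriW w (ori 2 0 p true true o)
  | (p, Gen.crs _) :: w, o => oriW w (ori 2 2 p (o (p + 1)) (o p) o)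

theorem co_oriW_cons (p : ℕ) (g : Gen α) (w : Word α) (o : ℕ → Bool) :
    oriW ((p, g) :: w) o = oriW w (co_ori p g o) := by
  cases g <;> rfl

theorem lvl_oriW {w : Word α} {X Y : List (Pt α)} (h : Run w X Y) {o : ℕ → Bool}
    (ho : lvl X o) : lvl Y (oriW w o) := by
  induction h generalizing o with
  | nil X => exact ho
  | cons hg _ ih =>
    rw [co_oriW_cons]
    exact ih (co_step hg ho)

theorem corr_append (u v : Word α) (o : ℕ → Bool) :
    corr (u ++ v) o = corr u o + corr v (oriW u o) := by
  induction u generalizing o with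
  | nil => simp [corr, oriW]
  | cons x u ih =>
    obtain ⟨p, g⟩ := x
    rw [List.cons_append, co_corr_cons, co_corr_cons, co_oriW_cons, ih]
    ring

theorem sgn_iso {w w' : Word α} (h : Iso [] [] w w') : sgn w = sgn w' := by
  induction h with
  | rel w w' h =>
    obtain ⟨hu, hm, hv⟩ := h
    rename_i A C X' Y' u r s v
    have ho := lvl_oriW hu (o := fun _ => true) (lvl_nil _)
    have key := move_sg hm A C v _ ho (sk ℚ u)
    unfold sgn
    rw [corr_append u (sh A.length r ++ v), corr_append u (sh A.length s ++ v), co_sk_append,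
      co_sk_append u, key]
    ring
  | refl w => rfl
  | symm w w' _ ih => exact ih.symm
  | trans a b c _ _ ih1 ih2 => exact ih1.trans ih2

theorem co_sk_rev (w : Word α) : sk ℚ (rev w) = sk ℚ w := by
  induction w with
  | nil => rfl
  | cons x w ih =>
    obtain ⟨p, g⟩ := x
    have : rev ((p, g) :: w) = (p, revG g) :: rev w := rfl
    rw [this, co_sk_cons, co_sk_cons, ih]
    cases g <;> rfl

theorem co_corr_rev {w : Word α} {X Y : List (Pt α)} (h : Run w X Y) :
    ∀ o o' : ℕ → Bool, (∀ j < X.length, o' j = !(o j)) → corr (rev w) o' = corr w o := by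
  induction h with
  | nil X => intro o o' _; rfl
  | @cons A B C D Y g w hg _ ih =>
    intro o o' ho
    have : rev ((A.length, g) :: w) = (A.length, revG g) :: rev w := rfl
    rw [this, co_corr_cons, co_corr_cons]
    simp only [List.length_append] at ho ih
    cases hg with
    | cup a =>
      rw [ih (co_ori A.length (Gen.cup a) o)]
      · rfl
      · intro j hj
        simp only [revG, co_ori, ori, op]
        simp only [List.length_cons, List.length_nil] at hj ho
        split_ifs with h1 h2 h3
        · exact ho j (by omega)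
        · rfl
        · rfl
        · exact ho _ (by omega)
    | cap a =>
      rw [ih (co_ori A.length (Gen.cap a) o)]
      · rfl
      · intro j hj
        simp only [revG, co_ori, ori]
        simp only [List.length_cons, List.length_nil] at hj ho
        split_ifs with h1 h2 h3
        · exact ho j (by omega)
        · omega
        · omega
        · exact ho _ (by omega)
    | crs s a b =>
      simp only [List.length_cons, List.length_nil] at ho
      have k0 := ho A.length (by omega)
      have k1 := ho (A.length + 1) (by omega)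
      rw [ih (co_ori A.length (Gen.crs s) o)]
      · congr 1
        simp only [revG, co_cx]
        rw [k0, k1]
        cases o A.length <;> cases o (A.length + 1) <;> rfl
      · intro j hj
        simp only [revG, co_ori, ori]
        simp only [List.length_cons, List.length_nil] at hj
        split_ifs with h1 h2 h3
        · exact ho j (by omega)
        · exact k1
        · exact k0
        · exact ho _ (by omega)

/-- The reversed word has the same signature. -/
theorem sgn_rev {w : Word α} (h : Run w [] []) : sgn (rev w) = sgn w := by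
  unfold sgn
  rw [co_sk_rev, co_corr_rev h (fun _ => true) (fun _ => true) (fun j hj => absurd hj (by simp))]

/-- The mirror image has the opposite signature (see `sg_negw`). -/
theorem corr_mir (w : Word α) (o : ℕ → Bool) : corr (mir w) o = - corr w o := by
  induction w generalizing o with
  | nil => simp [mir, corr]
  | cons x w ih =>
    obtain ⟨p, g⟩ := x
    have : mir ((p, g) :: w) = (p, mirG g) :: mir w := rfl
    rw [this, co_corr_cons, co_corr_cons]
    cases g with
    | cup a =>
      show (0 : ℤ) + corr (mir w) (co_ori p (Gen.cup a) o) = _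
      rw [ih]; simp [co_cx]
    | cap a =>
      show (0 : ℤ) + corr (mir w) (co_ori p (Gen.cap a) o) = _
      rw [ih]; simp [co_cx]
    | crs s =>
      show corrX p (!s) (o p == o (p + 1)) + corr (mir w) (co_ori p (Gen.crs s : Gen α) o) =
        -(corrX p s (o p == o (p + 1)) + corr w (co_ori p (Gen.crs s : Gen α) o))
      rw [ih, co_corrX_not]
      ring

end MPab0b07
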