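import Mathlib
import Pool.Agent.Lib.MP_5b16f0_gt.Defs

/-!
# Knots, the Gordian graph and the signature

Knots are words (`MP5b16f0.Word`) over the one element label set `Fin 1` which are knot diagrams
(`LinkWord 1`), up to isotopy (`Iso [] []`) and reversal of the orientation.

The signature is defined by the formula of Gordon and Litherland.  The regions of a diagram in
general position are coloured like a checkerboard: at every level the gap with an even number
(the gap `0` is the unbounded region on the left) is black.  The black regions are labelled by
numbers (the unbounded region by `0`), and every crossing contributes the square of the difference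
of the labels of its two black corners, with the coefficient `1` or `-1`, to the form.
-/

namespace MPab0b07

open MP5b16f0

universe u

/-! ### Reversal, mirror image, knots, the Gordian graph -/

/-- reverse the orientations of an elementary tangle -/
def revG {α : Type u} : Gen α → Gen α
  | Gen.cup a => Gen.cup (op a)
  | Gen.cap a => Gen.cap (op a)
  | Gen.crs s => Gen.crs s

/-- the same diagram with all orientations reversed -/
def rev {α : Type u} (w : Word α) : Word α := w.map (fun x => (x.1, revG x.2))

/-- switch a crossing -/
def mirG {α : Type u} : Gen α → Gen α
  | Gen.cup a => Gen.cup a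
  | Gen.cap a => Gen.cap a
  | Gen.crs s => Gen.crs (!s)

/-- the mirror image: all crossings are switched -/
def mir {α : Type u} (w : Word α) : Word α := w.map (fun x => (x.1, mirG x.2))

/-- diagrams of oriented knots -/
def KWord : Type := {w : Word (Fin 1) // LinkWord 1 w}

/-- two diagrams show the same unoriented knot -/
def SameKnot (w w' : KWord) : Prop := Iso [] [] w.1 w'.1 ∨ Iso [] [] (rev w.1) w'.1

/-- unoriented knots -/
def Knot : Type := Quot SameKnot

/-- the class of a diagram -/
def KWord.mk (w : KWord) : Knot := Quot.mk SameKnot w

/-- The Gordian graph: two different knots are adjacent when a diagram of one of them is turned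
into a diagram of the other one by switching one crossing. -/
def Gordian : SimpleGraph Knot where
  Adj x y := x ≠ y ∧ ∃ (w w' : KWord) (u v : Word (Fin 1)) (p : ℕ) (s : Bool),
    w.mk = x ∧ w'.mk = y ∧ w.1 = u ++ (p, Gen.crs s) :: v ∧ w'.1 = u ++ (p, Gen.crs !s) :: v
  symm := ⟨by
    rintro x y ⟨h, w, w', u, v, p, s, h1, h2, h3, h4⟩
    exact ⟨h.symm, w', w, u, v, p, !s, h2, h1, h4, by simpa using h3⟩⟩
  loopless := ⟨fun x h => h.1 rfl⟩

/-! ### The form -/

/-- elementary pieces with weighted crossings -/
inductive El (R : Type u)
  | cup
  | cap
  | x (κ : R)

/-- The labels of the gaps after an elementary piece with `b` lower and `c` upper points is put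
on the points in position `p, p + 1, ...`; `y` is the label of the new gap `p + 1` (if `c = 2`). -/
def gap {R : Type u} (b c p : ℕ) (y : R) (g : ℕ → R) : ℕ → R := fun j =>
  if j ≤ p then g j else if j < p + c then y else g (j + b - c)

section

variable {R : Type u} [CommRing R]

/-- the labels of the gaps at some level, and the labels of the gaps to be created above it -/
abbrev P (R : Type u) := (ℕ → R) × (ℕ → R)

/-- the passage of an elementary piece -/
def stp (b c p : ℕ) : P R →ₗ[R] P R where
  toFun x := (gap b c p (x.2 0) x.1, fun n => x.2 (n + 1))
  map_add' x y := by
    ext j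
    · simp only [gap, Prod.fst_add, Prod.snd_add, Pi.add_apply]
      split_ifs <;> rfl
    · rfl
  map_smul' c x := by
    ext j
    · simp only [gap, Prod.smul_fst, Prod.smul_snd, Pi.smul_apply, RingHom.id_apply]
      split_ifs <;> rfl
    · rfl

/-- the passage of an elementary piece -/
def El.stp (p : ℕ) : El R → P R →ₗ[R] P R
  | El.cup => MPab0b07.stp 0 2 p
  | El.cap => MPab0b07.stp 2 0 p
  | El.x _ => MPab0b07.stp 2 2 p

/-- the label of the gap `j` -/
def gl (j : ℕ) : P R →ₗ[R] R := (LinearMap.proj j).comp (LinearMap.fst R _ _)

/-- the label of the next gap to be created -/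
def nw : P R →ₗ[R] R := (LinearMap.proj 0).comp (LinearMap.snd R _ _)

/-- The conditions on labels at an elementary piece in position `p`: only black regions (gaps with
an even number) have nonzero labels; a cap joins the regions on its two sides. -/
def El.cond (p : ℕ) : El R → Submodule R (P R)
  | El.cup => if Even p then LinearMap.ker nw else ⊤
  | El.cap => LinearMap.ker nw ⊓ LinearMap.ker (gl p - gl (p + 2))
  | El.x _ => if Even p then LinearMap.ker nw else ⊤

/-- the square of a linear form, as a bilinear form -/
def sqf (l : P R →ₗ[R] R) : LinearMap.BilinForm R (P R) :=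
  (LinearMap.mul R R).compl₁₂ l l

/-- the contribution of an elementary piece in position `p` to the form -/
def El.loc (p : ℕ) : El R → LinearMap.BilinForm R (P R)
  | El.cup => 0
  | El.cap => 0
  | El.x κ => κ • (if Even p then sqf (gl p - gl (p + 2)) else sqf (gl (p + 1) - nw))

/-- the labellings of a (weighted, unoriented) word -/
def adm : List (ℕ × El R) → Submodule R (P R)
  | [] => LinearMap.ker (LinearMap.snd R _ _)
  | (p, e) :: w => e.cond p ⊓ (adm w).comap (e.stp p)

/-- the bilinear form of a (weighted, unoriented) word -/
def frm : List (ℕ × El R) → LinearMap.BilinForm R (P R)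
  | [] => 0
  | (p, e) :: w => e.loc p + (frm w).compl₁₂ (e.stp p) (e.stp p)

/-- the labellings of a word by labels of black regions, the unbounded region having label `0` -/
def lab (w : List (ℕ × El R)) : Submodule R (ℕ → R) := (adm w).comap (LinearMap.inr R _ _)

/-- the form on the labellings -/
def form (w : List (ℕ × El R)) : LinearMap.BilinForm R (lab w) :=
  (frm w).compl₁₂ ((LinearMap.inr R _ _).comp (lab w).subtype)
    ((LinearMap.inr R _ _).comp (lab w).subtype)

end

/-- The weight of the crossing `crs s` in position `p`: `1` if the overcrossing strand, turned
counterclockwise, sweeps the white corners, `-1` otherwise. -/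
def wt (p : ℕ) (s : Bool) : ℤ := (if s then 1 else -1) * (if Even p then 1 else -1)

/-- the weighted unoriented word of a word -/
def sk {α : Type u} (R : Type) [CommRing R] (w : Word α) : List (ℕ × El R) :=
  w.map (fun x => (x.1, match x.2 with
    | Gen.cup _ => El.cup
    | Gen.cap _ => El.cap
    | Gen.crs s => El.x ((wt x.1 s : ℤ) : R)))

/-- the correction term of a crossing `crs s` in position `p`; `par` tells whether its strands
have the same direction. -/
def corrX (p : ℕ) (s par : Bool) : ℤ :=
  if Even p then (if par then (if s then 1 else -1) else 0)
  else (if par then 0 else (if s then -1 else 1))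

/-- the directions after an elementary piece -/
def ori (b c p : ℕ) (o1 o2 : Bool) (o : ℕ → Bool) : ℕ → Bool := fun j =>
  if j < p then o j else if j < p + c then (if j = p then o1 else o2) else o (j + b - c)

/-- The correction term of Gordon and Litherland: the sum of the signs of the crossings at which
the orientations of the strands do not fit to the surface formed by the white regions. -/
def corr {α : Type u} : Word α → (ℕ → Bool) → ℤ
  | [], _ => 0
  | (p, Gen.cup a) :: w, o => corr w (ori 0 2 p a.2 (!a.2) o)
  | (p, Gen.cap _) :: w, o => corr w (ori 2 0 p true true o)
  | (p, Gen.crs s) :: w, o =>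
      corrX p s (o p == o (p + 1)) + corr w (ori 2 2 p (o (p + 1)) (o p) o)

/-- the signature of the form of a weighted word -/
noncomputable def SG (w : List (ℕ × El ℚ)) : ℤ :=
  (sigPos (form w).toQuadraticMap : ℤ) - sigNeg (form w).toQuadraticMap

/-- The signature of a diagram (the formula of Gordon and Litherland). -/
noncomputable def sgn {α : Type u} (w : Word α) : ℤ := SG (sk ℚ w) - corr w (fun _ => true)

end MPab0b07
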