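import Mathlib

/-!
# Automorphisms of graphs with a height function
-/

namespace MPab0b07

variable {V : Type*}

/-- A graph with an integral height function `s` which changes by at most `1` along the edges, with
connected level sets, with an involution `m` which reverses the height, and with maps `τ`, `τ'` to
neighbours of height one more and one less. -/
structure HGraph (G : SimpleGraph V) (s : V → ℤ) (m τ τ' : V → V) : Prop where
  edge : ∀ x y, G.Adj x y → |s x - s y| ≤ 1
  conn : ∀ k x y, s x = k → s y = k →
    Relation.ReflTransGen (fun a b => G.Adj a b ∧ s b = k) x y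
  m_adj : ∀ x y, G.Adj x y → G.Adj (m x) (m y)
  m_s : ∀ x, s (m x) = - s x
  m_m : ∀ x, m (m x) = x
  up : ∀ x, G.Adj x (τ x) ∧ s (τ x) = s x + 1
  down : ∀ x, G.Adj x (τ' x) ∧ s (τ' x) = s x - 1
  ne : Nonempty V

variable {G : SimpleGraph V} {s : V → ℤ} {m τ τ' : V → V}

/-- reversing the height -/
theorem HGraph.neg (h : HGraph G s m τ τ') : HGraph G (fun x => -s x) m τ' τ where
  edge x y hxy := by
    have h1 := h.edge x y hxy
    rw [abs_le] at h1 ⊢
    constructor <;> linarith [h1.1, h1.2]
  conn k x y hx hy := by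
    have h1 := h.conn (-k) x y (by linarith) (by linarith)
    refine Relation.ReflTransGen.mono ?_ _ _ h1
    rintro a b ⟨h2, h3⟩
    exact ⟨h2, by linarith⟩
  m_adj := h.m_adj
  m_s x := by rw [h.m_s]
  m_m := h.m_m
  up x := ⟨(h.down x).1, by rw [(h.down x).2]; ring⟩
  down x := ⟨(h.up x).1, by rw [(h.up x).2]; ring⟩
  ne := h.ne

/-- every level set is nonempty -/
theorem HGraph.exists_level (h : HGraph G s m τ τ') (k : ℤ) : ∃ x, s x = k := by
  obtain ⟨x0⟩ := h.ne
  have hup : ∀ n : ℕ, ∀ x, ∃ y, s y = s x + n := by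
    intro n
    induction n with
    | zero => exact fun x => ⟨x, by simp⟩
    | succ n ih =>
      intro x
      obtain ⟨y, hy⟩ := ih x
      exact ⟨τ y, by rw [(h.up y).2, hy]; push_cast; ring⟩
  have hdn : ∀ n : ℕ, ∀ x, ∃ y, s y = s x - n := by
    intro n
    induction n with
    | zero => exact fun x => ⟨x, by simp⟩
    | succ n ih =>
      intro x
      obtain ⟨y, hy⟩ := ih x
      exact ⟨τ' y, by rw [(h.down y).2, hy]; push_cast; ring⟩
  rcases le_total (s x0) k with h1 | h1
  · obtain ⟨y, hy⟩ := hup (k - s x0).toNat x0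
    exact ⟨y, by rw [hy, Int.toNat_of_nonneg (by linarith)]; ring⟩
  · obtain ⟨y, hy⟩ := hdn (s x0 - k).toNat x0
    exact ⟨y, by rw [hy, Int.toNat_of_nonneg (by linarith)]; ring⟩

/-- a property which propagates along the edges above the level `j` -/
theorem HGraph.prop_above (h : HGraph G s m τ τ') (j : ℤ) (T : V → Prop)
    (hT : ∀ x y, G.Adj x y → j < s x → j < s y → T x → T y) {x y : V} (hx : j < s x)
    (hy : j < s y) (hTx : T x) : T y := by
  have hdn : ∀ n : ℕ, ∀ x, s x = j + 1 + n → T x → ∃ z, s z = j + 1 ∧ T z := by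
    intro n
    induction n with
    | zero => exact fun x hx hTx => ⟨x, by simpa using hx, hTx⟩
    | succ n ih =>
      intro x hx hTx
      push_cast at hx
      have h1 := h.down x
      refine ih (τ' x) (by rw [h1.2]; linarith) (hT x _ h1.1 (by linarith) ?_ hTx)
      rw [h1.2]
      linarith
  have hall : ∀ z w, s z = j + 1 → s w = j + 1 → T z → T w := by
    intro z w hz hw hTz
    have h1 := h.conn (j + 1) z w hz hw
    have key : ∀ w, Relation.ReflTransGen (fun a b => G.Adj a b ∧ s b = j + 1) z w →
        s w = j + 1 ∧ T w := by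
      intro w hw
      induction hw with
      | refl => exact ⟨hz, hTz⟩
      | tail _ hab ih =>
        refine ⟨hab.2, hT _ _ hab.1 ?_ ?_ ih.2⟩
        · rw [ih.1]; linarith
        · rw [hab.2]; linarith
    exact (key w h1).2
  have hup : ∀ n : ℕ, ∀ y, s y = j + 1 + n → (∀ w, s w = j + 1 → T w) → T y := by
    intro n
    induction n with
    | zero => exact fun y hy hw => hw y (by simpa using hy)
    | succ n ih =>
      intro y hy hw
      push_cast at hy
      have h1 := h.down y
      have h2 := ih (τ' y) (by rw [h1.2]; linarith) hw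
      refine hT _ y h1.1.symm ?_ (by linarith) h2
      rw [h1.2]
      linarith
  obtain ⟨z, hz, hTz⟩ := hdn (s x - (j + 1)).toNat x
    (by rw [Int.toNat_of_nonneg (by linarith)]; ring) hTx
  exact hup (s y - (j + 1)).toNat y (by rw [Int.toNat_of_nonneg (by linarith)]; ring)
    fun w hw => hall z w hz hw hTz

/-- the same below the level `j` -/
theorem HGraph.prop_below (h : HGraph G s m τ τ') (j : ℤ) (T : V → Prop)
    (hT : ∀ x y, G.Adj x y → s x < j → s y < j → T x → T y) {x y : V} (hx : s x < j)
    (hy : s y < j) (hTx : T x) : T y :=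
  h.neg.prop_above (-j) T (fun a b hab ha hb => hT a b hab (by linarith) (by linarith))
    (x := x) (y := y) (by linarith) (by linarith) hTx

/-- an automorphism which maps some level set onto a level set maps the height to `± height + c` -/
theorem HGraph.level (h : HGraph G s m τ τ') (φ : G ≃g G) (j k : ℤ)
    (hφ : ∀ x, s (φ x) = k ↔ s x = j) :
    ∃ ε c : ℤ, (ε = 1 ∨ ε = -1) ∧ ∀ x, s (φ x) = ε * s x + c := by
  -- distances from the level sets
  have hstep : ∀ (j : ℤ) (n : ℕ) (x : V), |s x - j| ≤ n + 1 ↔
      |s x - j| ≤ n ∨ ∃ y, G.Adj x y ∧ |s y - j| ≤ n := by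
    intro j n x
    constructor
    · intro h1
      by_cases h2 : |s x - j| ≤ n
      · exact Or.inl h2
      · right
        rw [not_le] at h2
        rcases le_or_gt j (s x) with h3 | h3
        · refine ⟨τ' x, (h.down x).1, ?_⟩
          rw [(h.down x).2]
          rw [abs_of_nonneg (by linarith)] at h1 h2
          rw [abs_le]
          constructor <;> linarith
        · refine ⟨τ x, (h.up x).1, ?_⟩
          rw [(h.up x).2]
          rw [abs_of_neg (by linarith)] at h1 h2
          rw [abs_le]
          constructor <;> linarith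
    · rintro (h1 | ⟨y, h1, h2⟩)
      · linarith
      · have h3 := h.edge x y h1
        have h4 := abs_add_le (s x - s y) (s y - j)
        have h5 : s x - s y + (s y - j) = s x - j := by ring
        rw [h5] at h4
        linarith
  have hA : ∀ (n : ℕ) (x : V), |s x - j| ≤ n ↔ |s (φ x) - k| ≤ n := by
    intro n
    induction n with
    | zero =>
      intro x
      have h1 := hφ x
      simp only [Nat.cast_zero, abs_nonpos_iff, sub_eq_zero]
      exact h1.symm
    | succ n ih =>
      intro x
      push_cast
      rw [hstep j n x, hstep k n (φ x), ih x]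
      refine or_congr Iff.rfl ?_
      constructor
      · rintro ⟨y, h1, h2⟩
        exact ⟨φ y, φ.map_adj_iff.mpr h1, (ih y).mp h2⟩
      · rintro ⟨y, h1, h2⟩
        obtain ⟨y, rfl⟩ := φ.surjective y
        exact ⟨y, φ.map_adj_iff.mp h1, (ih y).mpr h2⟩
  have habs : ∀ x, |s (φ x) - k| = |s x - j| := by
    intro x
    apply le_antisymm
    · have h1 := (hA (|s x - j|).toNat x).mp
      rw [Int.toNat_of_nonneg (abs_nonneg _)] at h1
      exact h1 le_rfl
    · have h1 := (hA (|s (φ x) - k|).toNat x).mpr
      rw [Int.toNat_of_nonneg (abs_nonneg _)] at h1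
      exact h1 le_rfl
  have hne : ∀ x, s x ≠ j → s (φ x) ≠ k := fun x h1 h2 => h1 ((hφ x).mp h2)
  -- the side does not change along edges
  have hside : ∀ x y, G.Adj x y → s x ≠ j → s y ≠ j → k < s (φ x) → k < s (φ y) := by
    intro x y hxy hx hy h1
    have h2 := h.edge _ _ (φ.map_adj_iff.mpr hxy)
    have h3 := hne y hy
    rw [abs_le] at h2
    rcases lt_trichotomy k (s (φ y)) with h4 | h4 | h4
    · exact h4
    · exact absurd h4.symm h3
    · exfalso
      have := h2.1
      have := h2.2
      omega
  obtain ⟨x0, hx0⟩ := h.exists_level (j + 1)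
  obtain ⟨y0, hy0⟩ := h.exists_level (j - 1)
  have hup : ∀ x y, j < s x → j < s y → k < s (φ x) → k < s (φ y) := fun x y hx hy h1 =>
    h.prop_above j (fun z => k < s (φ z))
      (fun a b hab ha hb h2 => hside a b hab ha.ne' hb.ne' h2) hx hy h1
  have hdn : ∀ x y, s x < j → s y < j → k < s (φ x) → k < s (φ y) := fun x y hx hy h1 =>
    h.prop_below j (fun z => k < s (φ z))
      (fun a b hab ha hb h2 => hside a b hab ha.ne hb.ne h2) hx hy h1
  by_cases hP : k < s (φ x0)
  · -- below goes below
    have hN : ¬ k < s (φ y0) := by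
      intro hy
      obtain ⟨z, hz⟩ := h.exists_level (k - 1)
      obtain ⟨z, rfl⟩ := φ.surjective z
      have h1 : s z ≠ j := fun h2 => by
        have := (hφ z).mpr h2
        omega
      rcases lt_or_gt_of_ne h1 with h2 | h2
      · have := hdn y0 z (by omega) h2 hy
        omega
      · have := hup x0 z (by omega) h2 hP
        omega
    refine ⟨1, k - j, Or.inl rfl, fun x => ?_⟩
    have h1 := habs x
    rcases lt_trichotomy (s x) j with h2 | h2 | h2
    · have h3 : ¬ k < s (φ x) := fun h4 => hN (hdn x y0 h2 (by omega) h4)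
      rw [abs_of_neg (by omega : s x - j < 0), abs_of_nonpos (by omega)] at h1
      omega
    · have := (hφ x).mpr h2
      omega
    · have h3 := hup x0 x (by omega) h2 hP
      rw [abs_of_pos (by omega : 0 < s x - j), abs_of_pos (by omega)] at h1
      omega
  · have hN : k < s (φ y0) := by
      by_contra hy
      obtain ⟨z, hz⟩ := h.exists_level (k + 1)
      obtain ⟨z, rfl⟩ := φ.surjective z
      have h1 : s z ≠ j := fun h2 => by
        have := (hφ z).mpr h2
        omega
      rcases lt_or_gt_of_ne h1 with h2 | h2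
      · exact hy (hdn z y0 h2 (by omega) (by omega))
      · exact hP (hup z x0 h2 (by omega) (by omega))
    refine ⟨-1, k + j, Or.inr rfl, fun x => ?_⟩
    have h1 := habs x
    rcases lt_trichotomy (s x) j with h2 | h2 | h2
    · have h3 := hdn y0 x (by omega) h2 hN
      rw [abs_of_neg (by omega : s x - j < 0), abs_of_pos (by omega)] at h1
      omega
    · have := (hφ x).mpr h2
      omega
    · have h3 : ¬ k < s (φ x) := fun h4 => hP (hup x x0 h2 (by omega) h4)
      rw [abs_of_pos (by omega : 0 < s x - j), abs_of_nonpos (by omega)] at h1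
      omega

/-- an automorphism which preserves congruence modulo 2 of the heights -/
theorem HGraph.mod_two (h : HGraph G s m τ τ') (φ : G ≃g G)
    (hφ : ∀ x y, (2 : ℤ) ∣ s x - s y → (2 : ℤ) ∣ s (φ x) - s (φ y)) :
    ∃ ε c : ℤ, (ε = 1 ∨ ε = -1) ∧ ∀ x, s (φ x) = ε * s x + c := by
  -- constant on level sets
  have h1 : ∀ x y, s x = s y → s (φ x) = s (φ y) := by
    intro x y hxy
    have h2 := h.conn (s x) x y rfl hxy.symm
    have key : ∀ w, Relation.ReflTransGen (fun a b => G.Adj a b ∧ s b = s x) x w →
        s w = s x ∧ s (φ x) = s (φ w) := by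
      intro w hw
      induction hw with
      | refl => exact ⟨rfl, rfl⟩
      | @tail a b _ hab ih =>
        refine ⟨hab.2, ih.2.trans ?_⟩
        have h3 := h.edge _ _ (φ.map_adj_iff.mpr hab.1)
        have h4 := hφ a b (by rw [ih.1, hab.2]; simp)
        rw [abs_le] at h3
        have := h3.1
        have := h3.2
        omega
    exact (key y h2).2
  -- consecutive levels have different parities
  have h2 : ∀ a b, ¬ (2 : ℤ) ∣ s a - s b → ¬ (2 : ℤ) ∣ s (φ a) - s (φ b) := by
    intro a b hab hcon
    obtain ⟨z, hz⟩ := φ.surjective (τ (φ a))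
    have h3 : s (φ z) = s (φ a) + 1 := by
      rw [hz]
      exact (h.up _).2
    by_cases h4 : (2 : ℤ) ∣ s z - s a
    · have := hφ z a h4
      omega
    · have h5 : (2 : ℤ) ∣ s z - s b := by omega
      have := hφ z b h5
      omega
  -- injective on levels
  have h3 : ∀ x y, s (φ x) = s (φ y) → s x = s y := by
    intro x y hxy
    have h4 := h.conn (s (φ x)) (φ x) (φ y) rfl hxy.symm
    have key : ∀ w, Relation.ReflTransGen (fun a b => G.Adj a b ∧ s b = s (φ x)) (φ x) w →
        s w = s (φ x) ∧ s (φ.symm w) = s x := by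
      intro w hw
      induction hw with
      | refl => exact ⟨rfl, by simp⟩
      | @tail a b _ hab ih =>
        refine ⟨hab.2, ?_⟩
        obtain ⟨a, rfl⟩ := φ.surjective a
        obtain ⟨b, rfl⟩ := φ.surjective b
        have h5 := h.edge a b (φ.map_adj_iff.mp hab.1)
        rw [RelIso.symm_apply_apply] at ih ⊢
        by_contra hne
        rw [abs_le] at h5
        have h6 : ¬ (2 : ℤ) ∣ s a - s b := by
          have := h5.1
          have := h5.2
          have := ih.2
          omega
        have h7 := h2 a b h6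
        have h8 := ih.1
        have h9 := hab.2
        omega
    have h5 := (key _ h4).2
    rw [RelIso.symm_apply_apply] at h5
    exact h5.symm
  obtain ⟨x0⟩ := h.ne
  exact h.level φ (s x0) (s (φ x0)) fun x => ⟨fun hx => h3 x x0 hx, fun hx => h1 x x0 hx⟩

/-- an automorphism which maps every vertex `x` to `x` or `m x` -/
theorem HGraph.pm (h : HGraph G s m τ τ') (φ : G ≃g G) (hφ : ∀ x, φ x = x ∨ φ x = m x) :
    (∀ x, s x ≠ 0 → φ x = x) ∨ (∀ x, s x ≠ 0 → φ x = m x) := by
  by_cases hex : ∃ a, s a ≠ 0 ∧ φ a = a
  · left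
    obtain ⟨a, ha0, ha⟩ := hex
    have hup : ∀ x y, 0 < s x → 0 < s y → φ x = x → φ y = y := fun x y hx hy h1 =>
      h.prop_above 0 (fun z => φ z = z) (fun p q hpq hp hq h2 => by
        rcases hφ q with h3 | h3
        · exact h3
        · exfalso
          have h4 := h.edge _ _ (φ.map_adj_iff.mpr hpq)
          rw [h2, h3, h.m_s, abs_le] at h4
          have := h4.2
          omega) hx hy h1
    have hdn : ∀ x y, s x < 0 → s y < 0 → φ x = x → φ y = y := fun x y hx hy h1 =>
      h.prop_below 0 (fun z => φ z = z) (fun p q hpq hp hq h2 => by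
        rcases hφ q with h3 | h3
        · exact h3
        · exfalso
          have h4 := h.edge _ _ (φ.map_adj_iff.mpr hpq)
          rw [h2, h3, h.m_s, abs_le] at h4
          have := h4.1
          omega) hx hy h1
    have hswap : ∀ x, s x ≠ 0 → φ (m x) = m x → φ x = x := by
      intro x hx h1
      rcases hφ x with h2 | h2
      · exact h2
      · exfalso
        have h3 : m x = x := φ.injective (by rw [h1, h2])
        have h4 := h.m_s x
        rw [h3] at h4
        omega
    rcases lt_or_gt_of_ne ha0 with h1 | h1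
    · intro x hx
      rcases lt_or_gt_of_ne hx with h2 | h2
      · exact hdn a x h1 h2 ha
      · exact hswap x hx (hdn a (m x) h1 (by rw [h.m_s]; omega) ha)
    · intro x hx
      rcases lt_or_gt_of_ne hx with h2 | h2
      · exact hswap x hx (hup a (m x) h1 (by rw [h.m_s]; omega) ha)
      · exact hup a x h1 h2 ha
  · right
    intro x hx
    rcases hφ x with h1 | h1
    · exact absurd ⟨x, hx, h1⟩ hex
    · exact h1

/-- an automorphism which fixes all vertices of large height preserves the height -/
theorem HGraph.far (h : HGraph G s m τ τ') (φ : G ≃g G) (N : ℤ)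
    (hφ : ∀ x, N ≤ |s x| → φ x = x) (x : V) : s (φ x) = s x := by
  set j : ℤ := max N 0 with hj
  have hj0 : 0 ≤ j := le_max_right _ _
  have hjN : N ≤ j := le_max_left _ _
  obtain ⟨ε, c, hε, hc⟩ := h.level φ j j (by
    intro y
    constructor
    · intro hy
      have h1 : φ (φ y) = φ y := hφ _ (by rw [hy, abs_of_nonneg hj0]; exact hjN)
      rw [φ.injective h1] at hy
      exact hy
    · intro hy
      rw [hφ y (by rw [hy, abs_of_nonneg hj0]; exact hjN)]
      exact hy)
  obtain ⟨y, hy⟩ := h.exists_level j
  obtain ⟨z, hz⟩ := h.exists_level (j + 1)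
  have h1 := hc y
  rw [hφ y (by rw [hy, abs_of_nonneg hj0]; exact hjN), hy] at h1
  have h2 := hc z
  rw [hφ z (by rw [hz, abs_of_nonneg (by omega)]; omega), hz] at h2
  rcases hε with rfl | rfl
  · rw [hc x]
    omega
  · omega

end MPab0b07
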