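import Pool.Agent.Lib.MP_ab0b07_gt.GR

/-!
# Automorphisms of graphs with a height function: the coarse theorem
-/

namespace MPab0b07

variable {V : Type*} {G : SimpleGraph V} {s : V → ℤ} {m τ τ' : V → V}

/-- moving up `n` steps -/
theorem HGraph.climb (h : HGraph G s m τ τ') (φ : G ≃g G) (n : ℕ) (x : V) :
    ∃ y, s (φ y) = s (φ x) + n ∧ |s y - s x| ≤ n := by
  induction n with
  | zero => exact ⟨x, by simp, by simp⟩
  | succ n ih =>
    obtain ⟨y, h1, h2⟩ := ih
    obtain ⟨z, hz⟩ := φ.surjective (τ (φ y))
    have h3 := h.up (φ y)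
    refine ⟨z, by rw [hz, h3.2, h1]; push_cast; ring, ?_⟩
    have h4 : G.Adj y z := by
      rw [← φ.map_adj_iff, hz]
      exact h3.1
    have h5 := h.edge y z h4
    push_cast
    rw [abs_le] at h2 h5 ⊢
    constructor <;> linarith [h2.1, h2.2, h5.1, h5.2]

/-- moving down `n` steps -/
theorem HGraph.descend (h : HGraph G s m τ τ') (φ : G ≃g G) (n : ℕ) (x : V) :
    ∃ y, s (φ y) = s (φ x) - n ∧ |s y - s x| ≤ n := by
  obtain ⟨y, h1, h2⟩ := h.neg.climb φ n x
  refine ⟨y, by linarith, ?_⟩
  rw [abs_le] at h2 ⊢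
  constructor <;> linarith [h2.1, h2.2]

/-- moving `n` steps towards a level in the domain -/
theorem HGraph.toward (h : HGraph G s m τ τ') (φ : G ≃g G) (j : ℤ) (x : V) :
    ∃ y, s y = j ∧ |s (φ y) - s (φ x)| ≤ |s x - j| := by
  have hid := h.climb (RelIso.refl _)
  have hid' := h.descend (RelIso.refl _)
  have key : ∀ (n : ℕ) (x : V), |s x - j| = n → ∃ y, s y = j ∧ |s (φ y) - s (φ x)| ≤ n := by
    intro n
    induction n with
    | zero =>
      intro x hx
      refine ⟨x, ?_, by simp⟩
      simpa [sub_eq_zero] using hx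
    | succ n ih =>
      intro x hx
      push_cast at hx
      obtain ⟨z, hz1, hz2⟩ : ∃ z, G.Adj x z ∧ |s z - j| = n := by
        rcases le_total j (s x) with h3 | h3
        · refine ⟨τ' x, (h.down x).1, ?_⟩
          rw [(h.down x).2]
          rw [abs_of_nonneg (by linarith)] at hx
          rw [abs_of_nonneg (by linarith)]
          linarith
        · refine ⟨τ x, (h.up x).1, ?_⟩
          rw [(h.up x).2]
          rw [abs_of_nonpos (by linarith)] at hx
          rw [abs_of_nonpos (by linarith)]
          linarith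
      obtain ⟨y, hy1, hy2⟩ := ih z hz2
      refine ⟨y, hy1, ?_⟩
      have h5 := h.edge _ _ (φ.map_adj_iff.mpr hz1)
      push_cast
      rw [abs_le] at hy2 h5 ⊢
      constructor <;> linarith [hy2.1, hy2.2, h5.1, h5.2]
  obtain ⟨y, h1, h2⟩ := key (|s x - j|).toNat x (by
    rw [Int.toNat_of_nonneg (abs_nonneg _)])
  rw [Int.toNat_of_nonneg (abs_nonneg _)] at h2
  exact ⟨y, h1, h2⟩

/-- the case of an automorphism which does not exchange the two sides -/
theorem HGraph.coarse_aux (h : HGraph G s m τ τ') (φ : G ≃g G) (j a b : ℤ)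
    (hφ : ∀ x, s x = j → a ≤ s (φ x) ∧ s (φ x) ≤ b)
    (h1 : ∀ x, b < s (φ x) → j < s x) (h2 : ∀ x, s (φ x) < a → s x < j) (x : V) :
    a ≤ s (φ x) - (s x - j) ∧ s (φ x) - (s x - j) ≤ b := by
  obtain ⟨y, hy1, hy2⟩ := h.toward φ j x
  have hy3 := hφ y hy1
  rcases le_total j (s x) with h3 | h3
  · rw [abs_of_nonneg (by linarith : 0 ≤ s x - j), abs_le] at hy2
    refine ⟨?_, by linarith [hy2.1, hy2.2, hy3.2]⟩
    by_contra hcon
    rw [not_le] at hcon
    rcases lt_or_ge (s (φ x)) a with h4 | h4
    · have := h2 x h4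
      linarith
    · obtain ⟨z, hz1, hz2⟩ := h.descend φ (s (φ x) - a + 1).toNat x
      have h5 : ((s (φ x) - a + 1).toNat : ℤ) = s (φ x) - a + 1 :=
        Int.toNat_of_nonneg (by linarith)
      rw [h5] at hz1 hz2
      have h6 := h2 z (by rw [hz1]; linarith)
      rw [abs_le] at hz2
      have := hz2.1
      omega
  · rw [abs_of_nonpos (by linarith : s x - j ≤ 0), abs_le] at hy2
    refine ⟨by linarith [hy2.1, hy2.2, hy3.1], ?_⟩
    by_contra hcon
    rw [not_le] at hcon
    rcases lt_or_ge b (s (φ x)) with h4 | h4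
    · have := h1 x h4
      linarith
    · obtain ⟨z, hz1, hz2⟩ := h.climb φ (b - s (φ x) + 1).toNat x
      have h5 : ((b - s (φ x) + 1).toNat : ℤ) = b - s (φ x) + 1 :=
        Int.toNat_of_nonneg (by linarith)
      rw [h5] at hz1 hz2
      have h6 := h1 z (by rw [hz1]; linarith)
      rw [abs_le] at hz2
      have := hz2.2
      omega

/-- **The coarse theorem.**  If the height is in `[a, b]` on the image of one level set then the
automorphism preserves the height up to a reflection, a translation and an error in `[a, b]`. -/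
theorem HGraph.coarse (h : HGraph G s m τ τ') (φ : G ≃g G) (j a b : ℤ)
    (hφ : ∀ x, s x = j → a ≤ s (φ x) ∧ s (φ x) ≤ b) :
    ∃ ε : ℤ, (ε = 1 ∨ ε = -1) ∧
      ∀ x, a ≤ s (φ x) - ε * (s x - j) ∧ s (φ x) - ε * (s x - j) ≤ b := by
  -- the side is constant on `{b < s}` and on `{s < a}`
  have hside : ∀ x y, G.Adj x y → s (φ.symm x) ≠ j → s (φ.symm y) ≠ j → j < s (φ.symm x) →
      j < s (φ.symm y) := by
    intro x y hxy hx hy h1
    have h2 := h.edge _ _ (φ.symm.map_adj_iff.mpr hxy)
    rw [abs_le] at h2
    have := h2.1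
    have := h2.2
    omega
  have hne1 : ∀ x, b < s x → s (φ.symm x) ≠ j := by
    intro x hx h1
    have := (hφ _ h1).2
    rw [RelIso.apply_symm_apply] at this
    linarith
  have hne2 : ∀ x, s x < a → s (φ.symm x) ≠ j := by
    intro x hx h1
    have := (hφ _ h1).1
    rw [RelIso.apply_symm_apply] at this
    linarith
  have hup : ∀ x y, b < s x → b < s y → j < s (φ.symm x) → j < s (φ.symm y) :=
    fun x y hx hy h1 => h.prop_above b (fun z => j < s (φ.symm z))
      (fun p q hpq hp hq h2 => hside p q hpq (hne1 p hp) (hne1 q hq) h2) hx hy h1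
  have hdn : ∀ x y, s x < a → s y < a → j < s (φ.symm x) → j < s (φ.symm y) :=
    fun x y hx hy h1 => h.prop_below a (fun z => j < s (φ.symm z))
      (fun p q hpq hp hq h2 => hside p q hpq (hne2 p hp) (hne2 q hq) h2) hx hy h1
  obtain ⟨x0, hx0⟩ := h.exists_level (b + 1)
  obtain ⟨y0, hy0⟩ := h.exists_level (a - 1)
  have hab : a ≤ b := by
    obtain ⟨z, hz⟩ := h.exists_level j
    exact (hφ z hz).1.trans (hφ z hz).2
  by_cases hP : j < s (φ.symm x0)
  · have hN : ¬ j < s (φ.symm y0) := by
      intro hN
      -- a point far below `j`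
      obtain ⟨z, hz⟩ := h.exists_level (j - 1 - (b - a + 1))
      have hlow : ∀ w, s w < j → a ≤ s (φ w) ∧ s (φ w) ≤ b := by
        intro w hw
        constructor
        · by_contra hc
          rw [not_le] at hc
          have := hdn y0 (φ w) (by linarith) hc hN
          rw [RelIso.symm_apply_apply] at this
          linarith
        · by_contra hc
          rw [not_le] at hc
          have := hup x0 (φ w) (by linarith) hc hP
          rw [RelIso.symm_apply_apply] at this
          linarith
      obtain ⟨y, hy1, hy2⟩ := h.climb φ (b - a + 1).toNat z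
      have h5 : ((b - a + 1).toNat : ℤ) = b - a + 1 := Int.toNat_of_nonneg (by linarith)
      rw [h5] at hy1 hy2
      rw [abs_le] at hy2
      have h6 := (hlow y (by have := hy2.2; omega)).2
      have h7 := (hlow z (by omega)).1
      omega
    refine ⟨1, Or.inl rfl, fun x => ?_⟩
    rw [one_mul]
    refine h.coarse_aux φ j a b hφ (fun x hx => ?_) (fun x hx => ?_) x
    · have := hup x0 (φ x) (by linarith) hx hP
      rwa [RelIso.symm_apply_apply] at this
    · by_contra hc
      have h3 := hne2 (φ x) hx
      rw [RelIso.symm_apply_apply] at h3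
      exact hN (hdn (φ x) y0 hx (by linarith) (by rw [RelIso.symm_apply_apply]; omega))
  · have hN : j < s (φ.symm y0) := by
      by_contra hN
      obtain ⟨z, hz⟩ := h.exists_level (j + 1 + (b - a + 1))
      have hhigh : ∀ w, j < s w → a ≤ s (φ w) ∧ s (φ w) ≤ b := by
        intro w hw
        constructor
        · by_contra hc
          rw [not_le] at hc
          exact hN (hdn (φ w) y0 hc (by linarith) (by rw [RelIso.symm_apply_apply]; exact hw))
        · by_contra hc
          rw [not_le] at hc
          exact hP (hup (φ w) x0 hc (by linarith) (by rw [RelIso.symm_apply_apply]; exact hw))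
      obtain ⟨y, hy1, hy2⟩ := h.climb φ (b - a + 1).toNat z
      have h5 : ((b - a + 1).toNat : ℤ) = b - a + 1 := Int.toNat_of_nonneg (by linarith)
      rw [h5] at hy1 hy2
      rw [abs_le] at hy2
      have h6 := (hhigh y (by have := hy2.1; omega)).2
      have h7 := (hhigh z (by omega)).1
      omega
    -- reverse the domain
    refine ⟨-1, Or.inr rfl, fun x => ?_⟩
    let μ : G ≃g G :=
      { toEquiv := ⟨m, m, h.m_m, h.m_m⟩
        map_rel_iff' := by
          intro p q
          constructor
          · intro hpq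
            have := h.m_adj _ _ hpq
            rwa [Equiv.coe_fn_mk, h.m_m, h.m_m] at this
          · exact fun hpq => h.m_adj _ _ hpq }
    have hμ : ∀ y, μ y = m y := fun _ => rfl
    have key := h.coarse_aux (μ.trans φ) (-j) a b (fun y hy => by
      rw [RelIso.trans_apply]
      exact hφ _ (by rw [hμ, h.m_s]; linarith)) (fun y hy => by
        rw [RelIso.trans_apply] at hy
        have h3 := hne1 _ hy
        rw [RelIso.symm_apply_apply] at h3
        have h4 : ¬ j < s (μ y) := fun h5 => hP (hup (φ (μ y)) x0 hy (by linarith)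
          (by rw [RelIso.symm_apply_apply]; exact h5))
        rw [hμ, h.m_s] at h3 h4
        omega) (fun y hy => by
        rw [RelIso.trans_apply] at hy
        have h4 := hdn y0 (φ (μ y)) (by linarith) hy hN
        rw [RelIso.symm_apply_apply, hμ, h.m_s] at h4
        omega) (m x)
    rw [RelIso.trans_apply, hμ, h.m_m, h.m_s] at key
    constructor <;> linarith [key.1, key.2]

/-- an automorphism such that the height is locally constant on the image of one level set -/
theorem HGraph.const_level (h : HGraph G s m τ τ') (φ : G ≃g G) (j : ℤ)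
    (hφ : ∀ x y, s x = j → s y = j → G.Adj x y → s (φ x) = s (φ y)) :
    ∃ ε c : ℤ, (ε = 1 ∨ ε = -1) ∧ ∀ x, s (φ x) = ε * s x + c := by
  have h1 : ∀ x y, s x = j → s y = j → s (φ x) = s (φ y) := by
    intro x y hx hy
    have h2 := h.conn j x y hx hy
    have key : ∀ w, Relation.ReflTransGen (fun a b => G.Adj a b ∧ s b = j) x w →
        s w = j ∧ s (φ x) = s (φ w) := by
      intro w hw
      induction hw with
      | refl => exact ⟨hx, rfl⟩
      | @tail a b _ hab ih => exact ⟨hab.2, ih.2.trans (hφ a b ih.1 hab.2 hab.1)⟩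
    exact (key y h2).2
  obtain ⟨z, hz⟩ := h.exists_level j
  obtain ⟨ε, hε, hc⟩ := h.coarse φ j (s (φ z)) (s (φ z)) (fun x hx => by
    rw [h1 x z hx hz]
    exact ⟨le_rfl, le_rfl⟩)
  refine ⟨ε, s (φ z) - ε * j, hε, fun x => ?_⟩
  have := hc x
  linarith [this.1, this.2]

end MPab0b07
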