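import Pool.Agent.Lib.MP_ab0b07_gt.GR2

/-!
# Automorphisms which are close to the identity or to the mirror map at every vertex
-/

namespace MPab0b07

variable {V : Type*} {G : SimpleGraph V} {s : V → ℤ} {m τ τ' : V → V}

theorem lip_walk {g : V → ℤ} (hg : ∀ x y, G.Adj x y → |g x - g y| ≤ 1) {x y : V}
    (p : G.Walk x y) : |g x - g y| ≤ p.length := by
  induction p with
  | nil => simp
  | @cons u v w h p ih =>
    have h1 := hg _ _ h
    rw [SimpleGraph.Walk.length_cons]
    push_cast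
    rw [abs_le] at h1 ih ⊢
    constructor <;> linarith [h1.1, h1.2, ih.1, ih.2]

theorem lip_dist (hc : G.Connected) {g : V → ℤ} (hg : ∀ x y, G.Adj x y → |g x - g y| ≤ 1)
    (x y : V) : |g x - g y| ≤ G.dist x y := by
  obtain ⟨p, hp⟩ := hc.exists_walk_length_eq_dist x y
  rw [← hp]
  exact lip_walk hg p

/-- an automorphism which maps every vertex `x` to a vertex at distance at most `C` from `x` or
`m x` -/
theorem HGraph.pm_coarse (h : HGraph G s m τ τ') (hc : G.Connected) (φ : G ≃g G) (C : ℕ)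
    (hφ : ∀ x, G.dist (φ x) x ≤ C ∨ G.dist (φ x) (m x) ≤ C) :
    (∀ x, (C : ℤ) < |s x| → G.dist (φ x) x ≤ C) ∨
      (∀ x, (C : ℤ) < |s x| → G.dist (φ x) (m x) ≤ C) := by
  have hlip := lip_dist hc h.edge
  have hlip' : ∀ x y, |s x - s y| ≤ G.dist (φ x) (φ y) := by
    intro x y
    have := lip_dist hc (g := fun z => s (φ.symm z))
      (fun p q hpq => h.edge _ _ (φ.symm.map_adj_iff.mpr hpq)) (φ x) (φ y)
    simpa using this
  -- consequences for the height
  have hA : ∀ x, G.dist (φ x) x ≤ C → |s (φ x) - s x| ≤ C := fun x hx =>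
    (hlip _ _).trans (by exact_mod_cast hx)
  have hB : ∀ x, G.dist (φ x) (m x) ≤ C → |s (φ x) + s x| ≤ C := fun x hx => by
    have := (hlip (φ x) (m x)).trans (show (G.dist (φ x) (m x) : ℤ) ≤ C by exact_mod_cast hx)
    rw [h.m_s, sub_neg_eq_add] at this
    exact this
  have hstep : ∀ x y, G.Adj x y → ((C : ℤ) < s x ∧ (C : ℤ) < s y ∨ s x < -C ∧ s y < -C) →
      G.dist (φ x) x ≤ C → G.dist (φ y) y ≤ C := by
    intro x y hxy hs hx
    rcases hφ y with h1 | h1
    · exact h1
    · exfalso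
      have h2 := hA x hx
      have h3 := hB y h1
      have h4 := h.edge _ _ (φ.map_adj_iff.mpr hxy)
      rw [abs_le] at h2 h3 h4
      rcases hs with ⟨h5, h6⟩ | ⟨h5, h6⟩ <;> omega
  have hup : ∀ x y, (C : ℤ) < s x → (C : ℤ) < s y → G.dist (φ x) x ≤ C → G.dist (φ y) y ≤ C :=
    fun x y hx hy h1 => h.prop_above C (fun z => G.dist (φ z) z ≤ C)
      (fun p q hpq hp hq h2 => hstep p q hpq (Or.inl ⟨hp, hq⟩) h2) hx hy h1
  have hdn : ∀ x y, s x < -(C : ℤ) → s y < -(C : ℤ) → G.dist (φ x) x ≤ C →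
      G.dist (φ y) y ≤ C :=
    fun x y hx hy h1 => h.prop_below (-C) (fun z => G.dist (φ z) z ≤ C)
      (fun p q hpq hp hq h2 => hstep p q hpq (Or.inr ⟨hp, hq⟩) h2) hx hy h1
  have hmir : ∀ x, (C : ℤ) < |s x| → G.dist (φ x) x ≤ C → G.dist (φ (m x)) (m x) ≤ C := by
    intro x hx h1
    rcases hφ (m x) with h2 | h2
    · exact h2
    · exfalso
      rw [h.m_m] at h2
      have h3 := hlip' x (m x)
      have h4 : G.dist (φ x) (φ (m x)) ≤ 2 * C := by
        have h5 := hc.dist_triangle (u := φ x) (v := x) (w := φ (m x))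
        rw [SimpleGraph.dist_comm (u := x)] at h5
        omega
      have h6 : ((G.dist (φ x) (φ (m x)) : ℕ) : ℤ) ≤ 2 * C := by exact_mod_cast h4
      rw [h.m_s] at h3
      have h7 : |s x - -s x| = 2 * |s x| := by
        rw [sub_neg_eq_add, ← two_mul, abs_mul, abs_two]
      rw [h7] at h3
      linarith
  by_cases hex : ∃ a, (C : ℤ) < |s a| ∧ G.dist (φ a) a ≤ C
  · left
    -- a vertex above and a vertex below
    obtain ⟨a, ha, hb⟩ := hex
    have hpos : ∃ b, (C : ℤ) < s b ∧ G.dist (φ b) b ≤ C := by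
      rcases lt_or_ge (s a) 0 with h1 | h1
      · refine ⟨m a, ?_, hmir a ha hb⟩
        rw [h.m_s]
        rwa [abs_of_neg h1] at ha
      · exact ⟨a, by rwa [abs_of_nonneg h1] at ha, hb⟩
    obtain ⟨b, hb1, hb2⟩ := hpos
    intro x hx
    rcases lt_or_ge (s x) 0 with h1 | h1
    · have h2 := hmir b (lt_of_lt_of_le hb1 (le_abs_self _)) hb2
      rw [abs_of_neg h1] at hx
      exact hdn (m b) x (by rw [h.m_s]; linarith) (by linarith) h2
    · rw [abs_of_nonneg h1] at hx
      exact hup b x hb1 hx hb2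
  · right
    intro x hx
    rcases hφ x with h1 | h1
    · exact absurd ⟨x, hx, h1⟩ hex
    · exact h1

end MPab0b07
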