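import Pool.Agent.Lib.MP_ab0b07_gt.RD

/-!
# The signature of the form: special tangles (row MV3a)

By `RD.sgeq`, completing squares.
-/

namespace MPab0b07

theorem MV3_gap_le {R : Type} {b c p j : ℕ} {y : R} {g : ℕ → R} (h : j ≤ p) :
    gap b c p y g j = g j := by
  unfold gap
  rw [if_pos h]

theorem MV3_gap_mid {R : Type} {b c p j : ℕ} {y : R} {g : ℕ → R} (h : p < j) (h' : j < p + c) :
    gap b c p y g j = y := by
  unfold gap
  rw [if_neg (not_le.2 h), if_pos h']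

theorem MV3_gap_ge {R : Type} {b c p j : ℕ} {y : R} {g : ℕ → R} (h : p < j) (h' : p + c ≤ j) :
    gap b c p y g j = g (j + b - c) := by
  unfold gap
  rw [if_neg (not_le.2 h), if_neg (not_lt.2 h')]

variable {p : ℕ} {κ : ℚ} {w : List (ℕ × El ℚ)} {g ys : ℕ → ℚ}

theorem MV3_adm_x_even (hp : Even p) : ((g, ys) : P ℚ) ∈ adm ((p, El.x κ) :: w) ↔
    ys 0 = 0 ∧ ((gap 2 2 p (ys 0) g, fun n => ys (n + 1)) : P ℚ) ∈ adm w := by
  simp only [adm, El.cond, if_pos hp, Submodule.mem_inf, Submodule.mem_comap]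
  rfl

theorem MV3_adm_x_odd (hp : ¬ Even p) : ((g, ys) : P ℚ) ∈ adm ((p, El.x κ) :: w) ↔
    ((gap 2 2 p (ys 0) g, fun n => ys (n + 1)) : P ℚ) ∈ adm w := by
  simp only [adm, El.cond, if_neg hp, Submodule.mem_inf, Submodule.mem_comap, Submodule.mem_top, true_and]
  rfl

theorem MV3_adm_cup_even (hp : Even p) : ((g, ys) : P ℚ) ∈ adm ((p, El.cup) :: w) ↔
    ys 0 = 0 ∧ ((gap 0 2 p (ys 0) g, fun n => ys (n + 1)) : P ℚ) ∈ adm w := by
  simp only [adm, El.cond, if_pos hp, Submodule.mem_inf, Submodule.mem_comap]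
  rfl

theorem MV3_adm_cup_odd (hp : ¬ Even p) : ((g, ys) : P ℚ) ∈ adm ((p, El.cup) :: w) ↔
    ((gap 0 2 p (ys 0) g, fun n => ys (n + 1)) : P ℚ) ∈ adm w := by
  simp only [adm, El.cond, if_neg hp, Submodule.mem_inf, Submodule.mem_comap, Submodule.mem_top, true_and]
  rfl

theorem MV3_adm_cap : ((g, ys) : P ℚ) ∈ adm ((p, El.cap) :: w) ↔
    (ys 0 = 0 ∧ g p = g (p + 2)) ∧ ((gap 2 0 p (ys 0) g, fun n => ys (n + 1)) : P ℚ) ∈ adm w := by
  simp only [adm, El.cond, Submodule.mem_inf, Submodule.mem_comap]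
  have : ((g, ys) : P ℚ) ∈ LinearMap.ker (gl (R := ℚ) p - gl (p + 2)) ↔ g p = g (p + 2) := by
    rw [LinearMap.mem_ker]
    exact sub_eq_zero
  rw [this]
  rfl

theorem MV3_frm_x_even (hp : Even p) : frm ((p, El.x κ) :: w) ((g, ys) : P ℚ) ((g, ys) : P ℚ) =
    κ * (g p - g (p + 2)) ^ 2 + frm w ((gap 2 2 p (ys 0) g, fun n => ys (n + 1)) : P ℚ)
      ((gap 2 2 p (ys 0) g, fun n => ys (n + 1)) : P ℚ) := by
  simp only [frm, El.loc, if_pos hp]
  have : (κ • sqf (gl (R := ℚ) p - gl (p + 2))) ((g, ys) : P ℚ) ((g, ys) : P ℚ) =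
      κ * (g p - g (p + 2)) ^ 2 := by
    rw [sq]
    rfl
  rw [← this]
  rfl

theorem MV3_frm_x_odd (hp : ¬ Even p) : frm ((p, El.x κ) :: w) ((g, ys) : P ℚ) ((g, ys) : P ℚ) =
    κ * (g (p + 1) - ys 0) ^ 2 + frm w ((gap 2 2 p (ys 0) g, fun n => ys (n + 1)) : P ℚ)
      ((gap 2 2 p (ys 0) g, fun n => ys (n + 1)) : P ℚ) := by
  simp only [frm, El.loc, if_neg hp]
  have : (κ • sqf (gl (R := ℚ) (p + 1) - nw)) ((g, ys) : P ℚ) ((g, ys) : P ℚ) =
      κ * (g (p + 1) - ys 0) ^ 2 := by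
    rw [sq]
    rfl
  rw [← this]
  rfl

theorem MV3_frm_cup : frm ((p, El.cup) :: w) ((g, ys) : P ℚ) ((g, ys) : P ℚ) =
    frm w ((gap 0 2 p (ys 0) g, fun n => ys (n + 1)) : P ℚ)
      ((gap 0 2 p (ys 0) g, fun n => ys (n + 1)) : P ℚ) := by
  simp only [frm, El.loc, zero_add]
  rfl

theorem MV3_frm_cap : frm ((p, El.cap) :: w) ((g, ys) : P ℚ) ((g, ys) : P ℚ) =
    frm w ((gap 2 0 p (ys 0) g, fun n => ys (n + 1)) : P ℚ)
      ((gap 2 0 p (ys 0) g, fun n => ys (n + 1)) : P ℚ) := by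
  simp only [frm, El.loc, zero_add]
  rfl

theorem MV3_st (p : ℕ) (g : ℕ → ℚ) (y0 y1 y2 y3 y4 y5 y6 y7 : ℚ) (h : y6 = g (p + 2)) :
    gap 2 0 (p + 2) y7 (gap 2 2 (p + 1) y6 (gap 2 2 p y5 (gap 2 2 p y4 (gap 2 2 (p + 1) y3
      (gap 2 2 (p + 1) y2 (gap 0 2 (p + 2) y1 (gap 2 2 p y0 g))))))) = gap 2 2 p y5 g := by
  funext j
  obtain h1 | h1 | h1 | h1 : j ≤ p ∨ j = p + 1 ∨ j = p + 2 ∨ p + 3 ≤ j := by omega
  · simp (disch := omega) only [MV3_gap_le]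
  · subst h1
    simp (disch := omega) only [MV3_gap_le, MV3_gap_mid]
  · subst h1
    simp (disch := omega) only [MV3_gap_le, MV3_gap_mid, MV3_gap_ge]
    rw [h]
    simp
  · simp (disch := omega) only [MV3_gap_ge]
    congr 1

/-- the word with the third strand closed -/
def MV3_W (p : ℕ) (κ : ℚ) (v : List (ℕ × El ℚ)) : List (ℕ × El ℚ) :=
  (p, El.x κ) :: (p + 2, El.cup) :: (p + 1, El.x κ) :: (p + 1, El.x κ) ::
      (p, El.x (-κ)) :: (p, El.x (-κ)) :: (p + 1, El.x κ) :: (p + 2, El.cap) :: v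

theorem MV3_adm_even (hp : Even p) (v : List (ℕ × El ℚ)) : ((g, ys) : P ℚ) ∈ adm (MV3_W p κ v) ↔
    ys 0 = 0 ∧ ys 1 = 0 ∧ ys 4 = 0 ∧ ys 5 = 0 ∧ ys 7 = 0 ∧ ys 6 = g (p + 2) ∧
      ((gap 2 2 p (ys 5) g, fun n => ys (n + 8)) : P ℚ) ∈ adm v := by
  have hp1 : ¬ Even (p + 1) := by
    rw [Nat.even_add_one]
    exact not_not.2 hp
  have hp2 : Even (p + 2) := by
    rw [Nat.even_add]
    simp [hp]
  unfold MV3_W
  rw [MV3_adm_x_even hp, MV3_adm_cup_even hp2, MV3_adm_x_odd hp1, MV3_adm_x_odd hp1, MV3_adm_x_even hp,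
    MV3_adm_x_even hp, MV3_adm_x_odd hp1, MV3_adm_cap]
  simp only [zero_add, Nat.reduceAdd]
  have e1 : ∀ (y0 y1 y2 y3 y4 y5 y6 : ℚ), (gap 2 2 (p + 1) y6 (gap 2 2 p y5 (gap 2 2 p y4 (gap 2 2 (p + 1) y3
      (gap 2 2 (p + 1) y2 (gap 0 2 (p + 2) y1 (gap 2 2 p y0 g))))))) (p + 2) = y6 := by
    intro y0 y1 y2 y3 y4 y5 y6
    simp (disch := omega) only [MV3_gap_mid]
  have e2 : ∀ (y0 y1 y2 y3 y4 y5 y6 : ℚ), (gap 2 2 (p + 1) y6 (gap 2 2 p y5 (gap 2 2 p y4 (gap 2 2 (p + 1) y3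
      (gap 2 2 (p + 1) y2 (gap 0 2 (p + 2) y1 (gap 2 2 p y0 g))))))) (p + 2 + 2) = g (p + 2) := by
    intro y0 y1 y2 y3 y4 y5 y6
    simp (disch := omega) only [MV3_gap_ge]
    congr 1
  rw [e1, e2]
  constructor
  · rintro ⟨h0, h1, h4, h5, ⟨h7, h6⟩, h8⟩
    refine ⟨h0, h1, h4, h5, h7, h6, ?_⟩
    rwa [MV3_st p g _ _ _ _ _ _ _ _ h6] at h8
  · rintro ⟨h0, h1, h4, h5, h7, h6, h8⟩
    refine ⟨h0, h1, h4, h5, ⟨h7, h6⟩, ?_⟩
    rwa [MV3_st p g _ _ _ _ _ _ _ _ h6]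

theorem MV3_frm_even (hp : Even p) (v : List (ℕ × El ℚ)) (h6 : ys 6 = g (p + 2)) :
    frm (MV3_W p κ v) ((g, ys) : P ℚ) ((g, ys) : P ℚ) =
    κ * ((g p - g (p + 2)) ^ 2 + (g (p + 2) - ys 2) ^ 2 + (ys 2 - ys 3) ^ 2 -
      2 * (g p - ys 3) ^ 2 + (ys 3 - g (p + 2)) ^ 2) +
    frm v ((gap 2 2 p (ys 5) g, fun n => ys (n + 8)) : P ℚ)
      ((gap 2 2 p (ys 5) g, fun n => ys (n + 8)) : P ℚ) := by
  have hp1 : ¬ Even (p + 1) := by
    rw [Nat.even_add_one]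
    exact not_not.2 hp
  unfold MV3_W
  rw [MV3_frm_x_even hp, MV3_frm_cup, MV3_frm_x_odd hp1, MV3_frm_x_odd hp1, MV3_frm_x_even hp,
    MV3_frm_x_even hp, MV3_frm_x_odd hp1, MV3_frm_cap]
  simp only [zero_add, Nat.reduceAdd]
  rw [MV3_st p g _ _ _ _ _ _ _ _ h6]
  have e : p + 1 + 1 = p + 2 := rfl
  simp (disch := omega) only [MV3_gap_le, MV3_gap_mid, MV3_gap_ge, e, Nat.add_sub_cancel]
  rw [h6]
  ring

theorem MV3_adm_odd (hp : ¬ Even p) (hg : Wh g) (v : List (ℕ × El ℚ)) :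
    ((g, ys) : P ℚ) ∈ adm (MV3_W p κ v) ↔
    ys 2 = 0 ∧ ys 3 = 0 ∧ ys 6 = 0 ∧ ys 7 = 0 ∧
      ((gap 2 2 p (ys 5) g, fun n => ys (n + 8)) : P ℚ) ∈ adm v := by
  have hp1 : Even (p + 1) := by
    rw [Nat.even_add_one]
    exact hp
  have hp2 : ¬ Even (p + 2) := by
    rw [Nat.even_add]
    simp [hp]
  have hg2 : g (p + 2) = 0 := hg _ hp2
  unfold MV3_W
  rw [MV3_adm_x_odd hp, MV3_adm_cup_odd hp2, MV3_adm_x_even hp1, MV3_adm_x_even hp1, MV3_adm_x_odd hp,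
    MV3_adm_x_odd hp, MV3_adm_x_even hp1, MV3_adm_cap]
  simp only [zero_add, Nat.reduceAdd]
  have e1 : ∀ (y0 y1 y2 y3 y4 y5 y6 : ℚ), (gap 2 2 (p + 1) y6 (gap 2 2 p y5 (gap 2 2 p y4 (gap 2 2 (p + 1) y3
      (gap 2 2 (p + 1) y2 (gap 0 2 (p + 2) y1 (gap 2 2 p y0 g))))))) (p + 2) = y6 := by
    intro y0 y1 y2 y3 y4 y5 y6
    simp (disch := omega) only [MV3_gap_mid]
  have e2 : ∀ (y0 y1 y2 y3 y4 y5 y6 : ℚ), (gap 2 2 (p + 1) y6 (gap 2 2 p y5 (gap 2 2 p y4 (gap 2 2 (p + 1) y3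
      (gap 2 2 (p + 1) y2 (gap 0 2 (p + 2) y1 (gap 2 2 p y0 g))))))) (p + 2 + 2) = g (p + 2) := by
    intro y0 y1 y2 y3 y4 y5 y6
    simp (disch := omega) only [MV3_gap_ge]
    congr 1
  rw [e1, e2, hg2]
  constructor
  · rintro ⟨h2, h3, h6, ⟨h7, -⟩, h8⟩
    refine ⟨h2, h3, h6, h7, ?_⟩
    rwa [MV3_st p g _ _ _ _ _ _ _ _ (h6.trans hg2.symm)] at h8
  · rintro ⟨h2, h3, h6, h7, h8⟩
    refine ⟨h2, h3, h6, ⟨h7, h6⟩, ?_⟩
    rwa [MV3_st p g _ _ _ _ _ _ _ _ (h6.trans hg2.symm)]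

theorem MV3_frm_odd (hp : ¬ Even p) (hg : Wh g) (v : List (ℕ × El ℚ)) (h6 : ys 6 = 0) :
    frm (MV3_W p κ v) ((g, ys) : P ℚ) ((g, ys) : P ℚ) =
    κ * ((g (p + 1) - ys 0) ^ 2 + 2 * (ys 0 - ys 1) ^ 2 - (ys 0 - ys 4) ^ 2 - (ys 4 - ys 5) ^ 2 +
      (ys 5 - ys 1) ^ 2) +
    frm v ((gap 2 2 p (ys 5) g, fun n => ys (n + 8)) : P ℚ)
      ((gap 2 2 p (ys 5) g, fun n => ys (n + 8)) : P ℚ) := by
  have hp1 : Even (p + 1) := by
    rw [Nat.even_add_one]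
    exact hp
  have hp2 : ¬ Even (p + 2) := by
    rw [Nat.even_add]
    simp [hp]
  have hg2 : g (p + 2) = 0 := hg _ hp2
  unfold MV3_W
  rw [MV3_frm_x_odd hp, MV3_frm_cup, MV3_frm_x_even hp1, MV3_frm_x_even hp1, MV3_frm_x_odd hp,
    MV3_frm_x_odd hp, MV3_frm_x_even hp1, MV3_frm_cap]
  simp only [zero_add, Nat.reduceAdd]
  rw [MV3_st p g _ _ _ _ _ _ _ _ (h6.trans hg2.symm)]
  simp (disch := omega) only [MV3_gap_le, MV3_gap_mid, MV3_gap_ge, Nat.add_sub_cancel]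
  ring

theorem MV3_sign (κ : ℚ) (hκ : κ ^ 2 = 1) : κ = 1 ∨ κ = -1 := by
  have h : (κ - 1) * (κ + 1) = 0 := by linear_combination hκ
  rcases mul_eq_zero.1 h with h | h
  · exact Or.inl (sub_eq_zero.1 h)
  · exact Or.inr (eq_neg_of_add_eq_zero_left h)

theorem sg_M_even (p : ℕ) (hp : Even p) (κ : ℚ) (hκ : κ ^ 2 = 1) (v : List (ℕ × El ℚ)) :
    SGeq ((p, El.x κ) :: (p + 2, El.cup) :: (p + 1, El.x κ) :: (p + 1, El.x κ) ::
      (p, El.x (-κ)) :: (p, El.x (-κ)) :: (p + 1, El.x κ) :: (p + 2, El.cap) :: v)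
      ((p, El.x (7 * κ)) :: v) 0 := by
  have h : RD ((p, El.x (7 * κ)) :: v) (MV3_W p κ v) (k := 2) ![2 * κ, -κ / 2]
      (fun a => cns 0 (cns 0 (cns (a.2 0 + a.2 1 / 2 + 2 * a.1.1 p - a.1.1 (p + 2))
        (cns (a.2 1 + 4 * a.1.1 p - 3 * a.1.1 (p + 2)) (cns 0 (cns 0 (cns (a.1.1 (p + 2)) (cns 0
          (fun n => a.1.2 (n + 1))))))))))
      (fun x => (cns 0 (fun n => x.2 (n + 8)),
        ![(x.2 2 - x.1 (p + 2)) - (x.2 3 - x.1 (p + 2)) / 2,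
          (x.2 3 - x.1 (p + 2)) - 4 * (x.1 p - x.1 (p + 2))])) := by
    constructor
    · constructor
      · intro x y
        funext n
        rcases n with _ | _ | _ | _ | _ | _ | _ | _ | n <;> simp [cns] <;> ring
      · intro c x
        funext n
        rcases n with _ | _ | _ | _ | _ | _ | _ | _ | n <;> simp [cns] <;> ring
    · constructor
      · intro x y
        refine Prod.ext ?_ ?_
        · funext n
          rcases n with _ | n <;> simp [cns]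
        · funext i
          fin_cases i <;> simp <;> ring
      · intro c x
        refine Prod.ext ?_ ?_
        · funext n
          rcases n with _ | n <;> simp [cns]
        · funext i
          fin_cases i <;> simp <;> ring
    · intro g ys t hg hw
      rw [MV3_adm_x_even hp] at hw
      rw [MV3_adm_even hp]
      obtain ⟨h0, h1⟩ := hw
      rw [h0] at h1
      exact ⟨rfl, rfl, rfl, rfl, rfl, rfl, h1⟩
    · intro g ys t hg hw
      rw [MV3_adm_x_even hp] at hw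
      obtain ⟨h0, h1⟩ := hw
      rw [MV3_frm_even hp v rfl, MV3_frm_x_even hp, h0]
      simp only [cns, Fin.sum_univ_two, Matrix.cons_val_zero, Matrix.cons_val_one]
      ring
    · intro g ys t hg hw
      rw [MV3_adm_x_even hp] at hw
      obtain ⟨h0, h1⟩ := hw
      refine Prod.ext ?_ ?_
      · funext n
        rcases n with _ | n
        · simp [cns, h0]
        · simp [cns]
      · funext i
        fin_cases i <;> simp [cns] <;> ring
    · intro g ys hg hw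
      rw [MV3_adm_even hp] at hw
      obtain ⟨h0, h1, h4, h5, h7, h6, h8⟩ := hw
      rw [MV3_adm_x_even hp]
      rw [h5] at h8
      exact ⟨rfl, h8⟩
    · intro g ys hg hw
      rw [MV3_adm_even hp] at hw
      obtain ⟨h0, h1, h4, h5, h7, h6, h8⟩ := hw
      funext n
      rcases n with _ | _ | _ | _ | _ | _ | _ | _ | n <;> simp [cns, h0, h1, h4, h5, h7, h6] <;> ring
  have h2 := h.sgeq
  have h3 : (∑ i : Fin 2, (SignType.sign ((![2 * κ, -κ / 2] : Fin 2 → ℚ) i) : ℤ)) = 0 := by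
    rw [Fin.sum_univ_two]
    simp only [Matrix.cons_val_zero, Matrix.cons_val_one]
    rcases MV3_sign κ hκ with rfl | rfl
    · rw [sign_pos (by norm_num : (0 : ℚ) < 2 * 1), sign_neg (by norm_num : (-1 / 2 : ℚ) < 0)]
      simp
    · rw [sign_neg (by norm_num : (2 * -1 : ℚ) < 0), sign_pos (by norm_num : (0 : ℚ) < -(-1) / 2)]
      simp
  rw [h3] at h2
  exact h2

theorem sg_M_odd (p : ℕ) (hp : ¬ Even p) (κ : ℚ) (hκ : κ ^ 2 = 1) (v : List (ℕ × El ℚ)) :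
    SGeq ((p, El.x κ) :: (p + 2, El.cup) :: (p + 1, El.x κ) :: (p + 1, El.x κ) ::
      (p, El.x (-κ)) :: (p, El.x (-κ)) :: (p + 1, El.x κ) :: (p + 2, El.cap) :: v)
      ((p, El.x (κ / 7)) :: v) (SignType.sign κ : ℤ) := by
  have h : RD ((p, El.x (κ / 7)) :: v) (MV3_W p κ v) (k := 3) ![-2 * κ, 3 * κ, 7 * κ / 6]
      (fun a => cns ((a.2 2 + 6 * (a.1.1 (p + 1) - a.1.2 0) / 7) + a.1.2 0)
        (cns ((a.2 1 + 2 * (a.2 2 + 6 * (a.1.1 (p + 1) - a.1.2 0) / 7) / 3) + a.1.2 0)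
          (cns 0 (cns 0 (cns ((a.2 0 + (a.2 2 + 6 * (a.1.1 (p + 1) - a.1.2 0) / 7) / 2) + a.1.2 0)
            (cns (a.1.2 0) (cns 0 (cns 0 (fun n => a.1.2 (n + 1))))))))))
      (fun x => (cns (x.2 5) (fun n => x.2 (n + 8)),
        ![(x.2 4 - x.2 5) - (x.2 0 - x.2 5) / 2,
          (x.2 1 - x.2 5) - 2 * (x.2 0 - x.2 5) / 3,
          (x.2 0 - x.2 5) - 6 * (x.1 (p + 1) - x.2 5) / 7])) := by
    constructor
    · constructor
      · intro x y
        funext n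
        rcases n with _ | _ | _ | _ | _ | _ | _ | _ | n <;> simp [cns] <;> ring
      · intro c x
        funext n
        rcases n with _ | _ | _ | _ | _ | _ | _ | _ | n <;> simp [cns] <;> ring
    · constructor
      · intro x y
        refine Prod.ext ?_ ?_
        · funext n
          rcases n with _ | n <;> simp [cns]
        · funext i
          fin_cases i <;> simp <;> ring
      · intro c x
        refine Prod.ext ?_ ?_
        · funext n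
          rcases n with _ | n <;> simp [cns]
        · funext i
          fin_cases i <;> simp <;> ring
    · intro g ys t hg hw
      rw [MV3_adm_x_odd hp] at hw
      rw [MV3_adm_odd hp hg]
      exact ⟨rfl, rfl, rfl, rfl, hw⟩
    · intro g ys t hg hw
      rw [MV3_frm_odd hp hg v rfl, MV3_frm_x_odd hp]
      simp only [cns, Fin.sum_univ_three, Matrix.cons_val_zero, Matrix.cons_val_one, Matrix.cons_val_two,
        Matrix.tail_cons, Matrix.head_cons]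
      ring
    · intro g ys t hg hw
      refine Prod.ext ?_ ?_
      · funext n
        rcases n with _ | n <;> simp [cns]
      · funext i
        fin_cases i <;> simp [cns]
    · intro g ys hg hw
      rw [MV3_adm_odd hp hg] at hw
      obtain ⟨h2, h3, h6, h7, h8⟩ := hw
      rw [MV3_adm_x_odd hp]
      exact h8
    · intro g ys hg hw
      rw [MV3_adm_odd hp hg] at hw
      obtain ⟨h2, h3, h6, h7, h8⟩ := hw
      funext n
      rcases n with _ | _ | _ | _ | _ | _ | _ | _ | n <;> simp [cns, h2, h3, h6, h7]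
  have h2 := h.sgeq
  have h3 : (∑ i : Fin 3, (SignType.sign ((![-2 * κ, 3 * κ, 7 * κ / 6] : Fin 3 → ℚ) i) : ℤ)) =
      (SignType.sign κ : ℤ) := by
    rw [Fin.sum_univ_three]
    simp only [Matrix.cons_val_zero, Matrix.cons_val_one, Matrix.cons_val_two, Matrix.tail_cons,
      Matrix.head_cons]
    rcases MV3_sign κ hκ with rfl | rfl
    · rw [sign_neg (by norm_num : (-2 * 1 : ℚ) < 0), sign_pos (by norm_num : (0 : ℚ) < 3 * 1),
        sign_pos (by norm_num : (0 : ℚ) < 7 * 1 / 6), sign_pos (by norm_num : (0 : ℚ) < 1)]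
      simp
    · rw [sign_pos (by norm_num : (0 : ℚ) < -2 * -1), sign_neg (by norm_num : (3 * -1 : ℚ) < 0),
        sign_neg (by norm_num : (7 * -1 / 6 : ℚ) < 0), sign_neg (by norm_num : (-1 : ℚ) < 0)]
      simp
  rw [h3] at h2
  exact h2

end MPab0b07
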