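import Pool.Agent.Lib.MP_ab0b07_gt.RD

/-!
# The signature of the form: trefoil tangles
-/

set_option linter.unusedSimpArgs false
set_option linter.unnecessarySeqFocus false

namespace MPab0b07

theorem MV3b_lo {b c p j : ℕ} (h : j ≤ p) (y : ℚ) (g : ℕ → ℚ) : gap b c p y g j = g j :=
  if_pos h

theorem MV3b_hi {b c p j : ℕ} (h : p < j) (h' : p + c ≤ j) (y : ℚ) (g : ℕ → ℚ) :
    gap b c p y g j = g (j + b - c) := by
  unfold gap
  rw [if_neg (by omega), if_neg (by omega)]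

/-- the labels after the tangle: only the label of the gap `p + 1` has changed -/
theorem MV3b_gap (p : ℕ) (y0 y1 y2 y3 y4 : ℚ) (g : ℕ → ℚ) :
    gap 2 0 (p + 1) y4 (gap 2 2 p y3 (gap 2 2 p y2 (gap 2 2 p y1 (gap 0 2 (p + 1) y0 g)))) =
      fun j => if j = p + 1 then y3 else g j := by
  funext j
  rcases lt_trichotomy j (p + 1) with h | h | h
  · rw [MV3b_lo (by omega), MV3b_lo (by omega), MV3b_lo (by omega), MV3b_lo (by omega),
      MV3b_lo (by omega), if_neg (by omega)]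
  · subst h
    rw [MV3b_lo le_rfl, if_pos rfl]
    simp [gap]
  · rw [MV3b_hi h (by omega), MV3b_hi (by omega) (by omega), MV3b_hi (by omega) (by omega),
      MV3b_hi (by omega) (by omega), MV3b_hi (by omega) (by omega), if_neg (by omega)]
    congr 1

theorem MV3b_gap_a (p : ℕ) (y0 : ℚ) (g : ℕ → ℚ) : gap 0 2 (p + 1) y0 g p = g p := by
  simp [gap]

theorem MV3b_gap_b (p : ℕ) (y0 : ℚ) (g : ℕ → ℚ) : gap 0 2 (p + 1) y0 g (p + 1) = g (p + 1) := by
  simp [gap]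

theorem MV3b_gap_c (p : ℕ) (y0 : ℚ) (g : ℕ → ℚ) : gap 0 2 (p + 1) y0 g (p + 2) = y0 := by
  simp [gap]

theorem MV3b_gap_d (p : ℕ) (y0 : ℚ) (g : ℕ → ℚ) : gap 0 2 (p + 1) y0 g (p + 3) = g (p + 1) := by
  simp [gap]

theorem MV3b_gap_e (p : ℕ) (y0 : ℚ) (g : ℕ → ℚ) : gap 2 2 p y0 g p = g p := by
  simp [gap]

theorem MV3b_gap_f (p : ℕ) (y0 : ℚ) (g : ℕ → ℚ) : gap 2 2 p y0 g (p + 1) = y0 := by
  simp [gap]

theorem MV3b_gap_g (p : ℕ) (y0 : ℚ) (g : ℕ → ℚ) : gap 2 2 p y0 g (p + 2) = g (p + 2) := by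
  simp [gap]

theorem MV3b_gap_h (p : ℕ) (y0 : ℚ) (g : ℕ → ℚ) : gap 2 2 p y0 g (p + 3) = g (p + 3) := by
  simp [gap]

theorem MV3b_upd {p : ℕ} {y : ℚ} {g : ℕ → ℚ} (h : g (p + 1) = y) :
    (fun j => if j = p + 1 then y else g j) = g := by
  funext j
  by_cases hj : j = p + 1
  · simp [hj, h]
  · simp [hj]

/-- the labellings of the tangle, `p` even -/
theorem MV3b_adm_even {p : ℕ} (hp : Even p) (a κ : ℚ) (v : List (ℕ × El ℚ)) {g ys : ℕ → ℚ}
    (hg : Wh g) :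
    (g, ys) ∈ adm ((p + 1, El.cup) :: (p, El.x a) :: (p, El.x κ) :: (p, El.x κ) ::
      (p + 1, El.cap) :: v) ↔
    (ys 1 = 0 ∧ ys 2 = 0 ∧ ys 3 = 0 ∧ ys 4 = 0) ∧ (g, fun n => ys (n + 5)) ∈ adm v := by
  have hp1 : ¬ Even (p + 1) := by rw [Nat.even_add_one]; simpa using hp
  have hw : g (p + 1) = 0 := hg _ hp1
  simp only [adm, El.cond, El.stp, hp, hp1, if_true, if_false, Submodule.mem_inf,
    Submodule.mem_comap, Submodule.mem_top, true_and, LinearMap.mem_ker, stp, nw, gl,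
    LinearMap.coe_mk, AddHom.coe_mk, LinearMap.comp_apply, LinearMap.snd_apply,
    LinearMap.fst_apply, LinearMap.proj_apply, LinearMap.sub_apply, MV3b_gap, MV3b_gap_f,
    MV3b_gap_h, MV3b_gap_d, hw, sub_zero, zero_add]
  constructor
  · rintro ⟨h1, h2, h3, ⟨h4, -⟩, h5⟩
    rw [h3, MV3b_upd hw] at h5
    exact ⟨⟨h1, h2, h3, h4⟩, h5⟩
  · rintro ⟨⟨h1, h2, h3, h4⟩, h5⟩
    refine ⟨h1, h2, h3, ⟨h4, h3⟩, ?_⟩
    rw [h3, MV3b_upd hw]
    exact h5

/-- the form of the tangle, `p` even -/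
theorem MV3b_frm_even {p : ℕ} (hp : Even p) (a κ : ℚ) (v : List (ℕ × El ℚ)) {g ys : ℕ → ℚ}
    (hg : Wh g) (h3 : ys 3 = 0) :
    frm ((p + 1, El.cup) :: (p, El.x a) :: (p, El.x κ) :: (p, El.x κ) ::
      (p + 1, El.cap) :: v) (g, ys) (g, ys) =
    frm v (g, fun n => ys (n + 5)) (g, fun n => ys (n + 5)) + (a + 2 * κ) * (ys 0 - g p) ^ 2 := by
  have hp1 : ¬ Even (p + 1) := by rw [Nat.even_add_one]; simpa using hp
  have hw : g (p + 1) = 0 := hg _ hp1
  simp only [frm, El.loc, El.stp, hp, hp1, if_true, if_false, sqf, LinearMap.add_apply,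
    LinearMap.zero_apply, LinearMap.smul_apply, LinearMap.compl₁₂_apply, LinearMap.mul_apply',
    stp, nw, gl,
    LinearMap.coe_mk, AddHom.coe_mk, LinearMap.comp_apply, LinearMap.snd_apply,
    LinearMap.fst_apply, LinearMap.proj_apply, LinearMap.sub_apply, MV3b_gap, MV3b_gap_f,
    MV3b_gap_h, MV3b_gap_d, MV3b_gap_a, MV3b_gap_c, MV3b_gap_e, MV3b_gap_g, smul_eq_mul,
    zero_add, h3, MV3b_upd hw]
  ring

theorem sg_tr_even (p : ℕ) (hp : Even p) (a κ : ℚ) (v : List (ℕ × El ℚ)) :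
    SGeq ((p + 1, El.cup) :: (p, El.x a) :: (p, El.x κ) :: (p, El.x κ) ::
      (p + 1, El.cap) :: v) v (SignType.sign (a + 2 * κ) : ℤ) := by
  have h : RD v ((p + 1, El.cup) :: (p, El.x a) :: (p, El.x κ) :: (p, El.x κ) ::
      (p + 1, El.cap) :: v) ![a + 2 * κ]
      (fun x => cns (x.1.1 p + x.2 0) (cns 0 (cns 0 (cns 0 (cns 0 x.1.2)))))
      (fun x => (fun n => x.2 (n + 5), ![x.2 0 - x.1 p])) := by
    refine ⟨⟨fun x y => ?_, fun c x => ?_⟩, ⟨fun x y => ?_, fun c x => ?_⟩, ?_, ?_, ?_, ?_, ?_⟩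
    · funext n
      rcases n with _ | _ | _ | _ | _ | n <;> simp [cns] <;> ring
    · funext n
      rcases n with _ | _ | _ | _ | _ | n <;> simp [cns] <;> ring
    · refine Prod.ext (by funext n; simp) ?_
      funext i
      fin_cases i
      simp
      ring
    · refine Prod.ext (by funext n; simp) ?_
      funext i
      fin_cases i
      simp
      ring
    · intro g ys t hg h
      rw [MV3b_adm_even hp a κ v hg]
      exact ⟨⟨rfl, rfl, rfl, rfl⟩, h⟩
    · intro g ys t hg h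
      rw [MV3b_frm_even hp a κ v hg rfl]
      simp [cns]
    · intro g ys t hg h
      refine Prod.ext (by funext n; simp [cns]) ?_
      funext i
      fin_cases i
      simp [cns]
    · intro g ys hg h
      rw [MV3b_adm_even hp a κ v hg] at h
      exact h.2
    · intro g ys hg h
      rw [MV3b_adm_even hp a κ v hg] at h
      obtain ⟨⟨h1, h2, h3, h4⟩, -⟩ := h
      funext n
      rcases n with _ | _ | _ | _ | _ | n <;> simp [cns, h1, h2, h3, h4]
  have := h.sgeq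
  simpa using this

/-- the labellings of the tangle, `p` odd -/
theorem MV3b_adm_odd {p : ℕ} (hp : ¬ Even p) (a κ : ℚ) (v : List (ℕ × El ℚ)) {g ys : ℕ → ℚ} :
    (g, ys) ∈ adm ((p + 1, El.cup) :: (p, El.x a) :: (p, El.x κ) :: (p, El.x κ) ::
      (p + 1, El.cap) :: v) ↔
    (ys 0 = 0 ∧ ys 3 = g (p + 1) ∧ ys 4 = 0) ∧ (g, fun n => ys (n + 5)) ∈ adm v := by
  have hp1 : Even (p + 1) := by rw [Nat.even_add_one]; exact hp
  simp only [adm, El.cond, El.stp, hp, hp1, if_true, if_false, Submodule.mem_inf,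
    Submodule.mem_comap, Submodule.mem_top, true_and, LinearMap.mem_ker, stp, nw, gl,
    LinearMap.coe_mk, AddHom.coe_mk, LinearMap.comp_apply, LinearMap.snd_apply,
    LinearMap.fst_apply, LinearMap.proj_apply, LinearMap.sub_apply, MV3b_gap, MV3b_gap_f,
    MV3b_gap_h, MV3b_gap_d, zero_add, sub_eq_zero]
  constructor
  · rintro ⟨h1, ⟨h4, h3⟩, h5⟩
    rw [h3, MV3b_upd rfl] at h5
    exact ⟨⟨h1, h3, h4⟩, h5⟩
  · rintro ⟨⟨h1, h3, h4⟩, h5⟩
    refine ⟨h1, ⟨h4, h3⟩, ?_⟩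
    rw [h3, MV3b_upd rfl]
    exact h5

/-- the form of the tangle, `p` odd -/
theorem MV3b_frm_odd {p : ℕ} (hp : ¬ Even p) (a κ : ℚ) (v : List (ℕ × El ℚ)) {g ys : ℕ → ℚ}
    (h3 : ys 3 = g (p + 1)) :
    frm ((p + 1, El.cup) :: (p, El.x a) :: (p, El.x κ) :: (p, El.x κ) ::
      (p + 1, El.cap) :: v) (g, ys) (g, ys) =
    frm v (g, fun n => ys (n + 5)) (g, fun n => ys (n + 5)) +
      (2 * κ * (ys 2 - g (p + 1) - (ys 1 - g (p + 1)) / 2) ^ 2 +
        (a + κ / 2) * (ys 1 - g (p + 1)) ^ 2) := by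
  have hp1 : Even (p + 1) := by rw [Nat.even_add_one]; exact hp
  simp only [frm, El.loc, El.stp, hp, hp1, if_true, if_false, sqf, LinearMap.add_apply,
    LinearMap.zero_apply, LinearMap.smul_apply, LinearMap.compl₁₂_apply, LinearMap.mul_apply',
    stp, nw, gl,
    LinearMap.coe_mk, AddHom.coe_mk, LinearMap.comp_apply, LinearMap.snd_apply,
    LinearMap.fst_apply, LinearMap.proj_apply, LinearMap.sub_apply, MV3b_gap, MV3b_gap_f,
    MV3b_gap_h, MV3b_gap_d, MV3b_gap_a, MV3b_gap_b, MV3b_gap_c, MV3b_gap_e, MV3b_gap_g,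
    smul_eq_mul, zero_add, h3, MV3b_upd rfl]
  ring

theorem MV3b_sign_two (κ : ℚ) : SignType.sign (2 * κ) = SignType.sign κ := by
  rw [sign_mul, sign_pos (by norm_num), one_mul]

theorem sg_tr_odd (p : ℕ) (hp : ¬ Even p) (a κ : ℚ) (hκ : κ ^ 2 = 1) (v : List (ℕ × El ℚ)) :
    SGeq ((p + 1, El.cup) :: (p, El.x a) :: (p, El.x κ) :: (p, El.x κ) ::
      (p + 1, El.cap) :: v) v ((SignType.sign κ : ℤ) + SignType.sign (a + κ / 2)) := by
  have h : RD v ((p + 1, El.cup) :: (p, El.x a) :: (p, El.x κ) :: (p, El.x κ) ::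
      (p + 1, El.cap) :: v) ![2 * κ, a + κ / 2]
      (fun x => cns 0 (cns (x.1.1 (p + 1) + x.2 1) (cns (x.1.1 (p + 1) + x.2 0 + x.2 1 / 2)
        (cns (x.1.1 (p + 1)) (cns 0 x.1.2)))))
      (fun x => (fun n => x.2 (n + 5), ![x.2 2 - x.1 (p + 1) - (x.2 1 - x.1 (p + 1)) / 2,
        x.2 1 - x.1 (p + 1)])) := by
    refine ⟨⟨fun x y => ?_, fun c x => ?_⟩, ⟨fun x y => ?_, fun c x => ?_⟩, ?_, ?_, ?_, ?_, ?_⟩
    · funext n
      rcases n with _ | _ | _ | _ | _ | n <;> simp [cns] <;> ring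
    · funext n
      rcases n with _ | _ | _ | _ | _ | n <;> simp [cns] <;> ring
    · refine Prod.ext (by funext n; simp) ?_
      funext i
      fin_cases i <;> simp <;> ring
    · refine Prod.ext (by funext n; simp) ?_
      funext i
      fin_cases i <;> simp <;> ring
    · intro g ys t hg h
      rw [MV3b_adm_odd hp a κ v]
      exact ⟨⟨rfl, rfl, rfl⟩, h⟩
    · intro g ys t hg h
      rw [MV3b_frm_odd hp a κ v rfl, Fin.sum_univ_two]
      simp only [cns, Matrix.cons_val_zero, Matrix.cons_val_one, Matrix.cons_val_fin_one]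
      ring
    · intro g ys t hg h
      refine Prod.ext (by funext n; simp [cns]) ?_
      funext i
      fin_cases i <;> simp [cns] <;> ring
    · intro g ys hg h
      rw [MV3b_adm_odd hp a κ v] at h
      exact h.2
    · intro g ys hg h
      rw [MV3b_adm_odd hp a κ v] at h
      obtain ⟨⟨h1, h3, h4⟩, -⟩ := h
      funext n
      rcases n with _ | _ | _ | _ | _ | n <;> simp [cns, h1, h3, h4] <;> ring
  have := h.sgeq
  rw [Fin.sum_univ_two] at this
  simpa [MV3b_sign_two] using this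

end MPab0b07
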