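import Pool.Agent.Lib.MP_ab0b07_gt.RD

/-!
# The signature of the form under changes of the weights

The labellings `lab (u ++ (p, x a) :: v)` do not depend on `a`, and the form is
`F (a) = F (0) + a * l ^ 2` with a linear form `l` on the labellings.
-/

namespace MPab0b07

/-! ### Auxiliary facts -/

private theorem MV4_adm_zero (w : List (ℕ × El ℚ)) : ∀ (g ys : ℕ → ℚ), (g, ys) ∈ adm w →
    ∀ n, w.length ≤ n → ys n = 0 := by
  induction w with
  | nil =>
    intro g ys h n _
    have h1 : ys = 0 := h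
    rw [h1]
    rfl
  | cons x w ih =>
    obtain ⟨p, e⟩ := x
    intro g ys h n hn
    have h1 : (El.stp p e) (g, ys) ∈ adm w := h.2
    rw [List.length_cons] at hn
    obtain ⟨m, rfl⟩ : ∃ m, n = m + 1 := ⟨n - 1, by omega⟩
    cases e with
    | cup => exact ih _ _ h1 m (by omega)
    | cap => exact ih _ _ h1 m (by omega)
    | x κ => exact ih _ _ h1 m (by omega)

private theorem MV4_fin (w : List (ℕ × El ℚ)) : FiniteDimensional ℚ (lab w) := by
  let f : lab w →ₗ[ℚ] (Fin w.length → ℚ) :=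
    { toFun := fun y i => y.1 i
      map_add' := fun _ _ => rfl
      map_smul' := fun _ _ => rfl }
  refine Module.Finite.of_injective f ?_
  intro y z h
  apply Subtype.ext
  funext n
  by_cases hn : n < w.length
  · exact congrFun h ⟨n, hn⟩
  · rw [MV4_adm_zero w 0 y.1 y.2 n (by omega), MV4_adm_zero w 0 z.1 z.2 n (by omega)]

private theorem MV4_symm (w : List (ℕ × El ℚ)) : ∀ X Y, frm w X Y = frm w Y X := by
  induction w with
  | nil => intro X Y; rfl
  | cons x w ih =>
    obtain ⟨p, e⟩ := x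
    intro X Y
    have h1 : e.loc p X Y = e.loc p Y X := by
      cases e with
      | cup => rfl
      | cap => rfl
      | x κ =>
        show (κ • (if Even p then sqf (gl p - gl (p + 2)) else sqf (gl (p + 1) - nw))) X Y =
          (κ • (if Even p then sqf (gl p - gl (p + 2)) else sqf (gl (p + 1) - nw))) Y X
        have h2 : ∀ l : P ℚ →ₗ[ℚ] ℚ, sqf l X Y = sqf l Y X := fun l => by
          simp only [sqf, LinearMap.compl₁₂_apply, LinearMap.mul_apply']
          ring
        rw [LinearMap.smul_apply, LinearMap.smul_apply, LinearMap.smul_apply,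
          LinearMap.smul_apply]
        split_ifs <;> rw [h2]
    show (e.loc p + (frm w).compl₁₂ (e.stp p) (e.stp p)) X Y =
      (e.loc p + (frm w).compl₁₂ (e.stp p) (e.stp p)) Y X
    rw [LinearMap.add_apply, LinearMap.add_apply, LinearMap.add_apply, LinearMap.add_apply,
      LinearMap.compl₁₂_apply, LinearMap.compl₁₂_apply, h1, ih]

/-- the signature of a form on labels -/
private noncomputable def MV4_sgL (L : Submodule ℚ (ℕ → ℚ)) (F : LinearMap.BilinForm ℚ (P ℚ)) : ℤ :=
  sg (LinearMap.BilinMap.toQuadraticMap (F.compl₁₂ ((LinearMap.inr ℚ _ _).comp L.subtype)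
    ((LinearMap.inr ℚ _ _).comp L.subtype)))

private theorem MV4_SG (w : List (ℕ × El ℚ)) : SG w = MV4_sgL (lab w) (frm w) := rfl

private theorem MV4_mono (L : Submodule ℚ (ℕ → ℚ)) (hL : FiniteDimensional ℚ L)
    (F F' : LinearMap.BilinForm ℚ (P ℚ)) (h : ∀ X, F X X ≤ F' X X) :
    MV4_sgL L F ≤ MV4_sgL L F' := by
  apply sg_mono
  intro y
  exact h _

private theorem MV4_add_two (L : Submodule ℚ (ℕ → ℚ)) (hL : FiniteDimensional ℚ L)
    (F F' : LinearMap.BilinForm ℚ (P ℚ)) (l : P ℚ →ₗ[ℚ] ℚ) (h : ∀ X, l X = 0 → F' X X = F X X) :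
    MV4_sgL L F' ≤ MV4_sgL L F + 2 := by
  apply sg_le_add_two _ _ (l.comp ((LinearMap.inr ℚ _ _).comp L.subtype))
  intro y hy
  exact h _ hy

private theorem MV4_neg (L : Submodule ℚ (ℕ → ℚ)) (F : LinearMap.BilinForm ℚ (P ℚ)) :
    MV4_sgL L (-F) = - MV4_sgL L F := by
  rw [MV4_sgL, MV4_sgL, ← sg_neg]
  congr 1

private theorem MV4_parity (L : Submodule ℚ (ℕ → ℚ)) (hL : FiniteDimensional ℚ L)
    (F : LinearMap.BilinForm ℚ (P ℚ)) (hF : ∀ X Y, F X Y = F Y X)
    (h : ∀ y ∈ L, (∀ z ∈ L, F (0, y) (0, z) = 0) → y = 0) :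
    Even (MV4_sgL L F - Module.finrank ℚ L) := by
  apply sg_parity
  intro y hy
  apply Subtype.ext
  apply h y.1 y.2
  intro z hz
  have h1 := hy ⟨z, hz⟩
  rw [LinearMap.BilinMap.polar_toQuadraticMap] at h1
  have h2 : F (0, y.1) (0, z) + F (0, z) (0, y.1) = 0 := h1
  rw [hF (0, z)] at h2
  linarith

private theorem MV4_adm (u v : List (ℕ × El ℚ)) (p : ℕ) (a b : ℚ) :
    adm (u ++ (p, El.x a) :: v) = adm (u ++ (p, El.x b) :: v) := by
  induction u with
  | nil => rfl
  | cons x u ih =>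
    obtain ⟨q, e⟩ := x
    show e.cond q ⊓ (adm (u ++ (p, El.x a) :: v)).comap (e.stp q) =
      e.cond q ⊓ (adm (u ++ (p, El.x b) :: v)).comap (e.stp q)
    rw [ih]

private theorem MV4_lab (u v : List (ℕ × El ℚ)) (p : ℕ) (a b : ℚ) :
    lab (u ++ (p, El.x a) :: v) = lab (u ++ (p, El.x b) :: v) := by
  rw [lab, lab, MV4_adm u v p a b]

private theorem MV4_frm (u v : List (ℕ × El ℚ)) (p : ℕ) : ∃ l : P ℚ →ₗ[ℚ] ℚ, ∀ (a b : ℚ) X,
    frm (u ++ (p, El.x b) :: v) X X = frm (u ++ (p, El.x a) :: v) X X + (b - a) * l X ^ 2 := by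
  induction u with
  | nil =>
    refine ⟨if Even p then gl p - gl (p + 2) else gl (p + 1) - nw, fun a b X => ?_⟩
    show (El.loc p (El.x b) + (frm v).compl₁₂ (El.stp p (El.x b)) (El.stp p (El.x b))) X X =
      (El.loc p (El.x a) + (frm v).compl₁₂ (El.stp p (El.x a)) (El.stp p (El.x a))) X X + _
    have h1 : ∀ κ : ℚ, El.loc p (El.x κ) X X =
        κ * (if Even p then gl p - gl (p + 2) else gl (p + 1) - nw : P ℚ →ₗ[ℚ] ℚ) X ^ 2 := by
      intro κ
      show (κ • (if Even p then sqf (gl p - gl (p + 2)) else sqf (gl (p + 1) - nw))) X X = _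
      rw [LinearMap.smul_apply, LinearMap.smul_apply, smul_eq_mul]
      split_ifs
      · simp only [sqf, LinearMap.compl₁₂_apply, LinearMap.mul_apply']
        ring
      · simp only [sqf, LinearMap.compl₁₂_apply, LinearMap.mul_apply']
        ring
    rw [LinearMap.add_apply, LinearMap.add_apply, LinearMap.add_apply, LinearMap.add_apply,
      h1, h1]
    have h2 : ((frm v).compl₁₂ (El.stp p (El.x b)) (El.stp p (El.x b))) X X =
      ((frm v).compl₁₂ (El.stp p (El.x a)) (El.stp p (El.x a))) X X := rfl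
    rw [h2]
    ring
  | cons x u ih =>
    obtain ⟨q, e⟩ := x
    obtain ⟨l, hl⟩ := ih
    refine ⟨l.comp (e.stp q), fun a b X => ?_⟩
    show (e.loc q + (frm (u ++ (p, El.x b) :: v)).compl₁₂ (e.stp q) (e.stp q)) X X =
      (e.loc q + (frm (u ++ (p, El.x a) :: v)).compl₁₂ (e.stp q) (e.stp q)) X X + _
    rw [LinearMap.add_apply, LinearMap.add_apply, LinearMap.add_apply, LinearMap.add_apply,
      LinearMap.compl₁₂_apply, LinearMap.compl₁₂_apply, hl a b, LinearMap.comp_apply]
    ring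

/-! ### The row -/

theorem sg_weight_mono (u v : List (ℕ × El ℚ)) (p : ℕ) {a b : ℚ} (h : a ≤ b) :
    SG (u ++ (p, El.x a) :: v) ≤ SG (u ++ (p, El.x b) :: v) := by
  obtain ⟨l, hl⟩ := MV4_frm u v p
  rw [MV4_SG, MV4_SG, MV4_lab u v p a b]
  apply MV4_mono _ (MV4_fin _)
  intro X
  rw [hl a b X]
  nlinarith [mul_nonneg (sub_nonneg.2 h) (sq_nonneg (l X))]

theorem sg_weight_le (u v : List (ℕ × El ℚ)) (p : ℕ) (a b : ℚ) :
    SG (u ++ (p, El.x b) :: v) ≤ SG (u ++ (p, El.x a) :: v) + 2 := by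
  obtain ⟨l, hl⟩ := MV4_frm u v p
  rw [MV4_SG, MV4_SG, MV4_lab u v p a b]
  apply MV4_add_two _ (MV4_fin _) _ _ l
  intro X hX
  rw [hl a b X, hX]
  ring

/-- change the signs of all weights -/
def negw (w : List (ℕ × El ℚ)) : List (ℕ × El ℚ) :=
  w.map (fun x => (x.1, match x.2 with
    | El.cup => El.cup
    | El.cap => El.cap
    | El.x κ => El.x (-κ)))

private theorem MV4_adm_negw (w : List (ℕ × El ℚ)) : adm (negw w) = adm w := by
  induction w with
  | nil => rfl
  | cons x w ih =>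
    obtain ⟨p, e⟩ := x
    cases e with
    | cup =>
      show El.cond p El.cup ⊓ (adm (negw w)).comap (El.stp p El.cup) =
        El.cond p El.cup ⊓ (adm w).comap (El.stp p El.cup)
      rw [ih]
    | cap =>
      show El.cond p El.cap ⊓ (adm (negw w)).comap (El.stp p El.cap) =
        El.cond p El.cap ⊓ (adm w).comap (El.stp p El.cap)
      rw [ih]
    | x κ =>
      show El.cond p (El.x κ) ⊓ (adm (negw w)).comap (El.stp p (El.x κ)) =
        El.cond p (El.x κ) ⊓ (adm w).comap (El.stp p (El.x κ))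
      rw [ih]

private theorem MV4_frm_negw (w : List (ℕ × El ℚ)) : ∀ X Y, frm (negw w) X Y = - frm w X Y := by
  induction w with
  | nil =>
    intro X Y
    show (0 : ℚ) = -0
    rw [neg_zero]
  | cons x w ih =>
    obtain ⟨p, e⟩ := x
    intro X Y
    cases e with
    | cup =>
      show (0 : ℚ) + frm (negw w) (El.stp p El.cup X) (El.stp p El.cup Y) =
        -((0 : ℚ) + frm w (El.stp p El.cup X) (El.stp p El.cup Y))
      rw [ih]
      ring
    | cap =>
      show (0 : ℚ) + frm (negw w) (El.stp p El.cap X) (El.stp p El.cap Y) =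
        -((0 : ℚ) + frm w (El.stp p El.cap X) (El.stp p El.cap Y))
      rw [ih]
      ring
    | x κ =>
      show (-κ • (if Even p then sqf (gl p - gl (p + 2)) else sqf (gl (p + 1) - nw)) :
          LinearMap.BilinForm ℚ (P ℚ)) X Y +
          frm (negw w) (El.stp p (El.x κ) X) (El.stp p (El.x κ) Y) =
        -((κ • (if Even p then sqf (gl p - gl (p + 2)) else sqf (gl (p + 1) - nw)) :
          LinearMap.BilinForm ℚ (P ℚ)) X Y +
          frm w (El.stp p (El.x κ) X) (El.stp p (El.x κ) Y))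
      rw [ih, LinearMap.smul_apply, LinearMap.smul_apply, LinearMap.smul_apply,
        LinearMap.smul_apply, smul_eq_mul, smul_eq_mul]
      ring

theorem sg_negw (w : List (ℕ × El ℚ)) : SG (negw w) = - SG w := by
  rw [MV4_SG, MV4_SG, lab, MV4_adm_negw, ← MV4_neg]
  congr 1
  refine LinearMap.ext fun X => LinearMap.ext fun Y => ?_
  rw [MV4_frm_negw]
  rfl

/-- Parity: two weights, nondegenerate forms. -/
theorem sg_weight_parity (u v : List (ℕ × El ℚ)) (p : ℕ) (a b : ℚ)
    (ha : ∀ y ∈ lab (u ++ (p, El.x a) :: v), (∀ z ∈ lab (u ++ (p, El.x a) :: v),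
      frm (u ++ (p, El.x a) :: v) (0, y) (0, z) = 0) → y = 0)
    (hb : ∀ y ∈ lab (u ++ (p, El.x b) :: v), (∀ z ∈ lab (u ++ (p, El.x b) :: v),
      frm (u ++ (p, El.x b) :: v) (0, y) (0, z) = 0) → y = 0) :
    Even (SG (u ++ (p, El.x a) :: v) - SG (u ++ (p, El.x b) :: v)) := by
  have h1 := MV4_parity _ (MV4_fin _) _ (MV4_symm _) ha
  have h2 := MV4_parity _ (MV4_fin _) _ (MV4_symm _) hb
  rw [← MV4_SG] at h1 h2
  rw [MV4_lab u v p a b] at h1
  have h3 := h1.sub h2
  rwa [sub_sub_sub_cancel_right] at h3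

end MPab0b07
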