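import Pool.Agent.Lib.MP_ab0b07_gt.ND1

/-!
# The form of a knot diagram is nondegenerate
-/

namespace MPab0b07

open MP5b16f0

universe u

theorem nd2_gap {R S : Type} (τ : R → S) (b c p : ℕ) (y : R) (g : ℕ → R) :
    gap b c p (τ y) (fun j => τ (g j)) = fun j => τ (gap b c p y g j) := by
  funext j
  unfold gap
  split_ifs <;> rfl

theorem nd2_adm {R S : Type} [CommRing R] [CommRing S] (τ : R → S) (h0 : τ 0 = 0) {α : Type u}
    (w : Word α) : ∀ (g ys : ℕ → R), (g, ys) ∈ adm (sk R w) →
      ((fun j => τ (g j), fun n => τ (ys n)) : P S) ∈ adm (sk S w) := by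
  induction w with
  | nil =>
    intro g ys h
    have h1 : ys = 0 := h
    subst h1
    show (fun n => τ ((0 : ℕ → R) n)) = 0
    funext n
    exact h0
  | cons x w ih =>
    intro g ys h
    obtain ⟨p, e⟩ := x
    cases e with
    | cup a =>
      obtain ⟨h1, h2⟩ := h
      have h3 := ih _ _ h2
      refine ⟨?_, ?_⟩
      · show _ ∈ (El.cup : El S).cond p
        have h1' : (g, ys) ∈ (El.cup : El R).cond p := h1
        unfold El.cond at h1' ⊢
        by_cases hp : Even p
        · simp only [hp, if_true] at h1' ⊢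
          have h4 : ys 0 = 0 := h1'
          show τ (ys 0) = 0
          rw [h4, h0]
        · simp only [hp, if_false]
          trivial
      · show ((gap 0 2 p (τ (ys 0)) (fun j => τ (g j)), fun n => τ (ys (n + 1))) : P S) ∈
          adm (sk S w)
        rw [nd2_gap]
        exact h3
    | cap a =>
      obtain ⟨h1, h2⟩ := h
      have h3 := ih _ _ h2
      refine ⟨?_, ?_⟩
      · show _ ∈ (El.cap : El S).cond p
        have h1' : (g, ys) ∈ (El.cap : El R).cond p := h1
        unfold El.cond at h1' ⊢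
        obtain ⟨h4, h5⟩ := h1'
        have h4' : ys 0 = 0 := h4
        have h5' : g p - g (p + 2) = 0 := h5
        refine ⟨?_, ?_⟩
        · show τ (ys 0) = 0
          rw [h4', h0]
        · show τ (g p) - τ (g (p + 2)) = 0
          rw [sub_eq_zero.1 h5', sub_self]
      · show ((gap 2 0 p (τ (ys 0)) (fun j => τ (g j)), fun n => τ (ys (n + 1))) : P S) ∈
          adm (sk S w)
        rw [nd2_gap]
        exact h3
    | crs s =>
      obtain ⟨h1, h2⟩ := h
      have h3 := ih _ _ h2
      refine ⟨?_, ?_⟩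
      · show _ ∈ (El.x ((wt p s : ℤ) : S) : El S).cond p
        have h1' : (g, ys) ∈ (El.x ((wt p s : ℤ) : R) : El R).cond p := h1
        unfold El.cond at h1' ⊢
        by_cases hp : Even p
        · simp only [hp, if_true] at h1' ⊢
          have h4 : ys 0 = 0 := h1'
          show τ (ys 0) = 0
          rw [h4, h0]
        · simp only [hp, if_false]
          trivial
      · show ((gap 2 2 p (τ (ys 0)) (fun j => τ (g j)), fun n => τ (ys (n + 1))) : P S) ∈
          adm (sk S w)
        rw [nd2_gap]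
        exact h3

theorem nd2_supp {R : Type} [CommRing R] {α : Type u} (w : Word α) : ∀ (g ys : ℕ → R),
    (g, ys) ∈ adm (sk R w) → ∀ n, ys (w.length + n) = 0 := by
  induction w with
  | nil =>
    intro g ys h n
    have h1 : ys = 0 := h
    subst h1
    rfl
  | cons x w ih =>
    intro g ys h n
    have h2 := h.2
    obtain ⟨p, e⟩ := x
    have h3 : (fun m => ys (m + 1)) (w.length + n) = 0 := by
      cases e with
      | cup a => exact ih _ _ h2 n
      | cap a => exact ih _ _ h2 n
      | crs s => exact ih _ _ h2 n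
    have h4 : (((p, e) :: w : Word α)).length + n = w.length + n + 1 := by
      simp only [List.length_cons]; omega
    rw [h4]
    exact h3

theorem nd2_frm {R S : Type} [CommRing R] [CommRing S] (φ : R →+* S) {α : Type u}
    (w : Word α) : ∀ (g ys h zs : ℕ → R),
      frm (sk S w) ((fun j => φ (g j), fun n => φ (ys n)) : P S)
        ((fun j => φ (h j), fun n => φ (zs n)) : P S) = φ (frm (sk R w) (g, ys) (h, zs)) := by
  induction w with
  | nil =>
    intro g ys h zs
    show (0 : S) = φ 0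
    rw [map_zero]
  | cons x w ih =>
    intro g ys h zs
    obtain ⟨p, e⟩ := x
    cases e with
    | cup a =>
      show (0 : S) + frm (sk S w) (gap 0 2 p (φ (ys 0)) (fun j => φ (g j)), fun n => φ (ys (n + 1)))
        (gap 0 2 p (φ (zs 0)) (fun j => φ (h j)), fun n => φ (zs (n + 1))) =
        φ (0 + frm (sk R w) (gap 0 2 p (ys 0) g, fun n => ys (n + 1))
          (gap 0 2 p (zs 0) h, fun n => zs (n + 1)))
      rw [nd2_gap, nd2_gap, zero_add, zero_add]
      exact ih _ _ _ _
    | cap a =>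
      show (0 : S) + frm (sk S w) (gap 2 0 p (φ (ys 0)) (fun j => φ (g j)), fun n => φ (ys (n + 1)))
        (gap 2 0 p (φ (zs 0)) (fun j => φ (h j)), fun n => φ (zs (n + 1))) =
        φ (0 + frm (sk R w) (gap 2 0 p (ys 0) g, fun n => ys (n + 1))
          (gap 2 0 p (zs 0) h, fun n => zs (n + 1)))
      rw [nd2_gap, nd2_gap, zero_add, zero_add]
      exact ih _ _ _ _
    | crs s =>
      show (El.x ((wt p s : ℤ) : S) : El S).loc p _ _ +
        frm (sk S w) (gap 2 2 p (φ (ys 0)) (fun j => φ (g j)), fun n => φ (ys (n + 1)))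
        (gap 2 2 p (φ (zs 0)) (fun j => φ (h j)), fun n => φ (zs (n + 1))) =
        φ ((El.x ((wt p s : ℤ) : R) : El R).loc p (g, ys) (h, zs) +
          frm (sk R w) (gap 2 2 p (ys 0) g, fun n => ys (n + 1))
          (gap 2 2 p (zs 0) h, fun n => zs (n + 1)))
      rw [nd2_gap, nd2_gap, map_add]
      refine congrArg₂ _ ?_ (ih _ _ _ _)
      unfold El.loc
      by_cases hp : Even p
      · simp only [hp, if_true]
        show ((wt p s : ℤ) : S) * ((φ (g p) - φ (g (p + 2))) * (φ (h p) - φ (h (p + 2)))) =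
          φ (((wt p s : ℤ) : R) * ((g p - g (p + 2)) * (h p - h (p + 2))))
        simp only [map_mul, map_sub, map_intCast]
      · simp only [hp, if_false]
        show ((wt p s : ℤ) : S) * ((φ (g (p + 1)) - φ (ys 0)) * (φ (h (p + 1)) - φ (zs 0))) =
          φ (((wt p s : ℤ) : R) * ((g (p + 1) - ys 0) * (h (p + 1) - zs 0)))
        simp only [map_mul, map_sub, map_intCast]

/-- a nonzero rational vector with finite support is proportional to an integral vector with an
odd entry -/
theorem nd2_scale (v : ℕ → ℚ) (L : ℕ) (hL : ∀ n, L ≤ n → v n = 0) (hv : v ≠ 0) :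
    ∃ (z : ℕ → ℤ) (c : ℚ), (∀ n, (z n : ℚ) = c * v n) ∧ ∃ n, ¬ (2 : ℤ) ∣ z n := by
  classical
  have hex : ∃ m : ℕ, ∃ (z : ℕ → ℤ) (c : ℚ), c ≠ 0 ∧ (∀ n, (z n : ℚ) = c * v n) ∧
      ∑ n ∈ Finset.range L, (z n).natAbs = m := by
    obtain ⟨b, hb⟩ := IsLocalization.exist_integer_multiples_of_finset (nonZeroDivisors ℤ)
      ((Finset.range L).image v)
    have hz : ∀ n, ∃ k : ℤ, (k : ℚ) = ((b : ℤ) : ℚ) * v n := by
      intro n
      by_cases hn : n < L
      · obtain ⟨k, hk⟩ := hb (v n) (Finset.mem_image_of_mem _ (Finset.mem_range.2 hn))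
        refine ⟨k, ?_⟩
        rw [show ((k : ℤ) : ℚ) = algebraMap ℤ ℚ k from rfl, hk]
        simp [Algebra.smul_def]
      · exact ⟨0, by rw [hL n (not_lt.1 hn)]; simp⟩
    choose z hz using hz
    refine ⟨_, z, ((b : ℤ) : ℚ), ?_, hz, rfl⟩
    exact Int.cast_ne_zero.2 (nonZeroDivisors.ne_zero b.2)
  obtain ⟨z, c, hc, hz, hm⟩ := Nat.find_spec hex
  refine ⟨z, c, hz, ?_⟩
  by_contra hcon
  push Not at hcon
  choose y hy using hcon
  have hne : ∃ n, v n ≠ 0 := by
    by_contra h
    push Not at h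
    exact hv (funext h)
  obtain ⟨n, hn⟩ := hne
  have hnL : n < L := by
    by_contra h
    exact hn (hL n (not_lt.1 h))
  have hzn : z n ≠ 0 := by
    intro h
    have h1 := hz n
    rw [h, Int.cast_zero] at h1
    exact mul_ne_zero hc hn h1.symm
  have hlt : ∑ n ∈ Finset.range L, (y n).natAbs < Nat.find hex := by
    rw [← hm]
    apply Finset.sum_lt_sum
    · intro i _
      have := hy i
      omega
    · refine ⟨n, Finset.mem_range.2 hnL, ?_⟩
      have := hy n
      omega
  refine Nat.find_min hex hlt ⟨y, c / 2, by positivity, ?_, rfl⟩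
  intro i
  have h1 := hz i
  rw [hy i] at h1
  push_cast at h1
  linarith

/-- Reduction to `nondeg2`: a nonzero rational vector `v` in the radical is scaled to an integral
labelling with an odd label; its reduction modulo 2 is in the radical modulo 2, because every
labelling modulo 2 lifts to a labelling over `ℤ` (apply `ZMod.val` to all labels; the conditions
`adm` are preserved by every map `τ` of labels with `τ 0 = 0`). -/
theorem nondeg {w : Word (Fin 1)} (hw : LinkWord 1 w) (v : ℕ → ℚ) (hv : v ∈ lab (sk ℚ w))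
    (h : ∀ z ∈ lab (sk ℚ w), frm (sk ℚ w) (0, v) (0, z) = 0) : v = 0 := by
  by_contra hne
  have hv' : ((0, v) : P ℚ) ∈ adm (sk ℚ w) := hv
  obtain ⟨z, c, hz, n0, hn0⟩ := nd2_scale v w.length (fun n hn => by
    have := nd2_supp w _ _ hv' (n - w.length)
    rwa [Nat.add_sub_cancel' hn] at this) hne
  have hcv : ((0, fun n => ((z n : ℤ) : ℚ)) : P ℚ) ∈ adm (sk ℚ w) := by
    have h1 := (adm (sk ℚ w)).smul_mem c hv'
    have h2 : c • ((0, v) : P ℚ) = (0, fun n => ((z n : ℤ) : ℚ)) := by
      ext j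
      · simp
      · simp [hz j]
    rwa [h2] at h1
  have hzb : (fun n => ((z n : ℤ) : ZMod 2)) ∈ lab (sk (ZMod 2) w) := by
    have h1 := nd2_adm (fun q : ℚ => ((⌊q⌋ : ℤ) : ZMod 2)) (by simp) w _ _ hcv
    have h2 : ((fun j => (((⌊(0 : ℕ → ℚ) j⌋ : ℤ)) : ZMod 2), fun n => ((⌊((z n : ℤ) : ℚ)⌋ : ℤ) : ZMod 2)) :
        P (ZMod 2)) = (0, fun n => ((z n : ℤ) : ZMod 2)) := by
      ext j
      · simp
      · simp
    rw [h2] at h1
    exact h1
  have hz0 := nondeg2 hw _ hzb (by
    intro t ht
    have ht' : ((0, t) : P (ZMod 2)) ∈ adm (sk (ZMod 2) w) := ht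
    have h1 := nd2_adm (fun a : ZMod 2 => ((a.val : ℕ) : ℚ)) (by simp) w _ _ ht'
    have h2 : ((fun j => ((((0 : ℕ → ZMod 2) j).val : ℕ) : ℚ), fun n => (((t n).val : ℕ) : ℚ)) :
        P ℚ) = (0, fun n => (((t n).val : ℕ) : ℚ)) := by
      ext j
      · simp
      · simp
    rw [h2] at h1
    have h3 : frm (sk ℚ w) (0, v) (0, fun n => (((t n).val : ℕ) : ℚ)) = 0 := h _ h1
    have h4 : frm (sk ℚ w) (0, fun n => ((z n : ℤ) : ℚ)) (0, fun n => (((t n).val : ℕ) : ℚ)) = 0 := by
      have h5 : ((0, fun n => ((z n : ℤ) : ℚ)) : P ℚ) = c • ((0, v) : P ℚ) := by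
        ext j
        · simp
        · simp [hz j]
      rw [h5, LinearMap.map_smul, LinearMap.smul_apply, h3, smul_zero]
    have h6 := nd2_frm (Int.castRingHom ℚ) w (0 : ℕ → ℤ) z 0 (fun n => (((t n).val : ℕ) : ℤ))
    have h7 := nd2_frm (Int.castRingHom (ZMod 2)) w (0 : ℕ → ℤ) z 0
      (fun n => (((t n).val : ℕ) : ℤ))
    have e6 : ((fun j => (Int.castRingHom ℚ) ((0 : ℕ → ℤ) j), fun n => (Int.castRingHom ℚ) (z n)) :
        P ℚ) = (0, fun n => ((z n : ℤ) : ℚ)) := by
      ext j
      · simp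
      · simp
    have e6' : ((fun j => (Int.castRingHom ℚ) ((0 : ℕ → ℤ) j),
        fun n => (Int.castRingHom ℚ) (((t n).val : ℕ) : ℤ)) : P ℚ) =
          (0, fun n => (((t n).val : ℕ) : ℚ)) := by
      ext j
      · simp
      · simp
    have e7 : ((fun j => (Int.castRingHom (ZMod 2)) ((0 : ℕ → ℤ) j),
        fun n => (Int.castRingHom (ZMod 2)) (z n)) :
        P (ZMod 2)) = (0, fun n => ((z n : ℤ) : ZMod 2)) := by
      ext j
      · simp
      · simp
    have e7' : ((fun j => (Int.castRingHom (ZMod 2)) ((0 : ℕ → ℤ) j),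
        fun n => (Int.castRingHom (ZMod 2)) (((t n).val : ℕ) : ℤ)) : P (ZMod 2)) = (0, t) := by
      ext j
      · simp
      · simp
    rw [e6, e6', h4] at h6
    rw [e7, e7'] at h7
    have h8 : frm (sk ℤ w) (0, z) (0, fun n => (((t n).val : ℕ) : ℤ)) = 0 := by
      have : ((frm (sk ℤ w) (0, z) (0, fun n => (((t n).val : ℕ) : ℤ)) : ℤ) : ℚ) = 0 := h6.symm
      exact_mod_cast this
    rw [h7, h8, map_zero])
  have h9 := congrFun hz0 n0
  have h10 : ((z n0 : ℤ) : ZMod 2) = 0 := h9
  rw [ZMod.intCast_zmod_eq_zero_iff_dvd] at h10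
  exact hn0 (by exact_mod_cast h10)

end MPab0b07
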