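import Pool.Agent.Lib.MP_ab0b07_gt.SL1

/-!
# The tangle `M` (row SL1b)
-/

namespace MPab0b07

open MP5b16f0

universe u

variable {α : Type u}

theorem run_tM (a : Pt α) (s : Bool) : Run (tM a s) [a, a] [a, a] := (by (repeat' (first | exact Run.nil _ | refine run_cons' _ _ (Gen.Acts.crs _ _ _) rfl rfl ?_ | refine run_cons' _ _ (acts_cup (by first | assumption | rfl)) rfl rfl ?_ | refine run_cons' _ _ (acts_cap (by first | assumption | rfl)) rfl rfl ?_)))

theorem SL1b_comm (a : Pt α) (t : Bool) :
    Iso [a, a] [a, a, a, op a] [(2, Gen.cup a), (0, Gen.crs t)] [(0, Gen.crs t), (2, Gen.cup a)] :=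
  (Move.comm (Gen.Acts.crs t a a) (Gen.Acts.cup a) []).iso.symm

/-- `M` with the second crossing in position `1` changed is the crossing `!s` -/
theorem tM_change1 (a : Pt α) (s : Bool) :
    Iso [a, a] [a, a] [(0, Gen.crs s), (2, Gen.cup a), (1, Gen.crs !s), (1, Gen.crs s),
      (0, Gen.crs !s), (0, Gen.crs !s), (1, Gen.crs !s), (2, Gen.cap a)] [(0, Gen.crs !s)] := by
  refine (r2_iso' a a s).head [a] [op a] [(0, Gen.crs s), (2, Gen.cup a)]
    [(0, Gen.crs !s), (0, Gen.crs !s), (1, Gen.crs !s), (2, Gen.cap a)] rfl (by (repeat' (first | exact Run.nil _ | refine run_cons' _ _ (Gen.Acts.crs _ _ _) rfl rfl ?_ | refine run_cons' _ _ (acts_cup (by first | assumption | rfl)) rfl rfl ?_ | refine run_cons' _ _ (acts_cap (by first | assumption | rfl)) rfl rfl ?_))) (by (repeat' (first | exact Run.nil _ | refine run_cons' _ _ (Gen.Acts.crs _ _ _) rfl rfl ?_ | refine run_cons' _ _ (acts_cup (by first | assumption | rfl)) rfl rfl ?_ | refine run_cons' _ _ (acts_cap (by first | assumption | rfl)) rfl rfl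 ?_))) ?_
  refine (SL1b_comm a (!s)).head [] [] [(0, Gen.crs s)]
    [(0, Gen.crs !s), (1, Gen.crs !s), (2, Gen.cap a)] rfl (by (repeat' (first | exact Run.nil _ | refine run_cons' _ _ (Gen.Acts.crs _ _ _) rfl rfl ?_ | refine run_cons' _ _ (acts_cup (by first | assumption | rfl)) rfl rfl ?_ | refine run_cons' _ _ (acts_cap (by first | assumption | rfl)) rfl rfl ?_))) (by (repeat' (first | exact Run.nil _ | refine run_cons' _ _ (Gen.Acts.crs _ _ _) rfl rfl ?_ | refine run_cons' _ _ (acts_cup (by first | assumption | rfl)) rfl rfl ?_ | refine run_cons' _ _ (acts_cap (by first | assumption | rfl)) rfl rfl ?_))) ?_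
  refine (r2_iso a a s).head [] [] []
    [(2, Gen.cup a), (0, Gen.crs !s), (1, Gen.crs !s), (2, Gen.cap a)] rfl (by (repeat' (first | exact Run.nil _ | refine run_cons' _ _ (Gen.Acts.crs _ _ _) rfl rfl ?_ | refine run_cons' _ _ (acts_cup (by first | assumption | rfl)) rfl rfl ?_ | refine run_cons' _ _ (acts_cap (by first | assumption | rfl)) rfl rfl ?_))) (by (repeat' (first | exact Run.nil _ | refine run_cons' _ _ (Gen.Acts.crs _ _ _) rfl rfl ?_ | refine run_cons' _ _ (acts_cup (by first | assumption | rfl)) rfl rfl ?_ | refine run_cons' _ _ (acts_cap (by first | assumption | rfl)) rfl rfl ?_))) ?_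
  refine (SL1b_comm a (!s)).head [] [] [] [(1, Gen.crs !s), (2, Gen.cap a)] rfl (by (repeat' (first | exact Run.nil _ | refine run_cons' _ _ (Gen.Acts.crs _ _ _) rfl rfl ?_ | refine run_cons' _ _ (acts_cup (by first | assumption | rfl)) rfl rfl ?_ | refine run_cons' _ _ (acts_cap (by first | assumption | rfl)) rfl rfl ?_))) (by (repeat' (first | exact Run.nil _ | refine run_cons' _ _ (Gen.Acts.crs _ _ _) rfl rfl ?_ | refine run_cons' _ _ (acts_cup (by first | assumption | rfl)) rfl rfl ?_ | refine run_cons' _ _ (acts_cap (by first | assumption | rfl)) rfl rfl ?_))) ?_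
  exact (kink a (!s)).head [a] [] [(0, Gen.crs !s)] [] rfl (by (repeat' (first | exact Run.nil _ | refine run_cons' _ _ (Gen.Acts.crs _ _ _) rfl rfl ?_ | refine run_cons' _ _ (acts_cup (by first | assumption | rfl)) rfl rfl ?_ | refine run_cons' _ _ (acts_cap (by first | assumption | rfl)) rfl rfl ?_))) (by (repeat' (first | exact Run.nil _ | refine run_cons' _ _ (Gen.Acts.crs _ _ _) rfl rfl ?_ | refine run_cons' _ _ (acts_cup (by first | assumption | rfl)) rfl rfl ?_ | refine run_cons' _ _ (acts_cap (by first | assumption | rfl)) rfl rfl ?_))) (Iso.refl _)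

/-- `M` with the second crossing in position `0` changed is the crossing `s` and a local trefoil -/
theorem tM_change2 (a : Pt α) (s : Bool) :
    Iso [a, a] [a, a] [(0, Gen.crs s), (2, Gen.cup a), (1, Gen.crs !s), (1, Gen.crs !s),
      (0, Gen.crs s), (0, Gen.crs !s), (1, Gen.crs !s), (2, Gen.cap a)]
      ((0, Gen.crs s) :: sh 1 (tr a (!s))) := by
  exact (r2_iso a a s).head [] [a, op a] [(0, Gen.crs s), (2, Gen.cup a), (1, Gen.crs !s),
    (1, Gen.crs !s)] [(1, Gen.crs !s), (2, Gen.cap a)] rfl (by (repeat' (first | exact Run.nil _ | refine run_cons' _ _ (Gen.Acts.crs _ _ _) rfl rfl ?_ | refine run_cons' _ _ (acts_cup (by first | assumption | rfl)) rfl rfl ?_ | refine run_cons' _ _ (acts_cap (by first | assumption | rfl)) rfl rfl ?_))) (by (repeat' (first | exact Run.nil _ | refine run_cons' _ _ (Gen.Acts.crs _ _ _) rfl rfl ?_ | refine run_cons' _ _ (acts_cup (by first | assumption | rfl)) rfl rfl ?_ | refine run_cons' _ _ (acts_cap (by first | assumption | rfl)) rfl rfl ?_))) (Iso.refl _)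

end MPab0b07
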