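import Pool.Agent.Lib.MP_ab0b07_gt.SL1

/-!
# Local isotopies: a local trefoil at a minimum and at a maximum
-/

set_option linter.unreachableTactic false
set_option linter.unusedTactic false

namespace MPab0b07

open MP5b16f0

universe u

variable {α : Type u}

private theorem SL1c_slideCup {a y : Pt α} (h : y = op a) (c : Pt α) (s : Bool) :
    Iso [c] [a, c, y] [(1, Gen.cup a), (0, Gen.crs s)] [(0, Gen.cup a), (1, Gen.crs !s)] := by
  simpa using (mv_slideCup h c (!s)).symm

private theorem SL1c_slideCap {a y : Pt α} (h : y = op a) (c : Pt α) (s : Bool) :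
    Iso [a, c, y] [c] [(0, Gen.crs s), (1, Gen.cap a)] [(1, Gen.crs !s), (0, Gen.cap a)] := by
  simpa using (mv_slideCap h c (!s)).symm

private theorem SL1c_comm_cup {a y : Pt α} (h : y = op a) :
    Iso [] [a, y, a, y] [(0, Gen.cup a), (0, Gen.cup a)] [(0, Gen.cup a), (2, Gen.cup a)] := by
  subst h
  exact (Move.comm (Gen.Acts.cup a) (Gen.Acts.cup a) []).iso.symm

private theorem SL1c_comm_cap {a y : Pt α} (h : y = op a) :
    Iso [a, y, a, y] [] [(0, Gen.cap a), (0, Gen.cap a)] [(2, Gen.cap a), (0, Gen.cap a)] := by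
  subst h
  exact (Move.comm (Gen.Acts.cap a) (Gen.Acts.cap a) []).iso

private theorem SL1c_comm_crs (a b c d : Pt α) (s t : Bool) :
    Iso [a, b, c, d] [b, a, d, c] [(2, Gen.crs t), (0, Gen.crs s)]
      [(0, Gen.crs s), (2, Gen.crs t)] :=
  (Move.comm (Gen.Acts.crs s a b) (Gen.Acts.crs t c d) []).iso.symm

/-- closing the braid on the right or on the left -/
private theorem SL1c_L {b y : Pt α} (h : y = op b) (h' : b = op y) (s : Bool) :
    Iso [b] [b] [(1, Gen.cup b), (0, Gen.crs s), (0, Gen.crs s), (0, Gen.crs s), (1, Gen.cap b)]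
      [(0, Gen.cup y), (1, Gen.crs s), (1, Gen.crs s), (1, Gen.crs s), (0, Gen.cap y)] := by
  refine Iso.head (r2_iso' b b s).symm [] [y]
    [(1, Gen.cup b)]
    [(0, Gen.crs s), (0, Gen.crs s), (0, Gen.crs s), (1, Gen.cap b)] rfl
    (by (repeat' (first | exact Run.nil _ | refine run_cons' _ _ (Gen.Acts.crs _ _ _) rfl rfl ?_ | refine run_cons' _ _ (acts_cup (by first | assumption | rfl)) rfl rfl ?_ | refine run_cons' _ _ (acts_cap (by first | assumption | rfl)) rfl rfl ?_)))
    (by (repeat' (first | exact Run.nil _ | refine run_cons' _ _ (Gen.Acts.crs _ _ _) rfl rfl ?_ | refine run_cons' _ _ (acts_cup (by first | assumption | rfl)) rfl rfl ?_ | refine run_cons' _ _ (acts_cap (by first | assumption | rfl)) rfl rfl ?_))) ?_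
  refine Iso.head (mv_slideCup h b s).symm [] []
    []
    [(0, Gen.crs s), (0, Gen.crs s), (0, Gen.crs s), (0, Gen.crs s), (1, Gen.cap b)] rfl
    (by (repeat' (first | exact Run.nil _ | refine run_cons' _ _ (Gen.Acts.crs _ _ _) rfl rfl ?_ | refine run_cons' _ _ (acts_cup (by first | assumption | rfl)) rfl rfl ?_ | refine run_cons' _ _ (acts_cap (by first | assumption | rfl)) rfl rfl ?_)))
    (by (repeat' (first | exact Run.nil _ | refine run_cons' _ _ (Gen.Acts.crs _ _ _) rfl rfl ?_ | refine run_cons' _ _ (acts_cup (by first | assumption | rfl)) rfl rfl ?_ | refine run_cons' _ _ (acts_cap (by first | assumption | rfl)) rfl rfl ?_))) ?_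
  refine Iso.head (SL1c_slideCap h b s) [] []
    [(0, Gen.cup b), (1, Gen.crs s), (0, Gen.crs s), (0, Gen.crs s), (0, Gen.crs s)]
    [] rfl
    (by (repeat' (first | exact Run.nil _ | refine run_cons' _ _ (Gen.Acts.crs _ _ _) rfl rfl ?_ | refine run_cons' _ _ (acts_cup (by first | assumption | rfl)) rfl rfl ?_ | refine run_cons' _ _ (acts_cap (by first | assumption | rfl)) rfl rfl ?_)))
    (by (repeat' (first | exact Run.nil _ | refine run_cons' _ _ (Gen.Acts.crs _ _ _) rfl rfl ?_ | refine run_cons' _ _ (acts_cup (by first | assumption | rfl)) rfl rfl ?_ | refine run_cons' _ _ (acts_cap (by first | assumption | rfl)) rfl rfl ?_))) ?_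
  refine Iso.head (r2_iso' b y s).symm [] [b]
    [(0, Gen.cup b)]
    [(1, Gen.crs s), (0, Gen.crs s), (0, Gen.crs s), (0, Gen.crs s), (1, Gen.crs !s), (0, Gen.cap b)] rfl
    (by (repeat' (first | exact Run.nil _ | refine run_cons' _ _ (Gen.Acts.crs _ _ _) rfl rfl ?_ | refine run_cons' _ _ (acts_cup (by first | assumption | rfl)) rfl rfl ?_ | refine run_cons' _ _ (acts_cap (by first | assumption | rfl)) rfl rfl ?_)))
    (by (repeat' (first | exact Run.nil _ | refine run_cons' _ _ (Gen.Acts.crs _ _ _) rfl rfl ?_ | refine run_cons' _ _ (acts_cup (by first | assumption | rfl)) rfl rfl ?_ | refine run_cons' _ _ (acts_cap (by first | assumption | rfl)) rfl rfl ?_))) ?_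
  refine Iso.head (Move.r3 y b b s).iso [] []
    [(0, Gen.cup b), (0, Gen.crs !s)]
    [(0, Gen.crs s), (0, Gen.crs s), (1, Gen.crs !s), (0, Gen.cap b)] rfl
    (by (repeat' (first | exact Run.nil _ | refine run_cons' _ _ (Gen.Acts.crs _ _ _) rfl rfl ?_ | refine run_cons' _ _ (acts_cup (by first | assumption | rfl)) rfl rfl ?_ | refine run_cons' _ _ (acts_cap (by first | assumption | rfl)) rfl rfl ?_)))
    (by (repeat' (first | exact Run.nil _ | refine run_cons' _ _ (Gen.Acts.crs _ _ _) rfl rfl ?_ | refine run_cons' _ _ (acts_cup (by first | assumption | rfl)) rfl rfl ?_ | refine run_cons' _ _ (acts_cap (by first | assumption | rfl)) rfl rfl ?_))) ?_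
  refine Iso.head (Move.r3 y b b s).iso [] []
    [(0, Gen.cup b), (0, Gen.crs !s), (1, Gen.crs s)]
    [(0, Gen.crs s), (1, Gen.crs !s), (0, Gen.cap b)] rfl
    (by (repeat' (first | exact Run.nil _ | refine run_cons' _ _ (Gen.Acts.crs _ _ _) rfl rfl ?_ | refine run_cons' _ _ (acts_cup (by first | assumption | rfl)) rfl rfl ?_ | refine run_cons' _ _ (acts_cap (by first | assumption | rfl)) rfl rfl ?_)))
    (by (repeat' (first | exact Run.nil _ | refine run_cons' _ _ (Gen.Acts.crs _ _ _) rfl rfl ?_ | refine run_cons' _ _ (acts_cup (by first | assumption | rfl)) rfl rfl ?_ | refine run_cons' _ _ (acts_cap (by first | assumption | rfl)) rfl rfl ?_))) ?_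
  refine Iso.head (Move.r3 y b b s).iso [] []
    [(0, Gen.cup b), (0, Gen.crs !s), (1, Gen.crs s), (1, Gen.crs s)]
    [(1, Gen.crs !s), (0, Gen.cap b)] rfl
    (by (repeat' (first | exact Run.nil _ | refine run_cons' _ _ (Gen.Acts.crs _ _ _) rfl rfl ?_ | refine run_cons' _ _ (acts_cup (by first | assumption | rfl)) rfl rfl ?_ | refine run_cons' _ _ (acts_cap (by first | assumption | rfl)) rfl rfl ?_)))
    (by (repeat' (first | exact Run.nil _ | refine run_cons' _ _ (Gen.Acts.crs _ _ _) rfl rfl ?_ | refine run_cons' _ _ (acts_cup (by first | assumption | rfl)) rfl rfl ?_ | refine run_cons' _ _ (acts_cap (by first | assumption | rfl)) rfl rfl ?_))) ?_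
  refine Iso.head (r2_iso y b s) [b] []
    [(0, Gen.cup b), (0, Gen.crs !s), (1, Gen.crs s), (1, Gen.crs s), (1, Gen.crs s), (0, Gen.crs s)]
    [(0, Gen.cap b)] rfl
    (by (repeat' (first | exact Run.nil _ | refine run_cons' _ _ (Gen.Acts.crs _ _ _) rfl rfl ?_ | refine run_cons' _ _ (acts_cup (by first | assumption | rfl)) rfl rfl ?_ | refine run_cons' _ _ (acts_cap (by first | assumption | rfl)) rfl rfl ?_)))
    (by (repeat' (first | exact Run.nil _ | refine run_cons' _ _ (Gen.Acts.crs _ _ _) rfl rfl ?_ | refine run_cons' _ _ (acts_cup (by first | assumption | rfl)) rfl rfl ?_ | refine run_cons' _ _ (acts_cap (by first | assumption | rfl)) rfl rfl ?_))) ?_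
  refine Iso.head (mv_r1cup h (!s)) [] [b]
    []
    [(1, Gen.crs s), (1, Gen.crs s), (1, Gen.crs s), (0, Gen.crs s), (0, Gen.cap b)] rfl
    (by (repeat' (first | exact Run.nil _ | refine run_cons' _ _ (Gen.Acts.crs _ _ _) rfl rfl ?_ | refine run_cons' _ _ (acts_cup (by first | assumption | rfl)) rfl rfl ?_ | refine run_cons' _ _ (acts_cap (by first | assumption | rfl)) rfl rfl ?_)))
    (by (repeat' (first | exact Run.nil _ | refine run_cons' _ _ (Gen.Acts.crs _ _ _) rfl rfl ?_ | refine run_cons' _ _ (acts_cup (by first | assumption | rfl)) rfl rfl ?_ | refine run_cons' _ _ (acts_cap (by first | assumption | rfl)) rfl rfl ?_))) ?_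
  refine Iso.head (mv_r1cap h' s) [] [b]
    [(0, Gen.cup y), (1, Gen.crs s), (1, Gen.crs s), (1, Gen.crs s)]
    [] rfl
    (by (repeat' (first | exact Run.nil _ | refine run_cons' _ _ (Gen.Acts.crs _ _ _) rfl rfl ?_ | refine run_cons' _ _ (acts_cup (by first | assumption | rfl)) rfl rfl ?_ | refine run_cons' _ _ (acts_cap (by first | assumption | rfl)) rfl rfl ?_)))
    (by (repeat' (first | exact Run.nil _ | refine run_cons' _ _ (Gen.Acts.crs _ _ _) rfl rfl ?_ | refine run_cons' _ _ (acts_cup (by first | assumption | rfl)) rfl rfl ?_ | refine run_cons' _ _ (acts_cap (by first | assumption | rfl)) rfl rfl ?_))) ?_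
  exact Iso.refl _

/-- a crossing above two nested minima may be moved to the other side -/
private theorem SL1c_N {a y : Pt α} (h : y = op a) (t : Bool) :
    Iso [] [a, a, y, y] [(0, Gen.cup a), (1, Gen.cup a), (0, Gen.crs t)]
      [(0, Gen.cup a), (1, Gen.cup a), (2, Gen.crs t)] := by
  refine Iso.head (SL1c_slideCup h a t) [] [y]
    [(0, Gen.cup a)]
    [] rfl
    (by (repeat' (first | exact Run.nil _ | refine run_cons' _ _ (Gen.Acts.crs _ _ _) rfl rfl ?_ | refine run_cons' _ _ (acts_cup (by first | assumption | rfl)) rfl rfl ?_ | refine run_cons' _ _ (acts_cap (by first | assumption | rfl)) rfl rfl ?_)))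
    (by (repeat' (first | exact Run.nil _ | refine run_cons' _ _ (Gen.Acts.crs _ _ _) rfl rfl ?_ | refine run_cons' _ _ (acts_cup (by first | assumption | rfl)) rfl rfl ?_ | refine run_cons' _ _ (acts_cap (by first | assumption | rfl)) rfl rfl ?_))) ?_
  refine Iso.head (SL1c_comm_cup h) [] []
    []
    [(1, Gen.crs !t)] rfl
    (by (repeat' (first | exact Run.nil _ | refine run_cons' _ _ (Gen.Acts.crs _ _ _) rfl rfl ?_ | refine run_cons' _ _ (acts_cup (by first | assumption | rfl)) rfl rfl ?_ | refine run_cons' _ _ (acts_cap (by first | assumption | rfl)) rfl rfl ?_)))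
    (by (repeat' (first | exact Run.nil _ | refine run_cons' _ _ (Gen.Acts.crs _ _ _) rfl rfl ?_ | refine run_cons' _ _ (acts_cup (by first | assumption | rfl)) rfl rfl ?_ | refine run_cons' _ _ (acts_cap (by first | assumption | rfl)) rfl rfl ?_))) ?_
  refine Iso.head (mv_slideCup h y t).symm [a] []
    [(0, Gen.cup a)]
    [] rfl
    (by (repeat' (first | exact Run.nil _ | refine run_cons' _ _ (Gen.Acts.crs _ _ _) rfl rfl ?_ | refine run_cons' _ _ (acts_cup (by first | assumption | rfl)) rfl rfl ?_ | refine run_cons' _ _ (acts_cap (by first | assumption | rfl)) rfl rfl ?_)))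
    (by (repeat' (first | exact Run.nil _ | refine run_cons' _ _ (Gen.Acts.crs _ _ _) rfl rfl ?_ | refine run_cons' _ _ (acts_cup (by first | assumption | rfl)) rfl rfl ?_ | refine run_cons' _ _ (acts_cap (by first | assumption | rfl)) rfl rfl ?_))) ?_
  exact Iso.refl _

/-- a crossing below two nested maxima may be moved to the other side -/
private theorem SL1c_M {a y : Pt α} (h : y = op a) (t : Bool) :
    Iso [a, a, y, y] [] [(0, Gen.crs t), (1, Gen.cap a), (0, Gen.cap a)]
      [(2, Gen.crs t), (1, Gen.cap a), (0, Gen.cap a)] := by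
  refine Iso.head (SL1c_slideCap h a t) [] [y]
    []
    [(0, Gen.cap a)] rfl
    (by (repeat' (first | exact Run.nil _ | refine run_cons' _ _ (Gen.Acts.crs _ _ _) rfl rfl ?_ | refine run_cons' _ _ (acts_cup (by first | assumption | rfl)) rfl rfl ?_ | refine run_cons' _ _ (acts_cap (by first | assumption | rfl)) rfl rfl ?_)))
    (by (repeat' (first | exact Run.nil _ | refine run_cons' _ _ (Gen.Acts.crs _ _ _) rfl rfl ?_ | refine run_cons' _ _ (acts_cup (by first | assumption | rfl)) rfl rfl ?_ | refine run_cons' _ _ (acts_cap (by first | assumption | rfl)) rfl rfl ?_))) ?_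
  refine Iso.head (SL1c_comm_cap h) [] []
    [(1, Gen.crs !t)]
    [] rfl
    (by (repeat' (first | exact Run.nil _ | refine run_cons' _ _ (Gen.Acts.crs _ _ _) rfl rfl ?_ | refine run_cons' _ _ (acts_cup (by first | assumption | rfl)) rfl rfl ?_ | refine run_cons' _ _ (acts_cap (by first | assumption | rfl)) rfl rfl ?_)))
    (by (repeat' (first | exact Run.nil _ | refine run_cons' _ _ (Gen.Acts.crs _ _ _) rfl rfl ?_ | refine run_cons' _ _ (acts_cup (by first | assumption | rfl)) rfl rfl ?_ | refine run_cons' _ _ (acts_cap (by first | assumption | rfl)) rfl rfl ?_))) ?_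
  refine Iso.head (mv_slideCap h y t).symm [a] []
    []
    [(0, Gen.cap a)] rfl
    (by (repeat' (first | exact Run.nil _ | refine run_cons' _ _ (Gen.Acts.crs _ _ _) rfl rfl ?_ | refine run_cons' _ _ (acts_cup (by first | assumption | rfl)) rfl rfl ?_ | refine run_cons' _ _ (acts_cap (by first | assumption | rfl)) rfl rfl ?_)))
    (by (repeat' (first | exact Run.nil _ | refine run_cons' _ _ (Gen.Acts.crs _ _ _) rfl rfl ?_ | refine run_cons' _ _ (acts_cup (by first | assumption | rfl)) rfl rfl ?_ | refine run_cons' _ _ (acts_cap (by first | assumption | rfl)) rfl rfl ?_))) ?_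
  exact Iso.refl _

private theorem SL1c_cup {a y : Pt α} (h : y = op a) (h' : a = op y) (s : Bool) :
    Iso [] [a, y] [(0, Gen.cup a), (1, Gen.cup a), (0, Gen.crs s), (0, Gen.crs s),
      (0, Gen.crs s), (1, Gen.cap a)] [(0, Gen.cup a), (2, Gen.cup y), (1, Gen.crs s),
      (1, Gen.crs s), (1, Gen.crs s), (2, Gen.cap y)] := by
  refine Iso.head (SL1c_N h s) [] []
    []
    [(0, Gen.crs s), (0, Gen.crs s), (1, Gen.cap a)] rfl
    (by (repeat' (first | exact Run.nil _ | refine run_cons' _ _ (Gen.Acts.crs _ _ _) rfl rfl ?_ | refine run_cons' _ _ (acts_cup (by first | assumption | rfl)) rfl rfl ?_ | refine run_cons' _ _ (acts_cap (by first | assumption | rfl)) rfl rfl ?_)))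
    (by (repeat' (first | exact Run.nil _ | refine run_cons' _ _ (Gen.Acts.crs _ _ _) rfl rfl ?_ | refine run_cons' _ _ (acts_cup (by first | assumption | rfl)) rfl rfl ?_ | refine run_cons' _ _ (acts_cap (by first | assumption | rfl)) rfl rfl ?_))) ?_
  refine Iso.head (SL1c_comm_crs a a y y s s) [] []
    [(0, Gen.cup a), (1, Gen.cup a)]
    [(0, Gen.crs s), (1, Gen.cap a)] rfl
    (by (repeat' (first | exact Run.nil _ | refine run_cons' _ _ (Gen.Acts.crs _ _ _) rfl rfl ?_ | refine run_cons' _ _ (acts_cup (by first | assumption | rfl)) rfl rfl ?_ | refine run_cons' _ _ (acts_cap (by first | assumption | rfl)) rfl rfl ?_)))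
    (by (repeat' (first | exact Run.nil _ | refine run_cons' _ _ (Gen.Acts.crs _ _ _) rfl rfl ?_ | refine run_cons' _ _ (acts_cup (by first | assumption | rfl)) rfl rfl ?_ | refine run_cons' _ _ (acts_cap (by first | assumption | rfl)) rfl rfl ?_))) ?_
  refine Iso.head (SL1c_N h s) [] []
    []
    [(2, Gen.crs s), (0, Gen.crs s), (1, Gen.cap a)] rfl
    (by (repeat' (first | exact Run.nil _ | refine run_cons' _ _ (Gen.Acts.crs _ _ _) rfl rfl ?_ | refine run_cons' _ _ (acts_cup (by first | assumption | rfl)) rfl rfl ?_ | refine run_cons' _ _ (acts_cap (by first | assumption | rfl)) rfl rfl ?_)))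
    (by (repeat' (first | exact Run.nil _ | refine run_cons' _ _ (Gen.Acts.crs _ _ _) rfl rfl ?_ | refine run_cons' _ _ (acts_cup (by first | assumption | rfl)) rfl rfl ?_ | refine run_cons' _ _ (acts_cap (by first | assumption | rfl)) rfl rfl ?_))) ?_
  refine Iso.head (SL1c_comm_crs a a y y s s) [] []
    [(0, Gen.cup a), (1, Gen.cup a), (2, Gen.crs s)]
    [(1, Gen.cap a)] rfl
    (by (repeat' (first | exact Run.nil _ | refine run_cons' _ _ (Gen.Acts.crs _ _ _) rfl rfl ?_ | refine run_cons' _ _ (acts_cup (by first | assumption | rfl)) rfl rfl ?_ | refine run_cons' _ _ (acts_cap (by first | assumption | rfl)) rfl rfl ?_)))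
    (by (repeat' (first | exact Run.nil _ | refine run_cons' _ _ (Gen.Acts.crs _ _ _) rfl rfl ?_ | refine run_cons' _ _ (acts_cup (by first | assumption | rfl)) rfl rfl ?_ | refine run_cons' _ _ (acts_cap (by first | assumption | rfl)) rfl rfl ?_))) ?_
  refine Iso.head (SL1c_comm_crs a a y y s s) [] []
    [(0, Gen.cup a), (1, Gen.cup a)]
    [(2, Gen.crs s), (1, Gen.cap a)] rfl
    (by (repeat' (first | exact Run.nil _ | refine run_cons' _ _ (Gen.Acts.crs _ _ _) rfl rfl ?_ | refine run_cons' _ _ (acts_cup (by first | assumption | rfl)) rfl rfl ?_ | refine run_cons' _ _ (acts_cap (by first | assumption | rfl)) rfl rfl ?_)))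
    (by (repeat' (first | exact Run.nil _ | refine run_cons' _ _ (Gen.Acts.crs _ _ _) rfl rfl ?_ | refine run_cons' _ _ (acts_cup (by first | assumption | rfl)) rfl rfl ?_ | refine run_cons' _ _ (acts_cap (by first | assumption | rfl)) rfl rfl ?_))) ?_
  refine Iso.head (SL1c_N h s) [] []
    []
    [(2, Gen.crs s), (2, Gen.crs s), (1, Gen.cap a)] rfl
    (by (repeat' (first | exact Run.nil _ | refine run_cons' _ _ (Gen.Acts.crs _ _ _) rfl rfl ?_ | refine run_cons' _ _ (acts_cup (by first | assumption | rfl)) rfl rfl ?_ | refine run_cons' _ _ (acts_cap (by first | assumption | rfl)) rfl rfl ?_)))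
    (by (repeat' (first | exact Run.nil _ | refine run_cons' _ _ (Gen.Acts.crs _ _ _) rfl rfl ?_ | refine run_cons' _ _ (acts_cup (by first | assumption | rfl)) rfl rfl ?_ | refine run_cons' _ _ (acts_cap (by first | assumption | rfl)) rfl rfl ?_))) ?_
  refine Iso.head (SL1c_L h' h s).symm [a] []
    [(0, Gen.cup a)]
    [] rfl
    (by (repeat' (first | exact Run.nil _ | refine run_cons' _ _ (Gen.Acts.crs _ _ _) rfl rfl ?_ | refine run_cons' _ _ (acts_cup (by first | assumption | rfl)) rfl rfl ?_ | refine run_cons' _ _ (acts_cap (by first | assumption | rfl)) rfl rfl ?_)))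
    (by (repeat' (first | exact Run.nil _ | refine run_cons' _ _ (Gen.Acts.crs _ _ _) rfl rfl ?_ | refine run_cons' _ _ (acts_cup (by first | assumption | rfl)) rfl rfl ?_ | refine run_cons' _ _ (acts_cap (by first | assumption | rfl)) rfl rfl ?_))) ?_
  exact Iso.refl _

private theorem SL1c_cap {a y : Pt α} (h : y = op a) (h' : a = op y) (s : Bool) :
    Iso [a, y] [] [(1, Gen.cup a), (0, Gen.crs s), (0, Gen.crs s), (0, Gen.crs s),
      (1, Gen.cap a), (0, Gen.cap a)] [(2, Gen.cup y), (1, Gen.crs s), (1, Gen.crs s),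
      (1, Gen.crs s), (2, Gen.cap y), (0, Gen.cap a)] := by
  refine Iso.head (SL1c_M h s) [] []
    [(1, Gen.cup a), (0, Gen.crs s), (0, Gen.crs s)]
    [] rfl
    (by (repeat' (first | exact Run.nil _ | refine run_cons' _ _ (Gen.Acts.crs _ _ _) rfl rfl ?_ | refine run_cons' _ _ (acts_cup (by first | assumption | rfl)) rfl rfl ?_ | refine run_cons' _ _ (acts_cap (by first | assumption | rfl)) rfl rfl ?_)))
    (by (repeat' (first | exact Run.nil _ | refine run_cons' _ _ (Gen.Acts.crs _ _ _) rfl rfl ?_ | refine run_cons' _ _ (acts_cup (by first | assumption | rfl)) rfl rfl ?_ | refine run_cons' _ _ (acts_cap (by first | assumption | rfl)) rfl rfl ?_))) ?_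
  refine Iso.head (SL1c_comm_crs a a y y s s).symm [] []
    [(1, Gen.cup a), (0, Gen.crs s)]
    [(1, Gen.cap a), (0, Gen.cap a)] rfl
    (by (repeat' (first | exact Run.nil _ | refine run_cons' _ _ (Gen.Acts.crs _ _ _) rfl rfl ?_ | refine run_cons' _ _ (acts_cup (by first | assumption | rfl)) rfl rfl ?_ | refine run_cons' _ _ (acts_cap (by first | assumption | rfl)) rfl rfl ?_)))
    (by (repeat' (first | exact Run.nil _ | refine run_cons' _ _ (Gen.Acts.crs _ _ _) rfl rfl ?_ | refine run_cons' _ _ (acts_cup (by first | assumption | rfl)) rfl rfl ?_ | refine run_cons' _ _ (acts_cap (by first | assumption | rfl)) rfl rfl ?_))) ?_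
  refine Iso.head (SL1c_M h s) [] []
    [(1, Gen.cup a), (0, Gen.crs s), (2, Gen.crs s)]
    [] rfl
    (by (repeat' (first | exact Run.nil _ | refine run_cons' _ _ (Gen.Acts.crs _ _ _) rfl rfl ?_ | refine run_cons' _ _ (acts_cup (by first | assumption | rfl)) rfl rfl ?_ | refine run_cons' _ _ (acts_cap (by first | assumption | rfl)) rfl rfl ?_)))
    (by (repeat' (first | exact Run.nil _ | refine run_cons' _ _ (Gen.Acts.crs _ _ _) rfl rfl ?_ | refine run_cons' _ _ (acts_cup (by first | assumption | rfl)) rfl rfl ?_ | refine run_cons' _ _ (acts_cap (by first | assumption | rfl)) rfl rfl ?_))) ?_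
  refine Iso.head (SL1c_comm_crs a a y y s s).symm [] []
    [(1, Gen.cup a)]
    [(2, Gen.crs s), (1, Gen.cap a), (0, Gen.cap a)] rfl
    (by (repeat' (first | exact Run.nil _ | refine run_cons' _ _ (Gen.Acts.crs _ _ _) rfl rfl ?_ | refine run_cons' _ _ (acts_cup (by first | assumption | rfl)) rfl rfl ?_ | refine run_cons' _ _ (acts_cap (by first | assumption | rfl)) rfl rfl ?_)))
    (by (repeat' (first | exact Run.nil _ | refine run_cons' _ _ (Gen.Acts.crs _ _ _) rfl rfl ?_ | refine run_cons' _ _ (acts_cup (by first | assumption | rfl)) rfl rfl ?_ | refine run_cons' _ _ (acts_cap (by first | assumption | rfl)) rfl rfl ?_))) ?_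
  refine Iso.head (SL1c_comm_crs a a y y s s).symm [] []
    [(1, Gen.cup a), (2, Gen.crs s)]
    [(1, Gen.cap a), (0, Gen.cap a)] rfl
    (by (repeat' (first | exact Run.nil _ | refine run_cons' _ _ (Gen.Acts.crs _ _ _) rfl rfl ?_ | refine run_cons' _ _ (acts_cup (by first | assumption | rfl)) rfl rfl ?_ | refine run_cons' _ _ (acts_cap (by first | assumption | rfl)) rfl rfl ?_)))
    (by (repeat' (first | exact Run.nil _ | refine run_cons' _ _ (Gen.Acts.crs _ _ _) rfl rfl ?_ | refine run_cons' _ _ (acts_cup (by first | assumption | rfl)) rfl rfl ?_ | refine run_cons' _ _ (acts_cap (by first | assumption | rfl)) rfl rfl ?_))) ?_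
  refine Iso.head (SL1c_M h s) [] []
    [(1, Gen.cup a), (2, Gen.crs s), (2, Gen.crs s)]
    [] rfl
    (by (repeat' (first | exact Run.nil _ | refine run_cons' _ _ (Gen.Acts.crs _ _ _) rfl rfl ?_ | refine run_cons' _ _ (acts_cup (by first | assumption | rfl)) rfl rfl ?_ | refine run_cons' _ _ (acts_cap (by first | assumption | rfl)) rfl rfl ?_)))
    (by (repeat' (first | exact Run.nil _ | refine run_cons' _ _ (Gen.Acts.crs _ _ _) rfl rfl ?_ | refine run_cons' _ _ (acts_cup (by first | assumption | rfl)) rfl rfl ?_ | refine run_cons' _ _ (acts_cap (by first | assumption | rfl)) rfl rfl ?_))) ?_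
  refine Iso.head (SL1c_L h' h s).symm [a] []
    []
    [(0, Gen.cap a)] rfl
    (by (repeat' (first | exact Run.nil _ | refine run_cons' _ _ (Gen.Acts.crs _ _ _) rfl rfl ?_ | refine run_cons' _ _ (acts_cup (by first | assumption | rfl)) rfl rfl ?_ | refine run_cons' _ _ (acts_cap (by first | assumption | rfl)) rfl rfl ?_)))
    (by (repeat' (first | exact Run.nil _ | refine run_cons' _ _ (Gen.Acts.crs _ _ _) rfl rfl ?_ | refine run_cons' _ _ (acts_cup (by first | assumption | rfl)) rfl rfl ?_ | refine run_cons' _ _ (acts_cap (by first | assumption | rfl)) rfl rfl ?_))) ?_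
  exact Iso.refl _

/-- a local trefoil at a minimum -/
theorem tr_cup (a : Pt α) (s : Bool) :
    Iso [] [a, op a] ((0, Gen.cup a) :: tr a s) ((0, Gen.cup a) :: sh 1 (tr (op a) s)) :=
  SL1c_cup (y := op a) rfl (op_op a).symm s

/-- a local trefoil at a maximum -/
theorem tr_cap (a : Pt α) (s : Bool) :
    Iso [a, op a] [] (tr a s ++ [(0, Gen.cap a)]) (sh 1 (tr (op a) s) ++ [(0, Gen.cap a)]) :=
  SL1c_cap (y := op a) rfl (op_op a).symm s

end MPab0b07
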