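import Pool.Agent.Lib.MP_ab0b07_gt.SL1
import Pool.Agent.Lib.MP_ab0b07_gt.SL1c
import Pool.Agent.Lib.MP_5b16f0_gt.Transport

/-!
# Moving a local trefoil along the knot
-/

set_option linter.unusedTactic false
set_option linter.unreachableTactic false
set_option linter.unusedVariables false

namespace MPab0b07

open MP5b16f0

universe u

section

variable {α : Type u}

/-- A local trefoil may be inserted at the point in position `p` of the level `Z` between the
words `u` and `v`, up to isotopy, giving the word `R`. -/
private def ColT (s : Bool) (X Y : List (Pt α)) (R u v : Word α) (Z : List (Pt α)) (p : ℕ) :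
    Prop :=
  ∃ (A : List (Pt α)) (q : Pt α) (C : List (Pt α)), Z = A ++ q :: C ∧ A.length = p ∧
    Iso X Y (u ++ (sh p (tr q s) ++ v)) R

private theorem colT_iff {s : Bool} {X Y : List (Pt α)} {R u v : Word α} {A : List (Pt α)}
    {q : Pt α} {C : List (Pt α)} : ColT s X Y R u v (A ++ q :: C) A.length ↔
      Iso X Y (u ++ (sh A.length (tr q s) ++ v)) R := by
  constructor
  · rintro ⟨A', q', C', h1, h2, h4⟩
    obtain ⟨e1, e2⟩ := List.append_inj h1 h2.symm
    simp only [List.cons.injEq] at e2
    obtain ⟨e2, e3⟩ := e2
    subst e1 e2 e3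
    exact h4
  · intro h2
    exact ⟨A, q, C, rfl, rfl, h2⟩

variable {s : Bool} {X Y : List (Pt α)} {R : Word α}

/-- points to the left of an elementary tangle -/
private theorem colT_left {u w : Word α} {g : Gen α} {A1 A2 B C D : List (Pt α)} {q : Pt α}
    (hg : g.Acts B C) (hu : Run u X (A1 ++ q :: A2 ++ (B ++ D)))
    (hw : Run w (A1 ++ q :: A2 ++ (C ++ D)) Y) :
    ColT s X Y R u (((A1 ++ q :: A2).length, g) :: w) (A1 ++ q :: A2 ++ (B ++ D)) A1.length ↔
      ColT s X Y R (u ++ [((A1 ++ q :: A2).length, g)]) w (A1 ++ q :: A2 ++ (C ++ D))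
        A1.length := by
  have e1 : A1 ++ q :: A2 ++ (B ++ D) = A1 ++ q :: (A2 ++ (B ++ D)) := by simp
  have e2 : A1 ++ q :: A2 ++ (C ++ D) = A1 ++ q :: (A2 ++ (C ++ D)) := by simp
  rw [e1, e2, colT_iff, colT_iff]
  have key : Iso X Y
      (u ++ (sh A1.length (tr q s ++ sh 1 [(A2.length, g)]) ++ w))
      (u ++ (sh A1.length (sh 1 [(A2.length, g)] ++ tr q s) ++ w)) := by
    have := (interchange (run_tr q s) (Run.single hg A2 D)).shiftL A1
    exact this.congr (Run.cast hu (by first | rfl | (simp; done) | (simp; omega) | (simp; ring_nf; done) | (simp; constructor <;> (first | rfl | omega | (ring_nf; done))) | (ring_nf; done)) (by first | rfl | (simp; done) | (simp; omega) | (simp; ring_nf; done) | (simp; constructor <;> (first | rfl | omega | (ring_nf; done))) | (ring_nf; done)) (by first | rfl | (simp; done) | (simp; omega) | (simp; ring_nf; done) | (simp; constructor <;> (first | rfl | omega | (ring_nf; done))) | (ring_nf; done)))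
      (Run.cast hw (by first | rfl | (simp; done) | (simp; omega) | (simp; ring_nf; done) | (simp; constructor <;> (first | rfl | omega | (ring_nf; done))) | (ring_nf; done)) (by first | rfl | (simp; done) | (simp; omega) | (simp; ring_nf; done) | (simp; constructor <;> (first | rfl | omega | (ring_nf; done))) | (ring_nf; done)) (by first | rfl | (simp; done) | (simp; omega) | (simp; ring_nf; done) | (simp; constructor <;> (first | rfl | omega | (ring_nf; done))) | (ring_nf; done)))
  constructor
  · intro h2
    refine Iso.trans (Iso.of_eq ?_) (key.symm.trans (Iso.trans (Iso.of_eq ?_) h2))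
    · exact (by first | rfl | (simp; done) | (simp; omega) | (simp; ring_nf; done) | (simp; constructor <;> (first | rfl | omega | (ring_nf; done))) | (ring_nf; done))
    · exact (by first | rfl | (simp; done) | (simp; omega) | (simp; ring_nf; done) | (simp; constructor <;> (first | rfl | omega | (ring_nf; done))) | (ring_nf; done))
  · intro h2
    refine Iso.trans (Iso.of_eq ?_) (key.trans (Iso.trans (Iso.of_eq ?_) h2))
    · exact (by first | rfl | (simp; done) | (simp; omega) | (simp; ring_nf; done) | (simp; constructor <;> (first | rfl | omega | (ring_nf; done))) | (ring_nf; done))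
    · exact (by first | rfl | (simp; done) | (simp; omega) | (simp; ring_nf; done) | (simp; constructor <;> (first | rfl | omega | (ring_nf; done))) | (ring_nf; done))

/-- points to the right of an elementary tangle -/
private theorem colT_right {u w : Word α} {g : Gen α} {A B C D1 D2 : List (Pt α)} {q : Pt α}
    (hg : g.Acts B C) (hu : Run u X (A ++ (B ++ (D1 ++ q :: D2))))
    (hw : Run w (A ++ (C ++ (D1 ++ q :: D2))) Y) :
    ColT s X Y R u ((A.length, g) :: w) (A ++ (B ++ (D1 ++ q :: D2)))
        (A.length + (B.length + D1.length)) ↔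
      ColT s X Y R (u ++ [(A.length, g)]) w (A ++ (C ++ (D1 ++ q :: D2)))
        (A.length + (C.length + D1.length)) := by
  have e1 : A ++ (B ++ (D1 ++ q :: D2)) = (A ++ (B ++ D1)) ++ q :: D2 := by simp
  have e2 : A ++ (C ++ (D1 ++ q :: D2)) = (A ++ (C ++ D1)) ++ q :: D2 := by simp
  have l1 : A.length + (B.length + D1.length) = (A ++ (B ++ D1)).length := by simp
  have l2 : A.length + (C.length + D1.length) = (A ++ (C ++ D1)).length := by simp
  rw [e1, e2, l1, l2, colT_iff, colT_iff]
  have key : Iso X Y
      (u ++ (([(A.length, g)] ++ sh (A ++ (C ++ D1)).length (tr q s)) ++ w))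
      (u ++ ((sh (A ++ (B ++ D1)).length (tr q s) ++ [(A.length, g)]) ++ w)) := by
    have := (interchange (Run.single hg A D1) (run_tr q s)).right D2
    exact this.congr (Run.cast hu (by first | rfl | (simp; done) | (simp; omega) | (simp; ring_nf; done) | (simp; constructor <;> (first | rfl | omega | (ring_nf; done))) | (ring_nf; done)) (by first | rfl | (simp; done) | (simp; omega) | (simp; ring_nf; done) | (simp; constructor <;> (first | rfl | omega | (ring_nf; done))) | (ring_nf; done)) (by first | rfl | (simp; done) | (simp; omega) | (simp; ring_nf; done) | (simp; constructor <;> (first | rfl | omega | (ring_nf; done))) | (ring_nf; done)))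
      (Run.cast hw (by first | rfl | (simp; done) | (simp; omega) | (simp; ring_nf; done) | (simp; constructor <;> (first | rfl | omega | (ring_nf; done))) | (ring_nf; done)) (by first | rfl | (simp; done) | (simp; omega) | (simp; ring_nf; done) | (simp; constructor <;> (first | rfl | omega | (ring_nf; done))) | (ring_nf; done)) (by first | rfl | (simp; done) | (simp; omega) | (simp; ring_nf; done) | (simp; constructor <;> (first | rfl | omega | (ring_nf; done))) | (ring_nf; done)))
  constructor
  · intro h2
    refine Iso.trans (Iso.of_eq ?_) (key.trans (Iso.trans (Iso.of_eq ?_) h2))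
    · exact (by first | rfl | (simp; done) | (simp; omega) | (simp; ring_nf; done) | (simp; constructor <;> (first | rfl | omega | (ring_nf; done))) | (ring_nf; done))
    · exact (by first | rfl | (simp; done) | (simp; omega) | (simp; ring_nf; done) | (simp; constructor <;> (first | rfl | omega | (ring_nf; done))) | (ring_nf; done))
  · intro h2
    refine Iso.trans (Iso.of_eq ?_) (key.symm.trans (Iso.trans (Iso.of_eq ?_) h2))
    · exact (by first | rfl | (simp; done) | (simp; omega) | (simp; ring_nf; done) | (simp; constructor <;> (first | rfl | omega | (ring_nf; done))) | (ring_nf; done))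
    · exact (by first | rfl | (simp; done) | (simp; omega) | (simp; ring_nf; done) | (simp; constructor <;> (first | rfl | omega | (ring_nf; done))) | (ring_nf; done))

private theorem colT_crs1 {u w : Word α} {A D : List (Pt α)} {a b : Pt α} {t : Bool}
    (hu : Run u X (A ++ (a :: b :: D))) (hw : Run w (A ++ (b :: a :: D)) Y) :
    ColT s X Y R u ((A.length, Gen.crs t) :: w) (A ++ (a :: b :: D)) A.length ↔
      ColT s X Y R (u ++ [(A.length, Gen.crs t)]) w (A ++ (b :: a :: D)) (A.length + 1) := by
  have e2 : A ++ (b :: a :: D) = (A ++ [b]) ++ a :: D := by simp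
  have l2 : A.length + 1 = (A ++ [b]).length := by simp
  rw [e2, l2, colT_iff, colT_iff]
  have key : Iso X Y
      (u ++ (sh A.length (tr a s ++ [(0, Gen.crs t)]) ++ w))
      (u ++ (sh A.length ([(0, Gen.crs t)] ++ sh 1 (tr a s)) ++ w)) := by
    have h := natL t b (run_tr a s)
    have h' : Iso [a, b] [b, a] (tr a s ++ [(0, Gen.crs t)])
        ([(0, Gen.crs t)] ++ sh 1 (tr a s)) :=
      Iso.adapt h rfl rfl (by simp [blkR, slR]) (by simp [blkR, slR])
    exact h'.ctx A D hu hw
  constructor
  · intro h2
    refine Iso.trans (Iso.of_eq ?_) (key.symm.trans (Iso.trans (Iso.of_eq ?_) h2))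
    · exact (by first | rfl | (simp; done) | (simp; omega) | (simp; ring_nf; done) | (simp; constructor <;> (first | rfl | omega | (ring_nf; done))) | (ring_nf; done))
    · exact (by first | rfl | (simp; done) | (simp; omega) | (simp; ring_nf; done) | (simp; constructor <;> (first | rfl | omega | (ring_nf; done))) | (ring_nf; done))
  · intro h2
    refine Iso.trans (Iso.of_eq ?_) (key.trans (Iso.trans (Iso.of_eq ?_) h2))
    · exact (by first | rfl | (simp; done) | (simp; omega) | (simp; ring_nf; done) | (simp; constructor <;> (first | rfl | omega | (ring_nf; done))) | (ring_nf; done))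
    · exact (by first | rfl | (simp; done) | (simp; omega) | (simp; ring_nf; done) | (simp; constructor <;> (first | rfl | omega | (ring_nf; done))) | (ring_nf; done))

private theorem colT_crs2 {u w : Word α} {A D : List (Pt α)} {a b : Pt α} {t : Bool}
    (hu : Run u X (A ++ (a :: b :: D))) (hw : Run w (A ++ (b :: a :: D)) Y) :
    ColT s X Y R u ((A.length, Gen.crs t) :: w) (A ++ (a :: b :: D)) (A.length + 1) ↔
      ColT s X Y R (u ++ [(A.length, Gen.crs t)]) w (A ++ (b :: a :: D)) A.length := by
  have e2 : A ++ (a :: b :: D) = (A ++ [a]) ++ b :: D := by simp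
  have l2 : A.length + 1 = (A ++ [a]).length := by simp
  rw [e2, l2, colT_iff, colT_iff]
  have key : Iso X Y
      (u ++ (sh A.length ([(0, Gen.crs t)] ++ tr b s) ++ w))
      (u ++ (sh A.length (sh 1 (tr b s) ++ [(0, Gen.crs t)]) ++ w)) := by
    have h := natR t a (run_tr b s)
    have h' : Iso [a, b] [b, a] ([(0, Gen.crs t)] ++ tr b s)
        (sh 1 (tr b s) ++ [(0, Gen.crs t)]) :=
      Iso.adapt h rfl rfl (by simp [slR]) (by simp [slR])
    exact h'.ctx A D hu hw
  constructor
  · intro h2
    refine Iso.trans (Iso.of_eq ?_) (key.trans (Iso.trans (Iso.of_eq ?_) h2))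
    · exact (by first | rfl | (simp; done) | (simp; omega) | (simp; ring_nf; done) | (simp; constructor <;> (first | rfl | omega | (ring_nf; done))) | (ring_nf; done))
    · exact (by first | rfl | (simp; done) | (simp; omega) | (simp; ring_nf; done) | (simp; constructor <;> (first | rfl | omega | (ring_nf; done))) | (ring_nf; done))
  · intro h2
    refine Iso.trans (Iso.of_eq ?_) (key.symm.trans (Iso.trans (Iso.of_eq ?_) h2))
    · exact (by first | rfl | (simp; done) | (simp; omega) | (simp; ring_nf; done) | (simp; constructor <;> (first | rfl | omega | (ring_nf; done))) | (ring_nf; done))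
    · exact (by first | rfl | (simp; done) | (simp; omega) | (simp; ring_nf; done) | (simp; constructor <;> (first | rfl | omega | (ring_nf; done))) | (ring_nf; done))

private theorem colT_cup {u w : Word α} {A D : List (Pt α)} {a : Pt α}
    (hu : Run u X (A ++ D)) (hw : Run w (A ++ (a :: op a :: D)) Y) :
    ColT s X Y R (u ++ [(A.length, Gen.cup a)]) w (A ++ (a :: op a :: D)) A.length ↔
      ColT s X Y R (u ++ [(A.length, Gen.cup a)]) w (A ++ (a :: op a :: D)) (A.length + 1) := by
  have l2 : A.length + 1 = (A ++ [a]).length := by simp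
  rw [colT_iff, l2]
  have e2 : A ++ (a :: op a :: D) = (A ++ [a]) ++ op a :: D := by simp
  rw [e2, colT_iff]
  have key : Iso X Y
      (u ++ (sh A.length ((0, Gen.cup a) :: tr a s) ++ w))
      (u ++ (sh A.length ((0, Gen.cup a) :: sh 1 (tr (op a) s)) ++ w)) :=
    (tr_cup a s).ctx A D hu hw
  constructor
  · intro h2
    refine Iso.trans (Iso.of_eq ?_) (key.symm.trans (Iso.trans (Iso.of_eq ?_) h2))
    · exact (by first | rfl | (simp; done) | (simp; omega) | (simp; ring_nf; done) | (simp; constructor <;> (first | rfl | omega | (ring_nf; done))) | (ring_nf; done))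
    · exact (by first | rfl | (simp; done) | (simp; omega) | (simp; ring_nf; done) | (simp; constructor <;> (first | rfl | omega | (ring_nf; done))) | (ring_nf; done))
  · intro h2
    refine Iso.trans (Iso.of_eq ?_) (key.trans (Iso.trans (Iso.of_eq ?_) h2))
    · exact (by first | rfl | (simp; done) | (simp; omega) | (simp; ring_nf; done) | (simp; constructor <;> (first | rfl | omega | (ring_nf; done))) | (ring_nf; done))
    · exact (by first | rfl | (simp; done) | (simp; omega) | (simp; ring_nf; done) | (simp; constructor <;> (first | rfl | omega | (ring_nf; done))) | (ring_nf; done))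

private theorem colT_cap {u w : Word α} {A D : List (Pt α)} {a : Pt α}
    (hu : Run u X (A ++ (a :: op a :: D))) (hw : Run w (A ++ D) Y) :
    ColT s X Y R u ((A.length, Gen.cap a) :: w) (A ++ (a :: op a :: D)) A.length ↔
      ColT s X Y R u ((A.length, Gen.cap a) :: w) (A ++ (a :: op a :: D)) (A.length + 1) := by
  have l2 : A.length + 1 = (A ++ [a]).length := by simp
  rw [colT_iff, l2]
  have e2 : A ++ (a :: op a :: D) = (A ++ [a]) ++ op a :: D := by simp
  rw [e2, colT_iff]
  have key : Iso X Y
      (u ++ (sh A.length (tr a s ++ [(0, Gen.cap a)]) ++ w))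
      (u ++ (sh A.length (sh 1 (tr (op a) s) ++ [(0, Gen.cap a)]) ++ w)) :=
    (tr_cap a s).ctx A D hu hw
  constructor
  · intro h2
    refine Iso.trans (Iso.of_eq ?_) (key.symm.trans (Iso.trans (Iso.of_eq ?_) h2))
    · exact (by first | rfl | (simp; done) | (simp; omega) | (simp; ring_nf; done) | (simp; constructor <;> (first | rfl | omega | (ring_nf; done))) | (ring_nf; done))
    · exact (by first | rfl | (simp; done) | (simp; omega) | (simp; ring_nf; done) | (simp; constructor <;> (first | rfl | omega | (ring_nf; done))) | (ring_nf; done))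
  · intro h2
    refine Iso.trans (Iso.of_eq ?_) (key.trans (Iso.trans (Iso.of_eq ?_) h2))
    · exact (by first | rfl | (simp; done) | (simp; omega) | (simp; ring_nf; done) | (simp; constructor <;> (first | rfl | omega | (ring_nf; done))) | (ring_nf; done))
    · exact (by first | rfl | (simp; done) | (simp; omega) | (simp; ring_nf; done) | (simp; constructor <;> (first | rfl | omega | (ring_nf; done))) | (ring_nf; done))

open Classical in
/-- The points at which the trefoil may be inserted form a colouring of the word. -/
private theorem colT_transport {u v z : Word α} {Z Z' : List (Pt α)} (hu : Run u X Z)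
    (hv : Run v Z Z') (hz : Run z Z' Y) :
    ∃ v' : Word (α × Bool), relabel Prod.fst v' = v ∧
      Run v' (paint (fun p => decide (ColT s X Y R u (v ++ z) Z p)) Z)
        (paint (fun p => decide (ColT s X Y R (u ++ v) z Z' p)) Z') := by
  induction hv generalizing u with
  | nil Z => exact ⟨[], rfl, by simpa using Run.nil _⟩
  | @cons A B C D Z' g w hg hw ih =>
    have hu1 : Run (u ++ [(A.length, g)]) X (A ++ (C ++ D)) := hu.append (Run.single hg A D)
    have hwz : Run (w ++ z) (A ++ (C ++ D)) Y := hw.append hz
    obtain ⟨w', h1, h2⟩ := ih hu1 hz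
    rw [List.append_assoc, List.singleton_append] at h2
    rw [paint_append, paint_append] at h2
    have hA : paint (fun p => decide (ColT s X Y R u ((A.length, g) :: (w ++ z))
          (A ++ (B ++ D)) p)) A
        = paint (fun p => decide (ColT s X Y R (u ++ [(A.length, g)]) (w ++ z)
          (A ++ (C ++ D)) p)) A := by
      apply paint_congr
      intro p hp
      obtain ⟨A1, q, A2, rfl, rfl⟩ := split_at hp
      simp only [decide_eq_decide]
      exact colT_left hg (by simpa using hu) (by simpa using hwz)
    have hD : paint (fun p => decide (ColT s X Y R u ((A.length, g) :: (w ++ z)) (A ++ (B ++ D))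
          (p + B.length + A.length))) D
        = paint (fun p => decide (ColT s X Y R (u ++ [(A.length, g)]) (w ++ z) (A ++ (C ++ D))
          (p + C.length + A.length))) D := by
      apply paint_congr
      intro p hp
      obtain ⟨D1, q, D2, rfl, rfl⟩ := split_at hp
      simp only [decide_eq_decide]
      have := colT_right (s := s) (R := R) hg hu hwz
      convert this using 2 <;> omega
    have key : ∃ g' : Gen (α × Bool), g'.relabel Prod.fst = g ∧ g'.Acts
        (paint (fun p => decide (ColT s X Y R u ((A.length, g) :: (w ++ z)) (A ++ (B ++ D))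
          (p + A.length))) B)
        (paint (fun p => decide (ColT s X Y R (u ++ [(A.length, g)]) (w ++ z) (A ++ (C ++ D))
          (p + A.length))) C) := by
      cases hg with
      | cup a =>
        refine ⟨Gen.cup ((a.1, decide (ColT s X Y R (u ++ [(A.length, Gen.cup a)]) (w ++ z)
          (A ++ (a :: op a :: D)) A.length)), a.2), rfl, ?_⟩
        have := colT_cup (s := s) (R := R) (a := a) (A := A) (D := D) hu hwz
        have e : paint (fun p => decide (ColT s X Y R (u ++ [(A.length, Gen.cup a)]) (w ++ z)
            (A ++ ([a, op a] ++ D)) (p + A.length))) [a, op a] =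
            [((a.1, decide (ColT s X Y R (u ++ [(A.length, Gen.cup a)]) (w ++ z)
              (A ++ (a :: op a :: D)) A.length)), a.2),
             op ((a.1, decide (ColT s X Y R (u ++ [(A.length, Gen.cup a)]) (w ++ z)
              (A ++ (a :: op a :: D)) A.length)), a.2)] := by
          simp only [paint_cons, paint_nil, List.cons_append, List.nil_append, Nat.zero_add,
            Nat.add_comm 1 A.length, this]
          rfl
        rw [e]
        exact Gen.Acts.cup _
      | cap a =>
        refine ⟨Gen.cap ((a.1, decide (ColT s X Y R u ((A.length, Gen.cap a) :: (w ++ z))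
          (A ++ (a :: op a :: D)) A.length)), a.2), rfl, ?_⟩
        have := colT_cap (s := s) (R := R) (a := a) (A := A) (D := D) hu hwz
        have e : paint (fun p => decide (ColT s X Y R u ((A.length, Gen.cap a) :: (w ++ z))
            (A ++ ([a, op a] ++ D)) (p + A.length))) [a, op a] =
            [((a.1, decide (ColT s X Y R u ((A.length, Gen.cap a) :: (w ++ z))
              (A ++ (a :: op a :: D)) A.length)), a.2),
             op ((a.1, decide (ColT s X Y R u ((A.length, Gen.cap a) :: (w ++ z))
              (A ++ (a :: op a :: D)) A.length)), a.2)] := by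
          simp only [paint_cons, paint_nil, List.cons_append, List.nil_append, Nat.zero_add,
            Nat.add_comm 1 A.length, this]
          rfl
        rw [e]
        exact Gen.Acts.cap _
      | crs t a b =>
        refine ⟨Gen.crs t, rfl, ?_⟩
        have t1 := colT_crs1 (s := s) (R := R) (a := a) (b := b) (t := t) (A := A) (D := D) hu hwz
        have t2 := colT_crs2 (s := s) (R := R) (a := a) (b := b) (t := t) (A := A) (D := D) hu hwz
        simp only [List.cons_append, List.nil_append, paint_cons, paint_nil, Nat.zero_add,
          Nat.add_comm _ A.length, Nat.add_zero]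
        simp only [t1, t2]
        exact Gen.Acts.crs t _ _
    obtain ⟨g', hg1, hg2⟩ := key
    refine ⟨(A.length, g') :: w', by simp [h1, hg1], ?_⟩
    rw [List.cons_append, paint_append, paint_append, hA, hD]
    have := Run.cons hg2 h2
    simpa using this

end

private theorem paint_const {c : ℕ → Bool} {b : Bool} {Z : List (Pt (Fin 1))}
    (h : paint c Z = relabelPts (fun i => (i, b)) Z) : ∀ p < Z.length, c p = b := by
  induction Z generalizing c with
  | nil => intro p hp; simp at hp
  | cons q Z ih =>
    rw [paint_cons, relabelPts_cons, List.cons.injEq] at h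
    intro p hp
    cases p with
    | zero => simpa using h.1
    | succ p => exact ih h.2 p (by simpa using hp)

open Classical in
/-- The colouring is constant. -/
private theorem colT_const {s : Bool} {R u v z : Word (Fin 1)} {Z Z' : List (Pt (Fin 1))}
    (hw : LinkWord 1 (u ++ (v ++ z))) (hu : Run u [] Z) (hv : Run v Z Z') (hz : Run z Z' []) :
    ∃ b : Bool, (∀ p < Z.length, decide (ColT s [] [] R u (v ++ z) Z p) = b) ∧
      ∀ p < Z'.length, decide (ColT s [] [] R (u ++ v) z Z' p) = b := by
  obtain ⟨u1, hu1, ru⟩ := colT_transport (s := s) (R := R) (Run.nil []) hu (hv.append hz)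
  obtain ⟨v1, hv1, rv⟩ := colT_transport (s := s) (R := R) hu hv hz
  obtain ⟨z1, hz1, rz⟩ := colT_transport (s := s) (R := R) (hu.append hv) hz (Run.nil [])
  rw [List.nil_append] at ru
  rw [List.append_nil] at rz
  have r : Run (u1 ++ (v1 ++ z1)) [] [] := by
    have := ru.append (rv.append rz)
    simpa using this
  obtain ⟨f, hf⟩ := hw.2.2 (u1 ++ (v1 ++ z1)) (by simp [hu1, hv1, hz1]) r
  have hf0 : (fun i : Fin 1 => (i, f i)) = fun i => (i, f 0) := by
    funext i
    rw [Subsingleton.elim i 0]
  rw [hf0] at hf
  have lu : u1.length = u.length := by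
    have := congrArg List.length hu1
    simpa [relabel] using this
  have lv : v1.length = v.length := by
    have := congrArg List.length hv1
    simpa [relabel] using this
  rw [relabel_append, relabel_append] at hf
  obtain ⟨eu, hf2⟩ := List.append_inj hf (by simpa [relabel] using lu)
  obtain ⟨ev, -⟩ := List.append_inj hf2 (by simpa [relabel] using lv)
  have du := hu.relabel (fun i : Fin 1 => (i, f 0))
  have dv := hv.relabel (fun i : Fin 1 => (i, f 0))
  rw [eu] at ru
  rw [ev] at rv
  have E1 := Run.det (by simpa using ru) (by simpa using du)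
  rw [E1] at rv
  have E2 := Run.det rv dv
  exact ⟨f 0, paint_const E1, paint_const E2⟩

/-- A local trefoil can be moved along the knot.  Follow `Transport.lean` of `MP_5b16f0_gt` (there
`JEq` and `att x q k` play the roles of `Iso` and `tr a s`): the positions at which the insertion
of a trefoil gives the same knot as at a fixed position form a colouring of the components
(`interchange`, `natR`, `natL`, `tr_cup`, `tr_cap`), which is constant because of `LinkWord 1`. -/
theorem ins_indep {s : Bool} {u v u' v' : Word (Fin 1)} {A C A' C' : List (Pt (Fin 1))}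
    {a a' : Pt (Fin 1)} (hw : LinkWord 1 (u ++ v)) (h : u ++ v = u' ++ v')
    (hu : Run u [] (A ++ a :: C)) (hu' : Run u' [] (A' ++ a' :: C')) :
    Iso [] [] (u ++ (sh A.length (tr a s) ++ v)) (u' ++ (sh A'.length (tr a' s) ++ v')) := by
  have aux : ∀ {u m z : Word (Fin 1)} {A C A' C' : List (Pt (Fin 1))} {a a' : Pt (Fin 1)},
      LinkWord 1 (u ++ (m ++ z)) → Run u [] (A ++ a :: C) → Run (u ++ m) [] (A' ++ a' :: C') →
      Iso [] [] (u ++ (sh A.length (tr a s) ++ (m ++ z)))
        ((u ++ m) ++ (sh A'.length (tr a' s) ++ z)) := by
    intro u m z A C A' C' a a' hw hu hum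
    have hm : Run m (A ++ a :: C) (A' ++ a' :: C') := hum.append_cancel hu
    have hmz : Run (m ++ z) (A ++ a :: C) [] := hw.1.append_cancel hu
    have hz : Run z (A' ++ a' :: C') [] := hmz.append_cancel hm
    classical
    obtain ⟨b, hb1, hb2⟩ := colT_const (s := s)
      (R := (u ++ m) ++ (sh A'.length (tr a' s) ++ z)) hw hu hm hz
    have h2 := hb2 A'.length (by simp)
    have h1 := hb1 A.length (by simp)
    have ht : ColT s [] [] ((u ++ m) ++ (sh A'.length (tr a' s) ++ z)) (u ++ m) z
        (A' ++ a' :: C') A'.length := colT_iff.mpr (Iso.refl _)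
    rw [decide_eq_true ht] at h2
    rw [← h2, decide_eq_true_iff] at h1
    exact colT_iff.mp h1
  rcases List.append_eq_append_iff.mp h with ⟨m, rfl, rfl⟩ | ⟨m, rfl, rfl⟩
  · exact aux hw hu hu'
  · exact (aux (by simpa using hw) hu' hu).symm

end MPab0b07
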