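import Pool.Agent.Lib.MP_ab0b07_gt.CO
import Pool.Agent.Lib.MP_ab0b07_gt.MV3
import Pool.Agent.Lib.MP_ab0b07_gt.MV4
import Pool.Agent.Lib.MP_ab0b07_gt.ND2
import Pool.Agent.Lib.MP_ab0b07_gt.SL2
import Pool.Agent.Lib.MP_ab0b07_gt.SL1b
import Pool.Agent.Lib.MP_ab0b07_gt.SL1c
import Pool.Agent.Lib.MP_ab0b07_gt.MV3b

/-!
# The signature under crossing changes and under the insertion of `M` and of local trefoils
-/

namespace MPab0b07

open MP5b16f0

universe u

variable {α : Type u}

theorem sk_append (R : Type) [CommRing R] (u v : Word α) : sk R (u ++ v) = sk R u ++ sk R v := by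
  simp [sk]

theorem sk_crs (R : Type) [CommRing R] (p : ℕ) (s : Bool) (v : Word α) :
    sk R ((p, Gen.crs s) :: v) = (p, El.x ((wt p s : ℤ) : R)) :: sk R v := rfl

theorem sk_cup (R : Type) [CommRing R] (p : ℕ) (a : Pt α) (v : Word α) :
    sk R ((p, Gen.cup a) :: v) = (p, El.cup) :: sk R v := rfl

theorem sk_cap (R : Type) [CommRing R] (p : ℕ) (a : Pt α) (v : Word α) :
    sk R ((p, Gen.cap a) :: v) = (p, El.cap) :: sk R v := rfl

theorem sk_nil (R : Type) [CommRing R] : sk R ([] : Word α) = [] := rfl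

/-- the sign of a crossing with parallel strands -/
def eps (s : Bool) : ℤ := if s then 1 else -1

theorem eps_not (s : Bool) : eps (!s) = - eps s := by cases s <;> rfl

theorem eps_sq (s : Bool) : eps s ^ 2 = 1 := by cases s <;> rfl

theorem wt_even {p : ℕ} (hp : Even p) (s : Bool) : wt p s = eps s := by
  simp [wt, eps, hp]

theorem wt_odd {p : ℕ} (hp : ¬ Even p) (s : Bool) : wt p s = - eps s := by
  simp [wt, eps, hp]

theorem wt_not (p : ℕ) (s : Bool) : wt p (!s) = - wt p s := by
  by_cases hp : Even p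
  · rw [wt_even hp, wt_even hp, eps_not]
  · rw [wt_odd hp, wt_odd hp, eps_not]

theorem wt_succ (p : ℕ) (s : Bool) : wt (p + 1) s = - wt p s := by
  by_cases hp : Even p
  · rw [wt_even hp, wt_odd (by rw [Nat.even_add_one]; exact not_not.2 hp)]
  · rw [wt_odd hp, wt_even (by rw [Nat.even_add_one]; exact hp), neg_neg]

theorem wt_sq (p : ℕ) (s : Bool) : ((wt p s : ℤ) : ℚ) ^ 2 = 1 := by
  have : (wt p s) ^ 2 = 1 := by
    by_cases hp : Even p
    · rw [wt_even hp, eps_sq]
    · rw [wt_odd hp, neg_sq, eps_sq]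
  exact_mod_cast this

/-! ### Directions -/

theorem ori_swap {p : ℕ} {o : ℕ → Bool} (h : o p = o (p + 1)) :
    ori 2 2 p (o (p + 1)) (o p) o = o := by
  funext j
  unfold ori
  split_ifs with h1 h2 h3
  · rfl
  · rw [h3, h]
  · have : j = p + 1 := by omega
    rw [this, h]
  · congr 1

theorem ori_cup_cap (q : ℕ) (b1 b2 x y : Bool) (o : ℕ → Bool) :
    ori 2 0 q x y (ori 0 2 q b1 b2 o) = o := by
  funext j
  unfold ori
  split_ifs <;> first | rfl | omega | (congr 1; omega)

theorem oriW_append (u v : Word α) (o : ℕ → Bool) : oriW (u ++ v) o = oriW v (oriW u o) := by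
  induction u generalizing o with
  | nil => rfl
  | cons x u ih =>
    obtain ⟨p, g⟩ := x
    cases g <;> exact ih _

/-- the initial directions -/
def o0 : ℕ → Bool := fun _ => true

theorem sgn_split (u v : Word α) :
    sgn (u ++ v) = SG (sk ℚ u ++ sk ℚ v) - corr u o0 - corr v (oriW u o0) := by
  rw [sgn, sk_append]
  show _ - corr (u ++ v) o0 = _
  rw [corr_append]
  ring

/-- the directions at a level, as seen by `corr` -/
theorem ori_at {u : Word α} {A C : List (Pt α)} {a b : Pt α}
    (hu : Run u [] (A ++ (a :: b :: C))) :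
    oriW u o0 A.length = a.2 ∧ oriW u o0 (A.length + 1) = b.2 := by
  have h := lvl_oriW hu (o := o0) (fun i hi => by simp at hi)
  constructor
  · have := h A.length (by simp)
    rw [this]
    simp
  · have := h (A.length + 1) (by simp)
    rw [this]
    simp

/-! ### Crossing changes -/

theorem corr_crs (p : ℕ) (s : Bool) (v : Word α) (o : ℕ → Bool) :
    corr ((p, Gen.crs s) :: v) o =
      corrX p s (o p == o (p + 1)) + corr v (ori 2 2 p (o (p + 1)) (o p) o) := rfl

theorem corr_even_diff (p : ℕ) (s par : Bool) : Even (corrX p s par - corrX p (!s) par) := by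
  cases s <;> cases par <;> simp only [corrX] <;> split_ifs <;> decide

/-- The signature of a knot diagram changes by an even number under crossing changes. -/
theorem sgn_cc_even {u v : Word (Fin 1)} {p : ℕ} {s : Bool}
    (hw : LinkWord 1 (u ++ (p, Gen.crs s) :: v)) :
    Even (sgn (u ++ (p, Gen.crs s) :: v) - sgn (u ++ (p, Gen.crs !s) :: v)) := by
  have hw' : LinkWord 1 (u ++ (p, Gen.crs !s) :: v) := hw.e1 (E1.cc _ hw.1)
  have n1 := nondeg hw
  have n2 := nondeg hw'
  rw [sk_append, sk_crs] at n1 n2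
  have key := sg_weight_parity (sk ℚ u) (sk ℚ v) p _ _ n1 n2
  rw [sgn_split, sgn_split, corr_crs, corr_crs, sk_crs, sk_crs]
  have h2 := corr_even_diff p s (oriW u o0 p == oriW u o0 (p + 1))
  obtain ⟨k, hk⟩ := key
  obtain ⟨l, hl⟩ := h2
  refine ⟨k - l, ?_⟩
  linarith

/-- `SG` as a function of the weight of one crossing -/
noncomputable def F (u v : Word α) (p : ℕ) (κ : ℚ) : ℤ := SG (sk ℚ u ++ (p, El.x κ) :: sk ℚ v)

theorem F_mono (u v : Word α) (p : ℕ) {a b : ℚ} (h : a ≤ b) : F u v p a ≤ F u v p b :=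
  sg_weight_mono _ _ _ h

theorem F_le (u v : Word α) (p : ℕ) (a b : ℚ) : F u v p b ≤ F u v p a + 2 :=
  sg_weight_le _ _ _ _ _

theorem sgn_crs (u v : Word α) (p : ℕ) (s : Bool) :
    sgn (u ++ (p, Gen.crs s) :: v) = F u v p (wt p s : ℤ) - corr u o0 -
      corrX p s (oriW u o0 p == oriW u o0 (p + 1)) -
      corr v (ori 2 2 p (oriW u o0 (p + 1)) (oriW u o0 p) (oriW u o0)) := by
  rw [sgn_split, corr_crs, sk_crs, F]
  ring

/-- The signature changes by at most two under a crossing change. -/
theorem sgn_cc_le (u v : Word α) (p : ℕ) (s : Bool) :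
    |sgn (u ++ (p, Gen.crs s) :: v) - sgn (u ++ (p, Gen.crs !s) :: v)| ≤ 2 := by
  rw [sgn_crs, sgn_crs, wt_not]
  have h1 := F_le u v p 1 (-1)
  have h2 := F_le u v p (-1) 1
  have h3 := F_mono u v p (show (-1 : ℚ) ≤ 1 by norm_num)
  rw [abs_le]
  by_cases hp : Even p
  · cases s
    · rw [show wt p false = -1 by simp [wt, hp]]
      push_cast
      cases (oriW u o0 p == oriW u o0 (p + 1)) <;> simp only [corrX, hp] <;> constructor <;>
        norm_num <;> linarith
    · rw [show wt p true = 1 by simp [wt, hp]]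
      push_cast
      cases (oriW u o0 p == oriW u o0 (p + 1)) <;> simp only [corrX, hp] <;> constructor <;>
        norm_num <;> linarith
  · cases s
    · rw [show wt p false = 1 by simp [wt, hp]]
      push_cast
      cases (oriW u o0 p == oriW u o0 (p + 1)) <;> simp only [corrX, hp] <;> constructor <;>
        norm_num <;> linarith
    · rw [show wt p true = -1 by simp [wt, hp]]
      push_cast
      cases (oriW u o0 p == oriW u o0 (p + 1)) <;> simp only [corrX, hp] <;> constructor <;>
        norm_num <;> linarith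

/-! ### Parallel crossings, `M` -/

theorem corrX_par (p : ℕ) (s : Bool) : corrX p s true = if Even p then eps s else 0 := by
  unfold corrX eps
  split_ifs <;> simp_all

theorem sgn_par {u v : Word α} {A C : List (Pt α)} {a : Pt α} {p : ℕ}
    (hu : Run u [] (A ++ (a :: a :: C))) (hp : A.length = p) (s : Bool) :
    sgn (u ++ (p, Gen.crs s) :: v) = F u v p (wt p s : ℤ) - corr u o0 -
      (if Even p then eps s else 0) - corr v (oriW u o0) := by
  obtain ⟨h1, h2⟩ := ori_at hu
  rw [hp] at h1 h2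
  rw [sgn_crs, ori_swap (h1.trans h2.symm), h1, h2, beq_self_eq_true, corrX_par]

theorem corr_tM (a : Pt α) (s : Bool) (p : ℕ) (v : Word α) (o : ℕ → Bool) (h1 : o p = a.2)
    (h2 : o (p + 1) = a.2) : corr (sh p (tM a s) ++ v) o =
      (if Even p then - eps s else - 3 * eps s) + corr v o := by
  have c1 : ori 2 2 p (o (p + 1)) (o p) o = o := ori_swap (h1.trans h2.symm)
  set o1 := ori 0 2 (p + 2) a.2 (!a.2) o with ho1
  have q0 : o1 p = a.2 := by rw [ho1]; simp [ori, h1]
  have q1 : o1 (p + 1) = a.2 := by rw [ho1]; simp [ori, h2]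
  have q2 : o1 (p + 2) = a.2 := by rw [ho1]; simp [ori]
  have c2 : ori 2 2 p (o1 (p + 1)) (o1 p) o1 = o1 := ori_swap (q0.trans q1.symm)
  have c3 : ori 2 2 (p + 1) (o1 (p + 1 + 1)) (o1 (p + 1)) o1 = o1 := ori_swap (q1.trans q2.symm)
  have c4 : ori 2 0 (p + 2) true true o1 = o := ori_cup_cap _ _ _ _ _ _
  have e1 : 0 + p = p := by omega
  have e2 : 1 + p = p + 1 := by omega
  have e3 : 2 + p = p + 2 := by omega
  simp only [tM, sh_cons, sh_nil, List.cons_append, List.nil_append, e1, e2, e3]
  rw [corr_crs, c1, corr, ← ho1, corr_crs, c3, corr_crs, c3, corr_crs, c2, corr_crs, c2,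
    corr_crs, c3, corr, c4, h1, h2, q0, q1, q2]
  simp only [beq_self_eq_true, corrX_par, eps_not, Nat.even_add_one]
  by_cases hp : Even p
  · simp [hp]
  · simp [hp]; ring

theorem sk_tM (a : Pt α) (s : Bool) (p : ℕ) (v : Word α) :
    sk ℚ (sh p (tM a s) ++ v) = (p, El.x ((wt p s : ℤ) : ℚ)) :: (p + 2, El.cup) ::
      (p + 1, El.x ((wt p s : ℤ) : ℚ)) :: (p + 1, El.x ((wt p s : ℤ) : ℚ)) ::
      (p, El.x (-((wt p s : ℤ) : ℚ))) :: (p, El.x (-((wt p s : ℤ) : ℚ))) ::
      (p + 1, El.x ((wt p s : ℤ) : ℚ)) :: (p + 2, El.cap) :: sk ℚ v := by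
  have e1 : 0 + p = p := by omega
  have e2 : 1 + p = p + 1 := by omega
  have e3 : 2 + p = p + 2 := by omega
  simp only [tM, sh_cons, sh_nil, List.cons_append, List.nil_append, e1, e2, e3, sk_crs, sk_cup,
    sk_cap, wt_succ, wt_not, neg_neg, Int.cast_neg]

theorem sgn_tM {u v : Word α} {A C : List (Pt α)} {a : Pt α} {p : ℕ}
    (hu : Run u [] (A ++ (a :: a :: C))) (hp : A.length = p) (s : Bool) :
    sgn (u ++ (sh p (tM a s) ++ v)) =
      (if Even p then F u v p (7 * (eps s : ℚ)) + eps s else F u v p (-(eps s : ℚ) / 7) + 2 * eps s)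
        - corr u o0 - corr v (oriW u o0) := by
  obtain ⟨h1, h2⟩ := ori_at hu
  rw [hp] at h1 h2
  rw [sgn_split, corr_tM a s p v _ h1 h2, sk_tM]
  by_cases he : Even p
  · have := sg_M_even p he ((wt p s : ℤ) : ℚ) (wt_sq p s) (sk ℚ v) (sk ℚ u)
    rw [this, if_pos he, if_pos he, wt_even he, F]
    ring
  · have := sg_M_odd p he ((wt p s : ℤ) : ℚ) (wt_sq p s) (sk ℚ v) (sk ℚ u)
    rw [this, if_neg he, if_neg he, wt_odd he, F]
    have h3 : (SignType.sign (((- eps s : ℤ)) : ℚ) : ℤ) = - eps s := by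
      cases s <;> simp [eps]
    rw [h3]
    push_cast
    ring

/-- **The local lemma.** -/
theorem jump {u v : Word (Fin 1)} {A C : List (Pt (Fin 1))} {a : Pt (Fin 1)} {p : ℕ}
    (hu : Run u [] (A ++ (a :: a :: C))) (hp : A.length = p) (s : Bool)
    (heven : ∀ t, Even (sgn (u ++ (sh p (tM a t) ++ v)) - sgn (u ++ (p, Gen.crs s) :: v)))
    (hj : sgn (u ++ (p, Gen.crs !s) :: v) = sgn (u ++ (p, Gen.crs s) :: v) + 2 * eps s) :
    sgn (u ++ (sh p (tM a s) ++ v)) = sgn (u ++ (p, Gen.crs !s) :: v) ∨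
      sgn (u ++ (sh p (tM a (!s)) ++ v)) = sgn (u ++ (p, Gen.crs s) :: v) := by
  have h0 := heven s
  rw [sgn_par hu hp, sgn_par hu hp] at hj
  rw [sgn_tM hu hp, sgn_par hu hp] at h0
  rw [sgn_tM hu hp, sgn_tM hu hp, sgn_par hu hp, sgn_par hu hp]
  by_cases he : Even p
  · simp only [if_pos he, wt_even he, eps_not] at *
    push_cast at *
    cases s
    · simp only [eps, Bool.false_eq_true, if_false] at *
      push_cast at *
      norm_num at *
      have m1 := F_mono u v p (show (-7 : ℚ) ≤ -1 by norm_num)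
      have m2 := F_mono u v p (show (1 : ℚ) ≤ 7 by norm_num)
      have m3 := F_le u v p (-7) 7
      have m4 := F_le u v p (-7) (-1)
      obtain ⟨k, hk⟩ := h0
      by_cases hc : F u v p (-7) = F u v p (-1)
      · left; rw [hc]; linarith
      · right
        omega
    · simp only [eps, if_true] at *
      push_cast at *
      norm_num at *
      have m1 := F_mono u v p (show (-7 : ℚ) ≤ -1 by norm_num)
      have m2 := F_mono u v p (show (1 : ℚ) ≤ 7 by norm_num)
      have m3 := F_le u v p (-7) 7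
      have m4 := F_le u v p 1 7
      obtain ⟨k, hk⟩ := h0
      by_cases hc : F u v p 7 = F u v p 1
      · left; rw [hc]; linarith
      · right
        omega
  · simp only [if_neg he, wt_odd he, eps_not] at *
    push_cast at *
    cases s
    · simp only [eps, Bool.false_eq_true, if_false] at *
      push_cast at *
      norm_num at *
      have m1 := F_mono u v p (show (-1 : ℚ) ≤ -1/7 by norm_num)
      have m2 := F_mono u v p (show (-1/7 : ℚ) ≤ 1/7 by norm_num)
      have m3 := F_mono u v p (show (1/7 : ℚ) ≤ 1 by norm_num)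
      obtain ⟨k, hk⟩ := h0
      norm_num at *
      by_cases hc : F u v p (1/7) = F u v p 1
      · left; rw [hc]; linarith
      · right
        omega
    · simp only [eps, if_true] at *
      push_cast at *
      norm_num at *
      have m1 := F_mono u v p (show (-1 : ℚ) ≤ -1/7 by norm_num)
      have m2 := F_mono u v p (show (-1/7 : ℚ) ≤ 1/7 by norm_num)
      have m3 := F_mono u v p (show (1/7 : ℚ) ≤ 1 by norm_num)
      obtain ⟨k, hk⟩ := h0
      norm_num at *
      by_cases hc : F u v p (-(1 / 7)) = F u v p (-1)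
      · left; rw [hc]; linarith
      · right
        omega

end MPab0b07
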