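import Pool.Agent.Lib.MP_ab0b07_gt.KN1

/-!
# Reversal, mirror image, insertion of a local trefoil: words
-/

namespace MPab0b07

open MP5b16f0

universe u

variable {α : Type u}

/-! ### Reversal -/

theorem rev_append (u v : Word α) : rev (u ++ v) = rev u ++ rev v := by simp [rev]

theorem revG_revG (g : Gen α) : revG (revG g) = g := by cases g <;> simp [revG, op]

theorem rev_rev (w : Word α) : rev (rev w) = w := by
  induction w with
  | nil => rfl
  | cons x w ih =>
    obtain ⟨p, g⟩ := x
    show (p, revG (revG g)) :: rev (rev w) = _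
    rw [revG_revG, ih]

theorem rev_sh (k : ℕ) (w : Word α) : rev (sh k w) = sh k (rev w) := by
  simp [rev, sh]

theorem rev_tr (a : Pt α) (s : Bool) : rev (tr a s) = tr (op a) s := rfl

theorem acts_rev {g : Gen α} {B C : List (Pt α)} (h : g.Acts B C) :
    (revG g).Acts (B.map op) (C.map op) := by
  cases h with
  | cup a => exact Gen.Acts.cup (op a)
  | cap a => exact Gen.Acts.cap (op a)
  | crs s a b => exact Gen.Acts.crs s (op a) (op b)

theorem run_rev {w : Word α} {X Y : List (Pt α)} (h : Run w X Y) :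
    Run (rev w) (X.map op) (Y.map op) := by
  induction h with
  | nil X => exact Run.nil _
  | @cons A B C D Y g w hg _ ih =>
    have h1 := Run.cons (A := A.map op) (D := D.map op) (acts_rev hg) (by simpa using ih)
    simpa [rev] using h1

theorem move_rev {X Y : List (Pt α)} {r s : Word α} (h : Move X Y r s) :
    Move (X.map op) (Y.map op) (rev r) (rev s) := by
  cases h with
  | @comm g h B C B' C' hg hh M =>
    have := Move.comm (acts_rev hg) (acts_rev hh) (M.map op)
    simpa [rev] using this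
  | zig a => exact Move.zig (op a)
  | zag a => exact Move.zag (op a)
  | r1cup a s => exact Move.r1cup (op a) s
  | r1cap a s => exact Move.r1cap (op a) s
  | r2 a b s => exact Move.r2 (op a) (op b) s
  | r3 a b c s => exact Move.r3 (op a) (op b) (op c) s
  | slideCup a b s => exact Move.slideCup (op a) (op b) s
  | slideCap a b s => exact Move.slideCap (op a) (op b) s

theorem iso_rev {X Y : List (Pt α)} {w w' : Word α} (h : Iso X Y w w') :
    Iso (X.map op) (Y.map op) (rev w) (rev w') := by
  induction h with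
  | rel w w' h =>
    cases h with
    | @mk A C X' Y' u r s v hu hm hv =>
      have h1 := (move_rev hm).iso.ctx (A.map op) (C.map op) (u := rev u) (v := rev v)
        (X' := X.map op) (Y' := Y.map op) (by simpa using run_rev hu) (by simpa using run_rev hv)
      simpa [rev_append, rev_sh] using h1
  | refl w => exact Iso.refl _
  | symm _ _ _ ih => exact ih.symm
  | trans _ _ _ _ _ ih1 ih2 => exact ih1.trans ih2

theorem relabel_rev {β : Type*} (f : α → β) (w : Word α) :
    relabel f (rev w) = rev (relabel f w) := by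
  induction w with
  | nil => rfl
  | cons x w ih =>
    obtain ⟨p, g⟩ := x
    show (p, (revG g).relabel f) :: relabel f (rev w) = (p, revG (g.relabel f)) :: rev (relabel f w)
    rw [ih]
    cases g <;> rfl

theorem link_rev {m : ℕ} {w : Word (Fin m)} (hw : LinkWord m w) : LinkWord m (rev w) := by
  obtain ⟨h1, h2, h3⟩ := hw
  refine ⟨by simpa using run_rev h1, fun i => ?_, fun w' h4 h5 => ?_⟩
  · obtain ⟨p, o, h⟩ := h2 i
    refine ⟨p, !o, ?_⟩
    exact List.mem_map.2 ⟨_, h, rfl⟩
  · obtain ⟨f, hf⟩ := h3 (rev w') (by rw [relabel_rev, h4, rev_rev]) (by simpa using run_rev h5)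
    refine ⟨f, ?_⟩
    rw [relabel_rev, ← hf, rev_rev]

/-! ### Mirror image -/

theorem mir_append (u v : Word α) : mir (u ++ v) = mir u ++ mir v := by simp [mir]

theorem mirG_mirG (g : Gen α) : mirG (mirG g) = g := by cases g <;> simp [mirG]

theorem mir_mir (w : Word α) : mir (mir w) = w := by
  induction w with
  | nil => rfl
  | cons x w ih =>
    obtain ⟨p, g⟩ := x
    show (p, mirG (mirG g)) :: mir (mir w) = _
    rw [mirG_mirG, ih]

theorem mir_sh (k : ℕ) (w : Word α) : mir (sh k w) = sh k (mir w) := by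
  simp [mir, sh]

theorem mir_rev (w : Word α) : mir (rev w) = rev (mir w) := by
  induction w with
  | nil => rfl
  | cons x w ih =>
    obtain ⟨p, g⟩ := x
    show (p, mirG (revG g)) :: mir (rev w) = (p, revG (mirG g)) :: rev (mir w)
    rw [ih]
    cases g <;> rfl

theorem acts_mir {g : Gen α} {B C : List (Pt α)} (h : g.Acts B C) : (mirG g).Acts B C := by
  cases h with
  | cup a => exact Gen.Acts.cup a
  | cap a => exact Gen.Acts.cap a
  | crs s a b => exact Gen.Acts.crs _ a b

theorem run_mir {w : Word α} {X Y : List (Pt α)} (h : Run w X Y) : Run (mir w) X Y := by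
  induction h with
  | nil X => exact Run.nil _
  | cons hg _ ih => exact Run.cons (acts_mir hg) ih

theorem move_mir {X Y : List (Pt α)} {r s : Word α} (h : Move X Y r s) :
    Move X Y (mir r) (mir s) := by
  cases h with
  | @comm g h B C B' C' hg hh M => exact Move.comm (acts_mir hg) (acts_mir hh) M
  | zig a => exact Move.zig a
  | zag a => exact Move.zag a
  | r1cup a s => exact Move.r1cup a (!s)
  | r1cap a s => exact Move.r1cap a (!s)
  | r2 a b s => exact Move.r2 a b (!s)
  | r3 a b c s => exact Move.r3 a b c (!s)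
  | slideCup a b s => exact Move.slideCup a b (!s)
  | slideCap a b s => exact Move.slideCap a b (!s)

theorem iso_mir {X Y : List (Pt α)} {w w' : Word α} (h : Iso X Y w w') :
    Iso X Y (mir w) (mir w') := by
  induction h with
  | rel w w' h =>
    cases h with
    | @mk A C X' Y' u r s v hu hm hv =>
      have h1 := (move_mir hm).iso.ctx A C (run_mir hu) (run_mir hv)
      simpa [mir_append, mir_sh] using h1
  | refl w => exact Iso.refl _
  | symm _ _ _ ih => exact ih.symm
  | trans _ _ _ _ _ ih1 ih2 => exact ih1.trans ih2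

theorem relabel_mir {β : Type*} (f : α → β) (w : Word α) :
    relabel f (mir w) = mir (relabel f w) := by
  induction w with
  | nil => rfl
  | cons x w ih =>
    obtain ⟨p, g⟩ := x
    show (p, (mirG g).relabel f) :: relabel f (mir w) = (p, mirG (g.relabel f)) :: mir (relabel f w)
    rw [ih]
    cases g <;> rfl

theorem link_mir {m : ℕ} {w : Word (Fin m)} (hw : LinkWord m w) : LinkWord m (mir w) := by
  obtain ⟨h1, h2, h3⟩ := hw
  refine ⟨run_mir h1, fun i => ?_, fun w' h4 h5 => ?_⟩
  · obtain ⟨p, o, h⟩ := h2 i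
    refine ⟨p, o, ?_⟩
    exact List.mem_map.2 ⟨_, h, rfl⟩
  · obtain ⟨f, hf⟩ := h3 (mir w') (by rw [relabel_mir, h4, mir_mir]) (run_mir h5)
    refine ⟨f, ?_⟩
    rw [relabel_mir, ← hf, mir_mir]

theorem sk_mir (w : Word α) : sk ℚ (mir w) = negw (sk ℚ w) := by
  induction w with
  | nil => rfl
  | cons x w ih =>
    obtain ⟨p, g⟩ := x
    have h1 : mir ((p, g) :: w) = (p, mirG g) :: mir w := rfl
    rw [h1]
    cases g with
    | cup a => rw [mirG, sk_cup, sk_cup, ih]; rfl
    | cap a => rw [mirG, sk_cap, sk_cap, ih]; rfl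
    | crs s =>
      rw [mirG, sk_crs, sk_crs, ih, wt_not, Int.cast_neg]; rfl

theorem sgn_mir (w : Word α) : sgn (mir w) = - sgn w := by
  unfold sgn
  rw [sk_mir, sg_negw, corr_mir]
  ring

/-! ### Insertion of a local trefoil -/

/-- `x` is obtained from `w` by the insertion of a local trefoil -/
def Ins (s : Bool) (w x : Word (Fin 1)) : Prop :=
  ∃ (u v : Word (Fin 1)) (A C : List (Pt (Fin 1))) (a : Pt (Fin 1)),
    w = u ++ v ∧ Run u [] (A ++ a :: C) ∧ x = u ++ (sh A.length (tr a s) ++ v)

theorem Ins.mk' {s : Bool} {u v : Word (Fin 1)} {A C : List (Pt (Fin 1))} {a : Pt (Fin 1)}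
    (hu : Run u [] (A ++ a :: C)) : Ins s (u ++ v) (u ++ (sh A.length (tr a s) ++ v)) :=
  ⟨u, v, A, C, a, rfl, hu, rfl⟩

theorem Ins.uniq {s : Bool} {w x x' : Word (Fin 1)} (hw : LinkWord 1 w) (h : Ins s w x)
    (h' : Ins s w x') : Iso [] [] x x' := by
  obtain ⟨u, v, A, C, a, rfl, hu, rfl⟩ := h
  obtain ⟨u', v', A', C', a', h1, hu', rfl⟩ := h'
  exact ins_indep hw h1 hu hu'

theorem Ins.e1 {s : Bool} {w x : Word (Fin 1)} (hw : LinkWord 1 w) (h : Ins s w x) :
    E1 [] [] x w := by
  obtain ⟨u, v, A, C, a, rfl, hu, rfl⟩ := h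
  have hv : Run v (A ++ a :: C) [] := hw.1.append_cancel hu
  have h1 := ((tr_e1 a s).shift A C).congr (u := u) (v := v) (X' := []) (Y' := [])
    (by simpa using hu) (by simpa using hv)
  simpa using h1

theorem Ins.link {s : Bool} {w x : Word (Fin 1)} (hw : LinkWord 1 w) (h : Ins s w x) :
    LinkWord 1 x := hw.e1 (h.e1 hw).symm

/-- the first piece of a knot diagram is a cup -/
theorem head_cup {w : Word (Fin 1)} (hw : LinkWord 1 w) :
    ∃ (a : Pt (Fin 1)) (v : Word (Fin 1)), w = (0, Gen.cup a) :: v := by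
  obtain ⟨h1, h2, _⟩ := hw
  obtain ⟨p, o, h⟩ := h2 0
  generalize hX : ([] : List (Pt (Fin 1))) = X at h1
  cases h1 with
  | nil X => simp at h
  | @cons A B C D Y g w hg hw =>
    have hX' := hX.symm
    rw [List.append_eq_nil_iff, List.append_eq_nil_iff] at hX'
    obtain ⟨rfl, rfl, rfl⟩ := hX'
    cases hg with
    | cup a => exact ⟨a, w, rfl⟩

theorem exists_ins (s : Bool) {w : Word (Fin 1)} (hw : LinkWord 1 w) : ∃ x, Ins s w x := by
  obtain ⟨a, v, rfl⟩ := head_cup hw
  have hu : Run [(0, Gen.cup a)] [] ([] ++ a :: [op a]) := run1 (Gen.Acts.cup a) [] [] rfl rfl rfl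
  exact ⟨_, Ins.mk' (v := v) hu⟩

theorem Ins.rev {s : Bool} {w x : Word (Fin 1)} (h : Ins s w x) :
    Ins s (MPab0b07.rev w) (MPab0b07.rev x) := by
  obtain ⟨u, v, A, C, a, rfl, hu, rfl⟩ := h
  refine ⟨MPab0b07.rev u, MPab0b07.rev v, A.map op, C.map op, op a, rev_append _ _,
    by simpa using run_rev hu, ?_⟩
  rw [rev_append, rev_append, rev_sh, rev_tr, List.length_map]

theorem move_nil {X Y : List (Pt α)} {r s : Word α} (h : Move X Y r s) (hX : X = [])
    (hY : Y = []) : False := by
  cases h with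
  | @comm g h B C B' C' hg hh M =>
    cases hg <;> simp at hX hY
  | _ => simp at hX hY

theorem Ins.step {s : Bool} {w w' : Word (Fin 1)} (h : Step [] [] w w') :
    ∃ x x', Ins s w x ∧ Ins s w' x' ∧ Iso [] [] x x' := by
  cases h with
  | @mk A C X' Y' u r t v hu hm hv =>
    rcases hL : A ++ (X' ++ C) with _ | ⟨a, D⟩
    · rcases hL' : A ++ (Y' ++ C) with _ | ⟨b, D⟩
      · exfalso
        simp only [List.append_eq_nil_iff] at hL hL'
        exact move_nil hm hL.2.1 hL'.2.1
      · have r1 : Run (u ++ sh A.length r) [] ([] ++ b :: D) := by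
          rw [List.nil_append, ← hL']
          exact hu.append (hm.run_left.shift _ _)
        have r2 : Run (u ++ sh A.length t) [] ([] ++ b :: D) := by
          rw [List.nil_append, ← hL']
          exact hu.append (hm.run_right.shift _ _)
        have i1 := Ins.mk' (s := s) (v := v) r1
        have i2 := Ins.mk' (s := s) (v := v) r2
        refine ⟨_, _, by simpa using i1, by simpa using i2, ?_⟩
        have hv' : Run (sh 0 (tr b s) ++ v) (A ++ (Y' ++ C)) [] := by
          rw [hL']
          have h1 := (run_tr b s).shift [] D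
          rw [hL'] at hv
          exact Run.append (by simpa using h1) hv
        have := hm.iso.ctx A C hu hv'
        simpa using this
    · have r1 : Run u [] ([] ++ a :: D) := by
        rw [List.nil_append, ← hL]; exact hu
      have i1 := Ins.mk' (s := s) (v := sh A.length r ++ v) r1
      have i2 := Ins.mk' (s := s) (v := sh A.length t ++ v) r1
      refine ⟨_, _, i1, i2, ?_⟩
      have hu' : Run (u ++ sh 0 (tr a s)) [] (A ++ (X' ++ C)) := by
        rw [hL]
        have h1 := (run_tr a s).shift [] D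
        rw [hL] at hu
        exact Run.append hu (by simpa using h1)
      have := hm.iso.ctx A C hu' hv
      simpa using this

theorem Ins.iso {s : Bool} {w w' : Word (Fin 1)} (h : Iso [] [] w w') :
    LinkWord 1 w → ∀ {x x' : Word (Fin 1)}, Ins s w x → Ins s w' x' → Iso [] [] x x' := by
  induction h with
  | rel w w' h =>
    intro hw x x' hx hx'
    obtain ⟨y, y', h1, h2, h3⟩ := Ins.step (s := s) h
    have hw' : LinkWord 1 w' := hw.iso (Relation.EqvGen.rel _ _ h)
    exact (Ins.uniq hw hx h1).trans (h3.trans (Ins.uniq hw' h2 hx'))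
  | refl w => intro hw x x' hx hx'; exact Ins.uniq hw hx hx'
  | symm w w' h ih =>
    intro hw x x' hx hx'
    have hw' : LinkWord 1 w := hw.iso (Iso.symm h)
    exact (ih hw' hx' hx).symm
  | trans a b c h1 h2 ih1 ih2 =>
    intro hw x x' hx hx'
    have hb : LinkWord 1 b := hw.iso h1
    obtain ⟨y, hy⟩ := exists_ins s hb
    exact (ih1 hw hx hy).trans (ih2 hb hy hx')

/-! ### The signature under insertion -/

theorem corr_tr (a : Pt α) (s : Bool) (p : ℕ) (v : Word α) (o : ℕ → Bool) (h1 : o p = a.2) :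
    corr (sh p (tr a s) ++ v) o = (if Even p then 3 * eps s else 0) + corr v o := by
  set o1 := ori 0 2 (p + 1) a.2 (!a.2) o with ho1
  have q0 : o1 p = a.2 := by rw [ho1]; simp [ori, h1]
  have q1 : o1 (p + 1) = a.2 := by rw [ho1]; simp [ori]
  have c2 : ori 2 2 p (o1 (p + 1)) (o1 p) o1 = o1 := ori_swap (q0.trans q1.symm)
  have c4 : ori 2 0 (p + 1) true true o1 = o := ori_cup_cap _ _ _ _ _ _
  have e1 : 0 + p = p := by omega
  have e2 : 1 + p = p + 1 := by omega
  simp only [tr, sh_cons, sh_nil, List.cons_append, List.nil_append, e1, e2]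
  rw [corr, ← ho1, corr_crs, c2, corr_crs, c2, corr_crs, c2, corr, c4, q0, q1]
  simp only [beq_self_eq_true, corrX_par]
  by_cases hp : Even p
  · simp only [hp, if_true]; ring
  · simp only [hp, if_false]; ring

theorem sk_tr (a : Pt α) (s : Bool) (p : ℕ) (v : Word α) :
    sk ℚ (sh p (tr a s) ++ v) = (p + 1, El.cup) :: (p, El.x ((wt p s : ℤ) : ℚ)) ::
      (p, El.x ((wt p s : ℤ) : ℚ)) :: (p, El.x ((wt p s : ℤ) : ℚ)) ::
      (p + 1, El.cap) :: sk ℚ v := by
  have e1 : 0 + p = p := by omega
  have e2 : 1 + p = p + 1 := by omega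
  simp only [tr, sh_cons, sh_nil, List.cons_append, List.nil_append, e1, e2, sk_crs, sk_cup,
    sk_cap]

theorem sign_eps (s : Bool) : ((SignType.sign ((eps s : ℤ) : ℚ) : SignType) : ℤ) = eps s := by
  cases s <;> simp [eps]

theorem sign_mul_eps {c : ℚ} (hc : 0 < c) (s : Bool) :
    ((SignType.sign (c * ((eps s : ℤ) : ℚ)) : SignType) : ℤ) = eps s := by
  rw [sign_mul, sign_pos hc, one_mul, sign_eps]

/-- The insertion of a local trefoil changes the signature by `- 2 * eps s`. -/
theorem sgn_tr {u v : Word α} {A C : List (Pt α)} {a : Pt α}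
    (hu : Run u [] (A ++ a :: C)) (s : Bool) :
    sgn (u ++ (sh A.length (tr a s) ++ v)) = sgn (u ++ v) - 2 * eps s := by
  have h1 : oriW u o0 A.length = a.2 := by
    have h := lvl_oriW hu (o := o0) (fun i hi => by simp at hi)
    have := h A.length (by simp)
    rw [this]
    simp
  set p := A.length with hp
  rw [sgn_split, sgn_split, corr_tr a s p v _ h1, sk_tr]
  by_cases he : Even p
  · have := sg_tr_even p he ((wt p s : ℤ) : ℚ) ((wt p s : ℤ) : ℚ) (sk ℚ v) (sk ℚ u)
    rw [this, if_pos he, wt_even he]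
    have h3 : ((eps s : ℤ) : ℚ) + 2 * ((eps s : ℤ) : ℚ) = 3 * ((eps s : ℤ) : ℚ) := by ring
    rw [h3, sign_mul_eps (by norm_num)]
    ring
  · have := sg_tr_odd p he ((wt p s : ℤ) : ℚ) ((wt p s : ℤ) : ℚ) (wt_sq p s) (sk ℚ v) (sk ℚ u)
    rw [this, if_neg he, wt_odd he]
    have h3 : (((- eps s : ℤ)) : ℚ) + (((- eps s : ℤ)) : ℚ) / 2
        = (3/2) * ((eps (!s) : ℤ) : ℚ) := by rw [eps_not]; push_cast; ring
    rw [h3, sign_mul_eps (by norm_num), ← eps_not, sign_eps, eps_not]
    ring

theorem Ins.sgn {s : Bool} {w x : Word (Fin 1)} (h : Ins s w x) :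
    MPab0b07.sgn x = MPab0b07.sgn w - 2 * eps s := by
  obtain ⟨u, v, A, C, a, rfl, hu, rfl⟩ := h
  exact sgn_tr hu s

end MPab0b07
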