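import Pool.Agent.Lib.MP_ab0b07_gt.Sig
import Pool.Agent.Lib.MP_ab0b07_gt.GR

/-!
# Knots: the maps `tau` and the connectedness of the level sets of the signature
-/

namespace MPab0b07

open MP5b16f0

/-- the knot of a diagram -/
def kn {w : Word (Fin 1)} (hw : LinkWord 1 w) : Knot := KWord.mk ⟨w, hw⟩

theorem kn_iso {w w' : Word (Fin 1)} (hw : LinkWord 1 w) (hw' : LinkWord 1 w')
    (h : Iso [] [] w w') : kn hw = kn hw' := Quot.sound (Or.inl h)

theorem exists_kn (x : Knot) : ∃ (w : Word (Fin 1)) (hw : LinkWord 1 w), x = kn hw := by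
  obtain ⟨⟨w, hw⟩, rfl⟩ := Quot.exists_rep x
  exact ⟨w, hw, rfl⟩

/-! ### The signature of a knot -/

theorem sigma_kn {w : Word (Fin 1)} (hw : LinkWord 1 w) : sigma (kn hw) = sgn w := rfl

/-! ### The mirror image of a knot -/

theorem mirror_kn {w : Word (Fin 1)} (hw : LinkWord 1 w) : mirror (kn hw) = kn (link_mir hw) := rfl

theorem mirror_mirror (x : Knot) : mirror (mirror x) = x := by
  obtain ⟨w, hw, rfl⟩ := exists_kn x
  rw [mirror_kn, mirror_kn]
  unfold kn
  congr 1
  exact Subtype.ext (mir_mir w)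

theorem sigma_mirror (x : Knot) : sigma (mirror x) = - sigma x := by
  obtain ⟨w, hw, rfl⟩ := exists_kn x
  rw [mirror_kn, sigma_kn, sigma_kn, sgn_mir]

/-! ### The unknot, evenness -/

/-- the diagram of the unknot -/
def wU : Word (Fin 1) := [(0, Gen.cup (0, true)), (0, Gen.cap (0, true))]

theorem run_cap_inv {β : Type*} {a b : Pt β} (h : Run [(0, Gen.cap b)] [a, op a] []) :
    a = b := by
  generalize hp : (0 : ℕ) = p at h
  generalize hX : [a, op a] = X at h
  generalize hY : ([] : List (Pt β)) = Y at h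
  cases h with
  | @cons A B C D _ _ _ hg hw =>
    cases hg with
    | cap b =>
      have hA : A = [] := List.length_eq_zero_iff.1 hp.symm
      subst hA
      simp at hX
      exact hX.1

theorem link_wU : LinkWord 1 wU := by
  refine ⟨?_, fun i => ⟨0, true, ?_⟩, ?_⟩
  · have h1 : Run [(0, Gen.cup ((0, true) : Pt (Fin 1)))] [] [(0, true), (0, false)] :=
      run1 (Gen.Acts.cup _) [] [] rfl rfl rfl
    have h2 : Run [(0, Gen.cap ((0, true) : Pt (Fin 1)))] [(0, true), (0, false)] [] :=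
      run1 (Gen.Acts.cap _) [] [] rfl rfl rfl
    exact h1.append h2
  · rw [Subsingleton.elim i 0]
    simp [wU]
  · intro w' h1 h2
    unfold wU at h1
    obtain ⟨g, v', rfl, h5, h6⟩ := relabel_eq_cons h1
    obtain ⟨g', v'', rfl, h7, h8⟩ := relabel_eq_cons h6
    have h9 : v'' = [] := by
      simpa [relabel] using h8
    subst h9
    simp only at h5 h7
    cases g with
    | cap a => simp [Gen.relabel] at h5
    | crs s => simp [Gen.relabel] at h5
    | cup a =>
      cases g' with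
      | cup a => simp [Gen.relabel] at h7
      | crs s => simp [Gen.relabel] at h7
      | cap b =>
        have r1 : Run [(0, Gen.cup a)] [] [a, op a] := run1 (Gen.Acts.cup a) [] [] rfl rfl rfl
        have r2 : Run [(0, Gen.cap b)] [a, op a] [] := Run.append_cancel (u := [(0, Gen.cup a)]) h2 r1
        have hab : a = b := run_cap_inv r2
        subst hab
        obtain ⟨⟨a1, a2⟩, a3⟩ := a
        simp only [Gen.relabel, Gen.cup.injEq, Prod.mk.injEq] at h5
        obtain ⟨rfl, rfl⟩ := h5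
        exact ⟨fun _ => a2, rfl⟩

/-- the unknot -/
def U : Knot := kn link_wU

theorem sigma_U : sigma U = 0 := by
  have h1 := sgn_mir wU
  have h2 : mir wU = wU := rfl
  rw [h2] at h1
  have : sigma U = sgn wU := rfl
  omega

/-- every knot can be unknotted -/
theorem e1_wU {w : Word (Fin 1)} (hw : LinkWord 1 w) : E1 [] [] w wU := by
  obtain ⟨T, hT⟩ := LinkWord.em hw
  obtain ⟨T', hT'⟩ := LinkWord.em link_wU
  have h1 : E1 [] (gh (full 1)) T T' := by
    refine e1_of_occ (fun l => ?_) hT.run_link hT'.run_link (hT.nc hw) (hT'.nc link_wU)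
    have h1 : occ l (gh (full 1)) ≤ 2 := List.countP_le_length
    have h2 : occ l ([] : List (Pt (Fin 1))) = 0 := rfl
    omega
  exact hT.close_link.symm.e1.trans ((h1.appR (run_capsH (full 1))).trans hT'.close_link.e1)

theorem even_sgn {w : Word (Fin 1)} (hw : LinkWord 1 w) : Even (sgn w) := by
  have key : ∀ {w w' : Word (Fin 1)}, E1 [] [] w w' → LinkWord 1 w → (Even (sgn w) ↔ Even (sgn w')) := by
    intro w w' h
    induction h with
    | rel w w' h =>
      intro hw
      cases h with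
      | iso h => rw [sgn_iso h]
      | @cc u v p s t h =>
        rcases Bool.eq_or_eq_not t s with rfl | rfl
        · rfl
        · have := sgn_cc_even hw
          rw [Int.even_sub] at this
          exact this
    | refl w => intro _; rfl
    | symm w w' h ih => intro hw; exact (ih (hw.e1 (E1.symm h))).symm
    | trans a b c h1 h2 ih1 ih2 => intro hw; exact (ih1 hw).trans (ih2 (hw.e1 h1))
  rw [key (e1_wU hw) hw]
  have h1 := sigma_U
  have : sigma U = sgn wU := rfl
  rw [← this, h1]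
  exact Even.zero

theorem even_sigma (x : Knot) : Even (sigma x) := by
  obtain ⟨w, hw, rfl⟩ := exists_kn x
  exact even_sgn hw

/-! ### Adjacency -/

theorem adj_or {u v : Word (Fin 1)} {p : ℕ} {s : Bool}
    (hw : LinkWord 1 (u ++ (p, Gen.crs s) :: v)) (hw' : LinkWord 1 (u ++ (p, Gen.crs !s) :: v)) :
    kn hw = kn hw' ∨ Gordian.Adj (kn hw) (kn hw') := by
  by_cases h : kn hw = kn hw'
  · exact Or.inl h
  · exact Or.inr ⟨h, _, _, u, v, p, s, rfl, rfl, rfl, rfl⟩

theorem adj_elim {x y : Knot} (h : Gordian.Adj x y) : ∃ (u v : Word (Fin 1)) (p : ℕ) (s : Bool)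
    (hw : LinkWord 1 (u ++ (p, Gen.crs s) :: v)) (hw' : LinkWord 1 (u ++ (p, Gen.crs !s) :: v)),
    x = kn hw ∧ y = kn hw' := by
  obtain ⟨_, ⟨w, hw⟩, ⟨w', hw'⟩, u, v, p, s, h1, h2, h3, h4⟩ := h
  simp only at h3 h4
  subst h3 h4
  exact ⟨u, v, p, s, hw, hw', h1.symm, h2.symm⟩

theorem sigma_adj {x y : Knot} (h : Gordian.Adj x y) : |sigma x - sigma y| ≤ 2 := by
  obtain ⟨u, v, p, s, hw, hw', rfl, rfl⟩ := adj_elim h
  exact sgn_cc_le u v p s

/-- connected by a walk of length at most `n` in a level set of the signature -/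
def LvN (n : ℕ) (x y : Knot) : Prop :=
  ∃ p : Gordian.Walk x y, p.length ≤ n ∧ ∀ z ∈ p.support, sigma z = sigma x

theorem LvN.refl (n : ℕ) (x : Knot) : LvN n x x :=
  ⟨SimpleGraph.Walk.nil, by simp, by simp⟩

theorem LvN.sgK {n : ℕ} {x y : Knot} (h : LvN n x y) : MPab0b07.sigma x = MPab0b07.sigma y := by
  obtain ⟨p, _, h2⟩ := h
  exact (h2 y p.end_mem_support).symm

theorem LvN.symm {n : ℕ} {x y : Knot} (h : LvN n x y) : LvN n y x := by
  have h0 := h.sgK
  obtain ⟨p, h1, h2⟩ := h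
  refine ⟨p.reverse, by simpa using h1, fun z hz => ?_⟩
  rw [SimpleGraph.Walk.support_reverse, List.mem_reverse] at hz
  rw [h2 z hz, h0]

theorem LvN.trans {n k : ℕ} {x y z : Knot} (h : LvN n x y) (h' : LvN k y z) :
    LvN (n + k) x z := by
  have h0 := h.sgK
  obtain ⟨p, h1, h2⟩ := h
  obtain ⟨q, h3, h4⟩ := h'
  refine ⟨p.append q, by rw [SimpleGraph.Walk.length_append]; omega, fun w hw => ?_⟩
  rw [SimpleGraph.Walk.mem_support_append_iff] at hw
  rcases hw with hw | hw
  · exact h2 w hw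
  · rw [h4 w hw, h0]

theorem LvN.mono {n k : ℕ} {x y : Knot} (h : LvN n x y) (hk : n ≤ k) : LvN k x y := by
  obtain ⟨p, h1, h2⟩ := h
  exact ⟨p, h1.trans hk, h2⟩

theorem LvN.single {x y : Knot} (h : x = y ∨ Gordian.Adj x y)
    (h' : MPab0b07.sigma x = MPab0b07.sigma y) : LvN 1 x y := by
  rcases h with rfl | h
  · exact LvN.refl _ _
  · refine ⟨SimpleGraph.Walk.cons h SimpleGraph.Walk.nil, by simp, fun z hz => ?_⟩
    simp only [SimpleGraph.Walk.support_cons, SimpleGraph.Walk.support_nil, List.mem_cons,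
      List.not_mem_nil, or_false] at hz
    rcases hz with rfl | rfl
    · rfl
    · exact h'.symm

/-! ### The maps `tau` -/

/-- a diagram with a local trefoil inserted -/
noncomputable def insT (s : Bool) (w : KWord) : KWord :=
  ⟨Classical.choose (exists_ins s w.2), (Classical.choose_spec (exists_ins s w.2)).link w.2⟩

theorem ins_insT (s : Bool) (w : KWord) : Ins s w.1 (insT s w).1 :=
  Classical.choose_spec (exists_ins s w.2)

/-- the connected sum with a trefoil -/
noncomputable def tau (s : Bool) : Knot → Knot := Quot.map (insT s) (by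
  rintro w w' (h | h)
  · exact Or.inl (Ins.iso h w.2 (ins_insT s w) (ins_insT s w'))
  · exact Or.inr (Ins.iso h (link_rev w.2) (ins_insT s w).rev (ins_insT s w')))

theorem tau_kn {s : Bool} {w x : Word (Fin 1)} (hw : LinkWord 1 w) (hx : LinkWord 1 x)
    (h : Ins s w x) : tau s (kn hw) = kn hx :=
  Quot.sound (Or.inl (Ins.uniq hw (ins_insT s ⟨w, hw⟩) h))

theorem sigma_tau (s : Bool) (x : Knot) : sigma (tau s x) = sigma x - 2 * eps s := by
  obtain ⟨w, hw, rfl⟩ := exists_kn x
  obtain ⟨y, hy⟩ := exists_ins s hw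
  rw [tau_kn hw (hy.link hw) hy, sigma_kn, sigma_kn, hy.sgn]

theorem tau_comm (s t : Bool) (x : Knot) : tau s (tau t x) = tau t (tau s x) := by
  obtain ⟨w, hw, rfl⟩ := exists_kn x
  obtain ⟨a, v, rfl⟩ := head_cup hw
  have hu : Run [(0, Gen.cup a)] [] ([] ++ a :: [op a]) := run1 (Gen.Acts.cup a) [] [] rfl rfl rfl
  have hr : ∀ r : Bool, Run ([(0, Gen.cup a)] ++ sh 0 (tr a r)) [] ([] ++ a :: [op a]) :=
    fun r => hu.append (by simpa using (run_tr a r).shift [] [op a])
  have i1 : ∀ r : Bool, Ins r ([(0, Gen.cup a)] ++ v) _ := fun r => Ins.mk' (v := v) hu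
  have i2 : ∀ r q : Bool, Ins q ([(0, Gen.cup a)] ++ (sh 0 (tr a r) ++ v)) _ := fun r q =>
    Ins.mk' (v := sh 0 (tr a r) ++ v) hu
  have i3 : ∀ r q : Bool, Ins q ([(0, Gen.cup a)] ++ (sh 0 (tr a r) ++ v))
      ([(0, Gen.cup a)] ++ (sh 0 (tr a r) ++ (sh 0 (tr a q) ++ v))) := fun r q => by
    have := Ins.mk' (s := q) (v := v) (hr r)
    simpa using this
  have l1 := fun r => (i1 r).link hw
  have l2 := fun r q => (i3 r q).link (l1 r)
  have e1 : tau s (tau t (kn hw)) = kn (l2 t s) := by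
    rw [tau_kn hw (l1 t) (i1 t), tau_kn (l1 t) (l2 t s) (i3 t s)]
  have e2 : tau t (tau s (kn hw)) = kn (l2 t s) := by
    rw [tau_kn hw (l1 s) (i1 s), tau_kn (l1 s) (l2 t s) (i2 s t)]
  exact e1.trans e2.symm

/-- `x` and `tau s x` are related by a crossing change -/
theorem tau_adj (s : Bool) (x : Knot) : Gordian.Adj x (tau s x) := by
  obtain ⟨w, hw, rfl⟩ := exists_kn x
  obtain ⟨a, v, rfl⟩ := head_cup hw
  have hu : Run [(0, Gen.cup a)] [] ([] ++ a :: [op a]) := run1 (Gen.Acts.cup a) [] [] rfl rfl rfl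
  have i1 : Ins s ([(0, Gen.cup a)] ++ v) _ := Ins.mk' (v := v) hu
  have l1 := i1.link hw
  rw [tau_kn hw l1 i1]
  have l2 : LinkWord 1 ([(0, Gen.cup a), (1, Gen.cup a)] ++ (0, Gen.crs s) ::
    ((0, Gen.crs s) :: (0, Gen.crs s) :: (1, Gen.cap a) :: v)) := l1
  have l3 : LinkWord 1 ([(0, Gen.cup a), (1, Gen.cup a)] ++ (0, Gen.crs !s) ::
    ((0, Gen.crs s) :: (0, Gen.crs s) :: (1, Gen.cap a) :: v)) := l2.e1 (E1.cc _ l2.1)
  have hv : Run v ([] ++ ([a] ++ [op a])) [] :=
    Run.append_cancel (u := [(0, Gen.cup a)]) hw.1 hu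
  have h1 := (tr_change a s).ctx [] [op a] (u := [(0, Gen.cup a)]) (v := v) hu hv
  have e1 : kn l3 = kn hw := kn_iso l3 hw h1
  have h2 := adj_or l2 l3
  rw [e1] at h2
  rcases h2 with h2 | h2
  · exfalso
    have h3 := i1.sgn
    have h4 : sigma (kn l2) = sigma (kn hw) := by rw [h2]
    rw [sigma_kn, sigma_kn] at h4
    have h5 : sgn ([(0, Gen.cup a)] ++ v) - 2 * eps s = sgn ([(0, Gen.cup a)] ++ v) :=
      h3.symm.trans h4
    have h6 : eps s = 0 := by omega
    cases s <;> simp [eps] at h6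
  · exact h2.symm

theorem tau_single (t : Bool) {y z : Knot} (h : Gordian.Adj y z) :
    tau t y = tau t z ∨ Gordian.Adj (tau t y) (tau t z) := by
  obtain ⟨u, v, p, s, hw, hw', rfl, rfl⟩ := adj_elim h
  obtain ⟨a, v0, h1⟩ := head_cup hw
  rcases u with _ | ⟨x0, u⟩
  · simp at h1
  · rw [List.cons_append, List.cons.injEq] at h1
    obtain ⟨rfl, -⟩ := h1
    have hu : Run [(0, Gen.cup a)] [] ([] ++ a :: [op a]) :=
      run1 (Gen.Acts.cup a) [] [] rfl rfl rfl
    have i1 := Ins.mk' (s := t) (v := u ++ (p, Gen.crs s) :: v) hu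
    have i2 := Ins.mk' (s := t) (v := u ++ (p, Gen.crs !s) :: v) hu
    have l1 := i1.link hw
    have l2 := i2.link hw'
    rw [tau_kn hw l1 i1, tau_kn hw' l2 i2]
    have e : ∀ r, [(0, Gen.cup a)] ++ (sh ([] : List (Pt (Fin 1))).length (tr a t) ++
        (u ++ (p, Gen.crs r) :: v)) = ((0, Gen.cup a) :: (sh 0 (tr a t) ++ u)) ++
          (p, Gen.crs r) :: v := by
      intro r; simp
    have l1' : LinkWord 1 (((0, Gen.cup a) :: (sh 0 (tr a t) ++ u)) ++ (p, Gen.crs s) :: v) := by
      rw [← e]; exact l1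
    have l2' : LinkWord 1 (((0, Gen.cup a) :: (sh 0 (tr a t) ++ u)) ++ (p, Gen.crs !s) :: v) := by
      rw [← e]; exact l2
    have h3 := adj_or l1' l2'
    have e1 : kn l1 = kn l1' := kn_iso _ _ (Iso.of_eq (e s))
    have e2 : kn l2 = kn l2' := kn_iso _ _ (Iso.of_eq (e (!s)))
    rw [e1, e2]
    exact h3

theorem LvN.tau (t : Bool) {n : ℕ} {x y : Knot} (h : LvN n x y) :
    LvN n (MPab0b07.tau t x) (MPab0b07.tau t y) := by
  obtain ⟨p, h1, h2⟩ := h
  induction p generalizing n with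
  | nil => exact LvN.refl _ _
  | @cons u v w huv p ih =>
    rw [SimpleGraph.Walk.length_cons] at h1
    have hv : MPab0b07.sigma v = MPab0b07.sigma u := h2 v (by
      rw [SimpleGraph.Walk.support_cons]
      exact List.mem_cons_of_mem _ p.start_mem_support)
    have ih' := ih (n := p.length) le_rfl (fun z hz => by
      rw [hv]
      exact h2 z (by
        rw [SimpleGraph.Walk.support_cons]
        exact List.mem_cons_of_mem _ hz))
    have h3 := LvN.single (tau_single t huv) (by rw [sigma_tau, sigma_tau, hv])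
    exact (h3.trans ih').mono (by omega)

end MPab0b07
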