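import Pool.Agent.Lib.MP_ab0b07_gt.KN3
import Pool.Agent.Lib.MP_ab0b07_gt.GR3

/-!
# The level sets of the signature are connected
-/

namespace MPab0b07

open MP5b16f0

/-- `u ++ (x ++ v)` with a crossing in `x` -/
theorem adj_mid {X Y : List (Pt (Fin 1))} {u v x x1 x2 : Word (Fin 1)} {p q : ℕ} {s : Bool}
    (hx : x = x1 ++ (q, Gen.crs s) :: x2) (hw : LinkWord 1 (u ++ (sh p x ++ v)))
    (hw' : LinkWord 1 (u ++ (sh p (x1 ++ (q, Gen.crs !s) :: x2) ++ v))) :
    kn hw = kn hw' ∨ Gordian.Adj (kn hw) (kn hw') := by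
  subst hx
  have e : ∀ r, u ++ (sh p (x1 ++ (q, Gen.crs r) :: x2) ++ v) =
      (u ++ sh p x1) ++ (q + p, Gen.crs r) :: (sh p x2 ++ v) := by
    intro r; simp
  have l1 : LinkWord 1 ((u ++ sh p x1) ++ (q + p, Gen.crs s) :: (sh p x2 ++ v)) := by
    rw [← e]; exact hw
  have l2 : LinkWord 1 ((u ++ sh p x1) ++ (q + p, Gen.crs !s) :: (sh p x2 ++ v)) := by
    rw [← e]; exact hw'
  have h := adj_or l1 l2
  rw [kn_iso hw l1 (Iso.of_eq (e s)), kn_iso hw' l2 (Iso.of_eq (e (!s)))]
  exact h

section

variable {u v : Word (Fin 1)} {A C : List (Pt (Fin 1))} {a : Pt (Fin 1)}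

theorem iso_mid {X Y : List (Pt (Fin 1))} {x y : Word (Fin 1)} (h : Iso X Y x y)
    (hu : Run u [] (A ++ (X ++ C))) (hw : LinkWord 1 (u ++ (sh A.length x ++ v)))
    (hx : Run x X Y) :
    Iso [] [] (u ++ (sh A.length x ++ v)) (u ++ (sh A.length y ++ v)) := by
  have h1 : Run (sh A.length x ++ v) (A ++ (X ++ C)) [] := hw.1.append_cancel hu
  have h2 : Run v (A ++ (Y ++ C)) [] := h1.append_cancel (hx.shift A C)
  exact h.ctx A C hu h2

/-- the words with `M` are knot diagrams -/
theorem link_tM {s t : Bool} (hu : Run u [] (A ++ ([a, a] ++ C)))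
    (hw : LinkWord 1 (u ++ (sh A.length [(0, Gen.crs s)] ++ v))) :
    LinkWord 1 (u ++ (sh A.length (tM a t) ++ v)) := by
  have r1 : Run [(0, Gen.crs s)] [a, a] [a, a] := run1 (Gen.Acts.crs s a a) [] [] rfl rfl rfl
  have h1 : Run (sh A.length [(0, Gen.crs s)] ++ v) (A ++ ([a, a] ++ C)) [] :=
    hw.1.append_cancel hu
  have h2 : Run v (A ++ ([a, a] ++ C)) [] := h1.append_cancel (r1.shift A C)
  have e1 : E1 [a, a] [a, a] (tM a t) [(0, Gen.crs s)] := by
    have k1 : E1 [a, a] [a, a] (tM a t) [(0, Gen.crs !t)] := by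
      have r2 : Run ([(0, Gen.crs t), (2, Gen.cup a), (1, Gen.crs !t)] ++ (1, Gen.crs !t) ::
        [(0, Gen.crs !t), (0, Gen.crs !t), (1, Gen.crs !t), (2, Gen.cap a)]) [a, a] [a, a] :=
        run_tM a t
      exact (E1.cc t r2).trans (tM_change1 a t).e1
    have r3 : Run ([] ++ (0, Gen.crs !t) :: []) [a, a] [a, a] :=
      run1 (Gen.Acts.crs (!t) a a) [] [] rfl rfl rfl
    exact k1.trans (E1.cc s r3)
  exact hw.e1 ((e1.shift A C).congr hu h2).symm

/-- **Consequences of the local lemma**, first case. -/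
theorem case1 {s : Bool} (hu : Run u [] (A ++ ([a, a] ++ C)))
    (hw : LinkWord 1 (u ++ (sh A.length [(0, Gen.crs s)] ++ v)))
    (hw' : LinkWord 1 (u ++ (sh A.length [(0, Gen.crs !s)] ++ v)))
    (hj : sgn (u ++ (sh A.length [(0, Gen.crs !s)] ++ v)) =
      sgn (u ++ (sh A.length [(0, Gen.crs s)] ++ v)) + 2 * eps s)
    (h : sgn (u ++ (sh A.length (tM a s) ++ v)) =
      sgn (u ++ (sh A.length [(0, Gen.crs !s)] ++ v))) :
    LvN 2 (kn hw') (tau (!s) (kn hw)) := by
  have lM : LinkWord 1 (u ++ (sh A.length (tM a s) ++ v)) := link_tM hu hw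
  -- the first crossing change
  have x1 : tM a s = [(0, Gen.crs s), (2, Gen.cup a), (1, Gen.crs !s)] ++ (1, Gen.crs !s) ::
      [(0, Gen.crs !s), (0, Gen.crs !s), (1, Gen.crs !s), (2, Gen.cap a)] := rfl
  have y1 : [(0, Gen.crs s), (2, Gen.cup a), (1, Gen.crs !s)] ++ (1, Gen.crs !(!s)) ::
      [(0, Gen.crs !s), (0, Gen.crs !s), (1, Gen.crs !s), (2, Gen.cap a)] =
      [(0, Gen.crs s), (2, Gen.cup a), (1, Gen.crs !s), (1, Gen.crs s),
      (0, Gen.crs !s), (0, Gen.crs !s), (1, Gen.crs !s), (2, Gen.cap a)] := by simp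
  have r1 : Run [(0, Gen.crs s), (2, Gen.cup a), (1, Gen.crs !s), (1, Gen.crs s),
      (0, Gen.crs !s), (0, Gen.crs !s), (1, Gen.crs !s), (2, Gen.cap a)] [a, a] [a, a] := by
    rw [← y1]
    have := run_tM a s
    rw [x1] at this
    exact this.crs_change
  have r0 : Run [(0, Gen.crs s)] [a, a] [a, a] := run1 (Gen.Acts.crs s a a) [] [] rfl rfl rfl
  have h1 : Run (sh A.length [(0, Gen.crs s)] ++ v) (A ++ ([a, a] ++ C)) [] :=
    hw.1.append_cancel hu
  have hv : Run v (A ++ ([a, a] ++ C)) [] := h1.append_cancel (r0.shift A C)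
  have i1 := (tM_change1 a s).ctx A C hu hv
  have l1 : LinkWord 1 (u ++ (sh A.length ([(0, Gen.crs s), (2, Gen.cup a), (1, Gen.crs !s)] ++
      (1, Gen.crs !(!s)) ::
      [(0, Gen.crs !s), (0, Gen.crs !s), (1, Gen.crs !s), (2, Gen.cap a)]) ++ v)) := by
    rw [y1]; exact hw'.iso i1.symm
  have e1 : kn l1 = kn hw' := kn_iso _ _ (by rw [y1]; exact i1)
  have a1 := adj_mid (X := []) (Y := []) x1 lM l1
  rw [e1] at a1
  have c1 : LvN 1 (kn hw') (kn lM) := (LvN.single a1 h).symm
  -- the second crossing change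
  have x2 : tM a s = [(0, Gen.crs s), (2, Gen.cup a), (1, Gen.crs !s), (1, Gen.crs !s)] ++
      (0, Gen.crs !s) :: [(0, Gen.crs !s), (1, Gen.crs !s), (2, Gen.cap a)] := rfl
  have y2 : [(0, Gen.crs s), (2, Gen.cup a), (1, Gen.crs !s), (1, Gen.crs !s)] ++
      (0, Gen.crs !(!s)) :: [(0, Gen.crs !s), (1, Gen.crs !s), (2, Gen.cap a)] =
      [(0, Gen.crs s), (2, Gen.cup a), (1, Gen.crs !s), (1, Gen.crs !s),
      (0, Gen.crs s), (0, Gen.crs !s), (1, Gen.crs !s), (2, Gen.cap a)] := by simp
  have i2 := (tM_change2 a s).ctx A C hu hv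
  have hI : Ins (!s) (u ++ (sh A.length [(0, Gen.crs s)] ++ v))
      (u ++ (sh A.length ((0, Gen.crs s) :: sh 1 (tr a (!s))) ++ v)) := by
    have hu2 : Run (u ++ sh A.length [(0, Gen.crs s)]) [] ((A ++ [a]) ++ a :: C) := by
      have := hu.append (r0.shift A C)
      simpa using this
    have := Ins.mk' (s := !s) (v := v) hu2
    have e3 : sh (A ++ [a]).length (tr a (!s)) = sh A.length (sh 1 (tr a (!s))) := by
      simp only [sh, tr, List.length_append, List.length_cons, List.length_nil, List.map_cons,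
        List.map_nil]
      have q1 : 1 + (A.length + (0 + 1)) = 1 + 1 + A.length := by omega
      have q2 : 0 + (A.length + (0 + 1)) = 0 + 1 + A.length := by omega
      rw [q1, q2]
    rw [e3] at this
    simpa using this
  have lI := hI.link hw
  have l2 : LinkWord 1 (u ++ (sh A.length ([(0, Gen.crs s), (2, Gen.cup a), (1, Gen.crs !s),
      (1, Gen.crs !s)] ++ (0, Gen.crs !(!s)) ::
      [(0, Gen.crs !s), (1, Gen.crs !s), (2, Gen.cap a)]) ++ v)) := by
    rw [y2]; exact lI.iso i2.symm
  have e2 : kn l2 = tau (!s) (kn hw) := by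
    rw [tau_kn hw lI hI]
    exact kn_iso _ _ (by rw [y2]; exact i2)
  have a2 := adj_mid (X := []) (Y := []) x2 lM l2
  rw [e2] at a2
  have s2 : sigma (kn lM) = sigma (tau (!s) (kn hw)) := by
    rw [sigma_tau, sigma_kn, sigma_kn, h, hj, eps_not]
    ring
  exact c1.trans (LvN.single a2 s2)

/-- a crossing change between parallel strands which changes the signature -/
theorem par_jump (s : Bool) (hu : Run u [] (A ++ ([a, a] ++ C)))
    (hw : LinkWord 1 (u ++ (sh A.length [(0, Gen.crs s)] ++ v))) :
    sgn (u ++ (sh A.length [(0, Gen.crs !s)] ++ v)) =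
      sgn (u ++ (sh A.length [(0, Gen.crs s)] ++ v)) ∨
    sgn (u ++ (sh A.length [(0, Gen.crs !s)] ++ v)) =
      sgn (u ++ (sh A.length [(0, Gen.crs s)] ++ v)) + 2 * eps s := by
  have e : ∀ r, u ++ (sh A.length [(0, Gen.crs r)] ++ v) =
      u ++ (A.length, Gen.crs r) :: v := by intro r; simp
  rw [e] at hw
  rw [e, e]
  have h0 := sgn_cc_even hw
  have hu' : Run u [] (A ++ (a :: a :: C)) := hu
  rw [sgn_par hu' rfl, sgn_par hu' rfl] at h0
  rw [sgn_par hu' rfl, sgn_par hu' rfl]
  have m1 := F_mono u v A.length (show (-1 : ℚ) ≤ 1 by norm_num)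
  have m2 := F_le u v A.length (-1) 1
  obtain ⟨k, hk⟩ := h0
  by_cases he : Even A.length
  · simp only [if_pos he, wt_even he, eps_not] at *
    cases s
    · simp only [eps, Bool.false_eq_true, if_false] at *
      push_cast at *
      norm_num at *
      omega
    · simp only [eps, if_true] at *
      push_cast at *
      omega
  · simp only [if_neg he, wt_odd he, eps_not] at *
    cases s
    · simp only [eps, Bool.false_eq_true, if_false] at *
      push_cast at *
      norm_num at *
      omega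
    · simp only [eps, if_true] at *
      push_cast at *
      norm_num at *
      omega

/-- related by (LL) -/
def LL (x y : Knot) : Prop :=
  LvN 1 x y ∨ (∃ t, LvN 2 y (tau t x)) ∨ ∃ t, LvN 2 x (tau t y)

theorem ll_par (s : Bool) (hu : Run u [] (A ++ ([a, a] ++ C)))
    (hw : LinkWord 1 (u ++ (sh A.length [(0, Gen.crs s)] ++ v)))
    (hw' : LinkWord 1 (u ++ (sh A.length [(0, Gen.crs !s)] ++ v))) :
    LL (kn hw) (kn hw') := by
  have e : ∀ r, u ++ (sh A.length [(0, Gen.crs r)] ++ v) =
      u ++ (A.length, Gen.crs r) :: v := by intro r; simp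
  rcases par_jump s hu hw with h | h
  · refine Or.inl (LvN.single ?_ h.symm)
    have := adj_mid (X := []) (Y := []) (x := [(0, Gen.crs s)]) (x1 := []) (x2 := []) rfl hw hw'
    exact this
  · have heven : ∀ t, Even (sgn (u ++ (sh A.length (tM a t) ++ v)) -
        sgn (u ++ (A.length, Gen.crs s) :: v)) := by
      intro t
      have h1 := even_sgn (link_tM (t := t) hu hw)
      have h2 := even_sgn hw
      rw [e] at h2
      exact h1.sub h2
    have h' := h
    rw [e, e] at h'
    rcases jump (show Run u [] (A ++ (a :: a :: C)) from hu) rfl s heven h' with k | k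
    · refine Or.inr (Or.inl ⟨!s, ?_⟩)
      exact case1 hu hw hw' h (by rw [e]; exact k)
    · refine Or.inr (Or.inr ⟨!(!s), ?_⟩)
      have hw2 : LinkWord 1 (u ++ (sh A.length [(0, Gen.crs !(!s))] ++ v)) := by
        rw [Bool.not_not]; exact hw
      have e2 : kn hw = kn hw2 := by
        apply kn_iso
        rw [Bool.not_not]
        exact Iso.refl _
      rw [e2]
      refine case1 hu hw' hw2 ?_ ?_
      · rw [Bool.not_not, h, eps_not]; ring
      · rw [Bool.not_not, e]; exact k

end

theorem ll_adj {x y : Knot} (h : Gordian.Adj x y) : LL x y := by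
  obtain ⟨u, v, p, s, hw, hw', rfl, rfl⟩ := adj_elim h
  obtain ⟨Z, hu, hv⟩ := hw.1.append_inv
  generalize hZ : ([] : List (Pt (Fin 1))) = Z' at hv
  cases hv with
  | @cons A B C D Y g w hg hv =>
    subst hZ
    cases hg with
    | crs s a b =>
      have hab : a.1 = b.1 := Subsingleton.elim _ _
      by_cases h2 : a = b
      · subst h2
        have e : ∀ r, u ++ (sh A.length [(0, Gen.crs r)] ++ v) =
          u ++ (A.length, Gen.crs r) :: v := by intro r; simp
        have l1 : LinkWord 1 (u ++ (sh A.length [(0, Gen.crs s)] ++ v)) := by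
          rw [e]; exact hw
        have l2 : LinkWord 1 (u ++ (sh A.length [(0, Gen.crs !s)] ++ v)) := by
          rw [e]; exact hw'
        rw [kn_iso hw l1 (Iso.of_eq (e s).symm), kn_iso hw' l2 (Iso.of_eq (e (!s)).symm)]
        exact ll_par s hu l1 l2
      · have h3 : b = op a := by
          refine Prod.ext hab.symm ?_
          have : a.2 ≠ b.2 := fun h => h2 (Prod.ext hab h)
          simp only [op]
          revert this
          generalize a.2 = x
          generalize b.2 = y
          revert x y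
          decide
        subst h3
        have hop : op (op a) = a := by simp [op]
        -- the rotated word
        have i1 : ∀ r, Iso [] [] (u ++ (sh A.length [(0, Gen.crs r)] ++ v))
            (u ++ (sh A.length [(0, Gen.cup (op a)), (1, Gen.crs !r),
              (2, Gen.cap (op (op a)))] ++ v)) :=
          fun r => (rot a (op a) r).ctx A D hu hv
        have e : ∀ r, u ++ (sh A.length [(0, Gen.crs r)] ++ v) =
          u ++ (A.length, Gen.crs r) :: v := by intro r; simp
        have e' : ∀ r, u ++ (sh A.length [(0, Gen.cup (op a)), (1, Gen.crs r),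
              (2, Gen.cap (op (op a)))] ++ v) =
            (u ++ sh A.length [(0, Gen.cup (op a))]) ++ (sh (A ++ [op a]).length
              [(0, Gen.crs r)] ++ ((2 + A.length, Gen.cap (op (op a))) :: v)) := by
          intro r
          simp [sh, Nat.add_comm]
        have hu2 : Run (u ++ sh A.length [(0, Gen.cup (op a))]) []
            ((A ++ [op a]) ++ ([a, a] ++ (op a :: D))) := by
          have r1 : Run [(0, Gen.cup (op a))] [a, op a] [op a, a, a, op a] := by
            have := run1 (Gen.Acts.cup (op a)) ([] : List (Pt (Fin 1))) [a, op a]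
              (p := 0) (X := [a, op a]) (Y := [op a, op (op a), a, op a]) rfl rfl rfl
            rwa [hop] at this
          have := hu.append (r1.shift A D)
          simpa using this
        have i2 : ∀ r, Iso [] [] (u ++ (A.length, Gen.crs r) :: v)
            ((u ++ sh A.length [(0, Gen.cup (op a))]) ++ (sh (A ++ [op a]).length
              [(0, Gen.crs !r)] ++ ((2 + A.length, Gen.cap (op (op a))) :: v))) := by
          intro r
          rw [← e, ← e']
          exact i1 r
        have l1 := hw.iso (i2 s)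
        have l2 := hw'.iso (i2 (!s))
        rw [kn_iso hw l1 (i2 s), kn_iso hw' l2 (i2 (!s))]
        exact ll_par (!s) hu2 l1 l2

/-- **(CC)** -/
theorem cc_tau (s : Bool) (x : Knot) : LvN 2 x (tau (!s) (tau s x)) := by
  obtain ⟨w, hw, rfl⟩ := exists_kn x
  obtain ⟨a, v, rfl⟩ := head_cup hw
  have hu : Run [(0, Gen.cup a)] [] ([] ++ a :: [op a]) := run1 (Gen.Acts.cup a) [] [] rfl rfl rfl
  have i1 : Ins s ([(0, Gen.cup a)] ++ v) _ := Ins.mk' (v := v) hu
  have l1 := i1.link hw
  rw [tau_kn hw l1 i1]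
  set u' : Word (Fin 1) := [(0, Gen.cup a), (1, Gen.cup a)] with hu'
  set v' : Word (Fin 1) := (0, Gen.crs s) :: (0, Gen.crs s) :: (1, Gen.cap a) :: v with hv'
  have l2 : LinkWord 1 (u' ++ (sh ([] : List (Pt (Fin 1))).length [(0, Gen.crs s)] ++ v')) := l1
  have l3 : LinkWord 1 (u' ++ (sh ([] : List (Pt (Fin 1))).length [(0, Gen.crs !s)] ++ v')) :=
    LinkWord.e1 (m := 1) (w := u' ++ (0, Gen.crs s) :: v') l2 (E1.cc _ l2.1)
  have hv : Run v ([] ++ ([a] ++ [op a])) [] :=
    Run.append_cancel (u := [(0, Gen.cup a)]) hw.1 hu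
  have h1 := (tr_change a s).ctx [] [op a] (u := [(0, Gen.cup a)]) (v := v) hu hv
  have e1 : kn l3 = kn hw := kn_iso l3 hw h1
  have ru : Run u' [] ([] ++ ([a, a] ++ [op a, op a])) := by
    have r1 : Run [(1, Gen.cup a)] [a, op a] [a, a, op a, op a] :=
      run1 (Gen.Acts.cup a) [a] [op a] rfl rfl rfl
    exact Run.append (u := [(0, Gen.cup a)]) hu r1
  have s1 : sgn (u' ++ (sh ([] : List (Pt (Fin 1))).length [(0, Gen.crs s)] ++ v')) =
      sgn ((0, Gen.cup a) :: v) - 2 * eps s := i1.sgn
  have s2 : sgn (u' ++ (sh ([] : List (Pt (Fin 1))).length [(0, Gen.crs !s)] ++ v')) =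
      sgn ((0, Gen.cup a) :: v) := sgn_iso h1
  have key := case1 ru l2 l3 (by rw [s1, s2]; ring) ?_
  · rw [e1] at key
    exact key
  · have t1 := sgn_tM (v := v') (show Run u' [] ([] ++ (a :: a :: [op a, op a])) from ru)
      (p := 0) rfl s
    have t2 := sgn_par (v := v') (show Run u' [] ([] ++ (a :: a :: [op a, op a])) from ru)
      (p := 0) rfl (!s)
    have t3 : u' ++ (sh ([] : List (Pt (Fin 1))).length [(0, Gen.crs !s)] ++ v') =
      u' ++ (0, Gen.crs !s) :: v' := rfl
    have t4 : u' ++ (sh ([] : List (Pt (Fin 1))).length (tM a s) ++ v') =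
      u' ++ (sh 0 (tM a s) ++ v') := rfl
    rw [t3, t4, t1, t2]
    have he : Even 0 := Even.zero
    simp only [if_pos he]
    rw [wt_even he, eps_not]
    have hF : ∀ c : ℚ, F u' v' 0 c = SG ([(0, El.cup)] ++ sk ℚ v) +
        (SignType.sign (c + 2 * ((eps s : ℤ) : ℚ)) : ℤ) := by
      intro c
      have := sg_tr_even 0 he c ((eps s : ℤ) : ℚ) (sk ℚ v) [(0, El.cup)]
      unfold F
      rw [← this]
      congr 1
      rw [hu', hv', sk_cup, sk_cup, sk_nil, sk_crs, sk_crs, sk_cap, wt_even he]
      rfl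
    rw [hF, hF]
    have g1 : 7 * ((eps s : ℤ) : ℚ) + 2 * ((eps s : ℤ) : ℚ) = 9 * ((eps s : ℤ) : ℚ) := by ring
    have g2 : ((-eps s : ℤ) : ℚ) + 2 * ((eps s : ℤ) : ℚ) = ((eps s : ℤ) : ℚ) := by
      push_cast; ring
    rw [g1, g2, sign_mul_eps (by norm_num), sign_eps]
    ring

/-! ### The height function -/

/-- half of the signature -/
noncomputable def ht (x : Knot) : ℤ := sigma x / 2

theorem two_mul_ht (x : Knot) : 2 * ht x = sigma x := by
  obtain ⟨k, hk⟩ := even_sigma x
  unfold ht
  omega

theorem ht_tau (t : Bool) (x : Knot) : ht (tau t x) = ht x - eps t := by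
  have h1 := two_mul_ht x
  have h2 := two_mul_ht (tau t x)
  have h3 := sigma_tau t x
  omega

/-- change the height by `j` -/
noncomputable def shf : ℤ → Knot → Knot
  | Int.ofNat n => (tau false)^[n]
  | Int.negSucc n => (tau true)^[n + 1]

theorem shf_zero (x : Knot) : shf 0 x = x := rfl

theorem LvN.iter {n : ℕ} {x y : Knot} (h : LvN n x y) (t : Bool) (k : ℕ) :
    LvN n ((MPab0b07.tau t)^[k] x) ((MPab0b07.tau t)^[k] y) := by
  induction k with
  | zero => exact h
  | succ k ih =>
    rw [Function.iterate_succ_apply', Function.iterate_succ_apply']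
    exact ih.tau t

theorem LvN.shf {n : ℕ} {x y : Knot} (h : LvN n x y) (j : ℤ) :
    LvN n (MPab0b07.shf j x) (MPab0b07.shf j y) := by
  cases j with
  | ofNat k => exact h.iter _ _
  | negSucc k => exact h.iter _ _

theorem shf_tau (j : ℤ) (t : Bool) (x : Knot) : LvN 2 (shf j (tau t x)) (shf (j - eps t) x) := by
  cases t with
  | false =>
    have he : j - eps false = j + 1 := by simp [eps]
    rw [he]
    cases j with
    | ofNat k =>
      have h1 : (Int.ofNat k + 1 : ℤ) = Int.ofNat (k + 1) := rfl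
      rw [h1]
      exact LvN.refl _ _
    | negSucc k =>
      cases k with
      | zero => exact (cc_tau false x).symm
      | succ k =>
        have h1 : (Int.negSucc (k + 1) + 1 : ℤ) = Int.negSucc k := rfl
        rw [h1]
        show LvN 2 ((tau true)^[k + 1 + 1] (tau false x)) ((tau true)^[k + 1] x)
        rw [Function.iterate_succ_apply]
        exact ((cc_tau false x).symm).iter _ _
  | true =>
    have he : j - eps true = j - 1 := by simp [eps]
    rw [he]
    cases j with
    | ofNat k =>
      cases k with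
      | zero => exact LvN.refl _ _
      | succ k =>
        have h1 : (Int.ofNat (k + 1) - 1 : ℤ) = Int.ofNat k := by
          simp
        rw [h1]
        show LvN 2 ((tau false)^[k + 1] (tau true x)) ((tau false)^[k] x)
        rw [Function.iterate_succ_apply]
        exact ((cc_tau true x).symm).iter _ _
    | negSucc k =>
      have h1 : (Int.negSucc k - 1 : ℤ) = Int.negSucc (k + 1) := rfl
      rw [h1]
      exact LvN.refl _ _

theorem adj_shf {x y : Knot} (h : Gordian.Adj x y) (k : ℤ) :
    LvN 4 (shf (k - ht x) x) (shf (k - ht y) y) := by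
  rcases ll_adj h with h1 | ⟨t, h1⟩ | ⟨t, h1⟩
  · have h2 : ht x = ht y := by
      have := h1.sgK
      unfold ht
      rw [this]
    rw [h2]
    exact (h1.shf _).mono (by omega)
  · have h2 : ht y = ht x - eps t := by
      rw [← ht_tau]
      have := h1.sgK
      unfold ht
      rw [this]
    have h3 := h1.shf (k - ht y)
    have h4 := shf_tau (k - ht y) t x
    have h5 : k - ht y - eps t = k - ht x := by rw [h2]; ring
    rw [h5] at h4
    exact (h3.trans h4).symm
  · have h2 : ht x = ht y - eps t := by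
      rw [← ht_tau]
      have := h1.sgK
      unfold ht
      rw [this]
    have h3 := h1.shf (k - ht x)
    have h4 := shf_tau (k - ht x) t y
    have h5 : k - ht x - eps t = k - ht y := by rw [h2]; ring
    rw [h5] at h4
    exact h3.trans h4

theorem walk_shf {x y : Knot} (p : Gordian.Walk x y) (k : ℤ) :
    LvN (4 * p.length) (shf (k - ht x) x) (shf (k - ht y) y) := by
  induction p with
  | nil => exact LvN.refl _ _
  | cons h p ih =>
    rw [SimpleGraph.Walk.length_cons]
    exact ((adj_shf h k).trans ih).mono (by omega)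

/-- **The level sets of the signature are connected and undistorted.** -/
theorem lvN_of_walk {x y : Knot} (p : Gordian.Walk x y) (h : sigma x = sigma y) :
    LvN (4 * p.length) x y := by
  have h1 := walk_shf p (ht x)
  have h2 : ht y = ht x := by unfold ht; rw [h]
  rw [h2, sub_self, shf_zero, shf_zero] at h1
  exact h1

theorem reach_e1 {w w' : Word (Fin 1)} (h : E1 [] [] w w') :
    ∀ (hw : LinkWord 1 w) (hw' : LinkWord 1 w'), Gordian.Reachable (kn hw) (kn hw') := by
  induction h with
  | rel w w' h =>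
    intro hw hw'
    cases h with
    | iso h => rw [kn_iso hw hw' h]
    | @cc u v p s t h =>
      rcases Bool.eq_or_eq_not t s with rfl | rfl
      · rfl
      · rcases adj_or hw hw' with h | h
        · rw [h]
        · exact h.reachable
  | refl w => intro hw hw'; rfl
  | symm w w' h ih => intro hw hw'; exact (ih hw' hw).symm
  | trans a b c h1 h2 ih1 ih2 =>
    intro hw hw'
    have hb := hw.e1 h1
    exact (ih1 hw hb).trans (ih2 hb hw')

theorem gordian_connected : Gordian.Connected := by
  haveI : Nonempty Knot := ⟨U⟩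
  refine SimpleGraph.Connected.mk (fun x y => ?_)
  obtain ⟨w, hw, rfl⟩ := exists_kn x
  obtain ⟨w', hw', rfl⟩ := exists_kn y
  exact (reach_e1 (e1_wU hw) hw link_wU).trans (reach_e1 (e1_wU hw') hw' link_wU).symm

theorem lvN_dist {x y : Knot} (h : sigma x = sigma y) : LvN (4 * Gordian.dist x y) x y := by
  obtain ⟨p, hp⟩ := gordian_connected.exists_walk_length_eq_dist x y
  rw [← hp]
  exact lvN_of_walk p h

theorem mirror_adj {x y : Knot} (h : Gordian.Adj x y) : Gordian.Adj (mirror x) (mirror y) := by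
  refine ⟨fun h1 => h.1 ?_, ?_⟩
  · rw [← mirror_mirror x, h1, mirror_mirror]
  · obtain ⟨u, v, p, s, hw, hw', rfl, rfl⟩ := adj_elim h
    exact ⟨⟨_, link_mir hw⟩, ⟨_, link_mir hw'⟩, mir u, mir v, p, !s, rfl, rfl,
      by simp [mir, mirG], by simp [mir, mirG]⟩

theorem hgraph : HGraph Gordian ht mirror (tau false) (tau true) where
  edge x y h := by
    have h1 := sigma_adj h
    have h2 := two_mul_ht x
    have h3 := two_mul_ht y
    rw [abs_le] at h1 ⊢
    constructor <;> omega
  conn k x y hx hy := by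
    obtain ⟨p, -, hp⟩ := lvN_dist (x := x) (y := y) (by
      have h2 := two_mul_ht x
      have h3 := two_mul_ht y
      omega)
    clear hy
    induction p with
    | nil => exact Relation.ReflTransGen.refl
    | @cons u v w huv p ih =>
      have hv : sigma v = sigma u := hp v (by
        rw [SimpleGraph.Walk.support_cons]
        exact List.mem_cons_of_mem _ p.start_mem_support)
      have hk : ht v = k := by rw [← hx]; unfold ht; rw [hv]
      refine Relation.ReflTransGen.head ⟨huv, hk⟩ (ih hk (fun z hz => ?_))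
      rw [hv]
      exact hp z (by
        rw [SimpleGraph.Walk.support_cons]
        exact List.mem_cons_of_mem _ hz)
  m_adj x y h := mirror_adj h
  m_s x := by
    have h2 := two_mul_ht x
    have h3 := two_mul_ht (mirror x)
    have h4 := sigma_mirror x
    omega
  m_m := mirror_mirror
  up x := by
    refine ⟨(tau_adj _ _), ?_⟩
    rw [ht_tau]
    simp [eps]
  down x := by
    refine ⟨tau_adj _ _, ?_⟩
    rw [ht_tau]
    simp [eps]
  ne := ⟨U⟩

end MPab0b07
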