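import Mathlib

/-!
# The signature of a quadratic form over the rational numbers (1)

Use `Mathlib.LinearAlgebra.QuadraticForm.Signature` (`sigPos`, `sigNeg`, `sigPos_isGreatest`,
`le_sigPos_of_posDef`, `QuadraticMap.Equivalent.sigPos_eq`,
`QuadraticForm.sigPos_add_sigNeg_add_radical`, ...).
-/

namespace MPab0b07

variable {V V' : Type*} [AddCommGroup V] [Module ℚ V] [AddCommGroup V'] [Module ℚ V']

/-- the signature -/
noncomputable def sg (Q : QuadraticForm ℚ V) : ℤ := (sigPos Q : ℤ) - sigNeg Q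

theorem sg_congr (Q : QuadraticForm ℚ V) (Q' : QuadraticForm ℚ V') (e : V ≃ₗ[ℚ] V')
    (h : ∀ v, Q' (e v) = Q v) : sg Q' = sg Q := by
  have h1 : QuadraticMap.Equivalent Q Q' := ⟨⟨e, h⟩⟩
  rw [sg, sg, h1.sigPos_eq, h1.sigNeg_eq]

theorem sg_neg (Q : QuadraticForm ℚ V) : sg (-Q) = - sg Q := by
  rw [sg, sg, sigPos_neg, sigNeg_neg]
  ring

private theorem LA1_posDef_restrict_iff (Q : QuadraticForm ℚ V) (W : Submodule ℚ V) :
    (Q.restrict W).PosDef ↔ ∀ x ∈ W, x ≠ 0 → 0 < Q x := by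
  constructor
  · intro h x hx h0
    exact h ⟨x, hx⟩ (by simpa using h0)
  · intro h x hx
    exact h x.1 x.2 (by simpa using hx)

private theorem LA1_sigPos_mono [FiniteDimensional ℚ V] (Q Q' : QuadraticForm ℚ V)
    (h : ∀ v, Q v ≤ Q' v) : sigPos Q ≤ sigPos Q' := by
  obtain ⟨W, hW, hp⟩ := exists_finrank_eq_sigPos_and_posDef Q
  rw [← hW]
  apply le_sigPos_of_posDef
  rw [LA1_posDef_restrict_iff] at hp ⊢
  exact fun x hx h0 => (hp x hx h0).trans_le (h x)

theorem sg_mono [FiniteDimensional ℚ V] (Q Q' : QuadraticForm ℚ V) (h : ∀ v, Q v ≤ Q' v) :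
    sg Q ≤ sg Q' := by
  have h1 := LA1_sigPos_mono Q Q' h
  have h2 : sigNeg Q' ≤ sigNeg Q := by
    rw [← sigPos_neg, ← sigPos_neg]
    apply LA1_sigPos_mono
    intro v
    simpa using h v
  rw [sg, sg]
  omega

private theorem LA1_sigPos_le [FiniteDimensional ℚ V] (Q Q' : QuadraticForm ℚ V) (l : V →ₗ[ℚ] ℚ)
    (h : ∀ v, l v = 0 → Q' v = Q v) : sigPos Q' ≤ sigPos Q + 1 := by
  obtain ⟨W, hW, hp⟩ := exists_finrank_eq_sigPos_and_posDef Q'
  have h1 : Module.finrank ℚ W ≤ Module.finrank ℚ (W ⊓ LinearMap.ker l : Submodule ℚ V) + 1 := by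
    have h2 := LinearMap.finrank_range_add_finrank_ker (l.comp W.subtype)
    have h3 : Module.finrank ℚ (LinearMap.range (l.comp W.subtype)) ≤ 1 := by
      have := (LinearMap.range (l.comp W.subtype)).finrank_le
      rwa [Module.finrank_self] at this
    have h4 : Module.finrank ℚ (LinearMap.ker (l.comp W.subtype)) =
        Module.finrank ℚ (W ⊓ LinearMap.ker l : Submodule ℚ V) := by
      rw [LinearMap.ker_comp, ← Submodule.map_comap_subtype]
      exact (LinearEquiv.finrank_eq (Submodule.equivMapOfInjective W.subtype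
        W.injective_subtype _))
    omega
  have h5 : Module.finrank ℚ (W ⊓ LinearMap.ker l : Submodule ℚ V) ≤ sigPos Q := by
    apply le_sigPos_of_posDef
    rw [LA1_posDef_restrict_iff] at hp ⊢
    intro x hx h0
    have hx' : l x = 0 := hx.2
    rw [← h x hx']
    exact hp x hx.1 h0
  omega

/-- a positive definite space for one of the forms meets the kernel of `l` in codimension `≤ 1` -/
theorem sg_le_add_two [FiniteDimensional ℚ V] (Q Q' : QuadraticForm ℚ V) (l : V →ₗ[ℚ] ℚ)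
    (h : ∀ v, l v = 0 → Q' v = Q v) : sg Q' ≤ sg Q + 2 := by
  have h1 := LA1_sigPos_le Q Q' l h
  have h2 : sigNeg Q ≤ sigNeg Q' + 1 := by
    rw [← sigPos_neg, ← sigPos_neg]
    apply LA1_sigPos_le (-Q') (-Q) l
    intro v hv
    simp [h v hv]
  rw [sg, sg]
  omega

theorem sg_parity [FiniteDimensional ℚ V] (Q : QuadraticForm ℚ V)
    (h : ∀ v, (∀ w, QuadraticMap.polar Q v w = 0) → v = 0) :
    Even (sg Q - Module.finrank ℚ V) := by
  have h1 : Q.radical = ⊥ := by
    rw [Submodule.eq_bot_iff]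
    intro v hv
    rw [QuadraticMap.mem_radical_iff'] at hv
    refine h v fun w => ?_
    rw [QuadraticMap.polar, hv.2 w, hv.1]
    ring
  have h2 := QuadraticForm.sigPos_add_sigNeg_add_radical (Q := Q)
  rw [h1, finrank_bot, add_zero] at h2
  rw [← h2, sg]
  refine ⟨-(sigNeg Q : ℤ), ?_⟩
  push_cast
  ring

end MPab0b07
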