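import Pool.Agent.Lib.MP_ab0b07_gt.LA1

/-!
# The signature of a quadratic form over the rational numbers (2)
-/

namespace MPab0b07

variable {V V' : Type*} [AddCommGroup V] [Module ℚ V] [AddCommGroup V'] [Module ℚ V']

private theorem LA2_sg_wss {ι : Type*} [Fintype ι] (w : ι → ℚ) :
    sg (QuadraticMap.weightedSumSquares ℚ w) = ∑ i, (SignType.sign (w i) : ℤ) := by
  classical
  rw [sg, QuadraticForm.sigPos_weightedSumSquares, QuadraticForm.sigNeg_weightedSumSquares]
  have h1 : ({i | 0 < w i} : Set ι).ncard = ∑ i, if 0 < w i then 1 else 0 := by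
    rw [Set.ncard_eq_toFinset_card', Finset.sum_boole]
    congr 1
    ext i
    simp
  have h2 : ({i | w i < 0} : Set ι).ncard = ∑ i, if w i < 0 then 1 else 0 := by
    rw [Set.ncard_eq_toFinset_card', Finset.sum_boole]
    congr 1
    ext i
    simp
  rw [h1, h2]
  push_cast
  rw [← Finset.sum_sub_distrib]
  refine Finset.sum_congr rfl fun i _ => ?_
  rcases lt_trichotomy (w i) 0 with h | h | h
  · rw [if_neg (not_lt.2 h.le), if_pos h, sign_neg h]
    rfl
  · rw [h, if_neg (lt_irrefl _), sign_zero]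
    rfl
  · rw [if_pos h, if_neg (not_lt.2 h.le), sign_pos h]
    rfl

/-- `≥` for `sigPos` and `sigNeg` by products of subspaces, equality by counting dimensions (the
radical of the product contains the product of the radicals). -/
theorem sg_prod [FiniteDimensional ℚ V] [FiniteDimensional ℚ V'] (Q : QuadraticForm ℚ V)
    (Q' : QuadraticForm ℚ V') : sg (Q.prod Q') = sg Q + sg Q' := by
  have : Invertible (2 : ℚ) := invertibleOfNonzero (by norm_num)
  obtain ⟨w, ⟨e⟩⟩ := Q.equivalent_weightedSumSquares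
  obtain ⟨w', ⟨e'⟩⟩ := Q'.equivalent_weightedSumSquares
  have h1 : sg Q = ∑ i, (SignType.sign (w i) : ℤ) := by
    rw [← LA2_sg_wss, sg_congr Q _ e.toLinearEquiv fun v => e.map_app v]
  have h2 : sg Q' = ∑ i, (SignType.sign (w' i) : ℤ) := by
    rw [← LA2_sg_wss, sg_congr Q' _ e'.toLinearEquiv fun v => e'.map_app v]
  have h3 : sg (QuadraticMap.weightedSumSquares ℚ (Sum.elim w w')) = sg (Q.prod Q') := by
    refine sg_congr (Q.prod Q') _ ((e.toLinearEquiv.prodCongr e'.toLinearEquiv).trans
      (LinearEquiv.sumArrowLequivProdArrow _ _ ℚ ℚ).symm) fun v => ?_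
    rw [QuadraticMap.weightedSumSquares_apply, Fintype.sum_sum_type, QuadraticMap.prod_apply,
      ← e.map_app v.1, ← e'.map_app v.2, QuadraticMap.weightedSumSquares_apply,
      QuadraticMap.weightedSumSquares_apply]
    rfl
  rw [← h3, LA2_sg_wss, Fintype.sum_sum_type, h1, h2]
  rfl

theorem sg_dec [FiniteDimensional ℚ V] (Q : QuadraticForm ℚ V) (Q' : QuadraticForm ℚ V')
    {k : ℕ} (c : Fin k → ℚ) (e : (V × (Fin k → ℚ)) ≃ₗ[ℚ] V')
    (h : ∀ v t, Q' (e (v, t)) = Q v + ∑ i, c i * t i ^ 2) :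
    sg Q' = sg Q + ∑ i, (SignType.sign (c i) : ℤ) := by
  rw [sg_congr (Q.prod (QuadraticMap.weightedSumSquares ℚ c)) Q' e, sg_prod, LA2_sg_wss]
  rintro ⟨v, t⟩
  rw [h, QuadraticMap.prod_apply, QuadraticMap.weightedSumSquares_apply]
  congr 1
  refine Finset.sum_congr rfl fun i _ => ?_
  rw [smul_eq_mul, sq]

/-- Reduction of a hyperbolic plane.  If `τ = 0` then `V' = ι V ⊕ ℚ e` and `e` is in the radical
(use `sg_dec` with `c = 0`).  Otherwise choose `f` with `τ f = 1`; replacing `f` by `f - (Q' f) e`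
we may assume `Q' f = 0`.  With `B = polar Q'` one has `B e x = τ x`, `Q' e = 0`, `τ e = 0`, and
`(v, s, t) ↦ ι v - (B (ι v) f) • e + s • f + t • e` is an isomorphism `V × ℚ × ℚ → V'` which
carries `Q'` to `Q v + s * t`; the form `s * t` has signature `0` (it is isometric to its
negative). -/
theorem sg_hyp [FiniteDimensional ℚ V] [FiniteDimensional ℚ V'] (Q : QuadraticForm ℚ V)
    (Q' : QuadraticForm ℚ V') (ι : V →ₗ[ℚ] V') (e : V') (τ : V' →ₗ[ℚ] ℚ)
    (h1 : ∀ (v : V') (t : ℚ), Q' (v + t • e) = Q' v + t * τ v) (h2 : ∀ v, Q' (ι v) = Q v)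
    (h3 : ∀ v, τ (ι v) = 0) (h4 : ∀ v', τ v' = 0 → ∃ (v : V) (t : ℚ), v' = ι v + t • e)
    (h5 : ∀ (v : V) (t : ℚ), ι v + t • e = 0 → v = 0 ∧ t = 0) : sg Q' = sg Q := by
  have hte : ∀ t : ℚ, Q' (t • e) = 0 := by
    intro t
    have := h1 0 t
    rwa [zero_add, map_zero, map_zero, mul_zero, add_zero] at this
  have hτe : τ e = 0 := by
    have h6 := h1 e 1
    have h7 : e + (1 : ℚ) • e = (2 : ℚ) • e := by
      rw [one_smul, two_smul]
    have h8 : Q' e = 0 := by
      have := hte 1
      rwa [one_smul] at this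
    rw [h7, hte, h8, zero_add, one_mul] at h6
    exact h6.symm
  by_cases hτ : ∃ g, τ g ≠ 0
  · obtain ⟨g, hg⟩ := hτ
    obtain ⟨f, hf1, hf2⟩ : ∃ f : V', τ f = 1 ∧ Q' f = 0 := by
      refine ⟨(τ g)⁻¹ • g + (-Q' ((τ g)⁻¹ • g)) • e, ?_, ?_⟩
      · rw [map_add, map_smul, map_smul, hτe, smul_zero, add_zero, smul_eq_mul,
          inv_mul_cancel₀ hg]
      · have h6 : τ ((τ g)⁻¹ • g) = 1 := by
          rw [LinearMap.map_smul, smul_eq_mul, inv_mul_cancel₀ hg]
        rw [h1, h6]
        ring
    let β : V →ₗ[ℚ] ℚ := ((QuadraticMap.polarBilin Q').flip f).comp ι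
    have hβ : ∀ v, β v = QuadraticMap.polar Q' (ι v) f := fun v => rfl
    let Φ : (V × (Fin 2 → ℚ)) →ₗ[ℚ] V' :=
      { toFun := fun p => ι p.1 + (p.2 0 + p.2 1) • f + ((p.2 0 - p.2 1) - β p.1) • e
        map_add' := by
          intro p q
          simp only [Prod.fst_add, Prod.snd_add, Pi.add_apply, map_add, add_smul, sub_smul]
          abel
        map_smul' := by
          intro a p
          simp only [Prod.smul_fst, Prod.smul_snd, Pi.smul_apply, map_smul, smul_eq_mul,
            RingHom.id_apply, smul_add, smul_smul]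
          congr 2
          · rw [mul_add]
          · rw [mul_sub, mul_sub] }
    have hΦ : ∀ p : V × (Fin 2 → ℚ), Φ p =
      ι p.1 + (p.2 0 + p.2 1) • f + ((p.2 0 - p.2 1) - β p.1) • e := fun p => rfl
    have hinj : Function.Injective Φ := by
      rw [injective_iff_map_eq_zero]
      rintro ⟨v, t⟩ h
      rw [hΦ] at h
      have h6 := congrArg τ h
      rw [map_add, map_add, map_smul, map_smul, h3, hf1, hτe, smul_zero, add_zero, zero_add,
        smul_eq_mul, mul_one, map_zero] at h6
      have h6' : t 0 + t 1 = 0 := h6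
      have h7 : ι v + ((t 0 - t 1) - β v) • e = 0 := by
        have h8 : ι v + (t 0 + t 1) • f + ((t 0 - t 1) - β v) • e = 0 := h
        rwa [h6', zero_smul, add_zero] at h8
      obtain ⟨h8, h9⟩ := h5 _ _ h7
      rw [h8, map_zero, sub_zero] at h9
      have h10 : t = 0 := by
        funext i
        fin_cases i
        · show t 0 = 0
          linarith
        · show t 1 = 0
          linarith
      rw [h8, h10]
      rfl
    have hsurj : Function.Surjective Φ := by
      intro x
      have h6 : τ (x - τ x • f) = 0 := by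
        rw [map_sub, map_smul, hf1, smul_eq_mul, mul_one, sub_self]
      obtain ⟨v, r, hv⟩ := h4 _ h6
      refine ⟨(v, ![(τ x + (r + β v)) / 2, (τ x - (r + β v)) / 2]), ?_⟩
      rw [hΦ]
      have h7 : x = ι v + τ x • f + r • e := by
        have : x = (x - τ x • f) + τ x • f := by abel
        rw [this, hv]
        have h8 : τ (ι v + r • e + τ x • f) = τ x := by
          rw [map_add, map_add, map_smul, map_smul, h3, hf1, hτe, smul_zero, zero_add, zero_add,
            smul_eq_mul, mul_one]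
        rw [h8]
        abel
      conv_rhs => rw [h7]
      show ι v + ((τ x + (r + β v)) / 2 + (τ x - (r + β v)) / 2) • f +
        (((τ x + (r + β v)) / 2 - (τ x - (r + β v)) / 2) - β v) • e = _
      have h9 : (τ x + (r + β v)) / 2 + (τ x - (r + β v)) / 2 = τ x := by ring
      have h10 : ((τ x + (r + β v)) / 2 - (τ x - (r + β v)) / 2) - β v = r := by ring
      rw [h9, h10]
    have h := sg_dec Q Q' ![1, -1] (LinearEquiv.ofBijective Φ ⟨hinj, hsurj⟩) (by
      intro v t
      rw [LinearEquiv.ofBijective_apply, hΦ]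
      show Q' (ι v + (t 0 + t 1) • f + ((t 0 - t 1) - β v) • e) = _
      rw [h1, QuadraticMap.map_add Q', h2, QuadraticMap.map_smul, hf2, smul_zero, add_zero,
        QuadraticMap.polar_smul_right, ← hβ, LinearMap.map_add, LinearMap.map_smul, h3, hf1,
        Fin.sum_univ_two]
      show Q v + (t 0 + t 1) • β v + (t 0 - t 1 - β v) * (0 + (t 0 + t 1) • (1 : ℚ)) =
        Q v + ((1 : ℚ) * t 0 ^ 2 + (-1 : ℚ) * t 1 ^ 2)
      rw [smul_eq_mul, smul_eq_mul]
      ring)
    rw [h, Fin.sum_univ_two]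
    show sg Q + ((SignType.sign (1 : ℚ) : ℤ) + (SignType.sign (-1 : ℚ) : ℤ)) = sg Q
    rw [sign_pos one_pos, sign_neg (by norm_num : (-1 : ℚ) < 0)]
    show sg Q + ((1 : ℤ) + (-1)) = sg Q
    ring
  · push Not at hτ
    let Φ : (V × (Fin 1 → ℚ)) →ₗ[ℚ] V' :=
      { toFun := fun p => ι p.1 + p.2 0 • e
        map_add' := by
          intro p q
          simp only [Prod.fst_add, Prod.snd_add, Pi.add_apply, map_add, add_smul]
          abel
        map_smul' := by
          intro a p
          simp only [Prod.smul_fst, Prod.smul_snd, Pi.smul_apply, map_smul, smul_eq_mul,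
            RingHom.id_apply, smul_add, smul_smul] }
    have hΦ : ∀ p : V × (Fin 1 → ℚ), Φ p = ι p.1 + p.2 0 • e := fun p => rfl
    have hinj : Function.Injective Φ := by
      rw [injective_iff_map_eq_zero]
      rintro ⟨v, t⟩ h
      rw [hΦ] at h
      obtain ⟨h8, h9⟩ := h5 _ _ h
      have h8' : v = 0 := h8
      have h10 : t = 0 := by
        funext i
        fin_cases i
        exact h9
      rw [h8', h10]
      rfl
    have hsurj : Function.Surjective Φ := by
      intro x
      obtain ⟨v, r, hv⟩ := h4 x (hτ x)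
      exact ⟨(v, fun _ => r), by rw [hΦ]; exact hv.symm⟩
    have h := sg_dec Q Q' (fun _ => 0) (LinearEquiv.ofBijective Φ ⟨hinj, hsurj⟩) (by
      intro v t
      rw [LinearEquiv.ofBijective_apply, hΦ]
      show Q' (ι v + t 0 • e) = _
      rw [h1, h2, h3, mul_zero, add_zero]
      simp)
    rw [h]
    simp

end MPab0b07
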