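import Pool.Agent.Lib.MP_ab0b07_gt.RD

/-!
# The signature of the form under the elementary moves (1)

All statements follow from `RD.sgeq` with explicit `T` and `S` (e.g. for `sg_r1cup` with `p` odd:
`RD ((p, cup) :: v) ((p, cup) :: (p, x κ) :: v) (c = ![κ])` with
`T ((g, ys), t) = cns (ys 0 + t 0) (cns (ys 0) (tail ys))`), `sg_r2` for odd `p` from `RH.sgeq`
(`e = cns 1 0`, `T (g, ys) = cns (g (p + 1)) (cns (g (p + 1)) ys)`,
`τ (g, ys) = -2 κ (g (p + 1) - ys 1)`).  Recall that for even `p` the new labels of `cup` and `x`
are `0`, that the label of `cap` is always `0`, and that for even `p` a cap has the condition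
`g p = g (p + 2)` (for odd `p` as well, see `El.cond`).
-/

namespace MPab0b07

theorem sg_zig (p : ℕ) (v : List (ℕ × El ℚ)) : SGeq ((p + 1, El.cup) :: (p, El.cap) :: v) v 0 := by
  have hgap : ∀ (g : ℕ → ℚ) (y : ℚ), gap 2 0 p y (gap 0 2 (p + 1) (g p) g) = g := by
    intro g y
    funext j
    unfold gap
    split_ifs <;> (first | rfl | omega)
  have h1 : ∀ (g : ℕ → ℚ) (y : ℚ), gap 0 2 (p + 1) y g p = g p := by
    intro g y; simp [gap]
  have h2 : ∀ (g : ℕ → ℚ) (y : ℚ), gap 0 2 (p + 1) y g (p + 2) = y := by
    intro g y; simp [gap]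
  have h : RD v ((p + 1, El.cup) :: (p, El.cap) :: v) (k := 0) ![]
      (fun x => cns (x.1.1 p) (cns 0 x.1.2)) (fun x => (fun n => x.2 (n + 2), ![])) := by
    refine ⟨?_, ?_, ?_, ?_, ?_, ?_, ?_⟩
    · constructor
      · intro x y; funext n
        rcases n with _ | _ | n <;> simp
      · intro a x; funext n
        rcases n with _ | _ | n <;> simp
    · constructor
      · intro x y; ext n <;> simp
      · intro a x; ext n <;> simp
    · intro g ys t hg hm
      rw [mem_cup, mem_cap]
      refine ⟨fun h => hg p (by intro h'; exact (Nat.even_add_one.1 h) h'), rfl, ?_, ?_⟩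
      · simp only [cns_zero, h1, h2]
      · simp only [cns_zero, cns_succ, hgap]
        exact hm
    · intro g ys t hg hm
      rw [frm_cup, frm_cap]
      simp only [cns_zero, cns_succ, hgap]
      simp
    · intro g ys t hg hm
      ext n
      · rfl
      · exact n.elim0
    · intro g ys hg hm
      rw [mem_cup, mem_cap] at hm
      obtain ⟨a1, a2, a3, a4⟩ := hm
      rw [h1, h2] at a3
      rw [← a3, hgap] at a4
      exact a4
    · intro g ys hg hm
      rw [mem_cup, mem_cap] at hm
      obtain ⟨a1, a2, a3, a4⟩ := hm
      rw [h1, h2] at a3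
      funext n
      rcases n with _ | _ | n
      · exact a3
      · exact a2.symm
      · rfl
  simpa using h.sgeq

theorem sg_zag (p : ℕ) (v : List (ℕ × El ℚ)) : SGeq ((p, El.cup) :: (p + 1, El.cap) :: v) v 0 := by
  have hgap : ∀ (g : ℕ → ℚ) (y : ℚ), gap 2 0 (p + 1) y (gap 0 2 p (g (p + 1)) g) = g := by
    intro g y
    funext j
    unfold gap
    split_ifs <;> (first | rfl | omega | (congr 1; omega))
  have h1 : ∀ (g : ℕ → ℚ) (y : ℚ), gap 0 2 p y g (p + 1) = y := by
    intro g y; simp [gap]
  have h2 : ∀ (g : ℕ → ℚ) (y : ℚ), gap 0 2 p y g (p + 1 + 2) = g (p + 1) := by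
    intro g y
    unfold gap
    rw [if_neg (by omega), if_neg (by omega)]
    rfl
  have h : RD v ((p, El.cup) :: (p + 1, El.cap) :: v) (k := 0) ![]
      (fun x => cns (x.1.1 (p + 1)) (cns 0 x.1.2)) (fun x => (fun n => x.2 (n + 2), ![])) := by
    refine ⟨?_, ?_, ?_, ?_, ?_, ?_, ?_⟩
    · constructor
      · intro x y; funext n
        rcases n with _ | _ | n <;> simp
      · intro a x; funext n
        rcases n with _ | _ | n <;> simp
    · constructor
      · intro x y; ext n <;> simp
      · intro a x; ext n <;> simp
    · intro g ys t hg hm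
      rw [mem_cup, mem_cap]
      refine ⟨fun h => hg (p + 1) (by intro h'; exact (Nat.even_add_one.1 h') h), rfl, ?_, ?_⟩
      · simp only [cns_zero, h1, h2]
      · simp only [cns_zero, cns_succ, hgap]
        exact hm
    · intro g ys t hg hm
      rw [frm_cup, frm_cap]
      simp only [cns_zero, cns_succ, hgap]
      simp
    · intro g ys t hg hm
      ext n
      · rfl
      · exact n.elim0
    · intro g ys hg hm
      rw [mem_cup, mem_cap] at hm
      obtain ⟨a1, a2, a3, a4⟩ := hm
      rw [h1, h2] at a3
      rw [a3, hgap] at a4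
      exact a4
    · intro g ys hg hm
      rw [mem_cup, mem_cap] at hm
      obtain ⟨a1, a2, a3, a4⟩ := hm
      rw [h1, h2] at a3
      funext n
      rcases n with _ | _ | n
      · exact a3.symm
      · exact a2.symm
      · rfl
  simpa using h.sgeq

private theorem MV1_cup_x (p : ℕ) (g : ℕ → ℚ) (y z : ℚ) :
    gap 2 2 p y (gap 0 2 p z g) = gap 0 2 p y g := by
  funext j
  unfold gap
  split_ifs <;> (first | rfl | omega)

private theorem MV1_x_cap (p : ℕ) (g : ℕ → ℚ) (y z z' : ℚ) :
    gap 2 0 p y (gap 2 2 p z g) = gap 2 0 p z' g := by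
  funext j
  unfold gap
  split_ifs <;> (first | rfl | omega)

private theorem MV1_x_x (p : ℕ) (g : ℕ → ℚ) (y z : ℚ) :
    gap 2 2 p y (gap 2 2 p z g) = gap 2 2 p y g := by
  funext j
  unfold gap
  split_ifs <;> (first | rfl | omega)

private theorem MV1_x_self (p : ℕ) (g : ℕ → ℚ) (y : ℚ) (h : g (p + 1) = y) :
    gap 2 2 p y g = g := by
  funext j
  unfold gap
  split_ifs with h1 h2
  · rfl
  · have : j = p + 1 := by omega
    rw [this, h]
  · congr 1

private theorem MV1_c0 (p : ℕ) (g : ℕ → ℚ) (y : ℚ) : gap 0 2 p y g p = g p := by
  simp [gap]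

private theorem MV1_c1 (p : ℕ) (g : ℕ → ℚ) (y : ℚ) : gap 0 2 p y g (p + 1) = y := by
  simp [gap]

private theorem MV1_c2 (p : ℕ) (g : ℕ → ℚ) (y : ℚ) : gap 0 2 p y g (p + 2) = g p := by
  simp [gap]

private theorem MV1_x0 (p : ℕ) (g : ℕ → ℚ) (y : ℚ) : gap 2 2 p y g p = g p := by
  simp [gap]

private theorem MV1_x1 (p : ℕ) (g : ℕ → ℚ) (y : ℚ) : gap 2 2 p y g (p + 1) = y := by
  simp [gap]

private theorem MV1_x2 (p : ℕ) (g : ℕ → ℚ) (y : ℚ) : gap 2 2 p y g (p + 2) = g (p + 2) := by
  simp [gap]

theorem sg_r1cup (p : ℕ) (κ : ℚ) (v : List (ℕ × El ℚ)) :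
    SGeq ((p, El.cup) :: (p, El.x κ) :: v) ((p, El.cup) :: v)
      (if Even p then 0 else (SignType.sign κ : ℤ)) := by
  by_cases hp : Even p
  · rw [if_pos hp]
    have h : RD ((p, El.cup) :: v) ((p, El.cup) :: (p, El.x κ) :: v) (k := 0) ![]
        (fun x => cns 0 x.1.2) (fun x => (fun n => x.2 (n + 1), ![])) := by
      refine ⟨?_, ?_, ?_, ?_, ?_, ?_, ?_⟩
      · constructor
        · intro x y; funext n
          rcases n with _ | n <;> simp
        · intro a x; funext n
          rcases n with _ | n <;> simp
      · constructor
        · intro x y; ext n <;> simp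
        · intro a x; ext n <;> simp
      · intro g ys t hg hm
        rw [mem_cup] at hm
        rw [mem_cup, mem_x]
        refine ⟨fun _ => rfl, fun _ => hm.1 hp, ?_⟩
        simp only [cns_zero, cns_succ, MV1_cup_x]
        exact hm.2
      · intro g ys t hg hm
        rw [frm_cup, frm_x_even hp, frm_cup]
        simp only [cns_zero, cns_succ, MV1_cup_x, MV1_c0, MV1_c2]
        simp
      · intro g ys t hg hm
        ext n
        · rfl
        · exact n.elim0
      · intro g ys hg hm
        rw [mem_cup, mem_x] at hm
        rw [mem_cup]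
        obtain ⟨a1, a2, a3⟩ := hm
        rw [MV1_cup_x] at a3
        exact ⟨a2, a3⟩
      · intro g ys hg hm
        rw [mem_cup, mem_x] at hm
        funext n
        rcases n with _ | n
        · exact (hm.1 hp).symm
        · rfl
    simpa using h.sgeq
  · rw [if_neg hp]
    have h : RD ((p, El.cup) :: v) ((p, El.cup) :: (p, El.x κ) :: v) (k := 1) ![κ]
        (fun x => cns (x.1.2 0 + x.2 0) x.1.2)
        (fun x => (fun n => x.2 (n + 1), fun _ => x.2 0 - x.2 1)) := by
      refine ⟨?_, ?_, ?_, ?_, ?_, ?_, ?_⟩
      · constructor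
        · intro x y; funext n
          rcases n with _ | n
          · simp only [cns_zero, Pi.add_apply, Prod.fst_add, Prod.snd_add]
            ring
          · simp
        · intro a x; funext n
          rcases n with _ | n
          · simp only [cns_zero, Pi.smul_apply, Prod.smul_fst, Prod.smul_snd, smul_eq_mul]
            ring
          · simp
      · constructor
        · intro x y
          ext n
          · simp
          · simp only [Pi.add_apply, Prod.snd_add]
            ring
        · intro a x
          ext n
          · simp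
          · simp only [Pi.smul_apply, Prod.smul_snd, smul_eq_mul]
            ring
      · intro g ys t hg hm
        rw [mem_cup] at hm
        rw [mem_cup, mem_x]
        refine ⟨fun h => absurd h hp, fun h => absurd h hp, ?_⟩
        simp only [cns_zero, cns_succ, MV1_cup_x]
        exact hm.2
      · intro g ys t hg hm
        rw [frm_cup, frm_x_odd hp, frm_cup]
        simp only [cns_zero, cns_succ, MV1_cup_x, MV1_c1, Fin.sum_univ_one, Matrix.cons_val_zero]
        ring
      · intro g ys t hg hm
        ext n
        · rfl
        · have : n = 0 := Subsingleton.elim _ _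
          subst this
          simp
      · intro g ys hg hm
        rw [mem_cup, mem_x] at hm
        rw [mem_cup]
        obtain ⟨a1, a2, a3⟩ := hm
        rw [MV1_cup_x] at a3
        exact ⟨a2, a3⟩
      · intro g ys hg hm
        funext n
        rcases n with _ | n
        · simp
        · rfl
    have h' := h.sgeq
    simpa using h'

theorem sg_r1cap (p : ℕ) (κ : ℚ) (v : List (ℕ × El ℚ)) :
    SGeq ((p, El.x κ) :: (p, El.cap) :: v) ((p, El.cap) :: v)
      (if Even p then 0 else (SignType.sign κ : ℤ)) := by
  by_cases hp : Even p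
  · rw [if_pos hp]
    have h : RD ((p, El.cap) :: v) ((p, El.x κ) :: (p, El.cap) :: v) (k := 0) ![]
        (fun x => cns 0 x.1.2) (fun x => (fun n => x.2 (n + 1), ![])) := by
      refine ⟨?_, ?_, ?_, ?_, ?_, ?_, ?_⟩
      · constructor
        · intro x y; funext n
          rcases n with _ | n <;> simp
        · intro a x; funext n
          rcases n with _ | n <;> simp
      · constructor
        · intro x y; ext n <;> simp
        · intro a x; ext n <;> simp
      · intro g ys t hg hm
        rw [mem_cap] at hm
        rw [mem_x, mem_cap]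
        refine ⟨fun _ => rfl, hm.1, ?_, ?_⟩
        · rw [MV1_x0, MV1_x2]
          exact hm.2.1
        · simp only [cns_zero, cns_succ]
          rw [MV1_x_cap p g (ys 0) 0 (ys 0)]
          exact hm.2.2
      · intro g ys t hg hm
        rw [mem_cap] at hm
        rw [frm_x_even hp, frm_cap, frm_cap]
        simp only [cns_zero, cns_succ]
        rw [MV1_x_cap p g (ys 0) 0 (ys 0), hm.2.1]
        simp
      · intro g ys t hg hm
        ext n
        · rfl
        · exact n.elim0
      · intro g ys hg hm
        rw [mem_x, mem_cap] at hm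
        rw [mem_cap]
        obtain ⟨a1, a2, a3, a4⟩ := hm
        rw [MV1_x0, MV1_x2] at a3
        rw [MV1_x_cap p g (ys 1) (ys 0) (ys 1)] at a4
        exact ⟨a2, a3, a4⟩
      · intro g ys hg hm
        rw [mem_x, mem_cap] at hm
        funext n
        rcases n with _ | n
        · exact (hm.1 hp).symm
        · rfl
    simpa using h.sgeq
  · rw [if_neg hp]
    have h : RD ((p, El.cap) :: v) ((p, El.x κ) :: (p, El.cap) :: v) (k := 1) ![κ]
        (fun x => cns (x.1.1 (p + 1) + x.2 0) x.1.2)
        (fun x => (fun n => x.2 (n + 1), fun _ => x.2 0 - x.1 (p + 1))) := by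
      refine ⟨?_, ?_, ?_, ?_, ?_, ?_, ?_⟩
      · constructor
        · intro x y; funext n
          rcases n with _ | n
          · simp only [cns_zero, Pi.add_apply, Prod.fst_add, Prod.snd_add]
            ring
          · simp
        · intro a x; funext n
          rcases n with _ | n
          · simp only [cns_zero, Pi.smul_apply, Prod.smul_fst, Prod.smul_snd, smul_eq_mul]
            ring
          · simp
      · constructor
        · intro x y
          ext n
          · simp
          · simp only [Pi.add_apply, Prod.snd_add, Prod.fst_add]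
            ring
        · intro a x
          ext n
          · simp
          · simp only [Pi.smul_apply, Prod.smul_snd, Prod.smul_fst, smul_eq_mul]
            ring
      · intro g ys t hg hm
        rw [mem_cap] at hm
        rw [mem_x, mem_cap]
        refine ⟨fun h => absurd h hp, hm.1, ?_, ?_⟩
        · rw [MV1_x0, MV1_x2]
          exact hm.2.1
        · simp only [cns_zero, cns_succ]
          rw [MV1_x_cap p g (ys 0) _ (ys 0)]
          exact hm.2.2
      · intro g ys t hg hm
        rw [frm_x_odd hp, frm_cap, frm_cap]
        simp only [cns_zero, cns_succ]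
        rw [MV1_x_cap p g (ys 0) _ (ys 0)]
        simp only [Fin.sum_univ_one, Matrix.cons_val_zero]
        ring
      · intro g ys t hg hm
        ext n
        · rfl
        · have : n = 0 := Subsingleton.elim _ _
          subst this
          simp
      · intro g ys hg hm
        rw [mem_x, mem_cap] at hm
        rw [mem_cap]
        obtain ⟨a1, a2, a3, a4⟩ := hm
        rw [MV1_x0, MV1_x2] at a3
        rw [MV1_x_cap p g (ys 1) (ys 0) (ys 1)] at a4
        exact ⟨a2, a3, a4⟩
      · intro g ys hg hm
        funext n
        rcases n with _ | n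
        · simp
        · rfl
    have h' := h.sgeq
    simpa using h'

theorem sg_r2 (p : ℕ) (κ : ℚ) (hκ : κ ≠ 0) (v : List (ℕ × El ℚ)) :
    SGeq ((p, El.x κ) :: (p, El.x (-κ)) :: v) v 0 := by
  by_cases hp : Even p
  · have hodd : ¬ Even (p + 1) := fun h => (Nat.even_add_one.1 h) hp
    have h : RD v ((p, El.x κ) :: (p, El.x (-κ)) :: v) (k := 0) ![]
        (fun x => cns 0 (cns 0 x.1.2)) (fun x => (fun n => x.2 (n + 2), ![])) := by
      refine ⟨?_, ?_, ?_, ?_, ?_, ?_, ?_⟩
      · constructor
        · intro x y; funext n
          rcases n with _ | _ | n <;> simp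
        · intro a x; funext n
          rcases n with _ | _ | n <;> simp
      · constructor
        · intro x y; ext n <;> simp
        · intro a x; ext n <;> simp
      · intro g ys t hg hm
        rw [mem_x, mem_x]
        refine ⟨fun _ => rfl, fun _ => rfl, ?_⟩
        simp only [cns_zero, cns_succ, MV1_x_x]
        rw [MV1_x_self p g 0 (hg _ hodd)]
        exact hm
      · intro g ys t hg hm
        rw [frm_x_even hp, frm_x_even hp]
        simp only [cns_zero, cns_succ, MV1_x_x, MV1_x0, MV1_x2]
        rw [MV1_x_self p g 0 (hg _ hodd)]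
        simp
      · intro g ys t hg hm
        ext n
        · rfl
        · exact n.elim0
      · intro g ys hg hm
        rw [mem_x, mem_x] at hm
        obtain ⟨a1, a2, a3⟩ := hm
        rw [MV1_x_x, a2 hp, MV1_x_self p g 0 (hg _ hodd)] at a3
        exact a3
      · intro g ys hg hm
        rw [mem_x, mem_x] at hm
        funext n
        rcases n with _ | _ | n
        · exact (hm.1 hp).symm
        · exact (hm.2.1 hp).symm
        · rfl
    simpa using h.sgeq
  · have h : RH v ((p, El.x κ) :: (p, El.x (-κ)) :: v)
        (fun x => cns (x.1 (p + 1)) (cns (x.1 (p + 1)) x.2)) (cns 1 0)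
        (fun x => -2 * κ * (x.1 (p + 1) - x.2 1)) := by
      refine ⟨?_, ?_, ?_, ?_, ?_, ?_, ?_, ?_, ?_, ?_⟩
      · constructor
        · intro x y; funext n
          rcases n with _ | _ | n <;> simp
        · intro a x; funext n
          rcases n with _ | _ | n <;> simp
      · constructor
        · intro x y
          simp only [Prod.fst_add, Prod.snd_add, Pi.add_apply]
          ring
        · intro a x
          simp only [Prod.smul_fst, Prod.smul_snd, Pi.smul_apply, smul_eq_mul]
          ring
      · intro h0
        have := congrFun h0 0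
        simp at this
      · rw [mem_x, mem_x]
        refine ⟨fun h => absurd h hp, fun h => absurd h hp, ?_⟩
        simp only [cns_zero, cns_succ, MV1_x_x, Pi.zero_apply]
        rw [MV1_x_self p 0 0 rfl]
        exact (adm v).zero_mem
      · intro g ys t hg hm
        rw [frm_x_odd hp, frm_x_odd hp, frm_x_odd hp, frm_x_odd hp]
        simp only [MV1_x_x, MV1_x1, Pi.add_apply, Pi.smul_apply, cns_zero, cns_succ,
          Pi.zero_apply, mul_zero, add_zero, smul_eq_mul, mul_one, zero_add]
        ring
      · intro g ys hg hm
        rw [mem_x, mem_x]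
        refine ⟨fun h => absurd h hp, fun h => absurd h hp, ?_⟩
        simp only [cns_zero, cns_succ, MV1_x_x]
        rw [MV1_x_self p g _ rfl]
        exact hm
      · intro g ys hg hm
        simp
      · intro g ys hg hm
        rw [frm_x_odd hp, frm_x_odd hp]
        simp only [cns_zero, cns_succ, MV1_x_x, MV1_x1]
        rw [MV1_x_self p g _ rfl]
        ring
      · intro ys t hm h0
        funext n
        have := congrFun h0 (n + 2)
        simpa using this
      · intro g ys hg hm h0
        rw [mem_x, mem_x] at hm
        have h1 : ys 1 = g (p + 1) := by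
          have h2 : -2 * κ ≠ 0 := mul_ne_zero (by norm_num) hκ
          have h3 := (mul_eq_zero.1 h0).resolve_left h2
          linarith
        refine ⟨fun n => ys (n + 2), ys 0 - g (p + 1), ?_, ?_⟩
        · have h4 := hm.2.2
          rw [MV1_x_x, MV1_x_self p g _ h1.symm] at h4
          exact h4
        · funext n
          rcases n with _ | _ | n
          · simp
          · simpa using h1
          · simp
    exact h.sgeq

end MPab0b07
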