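import Pool.Agent.Lib.MP_ab0b07_gt.Defs
import Pool.Agent.Lib.MP_5b16f0_gt.HL

/-!
# The form of a knot diagram is nondegenerate modulo 2
-/

namespace MPab0b07

open MP5b16f0

universe u

/-! ### Auxiliary notions -/

/-- put `y` in front of `zs` -/
def ND1cs (y : ZMod 2) (zs : ℕ → ZMod 2) : ℕ → ZMod 2
  | 0 => y
  | k + 1 => zs k

/-- labels of black gaps at a level with `n` points -/
def ND1BS (n : ℕ) (h : ℕ → ZMod 2) : Prop := ∀ j, (¬ Even j ∨ n < j) → h j = 0

/-- the indicator function of the black gaps left of `j` -/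
def ND1chi (j : ℕ) : ℕ → ZMod 2 := fun i => if Even i ∧ i < j then 1 else 0

/-- the indicator function of the gap `k` -/
def ND1del (k : ℕ) : ℕ → ZMod 2 := fun i => if i = k then 1 else 0

/-- `gap` with new label `0`, as a linear map -/
noncomputable def ND1gL (b c p : ℕ) : (ℕ → ZMod 2) →ₗ[ZMod 2] (ℕ → ZMod 2) :=
  (LinearMap.fst (ZMod 2) _ _).comp ((stp b c p).comp (LinearMap.inl (ZMod 2) _ _))

theorem ND1gL_apply (b c p : ℕ) (g : ℕ → ZMod 2) : ND1gL b c p g = gap b c p 0 g := rfl

/-- the linear form `h ↦ h p - h (p + 2)` -/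
noncomputable def ND1ka (p : ℕ) : (ℕ → ZMod 2) →ₗ[ZMod 2] ZMod 2 :=
  (LinearMap.proj p : (ℕ → ZMod 2) →ₗ[ZMod 2] ZMod 2) - LinearMap.proj (p + 2)

theorem ND1ka_apply (p : ℕ) (h : ℕ → ZMod 2) : ND1ka p h = h p - h (p + 2) := rfl

theorem ND1z (z : ZMod 2) : z = 0 ∨ z = 1 := by
  revert z
  decide

theorem ND1dbl (z : ZMod 2) : z + z = 0 := by
  revert z
  decide

theorem ND1sub (a b : ZMod 2) : a - b = a + b := by
  revert a b
  decide

/-- a linear form vanishing on the kernel of another one is a multiple of it -/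
theorem ND1dual (S : P (ZMod 2) → Prop) (hS : ∀ x y, S x → S y → S (x - y))
    (ψ κ : P (ZMod 2) →ₗ[ZMod 2] ZMod 2) (h : ∀ x, S x → κ x = 0 → ψ x = 0) :
    ∃ t : ZMod 2, ∀ x, S x → ψ x = t * κ x := by
  by_cases hx : ∃ x0, S x0 ∧ κ x0 = 1
  · obtain ⟨x0, h0, h1⟩ := hx
    refine ⟨ψ x0, fun x hx => ?_⟩
    rcases ND1z (κ x) with h2 | h2
    · rw [h x hx h2, h2, mul_zero]
    · have h3 := h (x - x0) (hS x x0 hx h0) (by rw [map_sub, h1, h2, sub_self])
      rw [map_sub, sub_eq_zero] at h3
      rw [h3, h2, mul_one]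
  · push Not at hx
    refine ⟨0, fun x h0 => ?_⟩
    rcases ND1z (κ x) with h2 | h2
    · rw [h x h0 h2, zero_mul]
    · exact absurd h2 (hx x h0)

/-- colourings of all regions: `G` are the labels of all gaps at the bottom, `ys` the labels of
the new black gaps -/
def ND1Col : List (ℕ × El (ZMod 2)) → (ℕ → ZMod 2) → (ℕ → ZMod 2) → Prop
  | [], _, ys => ys = 0
  | (p, El.cup) :: w, G, ys => ∃ y, (¬ Even p → ys 0 = y) ∧ (Even p → ys 0 = 0) ∧
      ND1Col w (gap 0 2 p y G) (fun n => ys (n + 1))
  | (p, El.cap) :: w, G, ys => G p = G (p + 2) ∧ ys 0 = 0 ∧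
      ND1Col w (gap 2 0 p 0 G) (fun n => ys (n + 1))
  | (p, El.x _) :: w, G, ys => (¬ Even p → ys 0 = G p + G (p + 1) + G (p + 2)) ∧
      (Even p → ys 0 = 0) ∧
      ND1Col w (gap 2 2 p (G p + G (p + 1) + G (p + 2)) G) (fun n => ys (n + 1))

theorem ND1wt (p : ℕ) (s : Bool) : ((wt p s : ℤ) : ZMod 2) = 1 := by
  unfold wt
  split_ifs <;> decide

theorem ND1BS_sub {n : ℕ} {g h : ℕ → ZMod 2} (hg : ND1BS n g) (hh : ND1BS n h) :
    ND1BS n (g - h) := by
  intro j hj
  rw [Pi.sub_apply, hg j hj, hh j hj, sub_zero]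

theorem ND1BS_del {n k : ℕ} (hk : Even k) (hn : k ≤ n) : ND1BS n (ND1del k) := by
  intro j hj
  unfold ND1del
  rw [if_neg]
  rintro rfl
  rcases hj with h | h
  · exact h hk
  · omega

theorem ND1chi_succ {p : ℕ} (hp : ¬ Even p) : ND1chi (p + 2) = ND1chi p + ND1del (p + 1) := by
  funext i
  simp only [ND1chi, ND1del, Pi.add_apply]
  have h1 : Even (p + 1) := by rw [Nat.even_add_one]; exact hp
  by_cases h2 : i = p + 1
  · subst h2
    simp [h1]
  · by_cases h3 : i < p
    · rw [if_neg h2, add_zero]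
      have : i < p + 2 := by omega
      simp [h3, this]
    · by_cases h4 : Even i
      · have h5 : i ≠ p := fun h => hp (h ▸ h4)
        have : ¬ i < p + 2 := by omega
        simp [h2, h3, this]
      · simp [h2, h4]

/-- the tail -/
def ND1tl (ys : ℕ → ZMod 2) : ℕ → ZMod 2 := fun n => ys (n + 1)

theorem ND1tl_cs (y : ZMod 2) (zs : ℕ → ZMod 2) : ND1tl (ND1cs y zs) = zs := rfl

theorem ND1mem (p : ℕ) (e : El (ZMod 2)) (W : List (ℕ × El (ZMod 2))) (x : P (ZMod 2)) :
    x ∈ adm ((p, e) :: W) ↔ x ∈ e.cond p ∧ e.stp p x ∈ adm W := Iff.rfl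

theorem ND1frm (p : ℕ) (e : El (ZMod 2)) (W : List (ℕ × El (ZMod 2))) (x y : P (ZMod 2)) :
    frm ((p, e) :: W) x y = e.loc p x y + frm W (e.stp p x) (e.stp p y) := rfl

/-- the hypotheses of the induction -/
structure ND1Good (W : List (ℕ × El (ZMod 2))) (n : ℕ) (g ys : ℕ → ZMod 2)
    (Φ : (ℕ → ZMod 2) →ₗ[ZMod 2] ZMod 2) (G : ℕ → ZMod 2) : Prop where
  mem : (g, ys) ∈ adm W
  bs : ND1BS n g
  rep : ∀ h zs, (h, zs) ∈ adm W → ND1BS n h → frm W (g, ys) (h, zs) = Φ h
  ev : ∀ j ≤ n, Even j → G j = g j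
  od : ∀ j ≤ n, ¬ Even j → G j = Φ (ND1chi j)

theorem ND1e2 (i : ℕ) : Even (i + 2) ↔ Even i := by
  rw [Nat.even_add]
  simp

theorem ND1e1 (i : ℕ) : Even (i + 1) ↔ ¬ Even i := Nat.even_add_one

theorem ND1lo (b c p : ℕ) (y : ZMod 2) (g : ℕ → ZMod 2) {j : ℕ} (h : j ≤ p) :
    gap b c p y g j = g j := by
  rw [gap, if_pos h]

theorem ND1n02 (p : ℕ) (y : ZMod 2) (g : ℕ → ZMod 2) : gap 0 2 p y g (p + 1) = y := by
  rw [gap, if_neg (by omega), if_pos (by omega)]

theorem ND1h02 (p : ℕ) (y : ZMod 2) (g : ℕ → ZMod 2) {i : ℕ} (h : p ≤ i) :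
    gap 0 2 p y g (i + 2) = g i := by
  rw [gap, if_neg (by omega), if_neg (by omega)]
  rfl

theorem ND1h20 (p : ℕ) (y : ZMod 2) (g : ℕ → ZMod 2) {i : ℕ} (h : p < i) :
    gap 2 0 p y g i = g (i + 2) := by
  rw [gap, if_neg (by omega), if_neg (by omega)]
  rfl

theorem ND1n22 (p : ℕ) (y : ZMod 2) (g : ℕ → ZMod 2) : gap 2 2 p y g (p + 1) = y := by
  rw [gap, if_neg (by omega), if_pos (by omega)]

theorem ND1h22 (p : ℕ) (y : ZMod 2) (g : ℕ → ZMod 2) {i : ℕ} (h : i ≠ p + 1) :
    gap 2 2 p y g i = g i := by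
  rcases Nat.lt_or_ge p i with h1 | h1
  · rw [gap, if_neg (by omega), if_neg (by omega)]
    congr 1
  · exact ND1lo _ _ _ _ _ h1

/-- the three kinds of gaps above a cup -/
theorem ND1cases (p j : ℕ) : j ≤ p ∨ j = p + 1 ∨ ∃ i, p ≤ i ∧ j = i + 2 := by
  by_cases h1 : j ≤ p
  · exact Or.inl h1
  · by_cases h2 : j = p + 1
    · exact Or.inr (Or.inl h2)
    · exact Or.inr (Or.inr ⟨j - 2, by omega, by omega⟩)

/-- inserting after deleting -/
theorem ND1ins_del {p : ℕ} {h' : ℕ → ZMod 2} (h3 : h' p = h' (p + 2)) :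
    gap 0 2 p (h' (p + 1)) (gap 2 0 p 0 h') = h' := by
  funext j
  rcases ND1cases p j with h | rfl | ⟨i, hi, rfl⟩
  · rw [ND1lo _ _ _ _ _ h, ND1lo _ _ _ _ _ h]
  · rw [ND1n02]
  · rw [ND1h02 _ _ _ hi]
    rcases hi.eq_or_lt with rfl | hi
    · rw [ND1lo _ _ _ _ _ le_rfl, h3]
    · rw [ND1h20 _ _ _ hi]

/-- deleting after inserting -/
theorem ND1del_ins (p : ℕ) (y z : ZMod 2) (h' : ℕ → ZMod 2) :
    gap 2 0 p y (gap 0 2 p z h') = h' := by
  funext j
  rcases Nat.lt_or_ge p j with h | h
  · rw [ND1h20 _ _ _ h, ND1h02 _ _ _ h.le]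
  · rw [ND1lo _ _ _ _ _ h, ND1lo _ _ _ _ _ h]

theorem ND1BS_del20 {n p : ℕ} {y : ZMod 2} {h' : ℕ → ZMod 2} (hp : p ≤ n)
    (h2 : ND1BS (n + 2) h') : ND1BS n (gap 2 0 p y h') := by
  intro j hj
  rcases Nat.lt_or_ge p j with h | h
  · rw [ND1h20 _ _ _ h]
    refine h2 _ ?_
    rw [ND1e2]
    rcases hj with hj | hj
    · exact Or.inl hj
    · right
      omega
  · rw [ND1lo _ _ _ _ _ h]
    refine h2 _ ?_
    rcases hj with hj | hj
    · exact Or.inl hj
    · omega

theorem ND1BS_ins02 {n p : ℕ} {y : ZMod 2} {h' : ℕ → ZMod 2} (hp : p ≤ n)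
    (hy : Even p → y = 0) (h2 : ND1BS n h') : ND1BS (n + 2) (gap 0 2 p y h') := by
  intro j hj
  rcases ND1cases p j with h | rfl | ⟨i, hi, rfl⟩
  · rw [ND1lo _ _ _ _ _ h]
    refine h2 _ ?_
    rcases hj with hj | hj
    · exact Or.inl hj
    · omega
  · rw [ND1n02]
    rcases hj with hj | hj
    · rw [ND1e1, not_not] at hj
      exact hy hj
    · omega
  · rw [ND1h02 _ _ _ hi]
    refine h2 _ ?_
    rw [ND1e2] at hj
    rcases hj with hj | hj
    · exact Or.inl hj
    · right
      omega

theorem ND1chi_lo {p j : ℕ} (h : j ≤ p) : gap 2 0 p 0 (ND1chi j) = ND1chi j := by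
  funext i
  rcases Nat.lt_or_ge p i with h1 | h1
  · rw [ND1h20 _ _ _ h1]
    simp [ND1chi, show ¬ i + 2 < j by omega, show ¬ i < j by omega]
  · rw [ND1lo _ _ _ _ _ h1]

theorem ND1chi_hi {p k : ℕ} (h : p ≤ k) (hk : Even p → p < k) :
    gap 2 0 p 0 (ND1chi (k + 2)) = ND1chi k := by
  funext i
  rcases Nat.lt_or_ge p i with h1 | h1
  · rw [ND1h20 _ _ _ h1]
    simp only [ND1chi, ND1e2, show i + 2 < k + 2 ↔ i < k by omega]
  · rw [ND1lo _ _ _ _ _ h1]
    simp only [ND1chi]
    by_cases he : Even i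
    · have : i < k := by
        rcases h1.eq_or_lt with rfl | h2
        · exact hk he
        · omega
      simp [this, show i < k + 2 by omega]
    · simp [he]

/-- the labels of the white gaps above a cup -/
theorem ND1cup {p n : ℕ} {W : List (ℕ × El (ZMod 2))} {g ys : ℕ → ZMod 2}
    {Φ : (ℕ → ZMod 2) →ₗ[ZMod 2] ZMod 2} {G : ℕ → ZMod 2} (hp : p ≤ n)
    (H : ND1Good ((p, El.cup) :: W) n g ys Φ G) : ∃ (y : ZMod 2) (Φ' : _),
      (¬ Even p → ys 0 = y) ∧ (Even p → ys 0 = 0) ∧
      ND1Good W (n + 2) (gap 0 2 p (ys 0) g) (ND1tl ys) Φ' (gap 0 2 p y G) := by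
  obtain ⟨hmem, hbs, hrep, hev, hod⟩ := H
  rw [ND1mem] at hmem
  obtain ⟨hcond, hstp⟩ := hmem
  replace hstp : (gap 0 2 p (ys 0) g, ND1tl ys) ∈ adm W := hstp
  replace hcond : (g, ys) ∈ (if Even p then LinearMap.ker nw else ⊤ : Submodule (ZMod 2)
    (P (ZMod 2))) := hcond
  have hfrm : ∀ h zs, frm ((p, El.cup) :: W) (g, ys) (h, zs) =
      frm W (gap 0 2 p (ys 0) g, ND1tl ys) (gap 0 2 p (zs 0) h, ND1tl zs) := by
    intro h zs
    rw [ND1frm]
    show (0 : LinearMap.BilinForm (ZMod 2) (P (ZMod 2))) (g, ys) (h, zs) + _ = _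
    rw [LinearMap.zero_apply, LinearMap.zero_apply, zero_add]
    rfl
  by_cases hpe : Even p
  · rw [if_pos hpe] at hcond
    have hy0 : ys 0 = 0 := hcond
    -- the new linear form
    obtain ⟨t, ht⟩ := ND1dual
      (fun x => x ∈ adm W ∧ ND1BS (n + 2) x.1)
      (fun x y hx hy => ⟨Submodule.sub_mem _ hx.1 hy.1, ND1BS_sub hx.2 hy.2⟩)
      (frm W (gap 0 2 p (ys 0) g, ND1tl ys) -
        (Φ.comp (ND1gL 2 0 p)).comp (LinearMap.fst (ZMod 2) _ _))
      ((ND1ka p).comp (LinearMap.fst (ZMod 2) _ _)) (by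
        rintro ⟨h', zs'⟩ ⟨h1, h2⟩ h3
        simp only at h2
        replace h3 : h' p - h' (p + 2) = 0 := h3
        rw [sub_eq_zero] at h3
        have e1 := ND1ins_del h3
        rw [h2 (p + 1) (Or.inl (by rw [ND1e1, not_not]; exact hpe))] at e1
        have h5 := hrep (gap 2 0 p 0 h') (ND1cs 0 zs') (by
          rw [ND1mem]
          refine ⟨?_, ?_⟩
          · change _ ∈ (if Even p then LinearMap.ker nw else ⊤ : Submodule (ZMod 2) (P (ZMod 2)))
            rw [if_pos hpe]
            rfl
          · change (gap 0 2 p 0 (gap 2 0 p 0 h'), zs') ∈ adm W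
            rw [e1]
            exact h1) (ND1BS_del20 hp h2)
        rw [hfrm] at h5
        change frm W (gap 0 2 p (ys 0) g, ND1tl ys)
          (gap 0 2 p 0 (gap 2 0 p 0 h'), zs') = _ at h5
        rw [e1] at h5
        show frm W (gap 0 2 p (ys 0) g, ND1tl ys) (h', zs') -
          Φ (gap 2 0 p 0 h') = 0
        rw [h5, sub_self])
    obtain ⟨Φ', hΦ⟩ : ∃ Φ' : (ℕ → ZMod 2) →ₗ[ZMod 2] ZMod 2, ∀ h', Φ' h' =
        Φ (gap 2 0 p 0 h') + t * (h' p - h' (p + 2)) :=
      ⟨Φ.comp (ND1gL 2 0 p) + t • ND1ka p, fun h' => rfl⟩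
    refine ⟨Φ' (ND1chi (p + 1)), Φ', fun h => absurd hpe h, fun _ => hy0,
      ⟨hstp, ND1BS_ins02 hp (fun _ => hy0) hbs, ?_, ?_, ?_⟩⟩
    · intro h' zs' h1 h2
      have h3 := ht (h', zs') ⟨h1, h2⟩
      change frm W (gap 0 2 p (ys 0) g, ND1tl ys) (h', zs') - Φ (gap 2 0 p 0 h') =
        t * (h' p - h' (p + 2)) at h3
      rw [hΦ, ← h3]
      ring
    · intro j hj hje
      rcases ND1cases p j with h | rfl | ⟨i, hi, rfl⟩
      · rw [ND1lo _ _ _ _ _ h, ND1lo _ _ _ _ _ h]
        exact hev j (by omega) hje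
      · rw [ND1e1] at hje
        exact absurd hpe hje
      · rw [ND1h02 _ _ _ hi, ND1h02 _ _ _ hi]
        rw [ND1e2] at hje
        exact hev i (by omega) hje
    · intro j hj hjo
      rcases ND1cases p j with h | rfl | ⟨i, hi, rfl⟩
      · rw [ND1lo _ _ _ _ _ h, hod j (by omega) hjo, hΦ, ND1chi_lo h]
        have : ND1chi j p - ND1chi j (p + 2) = 0 := by
          simp [ND1chi, show ¬ p < j by omega, show ¬ p + 2 < j by omega]
        rw [this, mul_zero, add_zero]
      · rw [ND1n02]
      · rw [ND1e2] at hjo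
        have hpi : p < i := by
          rcases hi.eq_or_lt with rfl | h
          · exact absurd hpe hjo
          · exact h
        rw [ND1h02 _ _ _ hi, hod i (by omega) hjo, hΦ, ND1chi_hi hi fun _ => hpi]
        have : ND1chi (i + 2) p - ND1chi (i + 2) (p + 2) = 0 := by
          simp [ND1chi, hpe, ND1e2, show p < i + 2 by omega, hpi]
        rw [this, mul_zero, add_zero]
  · -- a new black region
    refine ⟨ys 0, Φ.comp (ND1gL 2 0 p), fun _ => rfl, fun h => absurd h hpe,
      ⟨hstp, ND1BS_ins02 hp (fun h => absurd h hpe) hbs, ?_, ?_, ?_⟩⟩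
    · intro h' zs' h1 h2
      have h3 : h' p = h' (p + 2) := by
        rw [h2 p (Or.inl hpe), h2 (p + 2) (Or.inl (by rw [ND1e2]; exact hpe))]
      have e1 := ND1ins_del h3
      have h5 := hrep (gap 2 0 p 0 h') (ND1cs (h' (p + 1)) zs') (by
        rw [ND1mem]
        refine ⟨?_, ?_⟩
        · change _ ∈ (if Even p then LinearMap.ker nw else ⊤ : Submodule (ZMod 2) (P (ZMod 2)))
          rw [if_neg hpe]
          trivial
        · change (gap 0 2 p (h' (p + 1)) (gap 2 0 p 0 h'), zs') ∈ adm W
          rw [e1]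
          exact h1) (ND1BS_del20 hp h2)
      rw [hfrm] at h5
      change frm W (gap 0 2 p (ys 0) g, ND1tl ys)
        (gap 0 2 p (h' (p + 1)) (gap 2 0 p 0 h'), zs') = _ at h5
      rw [e1] at h5
      exact h5
    · intro j hj hje
      rcases ND1cases p j with h | rfl | ⟨i, hi, rfl⟩
      · rw [ND1lo _ _ _ _ _ h, ND1lo _ _ _ _ _ h]
        exact hev j (by omega) hje
      · rw [ND1n02, ND1n02]
      · rw [ND1h02 _ _ _ hi, ND1h02 _ _ _ hi]
        rw [ND1e2] at hje
        exact hev i (by omega) hje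
    · intro j hj hjo
      change _ = Φ (gap 2 0 p 0 (ND1chi j))
      rcases ND1cases p j with h | rfl | ⟨i, hi, rfl⟩
      · rw [ND1lo _ _ _ _ _ h, hod j (by omega) hjo, ND1chi_lo h]
      · rw [ND1e1] at hjo
        exact absurd hpe hjo
      · rw [ND1e2] at hjo
        rw [ND1h02 _ _ _ hi, hod i (by omega) hjo, ND1chi_hi hi fun h => absurd h hpe]

theorem ND1cond_cap (p : ℕ) (g ys : ℕ → ZMod 2) :
    (g, ys) ∈ (El.cap : El (ZMod 2)).cond p ↔ ys 0 = 0 ∧ g p = g (p + 2) := by
  show (g, ys) ∈ LinearMap.ker nw ⊓ LinearMap.ker (gl p - gl (p + 2)) ↔ _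
  rw [Submodule.mem_inf, LinearMap.mem_ker, LinearMap.mem_ker]
  show ys 0 = 0 ∧ g p - g (p + 2) = 0 ↔ _
  rw [sub_eq_zero]

/-- the labels of the white gaps above a cap -/
theorem ND1cap {p n : ℕ} {W : List (ℕ × El (ZMod 2))} {g ys : ℕ → ZMod 2}
    {Φ : (ℕ → ZMod 2) →ₗ[ZMod 2] ZMod 2} {G : ℕ → ZMod 2} (hp : p ≤ n)
    (H : ND1Good ((p, El.cap) :: W) (n + 2) g ys Φ G) : ∃ (Φ' : _),
      G p = G (p + 2) ∧ ys 0 = 0 ∧
      ND1Good W n (gap 2 0 p (ys 0) g) (ND1tl ys) Φ' (gap 2 0 p 0 G) := by
  obtain ⟨hmem, hbs, hrep, hev, hod⟩ := H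
  rw [ND1mem, ND1cond_cap] at hmem
  obtain ⟨⟨hy0, hgp⟩, hstp⟩ := hmem
  replace hstp : (gap 2 0 p (ys 0) g, ND1tl ys) ∈ adm W := hstp
  have hfrm : ∀ h zs, frm ((p, El.cap) :: W) (g, ys) (h, zs) =
      frm W (gap 2 0 p (ys 0) g, ND1tl ys) (gap 2 0 p (zs 0) h, ND1tl zs) := by
    intro h zs
    rw [ND1frm]
    show (0 : LinearMap.BilinForm (ZMod 2) (P (ZMod 2))) (g, ys) (h, zs) + _ = _
    rw [LinearMap.zero_apply, LinearMap.zero_apply, zero_add]
    rfl
  have hdel : ¬ Even p → Φ (ND1del (p + 1)) = 0 := by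
    intro hpe
    have e0 : gap 2 0 p 0 (ND1del (p + 1)) = 0 := by
      funext j
      rcases Nat.lt_or_ge p j with h | h
      · rw [ND1h20 _ _ _ h]
        simp [ND1del, show ¬ j + 2 = p + 1 by omega]
      · rw [ND1lo _ _ _ _ _ h]
        simp [ND1del, show ¬ j = p + 1 by omega]
    have h5 := hrep (ND1del (p + 1)) 0 (by
      rw [ND1mem, ND1cond_cap]
      refine ⟨⟨rfl, ?_⟩, ?_⟩
      · simp [ND1del]
      · change (gap 2 0 p 0 (ND1del (p + 1)), (0 : ℕ → ZMod 2)) ∈ adm W
        rw [e0]
        exact Submodule.zero_mem _) (ND1BS_del (by rw [ND1e1]; exact hpe) (by omega))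
    rw [hfrm] at h5
    change frm W (gap 2 0 p (ys 0) g, ND1tl ys)
      (gap 2 0 p 0 (ND1del (p + 1)), (0 : ℕ → ZMod 2)) = _ at h5
    rw [e0] at h5
    rw [← h5]
    exact map_zero _
  refine ⟨Φ.comp (ND1gL 0 2 p), ?_, hy0, ⟨hstp, ND1BS_del20 hp hbs, ?_, ?_, ?_⟩⟩
  · by_cases hpe : Even p
    · rw [hev p (by omega) hpe, hev (p + 2) (by omega) ((ND1e2 p).mpr hpe), hgp]
    · rw [hod p (by omega) hpe, hod (p + 2) (by omega) (by rw [ND1e2]; exact hpe),
        ND1chi_succ hpe, map_add, hdel hpe, add_zero]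
  · intro h' zs' h1 h2
    have h5 := hrep (gap 0 2 p 0 h') (ND1cs 0 zs') (by
      rw [ND1mem, ND1cond_cap]
      refine ⟨⟨rfl, ?_⟩, ?_⟩
      · rw [ND1lo _ _ _ _ _ le_rfl, ND1h02 _ _ _ le_rfl]
      · change (gap 2 0 p 0 (gap 0 2 p 0 h'), zs') ∈ adm W
        rw [ND1del_ins]
        exact h1) (ND1BS_ins02 hp (fun _ => rfl) h2)
    rw [hfrm] at h5
    change frm W (gap 2 0 p (ys 0) g, ND1tl ys)
      (gap 2 0 p 0 (gap 0 2 p 0 h'), zs') = _ at h5
    rw [ND1del_ins] at h5
    exact h5
  · intro j hj hje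
    rcases Nat.lt_or_ge p j with h | h
    · rw [ND1h20 _ _ _ h, ND1h20 _ _ _ h]
      exact hev _ (by omega) ((ND1e2 j).mpr hje)
    · rw [ND1lo _ _ _ _ _ h, ND1lo _ _ _ _ _ h]
      exact hev j (by omega) hje
  · intro j hj hjo
    change _ = Φ (gap 0 2 p 0 (ND1chi j))
    rcases Nat.lt_or_ge p j with h | h
    · rw [ND1h20 _ _ _ h, hod _ (by omega) (by rw [ND1e2]; exact hjo)]
      by_cases hpe : Even p
      · congr 1
        funext i
        rcases ND1cases p i with h6 | rfl | ⟨k, hk, rfl⟩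
        · rw [ND1lo _ _ _ _ _ h6]
          simp [ND1chi, show i < j + 2 by omega, show i < j by omega]
        · rw [ND1n02]
          simp [ND1chi, ND1e1, hpe]
        · rw [ND1h02 _ _ _ hk]
          simp only [ND1chi, ND1e2, show k + 2 < j + 2 ↔ k < j by omega]
      · have : ND1chi (j + 2) = gap 0 2 p 0 (ND1chi j) + ND1del (p + 1) := by
          funext i
          rw [Pi.add_apply]
          rcases ND1cases p i with h6 | rfl | ⟨k, hk, rfl⟩
          · rw [ND1lo _ _ _ _ _ h6]
            simp [ND1chi, ND1del, show i < j + 2 by omega, show i < j by omega,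
              show ¬ i = p + 1 by omega]
          · rw [ND1n02]
            simp [ND1chi, ND1del, ND1e1, hpe, show p + 1 < j + 2 by omega]
          · rw [ND1h02 _ _ _ hk]
            simp only [ND1chi, ND1del, ND1e2, show k + 2 < j + 2 ↔ k < j by omega,
              show ¬ k + 2 = p + 1 by omega, if_false, add_zero]
        rw [this, map_add, hdel hpe, add_zero]
    · rw [ND1lo _ _ _ _ _ h, hod j (by omega) hjo]
      congr 1
      funext i
      rcases ND1cases p i with h6 | rfl | ⟨k, hk, rfl⟩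
      · rw [ND1lo _ _ _ _ _ h6]
      · rw [ND1n02]
        simp [ND1chi, show ¬ p + 1 < j by omega]
      · rw [ND1h02 _ _ _ hk]
        simp [ND1chi, show ¬ k + 2 < j by omega, show ¬ k < j by omega]

theorem ND1x22 {p : ℕ} {h' : ℕ → ZMod 2} {y : ZMod 2} (h : h' (p + 1) = y) :
    gap 2 2 p y h' = h' := by
  funext j
  by_cases h1 : j = p + 1
  · subst h1
    rw [ND1n22, h]
  · rw [ND1h22 _ _ _ h1]

/-- the labels of the white gaps above a crossing -/
theorem ND1x {p n : ℕ} {W : List (ℕ × El (ZMod 2))} {g ys : ℕ → ZMod 2}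
    {Φ : (ℕ → ZMod 2) →ₗ[ZMod 2] ZMod 2} {G : ℕ → ZMod 2} (hp : p + 2 ≤ n)
    (H : ND1Good ((p, El.x 1) :: W) n g ys Φ G) : ∃ (Φ' : _),
      (¬ Even p → ys 0 = G p + G (p + 1) + G (p + 2)) ∧ (Even p → ys 0 = 0) ∧
      ND1Good W n (gap 2 2 p (ys 0) g) (ND1tl ys) Φ'
        (gap 2 2 p (G p + G (p + 1) + G (p + 2)) G) := by
  obtain ⟨hmem, hbs, hrep, hev, hod⟩ := H
  rw [ND1mem] at hmem
  obtain ⟨hcond, hstp⟩ := hmem
  replace hstp : (gap 2 2 p (ys 0) g, ND1tl ys) ∈ adm W := hstp
  replace hcond : (g, ys) ∈ (if Even p then LinearMap.ker nw else ⊤ : Submodule (ZMod 2)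
    (P (ZMod 2))) := hcond
  have hfrm : ∀ h zs, frm ((p, El.x 1) :: W) (g, ys) (h, zs) =
      (if Even p then (g p - g (p + 2)) * (h p - h (p + 2)) else
        (g (p + 1) - ys 0) * (h (p + 1) - zs 0)) +
      frm W (gap 2 2 p (ys 0) g, ND1tl ys) (gap 2 2 p (zs 0) h, ND1tl zs) := by
    intro h zs
    rw [ND1frm]
    congr 1
    show ((1 : ZMod 2) • (if Even p then sqf (gl p - gl (p + 2)) else
      sqf (gl (p + 1) - nw)) : LinearMap.BilinForm (ZMod 2) (P (ZMod 2))) (g, ys) (h, zs) = _
    rw [one_smul]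
    split_ifs <;> rfl
  have hmem' : ∀ (h' zs' : ℕ → ZMod 2) (y : ZMod 2), (Even p → y = 0) → h' (p + 1) = y →
      (h', zs') ∈ adm W → (h', ND1cs y zs') ∈ adm ((p, El.x 1) :: W) := by
    intro h' zs' y hy h1 h2
    rw [ND1mem]
    refine ⟨?_, ?_⟩
    · change _ ∈ (if Even p then LinearMap.ker nw else ⊤ : Submodule (ZMod 2) (P (ZMod 2)))
      by_cases hpe : Even p
      · rw [if_pos hpe]
        exact hy hpe
      · rw [if_neg hpe]
        trivial
    · change (gap 2 2 p y h', zs') ∈ adm W
      rw [ND1x22 h1]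
      exact h2
  by_cases hpe : Even p
  · rw [if_pos hpe] at hcond
    have hy0 : ys 0 = 0 := hcond
    have hpo : ¬ Even (p + 1) := by rw [ND1e1, not_not]; exact hpe
    obtain ⟨Φ', hΦ⟩ : ∃ Φ' : (ℕ → ZMod 2) →ₗ[ZMod 2] ZMod 2, ∀ h', Φ' h' =
        Φ h' - (g p - g (p + 2)) * (h' p - h' (p + 2)) :=
      ⟨Φ - (g p - g (p + 2)) • ND1ka p, fun h' => rfl⟩
    refine ⟨Φ', fun h => absurd hpe h, fun _ => hy0, ⟨hstp, ?_, ?_, ?_, ?_⟩⟩
    · rw [ND1x22 (by rw [hy0]; exact hbs _ (Or.inl hpo))]
      exact hbs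
    · intro h' zs' h1 h2
      have h0 : h' (p + 1) = 0 := h2 _ (Or.inl hpo)
      have h5 := hrep h' (ND1cs 0 zs') (hmem' h' zs' 0 (fun _ => rfl) h0 h1) h2
      rw [hfrm, if_pos hpe] at h5
      change _ + frm W (gap 2 2 p (ys 0) g, ND1tl ys) (gap 2 2 p 0 h', zs') = _ at h5
      rw [ND1x22 h0] at h5
      rw [hΦ, ← h5]
      ring
    · intro j hj hje
      have h6 : j ≠ p + 1 := by
        rintro rfl
        exact hpo hje
      rw [ND1h22 _ _ _ h6, ND1h22 _ _ _ h6]
      exact hev j hj hje
    · intro j hj hjo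
      by_cases h6 : j = p + 1
      · subst h6
        rw [ND1n22, hΦ, hod _ hj hjo, hev p (by omega) hpe,
          hev (p + 2) (by omega) ((ND1e2 p).mpr hpe)]
        have e1 : ND1chi (p + 1) p = 1 := by simp [ND1chi, hpe]
        have e2 : ND1chi (p + 1) (p + 2) = 0 := by simp [ND1chi]
        rw [e1, e2, ND1sub, ND1sub, ND1sub]
        ring
      · rw [ND1h22 _ _ _ h6, hΦ, hod _ hj hjo]
        have : ND1chi j p - ND1chi j (p + 2) = 0 := by
          have h7 : j ≠ p := by
            rintro rfl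
            exact hjo hpe
          have h8 : j ≠ p + 2 := by
            rintro rfl
            exact hjo ((ND1e2 p).mpr hpe)
          have h9 : p < j ↔ p + 2 < j := by omega
          simp [ND1chi, ND1e2, h9]
        rw [this, mul_zero, sub_zero]
  · have hpo : Even (p + 1) := by rw [ND1e1]; exact hpe
    have hdel : Φ (ND1del (p + 1)) = g (p + 1) - ys 0 := by
      have e0 : gap 2 2 p 0 (ND1del (p + 1)) = 0 := by
        funext j
        by_cases h : j = p + 1
        · subst h
          rw [ND1n22]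
          rfl
        · rw [ND1h22 _ _ _ h]
          simp [ND1del, h]
      have h5 := hrep (ND1del (p + 1)) 0 (by
        rw [ND1mem]
        refine ⟨?_, ?_⟩
        · change _ ∈ (if Even p then LinearMap.ker nw else ⊤ : Submodule (ZMod 2) (P (ZMod 2)))
          rw [if_neg hpe]
          trivial
        · change (gap 2 2 p 0 (ND1del (p + 1)), (0 : ℕ → ZMod 2)) ∈ adm W
          rw [e0]
          exact Submodule.zero_mem _) (ND1BS_del hpo (by omega))
      rw [hfrm, if_neg hpe] at h5
      change _ + frm W (gap 2 2 p (ys 0) g, ND1tl ys)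
        (gap 2 2 p 0 (ND1del (p + 1)), (0 : ℕ → ZMod 2)) = _ at h5
      rw [e0] at h5
      have e3 : frm W (gap 2 2 p (ys 0) g, ND1tl ys) (0, (0 : ℕ → ZMod 2)) = 0 :=
        map_zero _
      have e4 : ND1del (p + 1) (p + 1) = 1 := by simp [ND1del]
      rw [e3, add_zero, e4] at h5
      rw [← h5]
      simp
    have hy : ys 0 = G p + G (p + 1) + G (p + 2) := by
      rw [hod p (by omega) hpe, hev (p + 1) (by omega) hpo,
        hod (p + 2) (by omega) (by rw [ND1e2]; exact hpe), ND1chi_succ hpe, map_add, hdel,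
        ND1sub]
      have e5 := ND1dbl (Φ (ND1chi p))
      have e6 := ND1dbl (g (p + 1))
      linear_combination (-1 : ZMod 2) * e5 - e6
    rw [← hy]
    refine ⟨Φ, fun _ => rfl, fun h => absurd h hpe, ⟨hstp, ?_, ?_, ?_, ?_⟩⟩
    · intro j hj
      by_cases h6 : j = p + 1
      · subst h6
        rcases hj with hj | hj
        · exact absurd hpo hj
        · omega
      · rw [ND1h22 _ _ _ h6]
        exact hbs j hj
    · intro h' zs' h1 h2
      have h5 := hrep h' (ND1cs (h' (p + 1)) zs')
        (hmem' h' zs' _ (fun h => absurd h hpe) rfl h1) h2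
      rw [hfrm, if_neg hpe] at h5
      change (g (p + 1) - ys 0) * (h' (p + 1) - h' (p + 1)) +
        frm W (gap 2 2 p (ys 0) g, ND1tl ys) (gap 2 2 p (h' (p + 1)) h', zs') = _ at h5
      rw [ND1x22 rfl, sub_self, mul_zero, zero_add] at h5
      exact h5
    · intro j hj hje
      by_cases h6 : j = p + 1
      · subst h6
        rw [ND1n22, ND1n22]
      · rw [ND1h22 _ _ _ h6, ND1h22 _ _ _ h6]
        exact hev j hj hje
    · intro j hj hjo
      have h6 : j ≠ p + 1 := by
        rintro rfl
        exact hjo hpo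
      rw [ND1h22 _ _ _ h6]
      exact hod j hj hjo

/-- labels of black regions in the radical extend to labels of all regions -/
theorem ND1A {α : Type u} : ∀ (w : Word α) (X : List (Pt α)) (g ys : ℕ → ZMod 2)
    (Φ : (ℕ → ZMod 2) →ₗ[ZMod 2] ZMod 2) (G : ℕ → ZMod 2), Run w X [] →
    ND1Good (sk (ZMod 2) w) X.length g ys Φ G → ND1Col (sk (ZMod 2) w) G ys := by
  intro w
  induction w with
  | nil =>
    intro X g ys Φ G hr H
    exact H.mem
  | cons e w ih =>
    intro X g ys Φ G hr H
    cases hr with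
    | @cons A B C D Y g0 w hg hw =>
      cases hg with
      | cup a =>
        have e1 : (A ++ ([] ++ D)).length = A.length + D.length := by simp
        have e2 : (A ++ ([a, op a] ++ D)).length = A.length + D.length + 2 := by
          simp
          omega
        rw [e1] at H
        obtain ⟨y, Φ', h1, h2, h3⟩ := ND1cup (p := A.length) (by omega) H
        refine ⟨y, h1, h2, ih _ (gap 0 2 A.length (ys 0) g) (ND1tl ys) Φ' _ hw ?_⟩
        rw [e2]
        exact h3
      | cap a =>
        have e1 : (A ++ ([] ++ D)).length = A.length + D.length := by simp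
        have e2 : (A ++ ([a, op a] ++ D)).length = A.length + D.length + 2 := by
          simp
          omega
        rw [e2] at H
        obtain ⟨Φ', h1, h2, h3⟩ := ND1cap (p := A.length) (by omega) H
        refine ⟨h1, h2, ih _ (gap 2 0 A.length (ys 0) g) (ND1tl ys) Φ' _ hw ?_⟩
        rw [e1]
        exact h3
      | crs s a b =>
        have e1 : (A ++ ([a, b] ++ D)).length = A.length + D.length + 2 := by
          simp
          omega
        have e2 : (A ++ ([b, a] ++ D)).length = A.length + D.length + 2 := by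
          simp
          omega
        rw [e1] at H
        have H' : ND1Good ((A.length, El.x ((wt A.length s : ℤ) : ZMod 2)) ::
            sk (ZMod 2) w) (A.length + D.length + 2) g ys Φ G := H
        rw [ND1wt] at H'
        obtain ⟨Φ', h1, h2, h3⟩ := ND1x (p := A.length) (by omega) H'
        refine ⟨h1, h2, ih _ (gap 2 2 A.length (ys 0) g) (ND1tl ys) Φ' _ hw ?_⟩
        rw [e2]
        exact h3

/-- the colour belonging to an element of `ZMod 2` -/
def ND1col (z : ZMod 2) : Bool := decide (z = 1)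

/-- the points coloured by the differences of the labels on their two sides -/
def ND1pts {α : Type u} (G : ℕ → ZMod 2) : ℕ → List (Pt α) → List (Pt (α × Bool))
  | _, [] => []
  | k, a :: X => ((a.1, ND1col (G k + G (k + 1))), a.2) :: ND1pts G (k + 1) X

theorem ND1pts_length {α : Type u} (G : ℕ → ZMod 2) (k : ℕ) (X : List (Pt α)) :
    (ND1pts G k X).length = X.length := by
  induction X generalizing k with
  | nil => rfl
  | cons a X ih => rw [ND1pts, List.length_cons, ih, List.length_cons]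

theorem ND1pts_append {α : Type u} (G : ℕ → ZMod 2) (k : ℕ) (X Y : List (Pt α)) :
    ND1pts G k (X ++ Y) = ND1pts G k X ++ ND1pts G (k + X.length) Y := by
  induction X generalizing k with
  | nil => rfl
  | cons a X ih =>
    rw [List.cons_append, ND1pts, ih, ND1pts, List.cons_append, List.length_cons]
    congr 3
    omega

theorem ND1pts_congr {α : Type u} (G G' : ℕ → ZMod 2) (k k' : ℕ) (X : List (Pt α))
    (h : ∀ i ≤ X.length, G (k + i) = G' (k' + i)) : ND1pts G k X = ND1pts G' k' X := by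
  induction X generalizing k k' with
  | nil => rfl
  | cons a X ih =>
    rw [ND1pts, ND1pts, ih (k + 1) (k' + 1)]
    · have h0 := h 0 (by omega)
      have h1 := h 1 (by rw [List.length_cons]; omega)
      rw [add_zero, add_zero] at h0
      rw [h0, h1]
    · intro i hi
      have h2 := h (i + 1) (by rw [List.length_cons]; omega)
      rw [show k + 1 + i = k + (i + 1) by omega, show k' + 1 + i = k' + (i + 1) by omega]
      exact h2

theorem ND1swap (a b c : ZMod 2) : a + (a + b + c) = b + c ∧ a + b + c + c = a + b := by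
  revert a b c
  decide

theorem ND1colinj (z y c : ZMod 2) (h : ND1col (z + y) = ND1col c) : y = z + c := by
  revert z y c
  decide

/-- labels of all regions give colours of the components -/
theorem ND1B {α : Type u} : ∀ (w : Word α) (X : List (Pt α)) (G ys : ℕ → ZMod 2),
    Run w X [] → ND1Col (sk (ZMod 2) w) G ys → ∃ w' : Word (α × Bool),
      relabel Prod.fst w' = w ∧ Run w' (ND1pts G 0 X) [] ∧
      ∀ c : ZMod 2, (∀ p a, (p, Gen.cup a) ∈ w' → a.1.2 = ND1col c) →
        (∀ j ≤ X.length, G j = if Even j then 0 else c) → ys = 0 := by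
  intro w
  induction w with
  | nil =>
    intro X G ys hr H
    cases hr
    exact ⟨[], rfl, Run.nil _, fun c _ _ => H⟩
  | cons e w ih =>
    intro X G ys hr H
    cases hr with
    | @cons A B C D Y g0 w hg hw =>
      cases hg with
      | cup a =>
        obtain ⟨y, h1, h2, h3⟩ := H
        obtain ⟨w', h4, h5, h6⟩ := ih _ _ _ hw h3
        have e1 : ND1pts (gap 0 2 A.length y G) 0 (A ++ ([a, op a] ++ D)) =
            ND1pts G 0 A ++ ([((a.1, ND1col (G A.length + y)), a.2),
              op ((a.1, ND1col (G A.length + y)), a.2)] ++ ND1pts G A.length D) := by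
          rw [ND1pts_append, ND1pts_append, zero_add,
            ND1pts_congr (gap 0 2 A.length y G) G 0 0 A (fun i hi => ND1lo _ _ _ _ _ (by omega)),
            ND1pts_congr (gap 0 2 A.length y G) G _ A.length D (fun i hi => ?_)]
          · congr 2
            rw [ND1pts, ND1pts, ND1lo _ _ _ _ _ le_rfl, ND1n02,
              show A.length + 1 + 1 = A.length + 2 from rfl, ND1h02 _ _ _ le_rfl, add_comm y]
            rfl
          · rw [show A.length + [a, op a].length + i = A.length + i + 2 by simp; omega,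
              ND1h02 _ _ _ (by omega)]
        have e2 : ND1pts G 0 (A ++ ([] ++ D)) =
            ND1pts G 0 A ++ ([] ++ ND1pts G A.length D) := by
          rw [List.nil_append, ND1pts_append, zero_add, List.nil_append]
        rw [e1] at h5
        have h7 := Run.cons (Gen.Acts.cup ((a.1, ND1col (G A.length + y)), a.2)) h5
        rw [ND1pts_length, ← e2] at h7
        refine ⟨_, ?_, h7, ?_⟩
        · rw [← h4]
          rfl
        · intro c hc hG
          have hGp := hG A.length (by simp)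
          have hcol : ND1col (G A.length + y) = ND1col c :=
            hc _ _ List.mem_cons_self
          have hy : y = G A.length + c := ND1colinj _ _ _ hcol
          have h8 := h6 c (fun p b hb => hc p b (List.mem_cons_of_mem _ hb)) (by
            intro j hj
            rcases ND1cases A.length j with h | rfl | ⟨i, hi, rfl⟩
            · rw [ND1lo _ _ _ _ _ h]
              exact hG j (by simp; omega)
            · rw [ND1n02, hy, hGp]
              simp only [ND1e1, ite_not]
              split_ifs with h9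
              · rw [zero_add]
              · exact ND1dbl c
            · rw [ND1h02 _ _ _ hi]
              simp only [ND1e2]
              simp at hj
              exact hG i (by simp; omega))
          have h0 : ys 0 = 0 := by
            by_cases hpe : Even A.length
            · exact h2 hpe
            · rw [h1 hpe, hy, hGp, if_neg hpe]
              exact ND1dbl c
          funext j
          cases j with
          | zero => exact h0
          | succ j => exact congrFun h8 j
      | cap a =>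
        obtain ⟨h1, h2, h3⟩ := H
        obtain ⟨w', h4, h5, h6⟩ := ih _ _ _ hw h3
        have e1 : ND1pts (gap 2 0 A.length 0 G) 0 (A ++ ([] ++ D)) =
            ND1pts G 0 A ++ ([] ++ ND1pts G (A.length + 2) D) := by
          rw [List.nil_append, ND1pts_append, zero_add, List.nil_append,
            ND1pts_congr (gap 2 0 A.length 0 G) G 0 0 A (fun i hi => ND1lo _ _ _ _ _ (by omega)),
            ND1pts_congr (gap 2 0 A.length 0 G) G _ (A.length + 2) D (fun i hi => ?_)]
          rcases Nat.eq_zero_or_pos i with rfl | hi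
          · rw [add_zero, add_zero, ND1lo _ _ _ _ _ le_rfl]
            exact h1
          · rw [ND1h20 _ _ _ (by omega)]
            congr 1
            omega
        have e2 : ND1pts G 0 (A ++ ([a, op a] ++ D)) =
            ND1pts G 0 A ++ ([((a.1, ND1col (G A.length + G (A.length + 1))), a.2),
              op ((a.1, ND1col (G A.length + G (A.length + 1))), a.2)] ++
                ND1pts G (A.length + 2) D) := by
          rw [ND1pts_append, ND1pts_append, zero_add]
          congr 2
          rw [ND1pts, ND1pts, show A.length + 1 + 1 = A.length + 2 from rfl, ← h1,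
            add_comm (G (A.length + 1))]
          rfl
        rw [e1] at h5
        have h7 := Run.cons (Gen.Acts.cap ((a.1, ND1col (G A.length + G (A.length + 1))), a.2)) h5
        rw [ND1pts_length, ← e2] at h7
        refine ⟨_, ?_, h7, ?_⟩
        · rw [← h4]
          rfl
        · intro c hc hG
          have h8 := h6 c (fun p b hb => hc p b (List.mem_cons_of_mem _ hb)) (by
            intro j hj
            simp at hj
            rcases Nat.lt_or_ge A.length j with h | h
            · rw [ND1h20 _ _ _ h, hG (j + 2) (by simp; omega)]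
              simp only [ND1e2]
            · rw [ND1lo _ _ _ _ _ h]
              exact hG j (by simp; omega))
          funext j
          cases j with
          | zero => exact h2
          | succ j => exact congrFun h8 j
      | crs s a b =>
        obtain ⟨h1, h2, h3⟩ := H
        obtain ⟨w', h4, h5, h6⟩ := ih _ _ _ hw h3
        obtain ⟨y, hy⟩ : ∃ y, y = G A.length + G (A.length + 1) + G (A.length + 2) := ⟨_, rfl⟩
        rw [← hy] at h1 h3 h5 h6
        have hy1 : G A.length + y = G (A.length + 1) + G (A.length + 2) := by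
          rw [hy]
          exact (ND1swap _ _ _).1
        have hy2 : y + G (A.length + 2) = G A.length + G (A.length + 1) := by
          rw [hy]
          exact (ND1swap _ _ _).2
        have e1 : ND1pts (gap 2 2 A.length y G) 0 (A ++ ([b, a] ++ D)) =
            ND1pts G 0 A ++ ([((b.1, ND1col (G (A.length + 1) + G (A.length + 2))), b.2),
              ((a.1, ND1col (G A.length + G (A.length + 1))), a.2)] ++
              ND1pts G (A.length + 2) D) := by
          rw [ND1pts_append, ND1pts_append, zero_add,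
            ND1pts_congr (gap 2 2 A.length y G) G 0 0 A (fun i hi => ND1lo _ _ _ _ _ (by omega)),
            ND1pts_congr (gap 2 2 A.length y G) G _ (A.length + 2) D (fun i hi => ?_)]
          · congr 2
            rw [ND1pts, ND1pts, ND1lo _ _ _ _ _ le_rfl, ND1n22,
              show A.length + 1 + 1 = A.length + 2 from rfl, ND1h22 _ _ _ (by omega), hy1, hy2]
            rfl
          · rw [show A.length + [b, a].length + i = A.length + 2 + i by simp,
              ND1h22 _ _ _ (by omega)]
        have e2 : ND1pts G 0 (A ++ ([a, b] ++ D)) =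
            ND1pts G 0 A ++ ([((a.1, ND1col (G A.length + G (A.length + 1))), a.2),
              ((b.1, ND1col (G (A.length + 1) + G (A.length + 2))), b.2)] ++
                ND1pts G (A.length + 2) D) := by
          rw [ND1pts_append, ND1pts_append, zero_add]
          rfl
        rw [e1] at h5
        have h7 := Run.cons (Gen.Acts.crs s
          ((a.1, ND1col (G A.length + G (A.length + 1))), a.2)
          ((b.1, ND1col (G (A.length + 1) + G (A.length + 2))), b.2)) h5
        rw [ND1pts_length, ← e2] at h7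
        refine ⟨_, ?_, h7, ?_⟩
        · rw [← h4]
          rfl
        · intro c hc hG
          have hGp := hG A.length (by simp)
          have hGp1 := hG (A.length + 1) (by simp)
          have hGp2 := hG (A.length + 2) (by simp)
          simp only [ND1e1] at hGp1
          simp only [ND1e2] at hGp2
          have h8 := h6 c (fun p b hb => hc p b (List.mem_cons_of_mem _ hb)) (by
            intro j hj
            simp at hj
            by_cases h : j = A.length + 1
            · subst h
              rw [ND1n22, hy, hGp, hGp1, hGp2]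
              simp only [ND1e1]
              by_cases hpe : Even A.length
              · simp [hpe]
              · simp [hpe, ND1dbl c]
            · rw [ND1h22 _ _ _ h]
              exact hG j (by simp; omega))
          have h0 : ys 0 = 0 := by
            by_cases hpe : Even A.length
            · exact h2 hpe
            · rw [h1 hpe, hy, hGp, hGp1, hGp2]
              simp [hpe, ND1dbl c]
          funext j
          cases j with
          | zero => exact h0
          | succ j => exact congrFun h8 j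

/-- The form of a knot diagram is nondegenerate modulo 2.

Proof (variant of the one sketched by helper70, without multipliers).  `v` is in the radical.
Going up through the word one keeps labels `g` of the black gaps, a linear form `Φ` on the
labels `h` of black gaps representing `frm W (g, ys) (h, zs)` for all admissible `(h, zs)`
(`ND1Good`), and labels `G` of all gaps: `G j = g j` for even `j` and `G j = Φ (χ j)`, `χ j` the
indicator function of the black gaps left of `j`, for odd `j`.  `G` is a colouring of all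
regions (`ND1cup`, `ND1cap`, `ND1x`, `ND1A`), so it gives a colouring of the components
(`ND1B`), which is constant by `LinkWord 1`; hence `G` is `0` on all black gaps. -/
theorem nondeg2 {w : Word (Fin 1)} (hw : LinkWord 1 w) (v : ℕ → ZMod 2)
    (hv : v ∈ lab (sk (ZMod 2) w))
    (h : ∀ z ∈ lab (sk (ZMod 2) w), frm (sk (ZMod 2) w) (0, v) (0, z) = 0) : v = 0 := by
  obtain ⟨hr, -, hc⟩ := hw
  obtain ⟨t, ht⟩ := ND1dual
    (fun x => x ∈ adm (sk (ZMod 2) w) ∧ ND1BS 0 x.1)
    (fun x y hx hy => ⟨Submodule.sub_mem _ hx.1 hy.1, ND1BS_sub hx.2 hy.2⟩)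
    (frm (sk (ZMod 2) w) (0, v)) (gl 0) (by
      rintro ⟨g, zs⟩ ⟨h1, h2⟩ h3
      simp only at h2
      replace h3 : g 0 = 0 := h3
      have h4 : g = 0 := by
        funext j
        rcases Nat.eq_zero_or_pos j with rfl | hj
        · exact h3
        · exact h2 j (Or.inr hj)
      subst h4
      exact h zs h1)
  have hG : ND1Good (sk (ZMod 2) w) ([] : List (Pt (Fin 1))).length 0 v
      (t • (LinearMap.proj 0 : (ℕ → ZMod 2) →ₗ[ZMod 2] ZMod 2)) 0 := by
    refine ⟨hv, fun j _ => rfl, fun g zs h1 h2 => ht (g, zs) ⟨h1, h2⟩, fun j _ _ => rfl, ?_⟩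
    intro j hj hjo
    exfalso
    apply hjo
    have : j = 0 := by simpa using hj
    rw [this]
    exact Even.zero
  obtain ⟨w', h4, h5, h6⟩ := ND1B w [] 0 v hr (ND1A w [] 0 v _ 0 hr hG)
  obtain ⟨f, hf⟩ := hc w' h4 h5
  refine h6 (if f 0 then 1 else 0) ?_ ?_
  · intro p a ha
    rw [hf] at ha
    obtain ⟨⟨q, x⟩, -, hx⟩ := List.mem_map.mp ha
    cases x with
    | cup b =>
      obtain ⟨rfl, hx2⟩ := Prod.mk.inj hx
      have hx3 := Gen.cup.inj hx2
      rw [← hx3]
      have : b.1 = 0 := Subsingleton.elim _ _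
      show f b.1 = _
      rw [this]
      cases f 0 <;> decide
    | cap b => cases (Prod.mk.inj hx).2
    | crs s => cases (Prod.mk.inj hx).2
  · intro j hj
    have : j = 0 := by simpa using hj
    rw [this, if_pos Even.zero]
    rfl

end MPab0b07
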