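import Pool.Agent.Lib.MP_ab0b07_gt.Defs
import Pool.Agent.Lib.MP_ab0b07_gt.LA2

/-!
# Relations between words with weighted crossings which control the signature
-/

namespace MPab0b07

variable {R : Type} [CommRing R]

set_option linter.unusedSectionVars false

/-- the labels of the white gaps are `0` -/
def Wh (g : ℕ → R) : Prop := ∀ j, ¬ Even j → g j = 0

theorem Wh.gap {b c p : ℕ} (hb : Even b) (hc : Even c) {y : R} {g : ℕ → R} (hg : Wh g)
    (hy : Even p → y = 0) (hbc : c ≤ 2) : Wh (MPab0b07.gap b c p y g) := by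
  intro j hj
  unfold MPab0b07.gap
  split_ifs with h1 h2
  · exact hg j hj
  · have : j = p + 1 := by omega
    subst this
    exact hy (by rcases Nat.even_or_odd p with h | h
                 · exact h
                 · exact absurd h.add_one hj)
  · apply hg
    intro h
    apply hj
    obtain ⟨b', rfl⟩ := hb
    obtain ⟨c', rfl⟩ := hc
    obtain ⟨k, hk⟩ := h
    exact ⟨k + c' - b', by omega⟩

/-- put a label in front of a sequence of labels -/
def cns (y : R) (ys : ℕ → R) : ℕ → R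
  | 0 => y
  | n + 1 => ys n

@[simp] theorem cns_zero (y : R) (ys : ℕ → R) : cns y ys 0 = y := rfl
@[simp] theorem cns_succ (y : R) (ys : ℕ → R) (n : ℕ) : cns y ys (n + 1) = ys n := rfl
theorem cns_tail (y : R) (ys : ℕ → R) : (fun n => cns y ys (n + 1)) = ys := rfl
@[simp] theorem cns_eta (ys : ℕ → R) : cns (ys 0) (fun n => ys (n + 1)) = ys := by
  funext n; cases n <;> rfl

/-! ### Labellings are finite dimensional -/

/-- the new gap labels -/
def El.gp (p : ℕ) (y : R) (g : ℕ → R) : El R → ℕ → R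
  | El.cup => MPab0b07.gap 0 2 p y g
  | El.cap => MPab0b07.gap 2 0 p y g
  | El.x _ => MPab0b07.gap 2 2 p y g

theorem El.stp_apply (p : ℕ) (e : El R) (g ys : ℕ → R) :
    e.stp p (g, ys) = (e.gp p (ys 0) g, fun n => ys (n + 1)) := by
  cases e <;> rfl

theorem mem_adm_cons {p : ℕ} {e : El R} {w : List (ℕ × El R)} {g ys : ℕ → R} :
    (g, ys) ∈ adm ((p, e) :: w) ↔
      (g, ys) ∈ e.cond p ∧ (e.gp p (ys 0) g, fun n => ys (n + 1)) ∈ adm w := by
  rw [adm, Submodule.mem_inf, Submodule.mem_comap, El.stp_apply]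

theorem mem_adm_nil {g ys : ℕ → R} : (g, ys) ∈ adm ([] : List (ℕ × El R)) ↔ ys = 0 := by
  simp [adm]

theorem frm_cons (p : ℕ) (e : El R) (w : List (ℕ × El R)) (g ys h zs : ℕ → R) :
    frm ((p, e) :: w) (g, ys) (h, zs) = e.loc p (g, ys) (h, zs) +
      frm w (e.gp p (ys 0) g, fun n => ys (n + 1)) (e.gp p (zs 0) h, fun n => zs (n + 1)) := by
  rw [frm, LinearMap.add_apply, LinearMap.add_apply, LinearMap.compl₁₂_apply, El.stp_apply,
    El.stp_apply]

theorem frm_nil (x y : P R) : frm ([] : List (ℕ × El R)) x y = 0 := rfl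

theorem El.cond_congr {p : ℕ} {e : El R} {g ys zs : ℕ → R} (h : ys 0 = zs 0) :
    (g, ys) ∈ e.cond p ↔ (g, zs) ∈ e.cond p := by
  cases e <;> simp only [El.cond] <;> (try split_ifs) <;> simp [nw, gl, h]

theorem El.cond_cns {p : ℕ} {e : El R} {g ys : ℕ → R} (h : (g, ys) ∈ e.cond p) (Z : ℕ → R) :
    (g, cns (ys 0) Z) ∈ e.cond p := (El.cond_congr (ys := ys) (zs := cns (ys 0) Z) rfl).1 h

theorem El.loc_congr {p : ℕ} {e : El R} {g ys zs g' ys' zs' : ℕ → R} (h : ys 0 = zs 0)
    (h' : ys' 0 = zs' 0) : e.loc p (g, ys) (g', ys') = e.loc p (g, zs) (g', zs') := by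
  cases e <;> simp only [El.loc] <;> (try split_ifs) <;> simp [sqf, nw, gl, h, h']

theorem adm_zero {w : List (ℕ × El R)} : ∀ {g ys : ℕ → R}, (g, ys) ∈ adm w →
    ∀ n, w.length ≤ n → ys n = 0 := by
  induction w with
  | nil =>
    intro g ys h n _
    rw [mem_adm_nil] at h
    rw [h]; rfl
  | cons x w ih =>
    obtain ⟨p, e⟩ := x
    intro g ys h n hn
    rw [mem_adm_cons] at h
    cases n with
    | zero => simp at hn
    | succ n => exact ih h.2 n (by simpa using hn)

theorem mem_lab {w : List (ℕ × El R)} {ys : ℕ → R} :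
    ys ∈ lab w ↔ ((0 : ℕ → R), ys) ∈ adm w := Iff.rfl

instance (w : List (ℕ × El ℚ)) : FiniteDimensional ℚ (lab w) := by
  have hinj : Function.Injective ((LinearMap.funLeft ℚ ℚ (fun i : Fin w.length => (i : ℕ))).comp
      (lab w).subtype) := by
    intro x y h
    ext n
    by_cases hn : n < w.length
    · exact congrFun h ⟨n, hn⟩
    · rw [adm_zero (mem_lab.1 x.2) n (by omega), adm_zero (mem_lab.1 y.2) n (by omega)]
  exact FiniteDimensional.of_injective _ hinj

theorem El.wh {p : ℕ} {e : El ℚ} {g ys : ℕ → ℚ} (hg : Wh g) (h : (g, ys) ∈ e.cond p) :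
    Wh (e.gp p (ys 0) g) := by
  cases e with
  | cup =>
    refine hg.gap (by decide) (by decide) ?_ le_rfl
    intro hp
    simpa [El.cond, hp, nw] using h
  | cap =>
    refine hg.gap (by decide) (by decide) ?_ (by norm_num)
    intro hp
    simp only [El.cond, Submodule.mem_inf] at h
    simpa [nw] using h.1
  | x κ =>
    refine hg.gap (by decide) (by decide) ?_ le_rfl
    intro hp
    simpa [El.cond, hp, nw] using h

/-! ### The conditions and the form at the single pieces -/

theorem mem_cup {p : ℕ} {w : List (ℕ × El R)} {g ys : ℕ → R} :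
    (g, ys) ∈ adm ((p, El.cup) :: w) ↔ (Even p → ys 0 = 0) ∧
      (gap 0 2 p (ys 0) g, fun n => ys (n + 1)) ∈ adm w := by
  rw [mem_adm_cons]
  refine and_congr ?_ Iff.rfl
  by_cases h : Even p <;> simp [El.cond, h, nw]

theorem mem_cap {p : ℕ} {w : List (ℕ × El R)} {g ys : ℕ → R} :
    (g, ys) ∈ adm ((p, El.cap) :: w) ↔ ys 0 = 0 ∧ g p = g (p + 2) ∧
      (gap 2 0 p (ys 0) g, fun n => ys (n + 1)) ∈ adm w := by
  rw [mem_adm_cons, ← and_assoc]
  refine and_congr ?_ Iff.rfl
  simp [El.cond, nw, gl, sub_eq_zero]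

theorem mem_x {p : ℕ} {κ : R} {w : List (ℕ × El R)} {g ys : ℕ → R} :
    (g, ys) ∈ adm ((p, El.x κ) :: w) ↔ (Even p → ys 0 = 0) ∧
      (gap 2 2 p (ys 0) g, fun n => ys (n + 1)) ∈ adm w := by
  rw [mem_adm_cons]
  refine and_congr ?_ Iff.rfl
  by_cases h : Even p <;> simp [El.cond, h, nw]

theorem frm_cup (p : ℕ) (w : List (ℕ × El R)) (g ys h zs : ℕ → R) :
    frm ((p, El.cup) :: w) (g, ys) (h, zs) =
      frm w (gap 0 2 p (ys 0) g, fun n => ys (n + 1)) (gap 0 2 p (zs 0) h, fun n => zs (n + 1)) := by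
  rw [frm_cons]
  simp [El.loc, El.gp]

theorem frm_cap (p : ℕ) (w : List (ℕ × El R)) (g ys h zs : ℕ → R) :
    frm ((p, El.cap) :: w) (g, ys) (h, zs) =
      frm w (gap 2 0 p (ys 0) g, fun n => ys (n + 1)) (gap 2 0 p (zs 0) h, fun n => zs (n + 1)) := by
  rw [frm_cons]
  simp [El.loc, El.gp]

theorem frm_x_even {p : ℕ} (hp : Even p) (κ : R) (w : List (ℕ × El R)) (g ys h zs : ℕ → R) :
    frm ((p, El.x κ) :: w) (g, ys) (h, zs) = κ * ((g p - g (p + 2)) * (h p - h (p + 2))) +
      frm w (gap 2 2 p (ys 0) g, fun n => ys (n + 1)) (gap 2 2 p (zs 0) h, fun n => zs (n + 1)) := by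
  rw [frm_cons]
  simp [El.loc, El.gp, hp, sqf, gl]
  ring

theorem frm_x_odd {p : ℕ} (hp : ¬ Even p) (κ : R) (w : List (ℕ × El R)) (g ys h zs : ℕ → R) :
    frm ((p, El.x κ) :: w) (g, ys) (h, zs) =
      κ * ((g (p + 1) - ys 0) * (h (p + 1) - zs 0)) +
      frm w (gap 2 2 p (ys 0) g, fun n => ys (n + 1)) (gap 2 2 p (zs 0) h, fun n => zs (n + 1)) := by
  rw [frm_cons]
  simp [El.loc, El.gp, hp, sqf, gl, nw]
  ring

/-- `RD w w' c T S`: the form of `w'` (with suffixes included, for all labels at the bottom level) is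
the orthogonal sum of the form of `w` and of the diagonal form with coefficients `c`; `T` and `S`
are mutually inverse isomorphisms between the labellings of `w` together with the new variables
and the labellings of `w'`. -/
structure RD (w w' : List (ℕ × El ℚ)) {k : ℕ} (c : Fin k → ℚ)
    (T : P ℚ × (Fin k → ℚ) → ℕ → ℚ) (S : P ℚ → (ℕ → ℚ) × (Fin k → ℚ)) : Prop where
  linT : IsLinearMap ℚ T
  linS : IsLinearMap ℚ S
  mem : ∀ g ys t, Wh g → (g, ys) ∈ adm w → (g, T ((g, ys), t)) ∈ adm w'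
  val : ∀ g ys t, Wh g → (g, ys) ∈ adm w →
    frm w' (g, T ((g, ys), t)) (g, T ((g, ys), t)) = frm w (g, ys) (g, ys) + ∑ i, c i * t i ^ 2
  ST : ∀ g ys t, Wh g → (g, ys) ∈ adm w → S (g, T ((g, ys), t)) = (ys, t)
  memS : ∀ g ys, Wh g → (g, ys) ∈ adm w' → (g, (S (g, ys)).1) ∈ adm w
  TS : ∀ g ys, Wh g → (g, ys) ∈ adm w' → T ((g, (S (g, ys)).1), (S (g, ys)).2) = ys

/-- The signatures of the forms of `w` and `w'` differ by `d`, also after adding pieces below. -/
def SGeq (w w' : List (ℕ × El ℚ)) (d : ℤ) : Prop := ∀ u, SG (u ++ w) = SG (u ++ w') + d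

theorem SGeq.refl (w : List (ℕ × El ℚ)) : SGeq w w 0 := fun _ => by simp

theorem SGeq.trans {w w' w'' : List (ℕ × El ℚ)} {d e : ℤ} (h : SGeq w w' d)
    (h' : SGeq w' w'' e) : SGeq w w'' (d + e) := fun u => by rw [h u, h' u]; ring

theorem SGeq.symm {w w' : List (ℕ × El ℚ)} {d : ℤ} (h : SGeq w w' d) : SGeq w' w (-d) :=
  fun u => by rw [h u]; ring

theorem SGeq.pre {w w' : List (ℕ × El ℚ)} {d : ℤ} (h : SGeq w w' d) (u : List (ℕ × El ℚ)) :
    SGeq (u ++ w) (u ++ w') d := fun u' => by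
  have := h (u' ++ u)
  simpa using this

/-! ### Adding a piece below -/

theorem RD.cons {w w' : List (ℕ × El ℚ)} {k : ℕ} {c : Fin k → ℚ}
    {T : P ℚ × (Fin k → ℚ) → ℕ → ℚ} {S : P ℚ → (ℕ → ℚ) × (Fin k → ℚ)} (h : RD w w' c T S)
    (p : ℕ) (e : El ℚ) : RD ((p, e) :: w) ((p, e) :: w') c
      (fun x => cns (x.1.2 0) (T (e.stp p x.1, x.2)))
      (fun x => (cns (x.2 0) (S (e.stp p x)).1, (S (e.stp p x)).2)) where
  linT := by
    constructor
    · intro x y
      funext n
      cases n with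
      | zero => rfl
      | succ n =>
        have := h.linT.map_add (e.stp p x.1, x.2) (e.stp p y.1, y.2)
        simp only [Prod.fst_add, Prod.snd_add, map_add, cns_succ, Pi.add_apply]
        rw [← Prod.mk_add_mk, this]
        rfl
    · intro a x
      funext n
      cases n with
      | zero => rfl
      | succ n =>
        have := h.linT.map_smul a (e.stp p x.1, x.2)
        simp only [Prod.smul_fst, Prod.smul_snd, map_smul, cns_succ, Pi.smul_apply]
        rw [← Prod.smul_mk, this]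
        rfl
  linS := by
    constructor
    · intro x y
      have := h.linS.map_add (e.stp p x) (e.stp p y)
      simp only [map_add, this]
      ext n
      · cases n <;> rfl
      · rfl
    · intro a x
      have := h.linS.map_smul a (e.stp p x)
      simp only [map_smul, this]
      ext n
      · cases n <;> rfl
      · rfl
  mem := by
    intro g ys t hg hm
    rw [mem_adm_cons] at hm
    rw [mem_adm_cons]
    refine ⟨El.cond_cns hm.1 _, ?_⟩
    simp only [El.stp_apply, cns_zero, cns_succ]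
    exact h.mem _ _ _ (El.wh hg hm.1) hm.2
  val := by
    intro g ys t hg hm
    rw [mem_adm_cons] at hm
    rw [frm_cons, frm_cons]
    simp only [El.stp_apply, cns_zero, cns_succ]
    have key : ∀ Z, e.loc p (g, cns (ys 0) Z) (g, cns (ys 0) Z) = e.loc p (g, ys) (g, ys) :=
      fun Z => El.loc_congr rfl rfl
    rw [h.val _ _ _ (El.wh hg hm.1) hm.2, key]
    ring
  ST := by
    intro g ys t hg hm
    rw [mem_adm_cons] at hm
    simp only [El.stp_apply, cns_zero, cns_succ]
    rw [h.ST _ _ _ (El.wh hg hm.1) hm.2]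
    simp
  memS := by
    intro g ys hg hm
    rw [mem_adm_cons] at hm
    rw [mem_adm_cons]
    refine ⟨El.cond_cns hm.1 _, ?_⟩
    simp only [El.stp_apply, cns_zero, cns_succ]
    exact h.memS _ _ (El.wh hg hm.1) hm.2
  TS := by
    intro g ys hg hm
    rw [mem_adm_cons] at hm
    simp only [El.stp_apply, cns_zero, cns_succ]
    rw [h.TS _ _ (El.wh hg hm.1) hm.2]
    simp

theorem form_apply (w : List (ℕ × El R)) (x y : lab w) :
    form w x y = frm w (0, x.1) (0, y.1) := rfl

theorem RD.sg {w w' : List (ℕ × El ℚ)} {k : ℕ} {c : Fin k → ℚ}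
    {T : P ℚ × (Fin k → ℚ) → ℕ → ℚ} {S : P ℚ → (ℕ → ℚ) × (Fin k → ℚ)} (h : RD w w' c T S) :
    SG w' = SG w + ∑ i, (SignType.sign (c i) : ℤ) := by
  have h0 : Wh (0 : ℕ → ℚ) := fun _ _ => rfl
  let e : (lab w × (Fin k → ℚ)) ≃ₗ[ℚ] lab w' :=
    { toFun := fun x => ⟨T ((0, x.1.1), x.2), h.mem 0 _ _ h0 x.1.2⟩
      invFun := fun y => (⟨(S (0, y.1)).1, h.memS 0 _ h0 y.2⟩, (S (0, y.1)).2)
      map_add' := by
        intro x y
        apply Subtype.ext
        have := h.linT.map_add (((0 : ℕ → ℚ), x.1.1), x.2) ((0, y.1.1), y.2)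
        simp only [Prod.mk_add_mk, add_zero] at this
        exact this
      map_smul' := by
        intro a x
        apply Subtype.ext
        have := h.linT.map_smul a (((0 : ℕ → ℚ), x.1.1), x.2)
        simp only [Prod.smul_mk, smul_zero] at this
        exact this
      left_inv := by
        intro x
        have := h.ST 0 x.1.1 x.2 h0 x.1.2
        ext n
        · exact congrFun (congrArg Prod.fst this) n
        · exact congrFun (congrArg Prod.snd this) n
      right_inv := by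
        intro y
        apply Subtype.ext
        exact h.TS 0 y.1 h0 y.2 }
  exact sg_dec (form w).toQuadraticMap (form w').toQuadraticMap c e
    (fun v t => h.val 0 v.1 t h0 v.2)

theorem RD.sgeq {w w' : List (ℕ × El ℚ)} {k : ℕ} {c : Fin k → ℚ}
    {T : P ℚ × (Fin k → ℚ) → ℕ → ℚ} {S : P ℚ → (ℕ → ℚ) × (Fin k → ℚ)} (h : RD w w' c T S) :
    SGeq w' w (∑ i, (SignType.sign (c i) : ℤ)) := by
  have key : ∀ u : List (ℕ × El ℚ), ∃ (T' : P ℚ × (Fin k → ℚ) → ℕ → ℚ)
      (S' : P ℚ → (ℕ → ℚ) × (Fin k → ℚ)), RD (u ++ w) (u ++ w') c T' S' := by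
    intro u
    induction u with
    | nil => exact ⟨T, S, h⟩
    | cons x u ih =>
      obtain ⟨T', S', h'⟩ := ih
      exact ⟨_, _, h'.cons x.1 x.2⟩
  intro u
  obtain ⟨T', S', h'⟩ := key u
  exact h'.sg

/-- `RH w w' T e τ`: the form of `w'` is obtained from the form of `w` by adding a hyperbolic plane
(or a null vector): `e` is a vector with `Q (v + t e) = Q v + t τ v`, and the kernel of `τ` is
the sum of the labellings of `w` and of the line of `e`. -/
structure RH (w w' : List (ℕ × El ℚ)) (T : P ℚ → ℕ → ℚ) (e : ℕ → ℚ) (τ : P ℚ → ℚ) : Prop where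
  linT : IsLinearMap ℚ T
  linτ : IsLinearMap ℚ τ
  ne : e ≠ 0
  meme : ((0 : ℕ → ℚ), e) ∈ adm w'
  vale : ∀ (g ys : ℕ → ℚ) (t : ℚ), Wh g → (g, ys) ∈ adm w' →
    frm w' (g, ys + t • e) (g, ys + t • e) = frm w' (g, ys) (g, ys) + t * τ (g, ys)
  mem : ∀ g ys, Wh g → (g, ys) ∈ adm w → (g, T (g, ys)) ∈ adm w'
  tau : ∀ g ys, Wh g → (g, ys) ∈ adm w → τ (g, T (g, ys)) = 0
  val : ∀ g ys, Wh g → (g, ys) ∈ adm w →
    frm w' (g, T (g, ys)) (g, T (g, ys)) = frm w (g, ys) (g, ys)
  inj : ∀ ys (t : ℚ), ((0 : ℕ → ℚ), ys) ∈ adm w → T (0, ys) + t • e = 0 → ys = 0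
  surj : ∀ g ys, Wh g → (g, ys) ∈ adm w' → τ (g, ys) = 0 →
    ∃ (zs : ℕ → ℚ) (t : ℚ), (g, zs) ∈ adm w ∧ ys = T (g, zs) + t • e

theorem RH.cons {w w' : List (ℕ × El ℚ)} {T : P ℚ → ℕ → ℚ} {e : ℕ → ℚ} {τ : P ℚ → ℚ}
    (h : RH w w' T e τ) (p : ℕ) (f : El ℚ) : RH ((p, f) :: w) ((p, f) :: w')
      (fun x => cns (x.2 0) (T (f.stp p x))) (cns 0 e) (fun x => τ (f.stp p x)) where
  linT := by
    constructor
    · intro x y
      funext n
      cases n with
      | zero => rfl
      | succ n =>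
        have := h.linT.map_add (f.stp p x) (f.stp p y)
        simp only [map_add, cns_succ, Pi.add_apply, this]
    · intro a x
      funext n
      cases n with
      | zero => rfl
      | succ n =>
        have := h.linT.map_smul a (f.stp p x)
        simp only [map_smul, cns_succ, Pi.smul_apply, this]
  linτ := by
    constructor
    · intro x y
      simp only [map_add, h.linτ.map_add]
    · intro a x
      simp only [map_smul, h.linτ.map_smul]
  ne := by
    intro h0
    apply h.ne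
    funext n
    exact congrFun h0 (n + 1)
  meme := by
    rw [mem_adm_cons]
    have hz : f.gp p (0 : ℚ) (0 : ℕ → ℚ) = 0 := by
      funext j
      cases f <;> simp [El.gp, gap]
    refine ⟨(El.cond_congr (ys := 0) (zs := cns 0 e) rfl).1 ?_, ?_⟩
    · exact (f.cond p).zero_mem
    · simp only [cns_zero, cns_succ, hz]
      exact h.meme
  vale := by
    intro g ys t hg hm
    rw [mem_adm_cons] at hm
    have e1 : ys + t • cns 0 e = cns (ys 0) ((fun n => ys (n + 1)) + t • e) := by
      funext n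
      cases n with
      | zero => simp
      | succ n => simp
    have key : ∀ Z, f.loc p (g, cns (ys 0) Z) (g, cns (ys 0) Z) = f.loc p (g, ys) (g, ys) :=
      fun Z => El.loc_congr rfl rfl
    rw [e1, frm_cons, frm_cons, key]
    simp only [El.stp_apply, cns_zero, cns_succ]
    rw [h.vale _ _ _ (El.wh hg hm.1) hm.2]
    ring
  mem := by
    intro g ys hg hm
    rw [mem_adm_cons] at hm
    rw [mem_adm_cons]
    refine ⟨El.cond_cns hm.1 _, ?_⟩
    simp only [El.stp_apply, cns_zero, cns_succ]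
    exact h.mem _ _ (El.wh hg hm.1) hm.2
  tau := by
    intro g ys hg hm
    rw [mem_adm_cons] at hm
    simp only [El.stp_apply, cns_zero, cns_succ]
    exact h.tau _ _ (El.wh hg hm.1) hm.2
  val := by
    intro g ys hg hm
    rw [mem_adm_cons] at hm
    have key : ∀ Z, f.loc p (g, cns (ys 0) Z) (g, cns (ys 0) Z) = f.loc p (g, ys) (g, ys) :=
      fun Z => El.loc_congr rfl rfl
    rw [frm_cons, frm_cons, key]
    simp only [El.stp_apply, cns_zero, cns_succ]
    rw [h.val _ _ (El.wh hg hm.1) hm.2]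
  inj := by
    intro ys t hm h0
    rw [mem_adm_cons] at hm
    have hz : f.gp p (0 : ℚ) (0 : ℕ → ℚ) = 0 := by
      funext j
      cases f <;> simp [El.gp, gap]
    have y0 : ys 0 = 0 := by
      have := congrFun h0 0
      simpa using this
    rw [y0, hz] at hm
    have h1 : T (0, fun n => ys (n + 1)) + t • e = 0 := by
      funext n
      have := congrFun h0 (n + 1)
      simpa [El.stp_apply, y0, hz] using this
    have h2 := h.inj _ t hm.2 h1
    funext n
    cases n with
    | zero => exact y0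
    | succ n => exact congrFun h2 n
  surj := by
    intro g ys hg hm h0
    rw [mem_adm_cons] at hm
    simp only [El.stp_apply] at h0
    obtain ⟨zs, t, h1, h2⟩ := h.surj _ _ (El.wh hg hm.1) hm.2 h0
    refine ⟨cns (ys 0) zs, t, ?_, ?_⟩
    · rw [mem_adm_cons]
      exact ⟨El.cond_cns hm.1 _, h1⟩
    · funext n
      cases n with
      | zero => simp
      | succ n =>
        have := congrFun h2 n
        simpa [El.stp_apply] using this

theorem RH.sg {w w' : List (ℕ × El ℚ)} {T : P ℚ → ℕ → ℚ} {e : ℕ → ℚ} {τ : P ℚ → ℚ}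
    (h : RH w w' T e τ) : SG w' = SG w := by
  have h0 : Wh (0 : ℕ → ℚ) := fun _ _ => rfl
  let ι : lab w →ₗ[ℚ] lab w' :=
    { toFun := fun x => ⟨T (0, x.1), h.mem 0 _ h0 x.2⟩
      map_add' := by
        intro x y
        apply Subtype.ext
        have := h.linT.map_add ((0 : ℕ → ℚ), x.1) (0, y.1)
        simp only [Prod.mk_add_mk, add_zero] at this
        exact this
      map_smul' := by
        intro a x
        apply Subtype.ext
        have := h.linT.map_smul a ((0 : ℕ → ℚ), x.1)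
        simp only [Prod.smul_mk, smul_zero] at this
        exact this }
  let τ' : lab w' →ₗ[ℚ] ℚ :=
    { toFun := fun x => τ (0, x.1)
      map_add' := by
        intro x y
        have := h.linτ.map_add ((0 : ℕ → ℚ), x.1) (0, y.1)
        simp only [Prod.mk_add_mk, add_zero] at this
        exact this
      map_smul' := by
        intro a x
        have := h.linτ.map_smul a ((0 : ℕ → ℚ), x.1)
        simp only [Prod.smul_mk, smul_zero] at this
        exact this }
  refine sg_hyp (form w).toQuadraticMap (form w').toQuadraticMap ι ⟨e, h.meme⟩ τ' ?_ ?_ ?_ ?_ ?_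
  · intro v t
    exact h.vale 0 v.1 t h0 v.2
  · intro v
    exact h.val 0 v.1 h0 v.2
  · intro v
    exact h.tau 0 v.1 h0 v.2
  · intro v hv
    obtain ⟨zs, t, h1, h2⟩ := h.surj 0 v.1 h0 v.2 hv
    exact ⟨⟨zs, h1⟩, t, Subtype.ext h2⟩
  · intro v t hv
    have h1 : T (0, v.1) + t • e = 0 := congrArg Subtype.val hv
    have h2 : v.1 = 0 := h.inj _ t v.2 h1
    have h3 : v = 0 := Subtype.ext h2
    refine ⟨h3, ?_⟩
    rw [h2] at h1
    have h4 : T ((0 : ℕ → ℚ), (0 : ℕ → ℚ)) = 0 := by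
      have := h.linT.map_smul 0 ((0 : ℕ → ℚ), (0 : ℕ → ℚ))
      rw [zero_smul, zero_smul] at this
      exact this
    rw [h4, zero_add] at h1
    exact (smul_eq_zero.1 h1).resolve_right h.ne

theorem RH.sgeq {w w' : List (ℕ × El ℚ)} {T : P ℚ → ℕ → ℚ} {e : ℕ → ℚ} {τ : P ℚ → ℚ}
    (h : RH w w' T e τ) : SGeq w' w 0 := by
  have key : ∀ u : List (ℕ × El ℚ), ∃ (T' : P ℚ → ℕ → ℚ) (e' : ℕ → ℚ) (τ' : P ℚ → ℚ),
      RH (u ++ w) (u ++ w') T' e' τ' := by
    intro u
    induction u with
    | nil => exact ⟨T, e, τ, h⟩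
    | cons x u ih =>
      obtain ⟨T', e', τ', h'⟩ := ih
      exact ⟨_, _, _, h'.cons x.1 x.2⟩
  intro u
  obtain ⟨T', e', τ', h'⟩ := key u
  rw [h'.sg, add_zero]

end MPab0b07
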