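import Pool.Agent.Lib.MP_5b16f0_gt.HL
import Pool.Agent.Lib.MP_5b16f0_gt.LinkInv

/-!
# Local isotopies
-/

namespace MPab0b07

open MP5b16f0

universe u

variable {α : Type u}

/-- a local trefoil on the strand `a` -/
def tr (a : Pt α) (s : Bool) : Word α :=
  [(1, Gen.cup a), (0, Gen.crs s), (0, Gen.crs s), (0, Gen.crs s), (1, Gen.cap a)]

theorem run_tr (a : Pt α) (s : Bool) : Run (tr a s) [a] [a] := by
  have h1 : Run [(1, Gen.cup a)] [a] [a, a, op a] := run1 (Gen.Acts.cup a) [a] [] rfl rfl rfl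
  have h2 : Run [(0, Gen.crs s)] [a, a, op a] [a, a, op a] :=
    run1 (Gen.Acts.crs s a a) [] [op a] rfl rfl rfl
  have h3 : Run [(1, Gen.cap a)] [a, a, op a] [a] := run1 (Gen.Acts.cap a) [a] [] rfl rfl rfl
  exact h1.append (h2.append (h2.append (h2.append h3)))

/-- a kink -/
theorem kink (a : Pt α) (s : Bool) :
    Iso [a] [a] [(1, Gen.cup a), (0, Gen.crs s), (1, Gen.cap a)] [] := by
  have e1 : Iso [a] [a, a, op a] [(1, Gen.cup a), (0, Gen.crs s)]
      [(0, Gen.cup a), (1, Gen.crs !s)] := by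
    have := (mv_slideCup (rfl : op a = op a) a (!s)).symm
    rwa [Bool.not_not] at this
  have r1 : Run [(1, Gen.cap a)] [a, a, op a] [a] := run1 (Gen.Acts.cap a) [a] [] rfl rfl rfl
  have e2 := e1.appR r1
  have r2 : Run [(0, Gen.cup a)] [a] [a, op a, a] := run1 (Gen.Acts.cup a) [] [a] rfl rfl rfl
  have ho : a = op (op a) := by simp [op]
  have e3 := (mv_r1cap ho (!s)).ctx [a] [] r2 (Run.nil [a])
  exact e2.trans (e3.trans (mv_zag rfl))

/-- unknotting a local trefoil by one crossing change -/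
theorem tr_change (a : Pt α) (s : Bool) :
    Iso [a] [a] [(1, Gen.cup a), (0, Gen.crs !s), (0, Gen.crs s), (0, Gen.crs s),
      (1, Gen.cap a)] [] := by
  have h1 : Run [(1, Gen.cup a)] [a] [a, a, op a] := run1 (Gen.Acts.cup a) [a] [] rfl rfl rfl
  have h2 : Run [(0, Gen.crs s)] [a, a, op a] [a, a, op a] :=
    run1 (Gen.Acts.crs s a a) [] [op a] rfl rfl rfl
  have h3 : Run [(1, Gen.cap a)] [a, a, op a] [a] := run1 (Gen.Acts.cap a) [a] [] rfl rfl rfl
  have e1 := (r2_iso' a a s).ctx [] [op a] h1 (h2.append h3)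
  exact e1.trans (kink a s)

theorem tr_e1 (a : Pt α) (s : Bool) : E1 [a] [a] (tr a s) [] := by
  have h1 : Run ([(1, Gen.cup a)] ++ (0, Gen.crs s) ::
      [(0, Gen.crs s), (0, Gen.crs s), (1, Gen.cap a)]) [a] [a] := run_tr a s
  exact (E1.cc (!s) h1).trans (tr_change a s).e1

/-- an antiparallel crossing is turned into a parallel one -/
theorem rot (a b : Pt α) (s : Bool) :
    Iso [a, b] [b, a] [(0, Gen.crs s)] [(0, Gen.cup b), (1, Gen.crs !s), (2, Gen.cap (op b))] := by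
  have ho : b = op (op b) := by simp [op]
  have hcap : (Gen.cap (op b)).Acts [op b, b] [] := acts_cap ho
  have e1 : Iso [a] [b, a, op b] [(0, Gen.cup b), (1, Gen.crs !s)]
      [(1, Gen.cup b), (0, Gen.crs s)] := by
    have := mv_slideCup (rfl : op b = op b) a (!s)
    rwa [Bool.not_not] at this
  have r1 : Run [(2, Gen.cap (op b))] [b, a, op b, b] [b, a] := run1 hcap [b, a] [] rfl rfl rfl
  have e2 : Iso [a, b] [b, a] [(0, Gen.cup b), (1, Gen.crs !s), (2, Gen.cap (op b))]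
      [(1, Gen.cup b), (0, Gen.crs s), (2, Gen.cap (op b))] := (e1.right [b]).appR r1
  have e3 : Iso [a, b, op b, b] [b, a] [(0, Gen.crs s), (2, Gen.cap (op b))]
      [(2, Gen.cap (op b)), (0, Gen.crs s)] := by
    have h := ((Move.comm (Gen.Acts.crs s a b) hcap []).iso)
    exact h
  have r2 : Run [(1, Gen.cup b)] [a, b] [a, b, op b, b] :=
    run1 (Gen.Acts.cup b) [a] [b] rfl rfl rfl
  have e4 := e3.appL r2
  have r3 : Run [(0, Gen.crs s)] [a, b] [b, a] := run1 (Gen.Acts.crs s a b) [] [] rfl rfl rfl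
  have e5 := (mv_zag (rfl : op b = op b)).ctx [a] [] (Run.nil [a, b]) r3
  exact (e2.trans (e4.trans e5)).symm

/-- the tangle `M` -/
def tM (a : Pt α) (s : Bool) : Word α :=
  [(0, Gen.crs s), (2, Gen.cup a), (1, Gen.crs !s), (1, Gen.crs !s), (0, Gen.crs !s),
    (0, Gen.crs !s), (1, Gen.crs !s), (2, Gen.cap a)]

end MPab0b07
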