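import Pool.Agent.Lib.MP_ab0b07_gt.KN2

/-!
# The signature and the mirror image of a knot

`sgn_iso` and `sgn_rev` say that the signature of a diagram does not change under the moves and
under reversal, `iso_mir` and `mir_rev` say the same for the mirror image.
-/

namespace MPab0b07

open MP5b16f0

/-- The signature of a knot: the signature of any diagram of it. -/
noncomputable def sigma : Knot → ℤ := Quot.lift (fun w => sgn w.1) (by
  rintro ⟨w, hw⟩ ⟨w', hw'⟩ (h | h)
  · exact sgn_iso h
  · exact (sgn_rev hw.1).symm.trans (sgn_iso h))

/-- The mirror image of a knot: all crossings of a diagram are switched. -/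
def mirror : Knot → Knot := Quot.map (fun w => ⟨mir w.1, link_mir w.2⟩) (by
  rintro ⟨w, hw⟩ ⟨w', hw'⟩ (h | h)
  · exact Or.inl (iso_mir h)
  · refine Or.inr ?_
    have := iso_mir h
    rwa [mir_rev] at this)

end MPab0b07
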